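import Pool.Agent.MP_2a1f0e_nt.RF.Basic

set_option autoImplicit false

open Finset
open scoped ComplexConjugate

namespace Pool.Agent.MP_2a1f0e_nt.RF

open GM

theorem abs_stmt (hH : HpStmt) (hI : IterStmt) (hS : StartStmt) (hE : EndStmt) : AbsStmt := by
  intro η hη
  obtain ⟨n, A0, A01, hH⟩ := hH η hη
  obtain ⟨A1, A10, hI⟩ := hI n
  obtain ⟨c, c0, hE⟩ := hE
  set K : ℕ := 2 * 200 ^ n with hK
  have K1 : 1 ≤ K := by rw [hK]; exact Nat.succ_le_of_lt (by positivity)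
  have hp : 0 ≤ 2 * A1 * (c * (K : ℝ) ^ 2 + 1) := by positivity
  refine ⟨A0 + 2 * A1 * (c * (K : ℝ) ^ 2 + 1), by linarith, ?_⟩
  intro N T E Y U g b hN hNT hT hY hYT hA hb hg hB
  have N1 : 1 ≤ N := by omega
  have n1 : (1 : ℝ) ≤ N := by exact_mod_cast N1
  have e1 : 1 ≤ (N : ℝ) ^ η := Real.one_le_rpow n1 hη.le
  have Y1 : 1 ≤ Y := e1.trans hY
  have Y0 : 0 < Y := by linarith
  have hA' : A0 * (N : ℝ) ^ η ≤ E := le_trans (by gcongr; linarith) hA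
  have E1 : 1 ≤ E := (one_le_mul_of_one_le_of_one_le A01 e1).trans hA'
  have E17 : 1 ≤ E ^ 17 := one_le_pow₀ E1
  have U0 : 0 ≤ U := by
    have := hg 0 (mem_IT.2 (by omega))
    exact this.1.trans this.2.1
  set F : (ℕ → ℂ) → ℝ := fun b' => ∑ t ∈ IT T, g t * ‖DP N b' t‖ ^ 2 with hF
  set S : Set ℝ := F '' {b' | ∀ n, ‖b' n‖ ≤ 1} with hSd
  have bdd : BddAbove S := by
    refine ⟨∑ t ∈ IT T, g t * ((N : ℝ) + 1) ^ 2, ?_⟩
    rintro _ ⟨b', hb', rfl⟩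
    exact sum_le_sum fun t ht => mul_le_mul_of_nonneg_left
      (pow_le_pow_left₀ (norm_nonneg _) (norm_DP_le N b' hb' t) 2) (hg t ht).1
  have hM : ∀ b' : ℕ → ℂ, (∀ n, ‖b' n‖ ≤ 1) → F b' ≤ sSup S := fun b' hb' =>
    le_csSup bdd ⟨b', hb', rfl⟩
  have hM' : ∀ x, (∀ b' : ℕ → ℂ, (∀ n, ‖b' n‖ ≤ 1) → F b' ≤ x) → sSup S ≤ x := fun x hx =>
    csSup_le ⟨_, b, hb, rfl⟩ (by rintro _ ⟨b', hb', rfl⟩; exact hx b' hb')
  generalize sSup S = MM at hM hM'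
  have hsq : ∑ t ∈ IT T, g t ^ 2 ≤ MM := le_trans (sum_le_sum fun t ht => by
    rw [sq]
    exact mul_le_mul_of_nonneg_left (hg t ht).2.2 (hg t ht).1) (hM b hb)
  have M0 : 0 ≤ MM := (sum_nonneg fun _ _ => sq_nonneg _).trans hsq
  have q1 : 0 ≤ (N : ℝ) ^ 2 * U := by positivity
  have q2 : 0 ≤ (N : ℝ) ^ 4 / Y := by positivity
  have q3 : (N : ℝ) ^ 4 / Y ≤ E ^ 17 * ((N : ℝ) ^ 4 / Y) := le_mul_of_one_le_left q2 E17
  refine (hM b hb).trans ?_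
  by_cases hl : (N : ℝ) ^ 4 ≤ Y * MM
  · obtain ⟨ρ, J, ρ1, hρ, hJ⟩ := hH N T E Y hN hNT hT hY hYT hA'
    have h1 := hE N T (ρ ^ n) K g U MM N1 (by omega) (Nat.one_le_pow _ _ ρ1) K1 hρ
      (fun t ht => ⟨(hg t ht).1, (hg t ht).2.1⟩) hM
    have h2 := hI N T ρ J E Y MM _ g (by positivity) E1 Y1 M0 hJ ⟨hsq, hB, hl⟩ h1
    set D : ℝ := 2 * A1 * (c * (K : ℝ) ^ 2 * ((N : ℝ) ^ 2 * U) + E ^ 17 * ((N : ℝ) ^ 4 / Y))
      with hD
    have D0 : 0 ≤ D := by positivity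
    have h3 : MM ≤ √(MM * D) := hM' _ fun b' hb' => Real.le_sqrt_of_sq_le <| by
      refine (hS N T g b' N1 hb').trans ((mul_le_mul_of_nonneg_left (h2 b' hb')
        (by positivity)).trans (le_of_eq ?_))
      rw [hD]
      push_cast
      ring
    have h4 : MM ^ 2 ≤ MM * D := (Real.le_sqrt M0 (by positivity)).1 h3
    have h5 : MM ≤ D := by
      rcases M0.eq_or_lt with h | h
      · rw [← h]; exact D0
      · rw [sq] at h4
        exact le_of_mul_le_mul_left h4 h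
    refine h5.trans ?_
    have q4 : 0 ≤ E ^ 17 * ((N : ℝ) ^ 4 / Y) := q2.trans q3
    have c1 : 0 ≤ c * (K : ℝ) ^ 2 := by positivity
    rw [hD]
    generalize (N : ℝ) ^ 2 * U = x at *
    generalize E ^ 17 * ((N : ℝ) ^ 4 / Y) = y at *
    generalize c * (K : ℝ) ^ 2 = k at *
    have a0 : 0 ≤ A0 := by linarith
    have r1 : 0 ≤ A0 * (x + y) := by positivity
    have r2 : 0 ≤ A1 * (x + k * y) := by positivity
    nlinarith
  · have h1 : MM ≤ (N : ℝ) ^ 4 / Y := by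
      rw [le_div_iff₀ Y0, mul_comm]
      exact (not_le.1 hl).le
    refine le_trans (by linarith) (le_mul_of_one_le_left (by linarith) (by linarith))

end Pool.Agent.MP_2a1f0e_nt.RF
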