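import Pool.Agent.MP_2a1f0e_nt.RF.Basic

set_option autoImplicit false

open Finset
open scoped ComplexConjugate

namespace Pool.Agent.MP_2a1f0e_nt.RF

open GM

/-- the triangular weight -/
noncomputable def wF_Big (T : ℕ) (t : ℤ) : ℝ := (2 * (T : ℝ) - |(t : ℝ)|) / (2 * T)

theorem wF_mem_Big {T : ℕ} (hT : 1 ≤ T) {t : ℤ} (ht : t ∈ IT T) :
    0 ≤ wF_Big T t ∧ wF_Big T t ≤ 1 := by
  have hT' : (1 : ℝ) ≤ T := by exact_mod_cast hT
  rw [mem_IT] at ht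
  have h1 : |(t : ℝ)| ≤ 2 * T := by
    have a1 : (-(2 * T : ℤ) : ℝ) < t := by exact_mod_cast ht.1
    have a2 : (t : ℝ) < (2 * T : ℤ) := by exact_mod_cast ht.2
    push_cast at a1 a2
    rw [abs_le]
    constructor <;> linarith
  have h2 : 0 ≤ |(t : ℝ)| := abs_nonneg _
  unfold wF_Big
  constructor
  · apply div_nonneg <;> linarith
  · rw [div_le_one (by linarith)]
    linarith

theorem normSq_DP_Big (N : ℕ) (b : ℕ → ℂ) (t : ℝ) :
    ((‖DP N b t‖ ^ 2 : ℝ) : ℂ) = ∑ x ∈ Icc N (2 * N), ∑ x' ∈ Icc N (2 * N),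
      b x * conj (b x') *
        Complex.exp (Complex.I * (t : ℂ) * ((Real.log x - Real.log x' : ℝ) : ℂ)) := by
  have h : ((‖DP N b t‖ ^ 2 : ℝ) : ℂ) = DP N b t * conj (DP N b t) := by
    rw [Complex.mul_conj, Complex.normSq_eq_norm_sq]
  rw [h]
  unfold DP
  rw [map_sum, sum_mul_sum]
  refine sum_congr rfl fun x _ => sum_congr rfl fun x' _ => ?_
  rw [map_mul, conj_pw]
  unfold pw
  have : Complex.exp (Complex.I * (t : ℂ) * ((Real.log x - Real.log x' : ℝ) : ℂ)) =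
      Complex.exp (Complex.I * (t : ℂ) * ((Real.log (x : ℝ) : ℝ) : ℂ)) *
        Complex.exp (Complex.I * ((-t : ℝ) : ℂ) * ((Real.log (x' : ℝ) : ℝ) : ℂ)) := by
    rw [← Complex.exp_add]
    congr 1
    push_cast
    ring
  rw [this]
  ring

theorem fu_full_Big (N T : ℕ) (b : ℕ → ℂ) (u : ℝ) :
    fu T (fun t => wF_Big T t * ‖DP N b t‖ ^ 2) u =
      ∑ x ∈ Icc N (2 * N), ∑ x' ∈ Icc N (2 * N),
        b x * conj (b x') * fu T (wF_Big T) (u + Real.log x - Real.log x') := by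
  unfold fu trig
  simp only [mul_sum]
  rw [sum_comm]
  have key : ∀ t : ℤ, (((wF_Big T t * ‖DP N b t‖ ^ 2 : ℝ) : ℂ)) *
      Complex.exp (Complex.I * (t : ℂ) * (u : ℂ)) =
      ∑ x ∈ Icc N (2 * N), ∑ x' ∈ Icc N (2 * N), b x * conj (b x') *
        (((wF_Big T t : ℝ) : ℂ) * Complex.exp (Complex.I * (t : ℂ) *
          ((u + Real.log x - Real.log x' : ℝ) : ℂ))) := by
    intro t
    rw [Complex.ofReal_mul, normSq_DP_Big, mul_sum, sum_mul]
    refine sum_congr rfl fun x _ => ?_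
    rw [mul_sum, sum_mul]
    refine sum_congr rfl fun x' _ => ?_
    have : Complex.exp (Complex.I * (t : ℂ) * ((u + Real.log x - Real.log x' : ℝ) : ℂ)) =
        Complex.exp (Complex.I * (((t : ℝ)) : ℂ) * ((Real.log x - Real.log x' : ℝ) : ℂ)) *
          Complex.exp (Complex.I * (t : ℂ) * (u : ℂ)) := by
      rw [← Complex.exp_add]
      congr 1
      push_cast
      ring
    rw [this]
    ring
  simp only [key]
  rw [sum_comm]
  conv_rhs => rw [sum_comm]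
  refine sum_congr rfl fun x _ => ?_
  rw [sum_comm]

theorem fu_diff_Big {N T : ℕ} (hT : 1 ≤ T) (b : ℕ → ℂ) (V u : ℝ) :
    ‖fu T (gw N T b V) u - fu T (fun t => wF_Big T t * ‖DP N b t‖ ^ 2) u‖ ≤
      Mass N b (IT T) V := by
  unfold fu trig Mass
  rw [← sum_sub_distrib, sum_filter]
  refine (norm_sum_le _ _).trans (sum_le_sum fun t ht => ?_)
  rw [← sub_mul, norm_mul]
  have e1 : ‖Complex.exp (Complex.I * (t : ℂ) * (u : ℂ))‖ = 1 := by
    have : Complex.I * (t : ℂ) * (u : ℂ) = (((t : ℝ) * u : ℝ) : ℂ) * Complex.I := by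
      push_cast
      ring
    rw [this, Complex.norm_exp_ofReal_mul_I]
  rw [e1, mul_one, ← Complex.ofReal_sub, Complex.norm_real, Real.norm_eq_abs]
  obtain ⟨w0, w1⟩ := wF_mem_Big hT ht
  have hg : gw N T b V t = wF_Big T t * (if ‖DP N b t‖ < V then ‖DP N b t‖ ^ 2 else 0) := rfl
  rw [hg]
  by_cases h : ‖DP N b t‖ < V
  · rw [if_pos h, if_neg (not_le.2 h), sub_self, abs_zero]
  · rw [if_neg h, if_pos (not_lt.1 h), mul_zero, zero_sub, abs_neg,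
      abs_of_nonneg (by positivity)]
    exact mul_le_of_le_one_left (by positivity) w1

theorem log_diff_Big {N x x' : ℕ} (hN : 1 ≤ N) (hx : x ∈ Icc N (2 * N))
    (hx' : x' ∈ Icc N (2 * N)) : Real.log x - Real.log x' ≤ 0.7 := by
  rw [mem_Icc] at hx hx'
  have hN' : (1 : ℝ) ≤ N := by exact_mod_cast hN
  have a1 : (N : ℝ) ≤ x := by exact_mod_cast hx.1
  have a2 : (x : ℝ) ≤ 2 * N := by exact_mod_cast hx.2
  have a3 : (N : ℝ) ≤ x' := by exact_mod_cast hx'.1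
  have h1 : Real.log x ≤ Real.log (2 * x') := Real.log_le_log (by linarith) (by linarith)
  rw [Real.log_mul (by norm_num) (by linarith)] at h1
  have := Real.log_two_lt_d9
  linarith

theorem maj_nonneg_Big (N T : ℕ) (u : ℝ) : 0 ≤ maj N T u :=
  sum_nonneg fun _ _ => mul_nonneg (by positivity) (kp_pos _).le

theorem red_Big (u : ℝ) : |u - 2 * Real.pi * (round (u / (2 * Real.pi)) : ℤ)| ≤ Real.pi := by
  have hp := Real.pi_pos
  have h := abs_sub_round (u / (2 * Real.pi))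
  have e : u - 2 * Real.pi * (round (u / (2 * Real.pi)) : ℤ) =
      2 * Real.pi * (u / (2 * Real.pi) - (round (u / (2 * Real.pi)) : ℤ)) := by
    field_simp
  rw [e, abs_mul, abs_of_pos (by positivity : 0 < 2 * Real.pi)]
  nlinarith

theorem CM_shift_Big {ι : Type} {s : Finset ι} {u : ι → ℝ} {T : ℕ} {μ : ℝ} (h : CM s u T μ)
    (k : ι → ℤ) : CM s (fun i => u i - 2 * Real.pi * k i) T μ := by
  intro l s' hs hl
  refine h l s' hs fun i hi => ?_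
  obtain ⟨m, h1, h2⟩ := hl i hi
  refine ⟨k i + m, ?_, ?_⟩
  · push_cast
    linarith
  · push_cast
    linarith

theorem point_Big {c₁ c₂ : ℝ} (h₁ : 0 < c₁)
    (hK : ∀ (T : ℕ) (u : ℝ), 1 ≤ T → |u| ≤ 4 →
      ‖fu T (fun t => (2 * (T : ℝ) - |(t : ℝ)|) / (2 * T)) u‖ ≤ c₁ * T * kp (T * u))
    (hP : ∀ (N T : ℕ) (u : ℝ), 1 ≤ N → N ≤ T → T ≤ N ^ 2 →
      ∑ x ∈ Icc N (2 * N), ∑ x' ∈ Icc N (2 * N),
        kp (T * (u + Real.log x - Real.log x')) ≤ c₂ * ((N : ℝ) ^ 2 / T + maj N T u))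
    {N T : ℕ} {b : ℕ → ℂ} (V : ℝ) (hN : 1 ≤ N) (hNT : N ≤ T) (hTN : T ≤ N ^ 2)
    (hb : ∀ n, ‖b n‖ ≤ 1) {u : ℝ} (hu : |u| ≤ Real.pi) :
    ‖fu T (gw N T b V) u‖ ≤
      Mass N b (IT T) V + c₁ * c₂ * (N : ℝ) ^ 2 + c₁ * c₂ * T * maj N T u := by
  have hT : 1 ≤ T := hN.trans hNT
  have hT' : (0 : ℝ) < T := by exact_mod_cast hT
  have d := fu_diff_Big (N := N) hT b V u
  have f : ‖fu T (fun t => wF_Big T t * ‖DP N b t‖ ^ 2) u‖ ≤
      c₁ * T * (c₂ * ((N : ℝ) ^ 2 / T + maj N T u)) := by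
    rw [fu_full_Big]
    refine le_trans ?_ (mul_le_mul_of_nonneg_left (hP N T u hN hNT hTN) (by positivity))
    rw [mul_sum]
    refine (norm_sum_le _ _).trans (sum_le_sum fun x hx => ?_)
    rw [mul_sum]
    refine (norm_sum_le _ _).trans (sum_le_sum fun x' hx' => ?_)
    have l1 := log_diff_Big hN hx hx'
    have l2 := log_diff_Big hN hx' hx
    have hpi := Real.pi_lt_d2
    have hu4 : |u + Real.log x - Real.log x'| ≤ 4 := by
      rw [abs_le] at hu ⊢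
      constructor <;> linarith [hu.1, hu.2]
    have k := hK T _ hT hu4
    rw [norm_mul, norm_mul, Complex.norm_conj]
    have hbb : ‖b x‖ * ‖b x'‖ ≤ 1 := mul_le_one₀ (hb x) (norm_nonneg _) (hb x')
    exact (mul_le_of_le_one_left (norm_nonneg _) hbb).trans k
  have e : c₁ * T * (c₂ * ((N : ℝ) ^ 2 / T + maj N T u)) =
      c₁ * c₂ * (N : ℝ) ^ 2 + c₁ * c₂ * T * maj N T u := by
    field_simp
  have t := norm_le_norm_sub_add (fu T (gw N T b V) u)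
    (fu T (fun t => wF_Big T t * ‖DP N b t‖ ^ 2) u)
  linarith

theorem big_stmt (hK : KerStmt) (hP : PrsStmt) (hM : MajStmt) : BigStmt := by
  obtain ⟨c₁, h₁, hK⟩ := hK
  obtain ⟨c₂, h₂, hP⟩ := hP
  obtain ⟨c₃, h₃, hM⟩ := hM
  refine ⟨2 * (c₁ * c₂) + 4 * (c₁ * c₂) ^ 2 * c₃, by positivity, ?_⟩
  intro N T b V Ms hN hNT hTN hb hMs ι s u μ hc hbig
  set u' : ι → ℝ := fun i => u i - 2 * Real.pi * (round (u i / (2 * Real.pi)) : ℤ) with hu'
  have hc' : CM s u' T μ := CM_shift_Big hc fun i => round (u i / (2 * Real.pi))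
  have hm := hM N T ι s u' μ hN hNT hTN hc'
  have hμ := hc.nonneg
  have hM0 := Mass_nonneg N b (IT T) V
  have hcc : 0 < c₁ * c₂ := mul_pos h₁ h₂
  have hlog : 0 ≤ 1 + Real.log N := by
    have := Real.log_natCast_nonneg N
    linarith
  have pt1 : ∀ i ∈ s, ‖fu T (gw N T b V) (u i)‖ ^ 2 ≤
      4 * (c₁ * c₂) ^ 2 * (T : ℝ) ^ 2 * maj N T (u' i) ^ 2 := by
    intro i hi
    have e : fu T (gw N T b V) (u' i) = fu T (gw N T b V) (u i) := trig_per _ _ _ _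
    have p := point_Big h₁ hK hP V hN hNT hTN hb (red_Big (u i))
    change ‖fu T (gw N T b V) (u' i)‖ ≤
      Mass N b (IT T) V + c₁ * c₂ * (N : ℝ) ^ 2 + c₁ * c₂ * T * maj N T (u' i) at p
    rw [e] at p
    have q := hbig i hi
    have r : 0 ≤ 4 * (c₁ * c₂) ^ 2 * c₃ * (N : ℝ) ^ 2 := by positivity
    have z : ‖fu T (gw N T b V) (u i)‖ ≤ 2 * (c₁ * c₂) * T * maj N T (u' i) := by
      nlinarith
    calc ‖fu T (gw N T b V) (u i)‖ ^ 2 ≤ (2 * (c₁ * c₂) * T * maj N T (u' i)) ^ 2 :=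
          pow_le_pow_left₀ (norm_nonneg _) z 2
      _ = _ := by ring
  calc ∑ i ∈ s, ‖fu T (gw N T b V) (u i)‖ ^ 2
      ≤ ∑ i ∈ s, 4 * (c₁ * c₂) ^ 2 * (T : ℝ) ^ 2 * maj N T (u' i) ^ 2 := sum_le_sum pt1
    _ = 4 * (c₁ * c₂) ^ 2 * (T : ℝ) ^ 2 * ∑ i ∈ s, maj N T (u' i) ^ 2 := by rw [mul_sum]
    _ ≤ 4 * (c₁ * c₂) ^ 2 * (T : ℝ) ^ 2 * (c₃ * μ * (N : ℝ) ^ 2 * (1 + Real.log N)) :=
        mul_le_mul_of_nonneg_left hm (by positivity)
    _ = 4 * (c₁ * c₂) ^ 2 * c₃ * ((T : ℝ) ^ 2 * (N : ℝ) ^ 2 * (1 + Real.log N) * μ) := by ring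
    _ ≤ (2 * (c₁ * c₂) + 4 * (c₁ * c₂) ^ 2 * c₃) *
          ((T : ℝ) ^ 2 * (N : ℝ) ^ 2 * (1 + Real.log N) * μ) :=
        mul_le_mul_of_nonneg_right (by linarith) (by positivity)
    _ = _ := by ring

end Pool.Agent.MP_2a1f0e_nt.RF
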