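import Pool.Agent.MP_2a1f0e_nt.RF.Basic

set_option autoImplicit false

open Finset
open scoped ComplexConjugate

namespace Pool.Agent.MP_2a1f0e_nt.RF

open GM

/-- the reflected edge -/
def flip_Bij (e : ED) : ED := (e.r, e.p.1, e.x, e.z, e.j)

lemma flip_mem_Bij {N J C C' W W' : ℕ} {e : ED} (he : e ∈ Edg N J C C' W) (h : e.r ∈ Win N C' W')
    (h' : e.p.2 * e.r.2 = e.p.1 * e.c * e.x * e.z + e.j) : flip_Bij e ∈ Edg N J C' C W' := by
  obtain ⟨⟨h1, -, h2⟩, -⟩ := mem_Edg.1 he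
  refine mem_Edg.2 ⟨⟨h, (mem_Win.1 h1).1.1, h2⟩, e.p.2, ?_⟩
  change e.c * e.p.1 * e.x * e.z + e.j = e.r.2 * e.p.2
  rw [mul_comm e.c, ← h', mul_comm]

lemma flip_r_Bij {e : ED} (h : 1 ≤ e.r.2) (h' : e.p.2 * e.r.2 = e.p.1 * e.c * e.x * e.z + e.j) :
    (flip_Bij e).r = e.p := by
  change (e.p.1, (e.c * e.p.1 * e.x * e.z + e.j) / e.r.2) = e.p
  rw [mul_comm e.c, ← h', Nat.mul_div_cancel _ h]

lemma flip_flip_Bij {e : ED} (h : 1 ≤ e.r.2) (h' : e.p.2 * e.r.2 = e.p.1 * e.c * e.x * e.z + e.j) :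
    flip_Bij (flip_Bij e) = e := by
  change ((flip_Bij e).r, e.c, e.x, e.z, e.j) = e
  rw [flip_r_Bij h h']
  rfl

lemma log_Bij : 3 ≤ Real.log 25 := by
  rw [Real.le_log_iff_exp_le (by norm_num), show (3 : ℝ) = (3 : ℕ) * 1 by norm_num,
    Real.exp_nat_mul]
  have := pow_le_pow_left₀ (Real.exp_pos 1).le Real.exp_one_lt_d9.le 3
  linarith [show (2.7182818286 : ℝ) ^ 3 ≤ 25 by norm_num]

lemma win_Bij {N C K W P : ℕ} {p : ℕ × ℕ} {x z s θ : ℝ} (hN : 1 ≤ N) (hC : 1 ≤ C) (hK : 1 ≤ K)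
    (hP : 2 ≤ P) (hp : p ∈ Win N C W) (h0 : 0 ≤ θ) (h1 : θ ≤ 1)
    (h : Real.log s + Real.log (yv p) = Real.log x + Real.log z + θ)
    (h2 : uu P ((N : ℝ) / K) - 2 * P ≤ uu P x + uu P z - uu P s)
    (h3 : uu P x + uu P z - uu P s ≤ uu P ((K : ℝ) * N) + 2 * P - 2) : p ∈ Win N C (25 * K) := by
  obtain ⟨⟨⟨c1, c2⟩, q1, -⟩, -⟩ := mem_Win.1 hp
  have a1 : ∀ t, (uu P t : ℝ) ≤ P * Real.log t := fun t => Int.floor_le _
  have a2 : ∀ t, P * Real.log t < (uu P t : ℝ) + 1 := fun t => Int.lt_floor_add_one _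
  have P2 : (2 : ℝ) ≤ P := by exact_mod_cast hP
  have N0 : (0 : ℝ) < N := by exact_mod_cast hN
  have K0 : (0 : ℝ) < K := by exact_mod_cast hK
  have c0 : (0 : ℝ) < p.1 := by exact_mod_cast hC.trans c1
  have q0 : (0 : ℝ) < p.2 := by exact_mod_cast q1
  have y0 : 0 < yv p := div_pos q0 c0
  have r2 : (uu P ((N : ℝ) / K) : ℝ) - 2 * P ≤ uu P x + uu P z - uu P s := by exact_mod_cast h2
  have r3 : (uu P x : ℝ) + uu P z - uu P s ≤ uu P ((K : ℝ) * N) + 2 * P - 2 := by exact_mod_cast h3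
  have e : P * Real.log s + P * Real.log (yv p) = P * Real.log x + P * Real.log z + P * θ := by
    rw [← mul_add, h, mul_add, mul_add]
  have t0 : 0 ≤ P * θ := by positivity
  have t1 : P * θ ≤ P := mul_le_of_le_one_right (by linarith) h1
  have l := log_Bij
  have u1 : Real.log (yv p) ≤ Real.log ((K : ℝ) * N) + 3 := by
    refine le_of_mul_le_mul_left ?_ (by linarith : (0 : ℝ) < P)
    linarith [a1 s, a2 x, a2 z, a1 ((K : ℝ) * N)]
  have u2 : Real.log ((N : ℝ) / K) ≤ Real.log (yv p) + 3 := by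
    refine le_of_mul_le_mul_left ?_ (by linarith : (0 : ℝ) < P)
    linarith [a2 s, a1 x, a1 z, a2 ((N : ℝ) / K)]
  have v1 : yv p ≤ 25 * ((K : ℝ) * N) := by
    rw [← Real.log_le_log_iff y0 (by positivity), Real.log_mul (by norm_num) (by positivity)]
    linarith
  have v2 : (N : ℝ) / K ≤ 25 * yv p := by
    rw [← Real.log_le_log_iff (by positivity) (by positivity), Real.log_mul (x := 25) (by norm_num)
      y0.ne']
    linarith
  rw [yv, div_le_iff₀ c0] at v1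
  rw [yv, ← mul_div_assoc, div_le_div_iff₀ K0 c0] at v2
  have w1 : p.2 ≤ 25 * K * N * p.1 := by
    exact_mod_cast (by linarith : (p.2 : ℝ) ≤ 25 * K * N * p.1)
  have w2 : N * p.1 ≤ 25 * K * p.2 := by
    exact_mod_cast (by linarith : (N : ℝ) * p.1 ≤ 25 * K * p.2)
  refine mem_Win.2 ⟨⟨⟨c1, c2⟩, q1, w1.trans ?_⟩, w2, w1⟩
  calc 25 * K * N * p.1 ≤ 25 * K * N * (2 * C) := Nat.mul_le_mul_left _ c2.le
    _ = 2 * (25 * K) * N * C := by ring

theorem bij_stmt (hO : OmStmt) (hG : GeoStmt) : BijStmt := by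
  intro N T J C C' K P Y g b hN hT hC hC' hK hY hP hJ
  refine ⟨?_, ?_⟩
  · rw [sum_Edg N J C C' (25 * K) fun p _ x z => (Om N P K (uu P (yv p)) : ℂ) *
      (av T g b p x * conj (av T g b p z)), SY]
    refine sum_congr rfl fun p _ => ?_
    simp only [Bp, mul_sum, nsmul_eq_mul]
    refine sum_congr rfl fun _ _ => sum_congr rfl fun _ _ => sum_congr rfl fun _ _ => ?_
    ring
  have g1 := fun e => hG N T J C C' (25 * K) Y e hN hT hC hC' (by omega) hY hJ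
  have g2 := fun e => hG N T J C' C (200 * K) Y e hN hT hC' hC (by omega) hY (by linarith)
  have r1 : ∀ {e : ED} {D W : ℕ}, e.r ∈ Win N D W → 1 ≤ e.r.2 := fun h => (mem_Win.1 h).1.2.1
  symm
  rw [SS]
  refine sum_bij_ne_zero (fun e _ _ => flip_Bij e) (fun e he _ => ?_) (fun e he _ e' he' _ h => ?_)
    (fun e he h => ?_) fun e he _ => rfl
  · obtain ⟨k1, -, -, -, -, k2, -⟩ := g1 e he
    refine flip_mem_Bij he ?_ k2
    rwa [← mul_assoc] at k1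
  · obtain ⟨k1, -, -, -, -, k2, -⟩ := g1 e he
    obtain ⟨k3, -, -, -, -, k4, -⟩ := g1 e' he'
    rw [← flip_flip_Bij (r1 k1) k2, h, flip_flip_Bij (r1 k3) k4]
  · obtain ⟨k1, -, -, -, -, k2, θ, t1, t2, -, -, -, t3⟩ := g2 e he
    have k3 := (hO N P K (by omega)).2.2.1 _ fun h0 => h (by rw [h0, Complex.ofReal_zero, zero_mul])
    have T1 : (1 : ℝ) ≤ T := by exact_mod_cast hT
    have t4 : θ ≤ 1 :=
      (le_mul_of_one_le_left t1 (one_le_mul_of_one_le_of_one_le T1 hY)).trans t2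
    refine ⟨flip_Bij e, flip_mem_Bij he (win_Bij hN hC hK hP k1 t1 t4 t3 k3.1 k3.2) k2, ?_,
      flip_flip_Bij (r1 k1) k2⟩
    rw [flip_r_Bij (r1 k1) k2]
    exact h

end Pool.Agent.MP_2a1f0e_nt.RF
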