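import Pool.Agent.MP_2a1f0e_nt.RF.Basic

set_option autoImplicit false

open Finset
open scoped ComplexConjugate

namespace Pool.Agent.MP_2a1f0e_nt.RF

open GM

lemma split_Block {lam S g m : ℝ} (hl : 0 < lam) (hg : 0 < g) (hm : g ≤ m) :
    S ≤ lam / √g + √((if lam ^ 2 < m * S ^ 2 then m * S ^ 2 else 0) / g) := by
  have hsg : 0 < √g := Real.sqrt_pos.2 hg
  have h1 : g * S ^ 2 ≤ m * S ^ 2 := mul_le_mul_of_nonneg_right hm (sq_nonneg S)
  split_ifs with h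
  · have : S ≤ √(m * S ^ 2 / g) := Real.le_sqrt_of_sq_le ((le_div_iff₀' hg).2 h1)
    have : 0 < lam / √g := div_pos hl hsg
    linarith
  · have : S ≤ lam / √g := by
      rw [le_div_iff₀ hsg]
      refine abs_le_of_sq_le_sq' ?_ hl.le |>.2
      rw [mul_pow, Real.sq_sqrt hg.le]
      linarith [not_lt.1 h]
    have := Real.sqrt_nonneg ((0 : ℝ) / g)
    linarith

noncomputable def F_Block (q g J : ℕ) (lam : ℝ) (r : ℕ) (ψ : DirichletCharacter ℂ r) : ℝ :=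
  ∑ e ∈ (q / r).divisors,
    if lam ^ 2 < ((g * e : ℕ) : ℝ) * ‖Sc r ψ (J / (g * e))‖ ^ 2 then
      ((g * e : ℕ) : ℝ) * ‖Sc r ψ (J / (g * e))‖ ^ 2 else 0

lemma F_nonneg_Block (q g J : ℕ) (lam : ℝ) (r : ℕ) (ψ : DirichletCharacter ℂ r) :
    0 ≤ F_Block q g J lam r ψ :=
  sum_nonneg fun _ _ => by split_ifs <;> positivity

lemma Sc_le_Block (hP : PrimStmt) {q g : ℕ} (J : ℕ) {Δ lam : ℝ} (hq : 1 ≤ q) (hg : 1 ≤ g)
    (hl : 0 < lam) (hΔ : (q.divisors.card : ℝ) ≤ Δ) (χ : DirichletCharacter ℂ q) :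
    ‖Sc q χ (J / g)‖ ≤
      Δ * (lam / √(g : ℝ)) + √(Δ / g * F_Block q g J lam χ.conductor χ.primitiveCharacter) := by
  have hg0 : (0 : ℝ) < g := by exact_mod_cast hg
  have hc : (((q / χ.conductor).divisors.card : ℕ) : ℝ) ≤ Δ := by
    refine le_trans ?_ hΔ
    exact_mod_cast card_le_card (Nat.divisors_subset_of_dvd (by omega)
      (Nat.div_dvd_of_dvd χ.conductor_dvd_level))
  refine (hP q _ χ hq).trans ((sum_le_sum fun e he => split_Block
    (m := ((g * e : ℕ) : ℝ)) hl hg0 ?_).trans ?_)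
  · exact_mod_cast Nat.le_mul_of_pos_right g (Nat.pos_of_mem_divisors he)
  rw [sum_add_distrib, sum_const, nsmul_eq_mul]
  refine add_le_add (mul_le_mul_of_nonneg_right hc (by positivity)) (Real.le_sqrt_of_sq_le ?_)
  refine sq_sum_le_card_mul_sum_sq.trans ?_
  rw [div_mul_eq_mul_div, mul_div_assoc, F_Block, sum_div]
  refine mul_le_mul hc (le_of_eq (sum_congr rfl fun e _ => ?_)) (sum_nonneg fun _ _ => sq_nonneg _)
    ((Nat.cast_nonneg _).trans hc)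
  rw [Real.sq_sqrt (by split_ifs <;> positivity), Nat.div_div_eq_div_mul]

open Classical in
lemma sumF_Block (hF : FibStmt) {q g : ℕ} (J : ℕ) (lam : ℝ) (hq : 1 ≤ q) (hg : 1 ≤ g) :
    ∑ χ ∈ (univ : Finset (DirichletCharacter ℂ q)).erase 1,
      F_Block q g J lam χ.conductor χ.primitiveCharacter ≤ BadQ J lam (g * q) := by
  refine (hF q (F_Block q g J lam) hq (F_nonneg_Block q g J lam)).trans ?_
  have h1 : ∑ r ∈ q.divisors.erase 1, ∑ ψ ∈ prim r, F_Block q g J lam r ψ =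
      ∑ e ∈ q.divisors, ∑ r ∈ (q / e).divisors.erase 1, Bad J lam (g * e) r := by
    rw [← sum_comm' (s := q.divisors.erase 1) (t := fun r => (q / r).divisors)]
    · refine sum_congr rfl fun r _ => ?_
      simp only [F_Block, Bad]
      rw [sum_comm]
    · intro r e
      have key : ∀ a b : ℕ, a ∣ q → b ∣ q / a → (b ∣ q ∧ a ∣ q / b ∧ q / b ≠ 0) := fun a b ha hb => by
        have h2 : a * b ∣ q := Nat.mul_dvd_of_dvd_div ha hb
        have h3 : b ∣ q := Dvd.dvd.trans (Dvd.intro_left a rfl) h2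
        refine ⟨h3, (Nat.dvd_div_iff_mul_dvd h3).2 (by rwa [mul_comm]), ?_⟩
        exact (Nat.div_pos (Nat.le_of_dvd hq h3) (Nat.pos_of_dvd_of_pos h3 hq)).ne'
      simp only [mem_erase, Nat.mem_divisors]
      constructor
      · rintro ⟨⟨a, b, c⟩, d, _⟩
        obtain ⟨k1, k2, k3⟩ := key r e b d
        exact ⟨⟨a, k2, k3⟩, k1, c⟩
      · rintro ⟨⟨a, b, _⟩, d, c⟩
        obtain ⟨k1, k2, k3⟩ := key e r d b
        exact ⟨⟨a, k1, c⟩, k2, k3⟩
  have h2 : ∑ e ∈ q.divisors, ∑ r ∈ (q / e).divisors.erase 1, Bad J lam (g * e) r =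
      ∑ m ∈ q.divisors.image (fun e => g * e),
        ∑ r ∈ (g * q / m).divisors.erase 1, Bad J lam m r := by
    rw [sum_image fun a _ b _ h => Nat.eq_of_mul_eq_mul_left hg h]
    refine sum_congr rfl fun e _ => ?_
    rw [Nat.mul_div_mul_left _ _ hg]
  rw [h1, h2, BadQ]
  refine sum_le_sum_of_subset_of_nonneg (fun m hm => ?_) fun _ _ _ =>
    sum_nonneg fun _ _ => Bad_nonneg _ _ _ _
  obtain ⟨e, he, rfl⟩ := mem_image.1 hm
  exact Nat.mem_divisors.2 ⟨Nat.mul_dvd_mul_left g (Nat.dvd_of_mem_divisors he), by positivity⟩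

theorem block_stmt (hO : OrthStmt) (hE : ExpStmt) (hP : PrimStmt) (hF : FibStmt) : BlockStmt := by
  classical
  intro q g J e₀ ι κ s s' ξ ζ α β mA mB nA Δ lam hq hg hl hΔ he hξ hζ hn hA hB
  have hφ : (0 : ℝ) < q.totient := by exact_mod_cast Nat.totient_pos.2 hq
  have hg0 : (0 : ℝ) < g := by exact_mod_cast hg
  have hΔ0 : 0 ≤ Δ := (Nat.cast_nonneg _).trans hΔ
  have hn0 : 0 ≤ nA := (Nat.cast_nonneg _).trans hn
  have hA0 : 0 ≤ mA := by simpa using hA ∅ (empty_subset _) (by simp)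
  have hB0 : 0 ≤ mB := by simpa using hB ∅ (empty_subset _) (by simp)
  have hQ0 := BadQ_nonneg J lam (g * q)
  obtain ⟨A, hAd⟩ : ∃ A : DirichletCharacter ℂ q → ℂ,
      A = fun χ => ∑ i ∈ s, α i * χ (ξ i : ZMod q) := ⟨_, rfl⟩
  obtain ⟨B, hBd⟩ : ∃ B : DirichletCharacter ℂ q → ℂ,
      B = fun χ => ∑ i ∈ s', β i * χ (ζ i : ZMod q) := ⟨_, rfl⟩
  obtain ⟨a, ha⟩ : ∃ a : ℝ, a = ∑ i ∈ s, ‖α i‖ ^ 2 := ⟨_, rfl⟩
  obtain ⟨b, hb⟩ : ∃ b : ℝ, b = ∑ i ∈ s', ‖β i‖ ^ 2 := ⟨_, rfl⟩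
  obtain ⟨U, hU⟩ : ∃ U : Finset (DirichletCharacter ℂ q), U = univ.erase 1 := ⟨_, rfl⟩
  have ha0 : 0 ≤ a := ha ▸ sum_nonneg fun _ _ => sq_nonneg _
  have hb0 : 0 ≤ b := hb ▸ sum_nonneg fun _ _ => sq_nonneg _
  have h1 : (∑ i ∈ s, ∑ i' ∈ s',
      ((cnt (J / g) q (e₀ * ξ i * ζ i') : ℂ) - (cop (J / g) q : ℂ) / (q.totient : ℂ)) *
        (α i * β i')) * (q.totient : ℂ) =
      ∑ χ ∈ U, χ (-1) * χ (e₀ : ZMod q) * conj (Sc q χ (J / g)) * (A χ * B χ) := by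
    simp only [hAd, hBd, sum_mul_sum]
    simp only [mul_sum]
    rw [sum_comm (s := U), sum_mul]
    refine sum_congr rfl fun i hi => ?_
    rw [sum_comm (s := U), sum_mul]
    refine sum_congr rfl fun i' hi' => ?_
    rw [mul_right_comm, hE q _ _ hq
      (Nat.Coprime.mul_left (Nat.Coprime.mul_left he (hξ i hi)) (hζ i' hi')), hU, sum_mul]
    refine sum_congr (by congr) fun χ _ => ?_
    rw [Nat.cast_mul, Nat.cast_mul, map_mul, map_mul]
    ring
  have oA : √(∑ χ ∈ U, ‖A χ‖ ^ 2) ≤ √(q.totient * mA * a) := by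
    refine Real.sqrt_le_sqrt (le_trans ?_ (ha ▸ hO q ι s ξ α mA hq hA))
    rw [hAd]
    exact sum_le_sum_of_subset_of_nonneg (subset_univ _) fun _ _ _ => sq_nonneg _
  have oB : √(∑ χ ∈ U, ‖B χ‖ ^ 2) ≤ √(q.totient * mB * b) := by
    refine Real.sqrt_le_sqrt (le_trans ?_ (hb ▸ hO q κ s' ζ β mB hq hB))
    rw [hBd]
    exact sum_le_sum_of_subset_of_nonneg (subset_univ _) fun _ _ _ => sq_nonneg _
  have tA : ∀ χ, ‖A χ‖ ≤ √(nA * a) := fun χ => by
    refine Real.le_sqrt_of_sq_le ?_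
    have : ‖A χ‖ ≤ ∑ i ∈ s, ‖α i‖ := by
      rw [hAd]
      refine (norm_sum_le _ _).trans (sum_le_sum fun i _ => ?_)
      rw [norm_mul]
      exact mul_le_of_le_one_right (norm_nonneg _) (χ.norm_le_one _)
    refine (pow_le_pow_left₀ (norm_nonneg _) this 2).trans (sq_sum_le_card_mul_sum_sq.trans ?_)
    rw [← ha]
    exact mul_le_mul_of_nonneg_right hn ha0
  have oF : √(∑ χ ∈ U, √(Δ / g * F_Block q g J lam χ.conductor χ.primitiveCharacter) ^ 2) ≤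
      √(Δ / g * BadQ J lam (g * q)) := by
    refine Real.sqrt_le_sqrt ?_
    rw [sum_congr rfl fun χ _ => Real.sq_sqrt
      (mul_nonneg (by positivity) (F_nonneg_Block q g J lam _ _)), ← mul_sum]
    refine mul_le_mul_of_nonneg_left ?_ (by positivity)
    rw [hU]
    convert sumF_Block hF J lam hq hg
  have h2 : ‖∑ χ ∈ U, χ (-1) * χ (e₀ : ZMod q) * conj (Sc q χ (J / g)) * (A χ * B χ)‖ ≤
      Δ * (lam / √(g : ℝ)) * (√(q.totient * mA * a) * √(q.totient * mB * b)) +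
        √(nA * a) * (√(Δ / g * BadQ J lam (g * q)) * √(q.totient * mB * b)) := by
    have g1 := (Real.sum_mul_le_sqrt_mul_sqrt U (fun χ => ‖A χ‖) fun χ => ‖B χ‖).trans
      (mul_le_mul oA oB (Real.sqrt_nonneg _) (Real.sqrt_nonneg _))
    have g2 := (Real.sum_mul_le_sqrt_mul_sqrt U
      (fun χ => √(Δ / g * F_Block q g J lam χ.conductor χ.primitiveCharacter))
      fun χ => ‖B χ‖).trans (mul_le_mul oF oB (Real.sqrt_nonneg _) (Real.sqrt_nonneg _))
    refine le_trans ?_ (add_le_add (mul_le_mul_of_nonneg_left g1 (by positivity))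
      (mul_le_mul_of_nonneg_left g2 (Real.sqrt_nonneg _)))
    rw [mul_sum, mul_sum, ← sum_add_distrib]
    refine (norm_sum_le _ _).trans (sum_le_sum fun χ _ => ?_)
    have k1 : ‖χ (-1) * χ (e₀ : ZMod q) * conj (Sc q χ (J / g))‖ ≤ ‖Sc q χ (J / g)‖ := by
      rw [norm_mul, norm_mul, Complex.norm_conj]
      exact mul_le_of_le_one_left (norm_nonneg _)
        (mul_le_one₀ (χ.norm_le_one _) (norm_nonneg _) (χ.norm_le_one _))
    have k2 := k1.trans (Sc_le_Block hP J hq hg hl hΔ χ)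
    rw [norm_mul, norm_mul (A χ)]
    refine (mul_le_mul_of_nonneg_right k2 (by positivity)).trans ?_
    rw [add_mul]
    refine add_le_add le_rfl ?_
    rw [mul_left_comm]
    exact mul_le_mul_of_nonneg_right (tA χ) (by positivity)
  rw [← h1, norm_mul, Complex.norm_natCast] at h2
  rw [← ha, ← hb]
  refine le_of_mul_le_mul_right (h2.trans (le_of_eq ?_)) hφ
  have hs : √(q.totient : ℝ) * √(q.totient : ℝ) = q.totient := Real.mul_self_sqrt hφ.le
  have hs0 : √(q.totient : ℝ) ≠ 0 := (Real.sqrt_pos.2 hφ).ne'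
  have hs1 : √(g : ℝ) ≠ 0 := (Real.sqrt_pos.2 hg0).ne'
  rw [Real.sqrt_div' _ (mul_nonneg hφ.le hg0.le), Real.sqrt_mul' _ hQ0, Real.sqrt_mul' _ hQ0]
  simp only [Real.sqrt_mul, Real.sqrt_div, mul_nonneg, hφ.le, hΔ0, hn0, hA0, hB0]
  generalize √(q.totient : ℝ) = w at hs hs0 ⊢
  rw [← hs]
  field_simp

end Pool.Agent.MP_2a1f0e_nt.RF
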