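import Pool.Agent.MP_2a1f0e_nt.RF.Basic
set_option autoImplicit false
open Finset
open scoped ComplexConjugate
namespace Pool.Agent.MP_2a1f0e_nt.RF
open GM

lemma mult_Char {x y g q d : ℝ} (hd : 0 < d) (hq : 0 < q) (hy : 1 ≤ y) (hg : d ≤ g) {k : ℝ}
    (h : x ≤ k * y * (g * q)) : 1 + x / (d * q) ≤ (k + 1) * y * g / d := by
  rw [le_div_iff₀ hd, add_mul, one_mul, div_mul_eq_mul_div, mul_comm x, mul_div_mul_left _ _ hd.ne']
  have := (div_le_iff₀ hq).2 (h.trans_eq (mul_assoc _ _ _).symm)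
  nlinarith

lemma first_Char {E lam g d₁ d₂ φ q N C x B : ℝ} (hE : 1 ≤ E) (hl : 0 < lam) (h₁ : 0 < d₁)
    (h₂ : 0 < d₂) (hg : 0 < g) (hgd : g ≤ d₁ * d₂) (hφ : 0 < φ) (hq : q ≤ φ * E) (hC : 0 < C)
    (hN : N * C ≤ E * (g * q)) (hN0 : 0 ≤ N) (hx : 0 ≤ x) (hB : 0 ≤ B) :
    E * lam * √(2 * E * g / d₁ * (5 * E ^ 3 * g / d₂) / g) +
      √(E * (3 * N * x / d₁) * (5 * E ^ 3 * g / d₂) * B / (φ * g)) ≤
      8 * E ^ 3 * (lam + x * B / (C * lam)) := by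
  have h3 : g / (d₁ * d₂) ≤ 1 := (div_le_one (by positivity)).2 hgd
  have h4 : N / (φ * g) ≤ E ^ 2 / C := by
    rw [div_le_div_iff₀ (by positivity) hC]
    calc _ ≤ E * (g * (φ * E)) := hN.trans (by gcongr)
      _ = _ := by ring
  have a : √(2 * E * g / d₁ * (5 * E ^ 3 * g / d₂) / g) ≤ 4 * E ^ 2 :=
    Real.sqrt_le_iff.2 ⟨by positivity, by
      calc _ = 10 * E ^ 4 * (g / (d₁ * d₂)) := by field_simp; ring
        _ ≤ 16 * E ^ 4 * 1 := by gcongr; norm_num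
        _ = _ := by ring⟩
  have h5 : 0 ≤ x * B / (C * lam) := by positivity
  have b : √(E * (3 * N * x / d₁) * (5 * E ^ 3 * g / d₂) * B / (φ * g)) ≤
      4 * E ^ 3 * (lam + x * B / (C * lam)) :=
    Real.sqrt_le_iff.2 ⟨by positivity, by
      calc _ = 15 * E ^ 4 * (x * B) * (g / (d₁ * d₂)) * (N / (φ * g)) := by field_simp; ring
        _ ≤ 16 * E ^ 4 * (x * B) * 1 * (E ^ 2 / C) := by gcongr; norm_num
        _ = (4 * E ^ 3) ^ 2 * (lam * (x * B / (C * lam))) := by field_simp; ring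
        _ ≤ (4 * E ^ 3) ^ 2 * (lam + x * B / (C * lam)) ^ 2 := by
          gcongr
          nlinarith [mul_nonneg hl.le h5]
        _ = _ := by ring⟩
  have c : E * lam * √(2 * E * g / d₁ * (5 * E ^ 3 * g / d₂) / g) ≤
      4 * E ^ 3 * (lam + x * B / (C * lam)) :=
    calc _ ≤ E * (lam + x * B / (C * lam)) * (4 * E ^ 2) := by gcongr; linarith
      _ = _ := by ring
  linarith

lemma second_Char {E lam g d₁ d₂ Q J e a b : ℝ} (hE : 1 ≤ E) (hl : 0 < lam) (h₁ : 0 < d₁)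
    (h₂ : 0 < d₂) (hg : 0 < g) (hgd : g ≤ d₁ * d₂) (hJ : J ≤ lam ^ 2)
    (he : (e * Q) ^ 2 ≤ E ^ 4 * (g * J)) (ha0 : 0 ≤ a) (hb0 : 0 ≤ b) (ha : a ≤ 3 * (E * Q) / d₁)
    (hb : b ≤ E * (4 * (E ^ 2 * Q) / d₂)) : |e| * (√a * √b) ≤ 4 * E ^ 4 * lam := by
  have h3 : g / (d₁ * d₂) ≤ 1 := (div_le_one (by positivity)).2 hgd
  refine (abs_le_of_sq_le_sq' ?_ (by positivity)).2
  rw [mul_pow, mul_pow, Real.sq_sqrt ha0, Real.sq_sqrt hb0, sq_abs]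
  calc _ ≤ e ^ 2 * (3 * (E * Q) / d₁ * (E * (4 * (E ^ 2 * Q) / d₂))) :=
        mul_le_mul_of_nonneg_left (mul_le_mul ha hb hb0 (ha0.trans ha)) (sq_nonneg _)
    _ = 12 * E ^ 4 * (e * Q) ^ 2 / (d₁ * d₂) := by field_simp; ring
    _ ≤ 12 * E ^ 4 * (E ^ 4 * (g * lam ^ 2)) / (d₁ * d₂) := by
        gcongr
        exact he.trans (by gcongr)
    _ = 12 * (E ^ 4 * lam) ^ 2 * (g / (d₁ * d₂)) := by ring
    _ ≤ 16 * (E ^ 4 * lam) ^ 2 * 1 := by gcongr; norm_num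
    _ = _ := by ring

lemma cs_Char {ι : Type} (s : Finset ι) (α : ι → ℂ) :
    ‖∑ i ∈ s, α i‖ ≤ √(s.card : ℝ) * √(∑ i ∈ s, ‖α i‖ ^ 2) := by
  rw [← Real.sqrt_mul (Nat.cast_nonneg _)]
  exact (norm_sum_le _ _).trans (Real.le_sqrt_of_sq_le sq_sum_le_card_mul_sum_sq)

lemma err_Char (hP : PrinStmt) {q g J : ℕ} {E : ℝ} (hq : 1 ≤ q) (hg : 1 ≤ g) (hE : 1 ≤ E)
    (h : (q.divisors.card : ℝ) ≤ E) :
    (((cop (J / g) q : ℝ) / q.totient - (J : ℝ) / (g * q)) * (g * q)) ^ 2 ≤ E ^ 4 * (g * J) := by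
  have h0 : (0 : ℝ) < q := Nat.cast_pos.2 hq
  have h1 : (0 : ℝ) < g := Nat.cast_pos.2 hg
  rcases le_or_gt g J with hJ | hJ
  · have h2 := (le_div_iff₀ h0).1 ((hP q J g hq hg).2.trans
      (div_le_div_of_nonneg_right (pow_le_pow_left₀ (Nat.cast_nonneg _) h 2) h0.le))
    have h3 : (g : ℝ) ≤ J := Nat.cast_le.2 hJ
    rw [← sq_abs, abs_mul, abs_of_pos (mul_pos h1 h0), mul_left_comm]
    calc _ ≤ (g * E ^ 2) ^ 2 := by gcongr
      _ = E ^ 4 * (g * g) := by ring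
      _ ≤ _ := by gcongr
  · have h3 : (J : ℝ) ≤ g := Nat.cast_le.2 hJ.le
    rw [Nat.div_eq_of_lt hJ, show cop 0 q = 0 from rfl, Nat.cast_zero, zero_div, zero_sub, neg_mul,
      neg_sq, div_mul_cancel₀ _ (mul_pos h1 h0).ne', sq]
    exact (mul_le_mul_of_nonneg_right h3 (Nat.cast_nonneg J)).trans
      (le_mul_of_one_le_left (by positivity) (one_le_pow₀ hE))

lemma block_Char (hB : BlockStmt) (hR : RedStmt) (hC : CountStmt) (hP : PrinStmt)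
    {N J C C' c Q d₁ d₂ : ℕ} {E lam : ℝ} (α : ℕ → ℂ) (β : ℕ × ℕ → ℂ) (hN : 1 ≤ N) (hC1 : 1 ≤ C)
    (hC' : 1 ≤ C') (hCE : (C' : ℝ) ≤ E * C) (hc : C ≤ c) (hQ : 1 ≤ Q)
    (hNQ : (N : ℝ) * c ≤ E * Q) (hD : DivB (4 * N * C') E) (hD' : DivB Q E) (hl : 0 < lam)
    (hJ : (J : ℝ) ≤ lam ^ 2) (h₁ : d₁ ∣ Q) (h₂ : d₂ ∣ Q) {s : Finset ℕ} {s' : Finset (ℕ × ℕ)}
    (hs : s ⊆ Icc N (2 * N)) (hs' : s' ⊆ Ico C' (2 * C') ×ˢ Icc N (2 * N))
    (e₁ : ∀ x ∈ s, Nat.gcd (c * x) Q = d₁) (e₂ : ∀ a ∈ s', Nat.gcd (a.1 * a.2) Q = d₂) :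
    ‖∑ x ∈ s, ∑ a ∈ s', (((cnt J Q (c * a.1 * x * a.2) : ℝ) - (J : ℝ) / Q : ℝ) : ℂ) *
      (α x * β a)‖ ≤ √(∑ x ∈ s, ‖α x‖ ^ 2) * √(∑ a ∈ s', ‖β a‖ ^ 2) *
        (12 * E ^ 4 * (lam + Nat.gcd c Q * BadQ J lam Q / (C * lam))) := by
  have hE := hD.1
  have red : ∀ X Z, Nat.gcd X Q = d₁ → Nat.gcd Z Q = d₂ → _ := fun X Z a b => by
    have := hR J Q X Z hQ
    rw [a, b] at this
    exact this
  have g₁ := Nat.gcd_eq_left h₁
  have g₂ := Nat.gcd_eq_left h₂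
  have p₁ := Nat.pos_of_dvd_of_pos h₁ hQ
  have p₂ := Nat.pos_of_dvd_of_pos h₂ hQ
  have k₁ : d₁ ∣ Nat.gcd (d₁ * d₂) Q := Nat.dvd_gcd (dvd_mul_right _ _) h₁
  have k₂ : d₂ ∣ Nat.gcd (d₁ * d₂) Q := Nat.dvd_gcd (dvd_mul_left _ _) h₂
  have k₃ := Nat.gcd_le_left Q (Nat.mul_pos p₁ p₂)
  have k₄ := Nat.mul_div_cancel' (Nat.gcd_dvd_right (d₁ * d₂) Q)
  generalize Nat.gcd (d₁ * d₂) Q = g at red k₁ k₂ k₃ k₄
  generalize Q / g = q at red k₄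
  have hg : 1 ≤ g := Nat.pos_of_mul_pos_right (k₄ ▸ hQ)
  have hq : 1 ≤ q := Nat.pos_of_mul_pos_left (k₄ ▸ hQ)
  have hτ := hD'.2 q (Nat.le_of_dvd hQ (Dvd.intro_left _ k₄))
  have eQ : (Q : ℝ) = g * q := by rw [← k₄, Nat.cast_mul]
  have r₁ : (0 : ℝ) < d₁ := Nat.cast_pos.2 p₁
  have r₂ : (0 : ℝ) < d₂ := Nat.cast_pos.2 p₂
  have rg : (0 : ℝ) < g := Nat.cast_pos.2 hg
  have rq : (0 : ℝ) < q := Nat.cast_pos.2 hq
  have rC : (0 : ℝ) < C := Nat.cast_pos.2 hC1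
  have rk : (g : ℝ) ≤ d₁ * d₂ := by exact_mod_cast k₃
  have n₀ : (N : ℝ) * C ≤ E * Q := le_trans (by gcongr) hNQ
  have n₁ : (N : ℝ) * Nat.gcd c Q ≤ E * Q := by
    have := Nat.gcd_le_left Q (hC1.trans hc)
    exact le_trans (by gcongr) hNQ
  have n₂ : (N : ℝ) * C' ≤ E ^ 2 * Q :=
    calc _ ≤ N * (E * C) := by gcongr
      _ = E * (N * C) := by ring
      _ ≤ E * (E * Q) := by gcongr
      _ = _ := by ring
  have c₁ := fun t (ht : t ⊆ s) => hC.1 N c Q d₁ q t hN (hC1.trans hc) hQ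
    (k₄ ▸ Nat.mul_dvd_mul_right k₁ q) (ht.trans hs) fun x hx => e₁ x (ht hx)
  have c₂ := fun t (ht : t ⊆ s') => hC.2.1 N C' d₂ q E t hN hC' p₂ hq hD (ht.trans hs')
    fun a ha => e₂ a (ht ha) ▸ Nat.gcd_dvd_left _ _
  have b₁ := hB q g J (d₁ * d₂ / g) _ _ s s' (fun x => c * x / d₁) (fun a => a.1 * a.2 / d₂) α β
    (2 * E * g / d₁) (5 * E ^ 3 * g / d₂) _ E lam hq hg hl hτ (red _ _ g₁ g₂).2.1
    (fun x hx => (red _ _ (e₁ x hx) g₂).2.2.1) (fun a ha => (red _ _ g₁ (e₂ a ha)).2.2.2)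
    (c₁ s Subset.rfl).1
    (fun t ht h => ((c₁ t ht).2 h).trans ((mult_Char (k := 1) r₁ rq hE
      (Nat.cast_le.2 (Nat.le_of_dvd hg k₁)) (by rwa [one_mul, ← eQ])).trans_eq (by ring)))
    (fun t ht h => ((c₂ t ht).2 h).trans ((mul_le_mul_of_nonneg_left (mult_Char (k := 4) r₂ rq
      (one_le_pow₀ (n := 2) hE) (Nat.cast_le.2 (Nat.le_of_dvd hg k₂)) (by rw [← eQ]; linarith))
      (by linarith)).trans_eq (by ring)))
  rw [k₄] at b₁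
  have hX : 0 ≤ Nat.gcd c Q * BadQ J lam Q / (C * lam) := by
    have := BadQ_nonneg J lam Q
    positivity
  have b₂ := first_Char hE hl r₁ r₂ rg rk (Nat.cast_pos.2 (Nat.totient_pos.2 hq))
    ((hP q J g hq hg).1.trans (by gcongr)) rC (eQ ▸ n₀) (Nat.cast_nonneg N)
    (Nat.cast_nonneg (Nat.gcd c Q)) (BadQ_nonneg J lam Q)
  have b₃ := second_Char hE hl r₁ r₂ rg rk hJ (err_Char hP hq hg hE hτ) (Nat.cast_nonneg s.card)
    (Nat.cast_nonneg s'.card)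
    ((c₁ s Subset.rfl).1.trans (by rw [← eQ, mul_assoc]; gcongr))
    ((c₂ s' Subset.rfl).1.trans (by rw [← eQ, mul_assoc]; gcongr))
  rw [← eQ] at b₃
  have e : ∑ x ∈ s, ∑ a ∈ s', (((cnt J Q (c * a.1 * x * a.2) : ℝ) - (J : ℝ) / Q : ℝ) : ℂ) *
      (α x * β a) = ∑ x ∈ s, ∑ a ∈ s',
        ((cnt (J / g) q (d₁ * d₂ / g * (c * x / d₁) * (a.1 * a.2 / d₂)) : ℂ) -
          (cop (J / g) q : ℂ) / (q.totient : ℂ)) * (α x * β a) +
      (((cop (J / g) q : ℝ) / q.totient - (J : ℝ) / Q : ℝ) : ℂ) *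
        ((∑ x ∈ s, α x) * ∑ a ∈ s', β a) := by
    rw [sum_mul_sum, mul_sum, ← sum_add_distrib]
    refine sum_congr rfl fun x hx => ?_
    rw [mul_sum, ← sum_add_distrib]
    refine sum_congr rfl fun a ha => ?_
    rw [← (red _ _ (e₁ x hx) (e₂ a ha)).1, show c * a.1 * x * a.2 = c * x * (a.1 * a.2) by ring]
    push_cast
    ring
  rw [e]
  refine (norm_add_le _ _).trans ((add_le_add (b₁.trans (mul_le_mul_of_nonneg_left b₂
    (by positivity))) (show _ ≤ √(∑ x ∈ s, ‖α x‖ ^ 2) * √(∑ a ∈ s', ‖β a‖ ^ 2) *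
      (4 * E ^ 4 * lam) from ?_)).trans ?_)
  · rw [norm_mul, norm_mul, Complex.norm_real, Real.norm_eq_abs]
    refine (mul_le_mul_of_nonneg_left (mul_le_mul (cs_Char s α) (cs_Char s' β) (norm_nonneg _)
      (by positivity)) (abs_nonneg _)).trans
      (le_trans (le_of_eq ?_) (mul_le_mul_of_nonneg_left b₃ (by positivity)))
    ring
  · rw [← mul_add]
    refine mul_le_mul_of_nonneg_left ?_ (by positivity)
    have h3 : E ^ 3 ≤ E ^ 4 := pow_le_pow_right₀ hE (by norm_num)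
    nlinarith [mul_le_mul_of_nonneg_right h3 (add_nonneg hl.le hX),
      mul_nonneg (pow_nonneg (zero_le_one.trans hE) 4) hX]

theorem char_stmt (hB : BlockStmt) (hR : RedStmt) (hC : CountStmt) (hP : PrinStmt) :
    CharStmt := by
  refine ⟨12, by norm_num, fun N J C C' W E lam p α β hN hC1 hC' _ hW hCE hp hD hD' hl hJ => ?_⟩
  obtain ⟨⟨⟨h1, -⟩, h2, h3⟩, h4, -⟩ := mem_Win.1 hp
  have hE := hD.1
  have hD2 : DivB p.2 E := divB_mono hD' h3 le_rfl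
  have h5 : (N : ℝ) * p.1 ≤ E * p.2 := le_trans (by exact_mod_cast h4)
    (mul_le_mul_of_nonneg_right hW (Nat.cast_nonneg _))
  have hX : 0 ≤ lam + Nat.gcd p.1 p.2 * BadQ J lam p.2 / (C * lam) := by
    have := BadQ_nonneg J lam p.2
    positivity
  have hm : ∀ n, Nat.gcd n p.2 ∈ p.2.divisors := fun n =>
    Nat.mem_divisors.2 ⟨Nat.gcd_dvd_right _ _, by omega⟩
  have e : Bil N J C' p α β = ∑ d₁ ∈ p.2.divisors, ∑ d₂ ∈ p.2.divisors,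
      ∑ x ∈ Icc N (2 * N) with Nat.gcd (p.1 * x) p.2 = d₁,
      ∑ a ∈ Ico C' (2 * C') ×ˢ Icc N (2 * N) with Nat.gcd (a.1 * a.2) p.2 = d₂,
        (((cnt J p.2 (p.1 * a.1 * x * a.2) : ℝ) - (J : ℝ) / p.2 : ℝ) : ℂ) *
          (α x * conj (β a.2)) := by
    rw [Bil, sum_comm, ← sum_fiberwise_of_maps_to (g := fun x => Nat.gcd (p.1 * x) p.2)
      fun x _ => hm _]
    refine sum_congr rfl fun d₁ _ => ?_
    rw [sum_comm (s := p.2.divisors)]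
    refine sum_congr rfl fun x _ => ?_
    rw [sum_fiberwise_of_maps_to (g := fun a : ℕ × ℕ => Nat.gcd (a.1 * a.2) p.2) fun x _ => hm _,
      sum_product]
  set Y := √(∑ x ∈ Icc N (2 * N), ‖α x‖ ^ 2) * (√(C' : ℝ) * √(∑ x ∈ Icc N (2 * N), ‖β x‖ ^ 2)) *
    (12 * E ^ 4 * (lam + Nat.gcd p.1 p.2 * BadQ J lam p.2 / (C * lam))) with hY
  have hY0 : 0 ≤ Y := by positivity
  have h6 := hD2.2 _ le_rfl
  rw [e]
  calc _ ≤ ∑ _d₁ ∈ p.2.divisors, ∑ _d₂ ∈ p.2.divisors, Y := by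
        refine norm_sum_le_of_le _ fun d₁ k₁ => norm_sum_le_of_le _ fun d₂ k₂ =>
          (block_Char hB hR hC hP α (fun a => conj (β a.2)) hN hC1 hC' hCE h1 h2 h5 hD hD2 hl hJ
            (Nat.dvd_of_mem_divisors k₁) (Nat.dvd_of_mem_divisors k₂) (filter_subset _ _)
            (filter_subset _ _) (fun _ h => (mem_filter.1 h).2)
            fun _ h => (mem_filter.1 h).2).trans ?_
        refine mul_le_mul_of_nonneg_right (mul_le_mul (Real.sqrt_le_sqrt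
          (sum_le_sum_of_subset_of_nonneg (filter_subset _ _) fun _ _ _ => sq_nonneg _)) ?_
          (Real.sqrt_nonneg _) (Real.sqrt_nonneg _)) (by positivity)
        rw [← Real.sqrt_mul (Nat.cast_nonneg _)]
        refine Real.sqrt_le_sqrt ((sum_le_sum_of_subset_of_nonneg (filter_subset _ _)
          fun _ _ _ => sq_nonneg _).trans_eq ?_)
        simp only [sum_product, Complex.norm_conj, sum_const, Nat.card_Ico, nsmul_eq_mul]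
        rw [show 2 * C' - C' = C' by omega]
    _ ≤ E * (E * (E * Y)) := by
        rw [sum_const, sum_const, nsmul_eq_mul, nsmul_eq_mul]
        gcongr
        exact le_mul_of_one_le_left hY0 hE
    _ = _ := by rw [hY]; ring

end Pool.Agent.MP_2a1f0e_nt.RF
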