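import Pool.Agent.MP_2a1f0e_nt.RF.Basic
set_option autoImplicit false
open Finset
open scoped ComplexConjugate
namespace Pool.Agent.MP_2a1f0e_nt.RF
open GM

lemma gw_Core (N T : ℕ) (b : ℕ → ℂ) {U : ℝ} (hU : 0 ≤ U) (hT : 1 ≤ T) {t : ℤ} (ht : t ∈ IT T) :
    0 ≤ gw N T b (√U) t ∧ gw N T b (√U) t ≤ U ∧ gw N T b (√U) t ≤ ‖DP N b t‖ ^ 2 := by
  have hT' : (0 : ℝ) < T := by exact_mod_cast hT
  rw [mem_IT] at ht
  have h1 : |(t : ℝ)| ≤ 2 * T := by
    have : |t| ≤ 2 * (T : ℤ) := by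
      rw [abs_le]
      omega
    exact_mod_cast this
  have h2 : 0 ≤ (2 * (T : ℝ) - |(t : ℝ)|) / (2 * T) := div_nonneg (sub_nonneg.2 h1) (by positivity)
  have h3 : (2 * (T : ℝ) - |(t : ℝ)|) / (2 * T) ≤ 1 := by
    rw [div_le_one (by positivity)]
    linarith [abs_nonneg (t : ℝ)]
  unfold gw
  split_ifs with h
  · have h4 := mul_le_of_le_one_left (sq_nonneg ‖DP N b t‖) h3
    refine ⟨by positivity, h4.trans ?_, h4⟩
    rw [← Real.sq_sqrt hU]
    exact pow_le_pow_left₀ (norm_nonneg _) h.le 2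
  · rw [mul_zero]
    exact ⟨le_rfl, hU, sq_nonneg _⟩

lemma low_Core (N T : ℕ) (b : ℕ → ℂ) {U : ℝ} (hU : 0 ≤ U) (hT : 1 ≤ T) :
    ∑ t ∈ (Icc 0 (T : ℤ)).filter (fun t : ℤ => ‖DP N b t‖ < √U), ‖DP N b t‖ ^ 4 ≤
      2 * ∑ t ∈ IT T, gw N T b (√U) t * ‖DP N b t‖ ^ 2 := by
  have hT' : (0 : ℝ) < T := by exact_mod_cast hT
  rw [mul_sum]
  refine le_trans (sum_le_sum fun t ht => ?_) (sum_le_sum_of_subset_of_nonneg
    (s := (Icc 0 (T : ℤ)).filter (fun t : ℤ => ‖DP N b t‖ < √U)) (fun t ht => ?_)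
    fun t ht _ => mul_nonneg zero_le_two (mul_nonneg (gw_Core N T b hU hT ht).1 (sq_nonneg _)))
  · rw [mem_filter, mem_Icc] at ht
    have h1 : |(t : ℝ)| ≤ T := by
      have : |t| ≤ (T : ℤ) := by
        rw [abs_le]
        omega
      exact_mod_cast this
    have h2 : 1 / 2 ≤ (2 * (T : ℝ) - |(t : ℝ)|) / (2 * T) := by
      rw [le_div_iff₀ (by positivity)]
      linarith
    rw [gw, if_pos ht.2]
    nlinarith [mul_le_mul_of_nonneg_right h2 (by positivity : 0 ≤ ‖DP N b t‖ ^ 4)]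
  · rw [mem_filter, mem_Icc] at ht
    rw [mem_IT]
    omega

lemma root_Core {N T : ℝ} (hN : 0 < N) (hT : 0 < T) (h : T ≤ N ^ 2) :
    ∃ x : ℝ, 1 ≤ x ∧ x ^ 7 * T = N ^ 2 ∧ N ^ (26 / 7 : ℝ) * T ^ (1 / 7 : ℝ) * x = N ^ 4 := by
  have h1 : ∀ y : ℝ, 0 ≤ y → (y ^ (1 / 7 : ℝ)) ^ 7 = y := fun y hy => by
    rw [← Real.rpow_natCast, ← Real.rpow_mul hy]
    norm_num
  have h2 : (N ^ (26 / 7 : ℝ)) ^ 7 = N ^ 26 := by
    rw [← Real.rpow_natCast, ← Real.rpow_mul hN.le, ← Real.rpow_natCast]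
    norm_num
  refine ⟨(N ^ 2 / T) ^ (1 / 7 : ℝ), Real.one_le_rpow ((one_le_div hT).2 h) (by norm_num), ?_, ?_⟩
  · rw [h1 _ (by positivity), div_mul_cancel₀ _ hT.ne']
  · refine (pow_left_inj₀ (n := 7) (by positivity) (by positivity) (by norm_num)).1 ?_
    rw [mul_pow, mul_pow, h1 _ hT.le, h1 _ (by positivity), h2]
    field_simp

theorem core_stmt (hA : AbsStmt) (hB : BigStmt) (hM : MassStmt) (hV : MVStmt) : CoreStmt := by
  intro ε hε
  have hη : 0 < ε / 18 := by positivity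
  obtain ⟨A, hA1, hA⟩ := hA _ hη
  obtain ⟨c, hc, hB⟩ := hB
  obtain ⟨K₁, hK₁, hM⟩ := hM _ hη
  obtain ⟨K₂, hK₂, hV⟩ := hV _ hη
  obtain ⟨A', a1, a2, a3⟩ : ∃ A' : ℝ, A ≤ A' ∧ c + 2 * K₁ ≤ A' ∧ c * (1 + 1 / (ε / 18)) ≤ A' := by
    have : 0 ≤ c * (1 + 1 / (ε / 18)) := by positivity
    exact ⟨A + c + 2 * K₁ + c * (1 + 1 / (ε / 18)), by linarith, by linarith, by linarith⟩
  have a0 : 0 < A' := by linarith
  have A0 : 0 < A := by linarith
  refine ⟨2 * A * (1 + 4 * A' ^ 17) + 4 * K₂, by positivity, fun N T hN hNT hT b hb => ?_⟩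
  have hT1 : 1 ≤ T := hN.trans hNT
  have hN' : (1 : ℝ) ≤ N := by exact_mod_cast hN
  have hT' : (1 : ℝ) ≤ T := by exact_mod_cast hT1
  obtain ⟨x, x1, x2, x3⟩ := root_Core (N := N) (T := T) (by linarith) (by linarith)
    (by exact_mod_cast hT)
  have hR : 0 ≤ (N : ℝ) ^ (26 / 7 : ℝ) * (T : ℝ) ^ (1 / 7 : ℝ) := by positivity
  generalize (N : ℝ) ^ (26 / 7 : ℝ) * (T : ℝ) ^ (1 / 7 : ℝ) = R at x3 hR ⊢
  have e18 : (N : ℝ) ^ ε = ((N : ℝ) ^ (ε / 18)) ^ 18 := by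
    rw [← Real.rpow_natCast, ← Real.rpow_mul (by linarith)]
    congr 1
    push_cast
    ring
  have n1 : 1 ≤ (N : ℝ) ^ (ε / 18) := Real.one_le_rpow hN' hη.le
  have hlog := Real.log_le_rpow_div (x := N) (by linarith) hη
  have hA' := hA N T
  have hM' := hM N T hN hNT hT b hb
  have hV' := (hV N T hN hNT hT b hb).2
  rw [e18]
  generalize (N : ℝ) ^ (ε / 18) = n at n1 hlog hA' hM' hV' ⊢
  have n0 : 0 < n := by linarith
  have n18 : 1 ≤ n ^ 18 := one_le_pow₀ n1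
  by_cases h : 2 ≤ N ∧ n ≤ x / (4 * n)
  · have hU : 0 ≤ (N : ℝ) * √(T : ℝ) := by positivity
    have h1 := hA' (A' * n) (x / (4 * n)) (N * √(T : ℝ)) (gw N T b √(N * √(T : ℝ))) b h.1 hNT hT h.2
      (by
        rw [div_pow, ← x2, mul_assoc (4 * n), div_mul_eq_mul_div, ← mul_div_assoc,
          div_le_iff₀ (by positivity), mul_comm]
        exact mul_le_mul_of_nonneg_left (le_self_pow₀ (by linarith) (by norm_num)) (by positivity))
      (mul_le_mul_of_nonneg_right a1 n0.le) hb (fun t ht => gw_Core N T b hU hT1 ht)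
      ((hB N T b _ _ hN hNT hT hb hM').mono
        (by
          have h2 : c + 2 * (K₁ * n) ≤ A' * n := by nlinarith
          nlinarith [mul_le_mul_of_nonneg_right h2 (sq_nonneg (N : ℝ))])
        (by
          have h2 : 1 + Real.log N ≤ (1 + 1 / (ε / 18)) * n := by
            rw [add_mul, one_mul, one_div_mul_eq_div]
            linarith
          have h3 : c * (1 + Real.log N) ≤ A' * n := by
            nlinarith [mul_le_mul_of_nonneg_left h2 hc.le]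
          nlinarith [mul_le_mul_of_nonneg_right h3
            (by positivity : 0 ≤ (T : ℝ) ^ 2 * (N : ℝ) ^ 2)]))
    have h4 : (N : ℝ) ^ 2 * (N * √(T : ℝ)) ≤ R := by
      have h5 : √(T : ℝ) * x ≤ N := by
        refine (pow_le_pow_iff_left₀ (n := 2) (by positivity) (by positivity) (by norm_num)).1 ?_
        rw [mul_pow, Real.sq_sqrt (by linarith), ← x2, mul_comm]
        exact mul_le_mul_of_nonneg_right (pow_le_pow_right₀ x1 (by norm_num)) (by linarith)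
      refine le_of_mul_le_mul_right ?_ (by linarith : 0 < x)
      rw [x3]
      nlinarith [mul_le_mul_of_nonneg_left h5 (by positivity : 0 ≤ (N : ℝ) ^ 3)]
    have h6 : (N : ℝ) ^ 4 / (x / (4 * n)) = 4 * n * R := by
      rw [← x3]
      field_simp
    rw [h6] at h1
    have h7 : (N : ℝ) ^ 2 * (N * √(T : ℝ)) + (A' * n) ^ 17 * (4 * n * R) ≤
        (1 + 4 * A' ^ 17) * (n ^ 18 * R) := by
      nlinarith [mul_le_mul_of_nonneg_right n18 hR]
    have h8 := mul_le_mul_of_nonneg_left h7 A0.le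
    have h9 : 0 ≤ K₂ * (n ^ 18 * R) := by positivity
    refine (low_Core N T b hU hT1).trans ?_
    nlinarith
  · have h1 : x ≤ 4 * n ^ 2 := by
      rcases not_and_or.1 h with h2 | h2
      · have h3 : N = 1 := by omega
        subst h3
        have h4 : x ^ 7 ≤ 1 := by
          have : 0 ≤ x ^ 7 := by positivity
          push_cast at x2
          nlinarith
        have h5 := (pow_le_one_iff_of_nonneg (by linarith) (by norm_num)).1 h4
        nlinarith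
      · rw [not_le, div_lt_iff₀ (by positivity)] at h2
        nlinarith
    refine (sum_le_sum_of_subset_of_nonneg (filter_subset _ _) fun _ _ _ => by positivity).trans
      (hV'.trans ?_)
    have h2 : n * x ≤ 4 * n ^ 18 := by
      have : n ^ 3 ≤ n ^ 18 := pow_le_pow_right₀ n1 (by norm_num)
      nlinarith [mul_le_mul_of_nonneg_left h1 n0.le]
    have h3 := mul_le_mul_of_nonneg_left h2 (mul_nonneg hK₂.le hR)
    have h4 : 0 ≤ 2 * A * (1 + 4 * A' ^ 17) * (n ^ 18 * R) := by positivity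
    rw [← x3]
    nlinarith

end Pool.Agent.MP_2a1f0e_nt.RF
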