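import Pool.Agent.MP_2a1f0e_nt.RF.Basic

set_option autoImplicit false

open Finset
open scoped ComplexConjugate

namespace Pool.Agent.MP_2a1f0e_nt.RF

open GM

theorem class_Count (a L m : ℕ) (t : Finset ℕ) (_hm : 1 ≤ m) (ht : t ⊆ Icc a (a + L))
    (h : ∀ x ∈ t, ∀ x' ∈ t, x ≡ x' [MOD m]) : (t.card : ℝ) ≤ 1 + (L : ℝ) / m := by
  have h1 : t.card ≤ (range (L / m + 1)).card := by
    refine card_le_card_of_injOn (fun x => (x - a) / m) ?_ ?_
    · intro x hx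
      have := mem_Icc.1 (ht hx)
      simp only [coe_range, Set.mem_Iio]
      exact Nat.lt_succ_of_le (Nat.div_le_div_right (by omega))
    · intro x hx x' hx' e
      have h2 := mem_Icc.1 (ht hx)
      have h3 := mem_Icc.1 (ht hx')
      have h4 : x - a ≡ x' - a [MOD m] := by
        have h5 := h x hx x' hx'
        apply Nat.ModEq.add_right_cancel' a
        rwa [Nat.sub_add_cancel h2.1, Nat.sub_add_cancel h3.1]
      have h6 := Nat.div_add_mod (x - a) m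
      have h7 := Nat.div_add_mod (x' - a) m
      have e' : (x - a) / m = (x' - a) / m := e
      have h8 : (x - a) % m = (x' - a) % m := h4
      rw [e', h8] at h6
      omega
  rw [card_range] at h1
  have h2 : ((L / m : ℕ) : ℝ) ≤ (L : ℝ) / m := Nat.cast_div_le
  have h3 : (t.card : ℝ) ≤ ((L / m + 1 : ℕ) : ℝ) := by exact_mod_cast h1
  push_cast at h3
  linarith

theorem mult_Count (X m : ℕ) (t : Finset ℕ) (ht : t ⊆ Icc 1 X) (h : ∀ x ∈ t, m ∣ x) :
    (t.card : ℝ) ≤ (X : ℝ) / m := by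
  have h1 : t ⊆ (Ioc 0 X).filter fun x => m ∣ x := by
    intro x hx
    have := mem_Icc.1 (ht hx)
    exact mem_filter.2 ⟨mem_Ioc.2 ⟨by omega, this.2⟩, h x hx⟩
  have h2 := card_le_card h1
  rw [Nat.Ioc_filter_dvd_card_eq_div] at h2
  have h3 : ((X / m : ℕ) : ℝ) ≤ (X : ℝ) / m := Nat.cast_div_le
  exact le_trans (by exact_mod_cast h2) h3

theorem red_Count (c Q m : ℕ) (X : ℝ) (hX : 0 ≤ X) (hQ : 1 ≤ Q) (hm : m ∣ Q) :
    1 ≤ m / Nat.gcd m c ∧ X / ((m / Nat.gcd m c : ℕ) : ℝ) ≤ X * Nat.gcd c Q / m := by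
  have hm0 : 0 < m := Nat.pos_of_dvd_of_pos hm hQ
  have hg : 0 < Nat.gcd m c := Nat.gcd_pos_of_pos_left _ hm0
  have h1 : 1 ≤ m / Nat.gcd m c :=
    Nat.div_pos (Nat.le_of_dvd hm0 (Nat.gcd_dvd_left _ _)) hg
  refine ⟨h1, ?_⟩
  have h2 : Nat.gcd m c ≤ Nat.gcd c Q :=
    Nat.le_of_dvd (Nat.gcd_pos_of_pos_right _ hQ)
      (Nat.dvd_gcd (Nat.gcd_dvd_right _ _) ((Nat.gcd_dvd_left _ _).trans hm))
  have h3 : m ≤ Nat.gcd c Q * (m / Nat.gcd m c) := by
    calc m = Nat.gcd m c * (m / Nat.gcd m c) :=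
          (Nat.mul_div_cancel' (Nat.gcd_dvd_left _ _)).symm
      _ ≤ _ := Nat.mul_le_mul_right _ h2
  have h4 : (m : ℝ) ≤ (Nat.gcd c Q : ℝ) * ((m / Nat.gcd m c : ℕ) : ℝ) := by exact_mod_cast h3
  have h5 : (0 : ℝ) < ((m / Nat.gcd m c : ℕ) : ℝ) := by exact_mod_cast h1
  have h6 : (0 : ℝ) < m := by exact_mod_cast hm0
  rw [div_le_div_iff₀ h5 h6, mul_assoc]
  exact mul_le_mul_of_nonneg_left h4 hX

theorem one_Count (N c Q d q : ℕ) (t : Finset ℕ) (hN : 1 ≤ N) (hQ : 1 ≤ Q) (hd : d * q ∣ Q)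
    (ht : t ⊆ Icc N (2 * N)) (h : ∀ x ∈ t, Nat.gcd (c * x) Q = d) :
    (t.card : ℝ) ≤ 3 * N * Nat.gcd c Q / d ∧
      ((∀ x ∈ t, ∀ x' ∈ t, c * x / d ≡ c * x' / d [MOD q]) →
        (t.card : ℝ) ≤ 1 + N * Nat.gcd c Q / (d * q)) := by
  have hdQ : d ∣ Q := (Dvd.intro _ rfl).trans hd
  have hd0 : 0 < d := Nat.pos_of_dvd_of_pos hdQ hQ
  have hdx : ∀ x ∈ t, d ∣ c * x := fun x hx => h x hx ▸ Nat.gcd_dvd_left _ _
  constructor
  · have h1 := red_Count c Q d ((2 * N : ℕ) : ℝ) (Nat.cast_nonneg _) hQ hdQ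
    have h2 := mult_Count (2 * N) (d / Nat.gcd d c) t
      (ht.trans (Icc_subset_Icc hN le_rfl)) (fun x hx => by
        have h3 : c * x ≡ c * 0 [MOD d] := by
          rw [mul_zero]
          exact (Nat.modEq_zero_iff_dvd).2 (hdx x hx)
        exact (Nat.modEq_zero_iff_dvd).1 (h3.cancel_left_div_gcd hd0))
    refine (h2.trans h1.2).trans ?_
    push_cast
    gcongr
    norm_num
  · intro hc
    have h1 := red_Count c Q (d * q) (N : ℝ) (Nat.cast_nonneg _) hQ hd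
    have h2 := class_Count N N (d * q / Nat.gcd (d * q) c) t h1.1
      (by rwa [← two_mul]) (fun x hx x' hx' => by
        have h3 := (hc x hx x' hx').mul_left' (c := d)
        rw [Nat.mul_div_cancel' (hdx x hx), Nat.mul_div_cancel' (hdx x' hx')] at h3
        exact h3.cancel_left_div_gcd (Nat.pos_of_dvd_of_pos hd hQ))
    have h3 := h1.2
    push_cast at h3 h2 ⊢
    linarith

theorem fib_Count (N C' : ℕ) (Δ : ℝ) (t : Finset (ℕ × ℕ)) (hN : 1 ≤ N) (_hC : 1 ≤ C')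
    (hΔ : DivB (4 * N * C') Δ) (ht : t ⊆ Ico C' (2 * C') ×ˢ Icc N (2 * N)) :
    t.image (fun a => a.1 * a.2) ⊆ Icc 1 (4 * N * C') ∧
      (t.card : ℝ) ≤ Δ * (t.image (fun a => a.1 * a.2)).card := by
  have h1 : t.image (fun a => a.1 * a.2) ⊆ Icc 1 (4 * N * C') := by
    intro n hn
    obtain ⟨a, ha, rfl⟩ := mem_image.1 hn
    have h2 := mem_product.1 (ht ha)
    have h3 := mem_Ico.1 h2.1
    have h4 := mem_Icc.1 h2.2
    refine mem_Icc.2 ⟨Nat.mul_pos (by omega) (by omega), ?_⟩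
    calc a.1 * a.2 ≤ (2 * C') * (2 * N) := Nat.mul_le_mul h3.2.le h4.2
      _ = 4 * N * C' := by ring
  refine ⟨h1, ?_⟩
  rw [card_eq_sum_card_image (fun a : ℕ × ℕ => a.1 * a.2) t]
  push_cast
  rw [mul_comm, ← nsmul_eq_mul]
  refine sum_le_card_nsmul _ _ _ fun n hn => ?_
  have h2 := mem_Icc.1 (h1 hn)
  refine le_trans ?_ (hΔ.2 n h2.2)
  have h3 : (t.filter fun a => a.1 * a.2 = n).card ≤ n.divisors.card := by
    refine card_le_card_of_injOn (fun a => a.1) ?_ ?_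
    · intro a ha
      have h4 := (mem_filter.1 ha).2
      exact Nat.mem_divisors.2 ⟨Dvd.intro _ h4, by omega⟩
    · intro a ha a' ha' e
      have h4 := (mem_filter.1 ha).2
      have h5 := (mem_filter.1 ha').2
      have e' : a.1 = a'.1 := e
      have h6 : a.1 ≠ 0 := by
        intro h0
        rw [h0] at h4
        omega
      refine Prod.ext e' ?_
      rw [← e', ← h4] at h5
      exact (Nat.eq_of_mul_eq_mul_left (Nat.pos_of_ne_zero h6) h5).symm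
  exact_mod_cast h3

theorem two_Count (N C' d q : ℕ) (Δ : ℝ) (t : Finset (ℕ × ℕ)) (hN : 1 ≤ N) (hC : 1 ≤ C')
    (hd : 1 ≤ d) (hq : 1 ≤ q) (hΔ : DivB (4 * N * C') Δ)
    (ht : t ⊆ Ico C' (2 * C') ×ˢ Icc N (2 * N)) (h : ∀ a ∈ t, d ∣ a.1 * a.2) :
    (t.card : ℝ) ≤ Δ * (4 * N * C' / d) ∧
      ((∀ a ∈ t, ∀ a' ∈ t, a.1 * a.2 / d ≡ a'.1 * a'.2 / d [MOD q]) →
        (t.card : ℝ) ≤ Δ * (1 + 4 * N * C' / (d * q))) := by
  obtain ⟨h1, h2⟩ := fib_Count N C' Δ t hN hC hΔ ht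
  have hΔ0 : 0 ≤ Δ := zero_le_one.trans hΔ.1
  constructor
  · have h3 := mult_Count (4 * N * C') d _ h1 (fun n hn => by
      obtain ⟨a, ha, rfl⟩ := mem_image.1 hn
      exact h a ha)
    push_cast at h3
    exact h2.trans (mul_le_mul_of_nonneg_left h3 hΔ0)
  · intro hc
    have h3 := class_Count 0 (4 * N * C') (d * q) (t.image (fun a => a.1 * a.2))
      (Nat.mul_pos hd hq) (h1.trans (Icc_subset_Icc (Nat.zero_le _) (by omega)))
      (fun n hn n' hn' => by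
        obtain ⟨a, ha, rfl⟩ := mem_image.1 hn
        obtain ⟨a', ha', rfl⟩ := mem_image.1 hn'
        have h3 := (hc a ha a' ha').mul_left' (c := d)
        rwa [Nat.mul_div_cancel' (h a ha), Nat.mul_div_cancel' (h a' ha')] at h3)
    push_cast at h3
    exact h2.trans (mul_le_mul_of_nonneg_left h3 hΔ0)

theorem three_Count (C Q : ℕ) (hQ : 1 ≤ Q) :
    ∑ c ∈ Ico C (2 * C), (Nat.gcd c Q : ℝ) ≤ 3 * C * Q.divisors.card := by
  rcases Nat.eq_zero_or_pos C with rfl | hC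
  · simp
  have h1 : ∀ c ∈ Ico C (2 * C),
      (Nat.gcd c Q : ℝ) ≤ ∑ e ∈ Q.divisors, if e ∣ c then (e : ℝ) else 0 := by
    intro c _
    have h2 : Nat.gcd c Q ∈ Q.divisors :=
      Nat.mem_divisors.2 ⟨Nat.gcd_dvd_right _ _, by omega⟩
    have h3 := single_le_sum (f := fun e : ℕ => if e ∣ c then (e : ℝ) else 0)
      (fun e _ => by split_ifs <;> positivity) h2
    simpa [Nat.gcd_dvd_left] using h3
  refine (sum_le_sum h1).trans ?_
  rw [sum_comm, mul_comm (3 * (C : ℝ)), ← nsmul_eq_mul]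
  refine sum_le_card_nsmul _ _ _ fun e he => ?_
  have he0 : 0 < e := Nat.pos_of_mem_divisors he
  have he1 : (0 : ℝ) < e := by exact_mod_cast he0
  rw [← sum_filter, sum_const, nsmul_eq_mul]
  have h2 := mult_Count (2 * C) e ((Ico C (2 * C)).filter fun c => e ∣ c)
    (fun c hc => by
      have := mem_Ico.1 (mem_filter.1 hc).1
      exact mem_Icc.2 ⟨by omega, this.2.le⟩) (fun c hc => (mem_filter.1 hc).2)
  rw [le_div_iff₀ he1] at h2
  push_cast at h2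
  have h3 : (0 : ℝ) ≤ C := Nat.cast_nonneg _
  linarith

theorem count_stmt : CountStmt :=
  ⟨fun N c Q d q t hN _ hQ hd ht h => one_Count N c Q d q t hN hQ hd ht h,
    fun N C' d q Δ t hN hC hd hq hΔ ht h => two_Count N C' d q Δ t hN hC hd hq hΔ ht h,
    three_Count⟩

end Pool.Agent.MP_2a1f0e_nt.RF
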