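import Pool.Agent.MP_2a1f0e_nt.RF.Basic

set_option autoImplicit false

open Finset
open scoped ComplexConjugate

namespace Pool.Agent.MP_2a1f0e_nt.RF

open GM

theorem term_Dy {A x : ℝ} {k : ℕ} (hA : 0 < A) (hx0 : 0 ≤ x) (hk : 1 ≤ k) :
    (if A < x then x else 0) ≤ A * (x / A) ^ k := by
  split_ifs with hx
  · have h1 : 1 ≤ x / A := by
      rw [le_div_iff₀ hA]
      linarith
    have h2 : x / A ≤ (x / A) ^ k := le_self_pow₀ h1 (by omega)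
    calc x = A * (x / A) := by field_simp
      _ ≤ A * (x / A) ^ k := by gcongr
  · positivity

theorem bad_le_Dy {J m r k : ℕ} {lam : ℝ} (hA : 0 < lam ^ 2) (hk : 1 ≤ k) :
    Bad J lam m r ≤
      lam ^ 2 * ((m : ℝ) / lam ^ 2) ^ k * ∑ χ ∈ prim r, ‖Sc r χ (J / m)‖ ^ (2 * k) := by
  unfold Bad
  rw [mul_sum]
  refine sum_le_sum fun χ _ => ?_
  refine (term_Dy hA (by positivity) hk).trans (le_of_eq ?_)
  rw [pow_mul, mul_assoc, ← mul_pow]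
  congr 2
  ring

theorem dy_stmt (hM : MomStmt) (hT : TrivStmt) (hS : SelStmt) : DyStmt := by
  obtain ⟨c, hc, hM⟩ := hM
  refine ⟨4 * c, by positivity, ?_⟩
  intro J m R κ lam D Y Δ hJ hm hR hD hY hlam hJD hJ3 hκ hRY hΔ
  have hΔ1 : 1 ≤ Δ := hΔ.1
  have hJ0 : (0 : ℝ) < J := by exact_mod_cast hJ
  have hm0 : (0 : ℝ) < m := by exact_mod_cast hm
  have hR0 : (0 : ℝ) < R := by exact_mod_cast hR
  have hD0 : 0 < D := by linarith
  have hA : 0 < lam ^ 2 := by rw [hlam]; positivity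
  have hLJ : J / m ≤ J := Nat.div_le_self _ _
  have hmL : (m : ℝ) * ((J / m : ℕ) : ℝ) ≤ J := by exact_mod_cast Nat.mul_div_le J m
  have hL0 : (0 : ℝ) ≤ ((J / m : ℕ) : ℝ) := Nat.cast_nonneg _
  by_cases hcase : D ^ 2 * ((J / m : ℕ) : ℝ) < (2 * (R : ℝ)) ^ 2
  · obtain ⟨k, hk2, hkκ, h1, h2⟩ := hS J ((J / m : ℕ) : ℝ) (2 * R) D Y κ hL0
      (by exact_mod_cast hLJ) hD hY (by positivity) hJD hJ3 hκ hRY hcase
    have hk1 : 1 ≤ k := by omega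
    have hdv : DivB ((J / m) ^ k) Δ := divB_mono hΔ
      ((Nat.pow_le_pow_left hLJ k).trans (Nat.pow_le_pow_right hJ hkκ)) le_rfl
    have hmom := hM k (2 * R) (J / m) Δ hk1 hdv
    push_cast at hmom
    set L : ℝ := ((J / m : ℕ) : ℝ) with hL
    have hsub : Ioc R (2 * R) ⊆ Icc 1 (2 * R) := by
      intro r hr
      rw [mem_Ioc] at hr
      rw [mem_Icc]
      omega
    have hDk : 0 < D ^ (2 * k) := by positivity
    have hq : ((m : ℝ) / lam ^ 2) ^ k * L ^ k * D ^ (2 * k) ≤ 1 := by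
      rw [pow_mul, ← mul_pow, ← mul_pow]
      refine pow_le_one₀ (by positivity) ?_
      rw [hlam, div_mul_eq_mul_div, div_mul_eq_mul_div, div_le_one (by positivity)]
      nlinarith [mul_le_mul_of_nonneg_left hmL (sq_nonneg D)]
    have hsum : (2 * (R : ℝ)) ^ 2 + L ^ k ≤ 4 * R * Y * D ^ (2 * k) := by
      have h3 : (2 * (R : ℝ)) ^ 2 ≤ 2 * R * (Y * D ^ (2 * k)) := by
        rw [sq]
        gcongr
      linarith
    have hΔk : Δ ^ k ≤ Δ ^ κ := pow_le_pow_right₀ hΔ1 hkκ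
    calc ∑ r ∈ Ioc R (2 * R), Bad J lam m r
        ≤ ∑ r ∈ Icc 1 (2 * R), Bad J lam m r :=
          sum_le_sum_of_subset_of_nonneg hsub fun r _ _ => Bad_nonneg _ _ _ _
      _ ≤ ∑ r ∈ Icc 1 (2 * R), lam ^ 2 * ((m : ℝ) / lam ^ 2) ^ k *
            ∑ χ ∈ prim r, ‖Sc r χ (J / m)‖ ^ (2 * k) :=
          sum_le_sum fun r _ => bad_le_Dy hA hk1
      _ = lam ^ 2 * ((m : ℝ) / lam ^ 2) ^ k *
            ∑ r ∈ Icc 1 (2 * R), ∑ χ ∈ prim r, ‖Sc r χ (J / m)‖ ^ (2 * k) := by rw [mul_sum]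
      _ ≤ lam ^ 2 * ((m : ℝ) / lam ^ 2) ^ k *
            (c * ((2 * (R : ℝ)) ^ 2 + L ^ k) * (Δ ^ k * L ^ k)) := by gcongr
      _ ≤ lam ^ 2 * ((m : ℝ) / lam ^ 2) ^ k *
            (c * (4 * R * Y * D ^ (2 * k)) * (Δ ^ κ * L ^ k)) := by gcongr
      _ = 4 * c * Δ ^ κ * lam ^ 2 * R * Y * (((m : ℝ) / lam ^ 2) ^ k * L ^ k * D ^ (2 * k)) := by
          ring
      _ ≤ 4 * c * Δ ^ κ * lam ^ 2 * R * Y * 1 := by gcongr
      _ = 4 * c * Δ ^ κ * lam ^ 2 * R * Y := mul_one _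
  · have h0 : ∑ r ∈ Ioc R (2 * R), Bad J lam m r = 0 := by
      refine sum_eq_zero fun r hr => ?_
      rw [mem_Ioc] at hr
      unfold Bad
      refine sum_eq_zero fun χ hχ => ?_
      rw [if_neg]
      rw [not_lt] at hcase ⊢
      have h1 : ‖Sc r χ (J / m)‖ ≤ 2 * (R : ℝ) :=
        (hT r (J / m) (by omega) χ hχ).trans (by exact_mod_cast hr.2)
      have h2 : ‖Sc r χ (J / m)‖ ^ 2 ≤ (2 * (R : ℝ)) ^ 2 := by gcongr
      calc (m : ℝ) * ‖Sc r χ (J / m)‖ ^ 2 ≤ m * (D ^ 2 * ((J / m : ℕ) : ℝ)) := by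
            gcongr
            exact h2.trans hcase
        _ = D ^ 2 * (m * ((J / m : ℕ) : ℝ)) := by ring
        _ ≤ D ^ 2 * J := by gcongr
        _ = lam ^ 2 := hlam.symm
    rw [h0]
    positivity

end Pool.Agent.MP_2a1f0e_nt.RF
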