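import Pool.Agent.MP_2a1f0e_nt.RF.Basic

set_option autoImplicit false

open Finset
open scoped ComplexConjugate

namespace Pool.Agent.MP_2a1f0e_nt.RF

open GM

lemma floor_Edge {a b c d t : ℝ} (h : a + b = c + d + t) (t0 : 0 ≤ t) (t3 : t ≤ 3) :
    |((⌊a⌋ - (⌊c⌋ + ⌊d⌋ - ⌊b⌋) : ℤ) : ℝ)| ≤ 5 := by
  have a1 := Int.floor_le a
  have a2 := Int.lt_floor_add_one a
  have b1 := Int.floor_le b
  have b2 := Int.lt_floor_add_one b
  have c1 := Int.floor_le c
  have c2 := Int.lt_floor_add_one c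
  have d1 := Int.floor_le d
  have d2 := Int.lt_floor_add_one d
  push_cast
  rw [abs_le]
  constructor <;> linarith

lemma split_Edge {o₁ o₂ δ : ℝ} (A A' : ℂ) (h : |o₁ - o₂| ≤ δ) (h0 : 0 ≤ o₂) (h1 : o₂ ≤ 1) :
    ‖(o₁ : ℂ) * A - o₂ * A'‖ ≤ δ * ‖A‖ + ‖A - A'‖ := by
  rw [show (o₁ : ℂ) * A - o₂ * A' = ((o₁ - o₂ : ℝ) : ℂ) * A + o₂ * (A - A') by push_cast; ring]
  refine (norm_add_le _ _).trans (add_le_add ?_ ?_)
  · rw [norm_mul, Complex.norm_real, Real.norm_eq_abs]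
    exact mul_le_mul_of_nonneg_right h (norm_nonneg _)
  · rw [norm_mul, Complex.norm_real, Real.norm_of_nonneg h0]
    exact mul_le_of_le_one_left (norm_nonneg _) h1

theorem edge_stmt (hB : BijStmt) (hR : ReflStmt) (hO : OmStmt) (hG : GeoStmt) : EdgeStmt := by
  obtain ⟨c, hc, hR⟩ := hR
  refine ⟨11 * c, by positivity, fun N T J C C' K P E Y MM g b hp hg P2 YP PY hb => ?_⟩
  have T1 : 1 ≤ T := hp.N1.trans hp.NT
  have K1 := hp.K1
  have Y0 : 0 < Y := by linarith [hp.Y1]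
  obtain ⟨e1, e2⟩ := hB N T J C C' K P Y g b hp.N1 T1 hp.C1 hp.C1' K1 hp.Y1 P2 hp.JU
  obtain ⟨r1, r2⟩ := hR N T J C C' K (25 * K) E Y MM g b hp hg (by omega) (by omega) hb
  obtain ⟨o1, -, -, o4, -⟩ := hO N P K (by omega)
  rw [e1, e2, ← sum_sub_distrib]
  refine (norm_sum_le _ _).trans ((sum_le_sum (g := fun e : ED =>
    10 / Y * ‖av T g b e.p e.x * conj (av T g b e.p e.z)‖ +
      ‖av T g b e.p e.x * conj (av T g b e.p e.z) - av T g b e.r e.x * conj (av T g b e.r e.z)‖)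
    fun e he => split_Edge _ _ ?_ (o1 _).1 (o1 _).2).trans ?_)
  · obtain ⟨-, -, -, -, -, -, θ, t0, t1, -, -, -, t2⟩ :=
      hG N T J C C' (25 * K) Y e hp.N1 T1 hp.C1 hp.C1' (by omega) hp.Y1 hp.JU he
    have T1' : (1 : ℝ) ≤ T := by exact_mod_cast T1
    have t3 : P * θ ≤ 3 := by
      have h1 := mul_le_mul_of_nonneg_right PY t0
      have h2 := mul_le_mul_of_nonneg_right T1' (mul_nonneg Y0.le t0)
      nlinarith
    have k := floor_Edge (a := P * Real.log (yv e.p)) (b := P * Real.log (yv e.r))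
      (c := P * Real.log e.x) (d := P * Real.log e.z) (t := P * θ)
      (by rw [← mul_add, t2]; ring) (by positivity) t3
    refine (o4 _ _).trans ?_
    exact div_le_div₀ (by norm_num) (by unfold uu; linarith) Y0 YP
  · rw [sum_add_distrib, ← mul_sum]
    have := mul_le_mul_of_nonneg_left r2 (by positivity : 0 ≤ 10 / Y)
    have e : 10 / Y * (c * E ^ 16 * (Y * Err N J C C' Y MM)) =
        10 * (c * E ^ 16 * Err N J C C' Y MM) := by field_simp
    linarith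

end Pool.Agent.MP_2a1f0e_nt.RF
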