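import Pool.Agent.MP_2a1f0e_nt.RF.Basic

set_option autoImplicit false

open Finset
open scoped ComplexConjugate

namespace Pool.Agent.MP_2a1f0e_nt.RF

open GM

lemma fib_EdgeMult {α β : Type} [DecidableEq β] (s : Finset α) (f : α → β) (B : ℝ)
    (h : ∀ y ∈ s.image f, ((s.filter fun a => f a = y).card : ℝ) ≤ B) :
    (s.card : ℝ) ≤ B * (s.image f).card := by
  rw [card_eq_sum_card_image f s]
  push_cast
  calc ∑ y ∈ s.image f, ((s.filter fun a => f a = y).card : ℝ) ≤ ∑ _y ∈ s.image f, B :=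
        sum_le_sum h
    _ = B * (s.image f).card := by rw [sum_const, nsmul_eq_mul, mul_comm]

lemma cong_EdgeMult (q M : ℕ) (t : Finset ℕ) (ht : ∀ a ∈ t, a ≤ M)
    (hc : ∀ a ∈ t, ∀ b ∈ t, a ≡ b [MOD q]) : t.card ≤ M / q + 1 := by
  rw [← card_range (M / q + 1)]
  apply card_le_card_of_injOn (fun a => a / q)
  · intro a ha
    simp only [coe_range, Set.mem_Iio]
    exact Nat.lt_succ_of_le (Nat.div_le_div_right (ht a ha))
  · intro a ha b hb hab
    have h1 : a % q = b % q := hc a ha b hb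
    have h2 : a / q = b / q := hab
    rw [← Nat.div_add_mod a q, ← Nat.div_add_mod b q, h1, h2]

lemma pairs_EdgeMult (X Q M J : ℕ) (hQ : 0 < Q) (t : Finset (ℕ × ℕ))
    (ht : ∀ a ∈ t, a.1 ≤ M ∧ 1 ≤ a.2 ∧ a.2 ≤ J ∧ Q ∣ X * a.1 + a.2) :
    (t.card : ℝ) ≤ J + J * (M / Q) := by
  set d := Nat.gcd Q X with hd
  have hd0 : 0 < d := Nat.gcd_pos_of_pos_left _ hQ
  have hdQ : d ∣ Q := Nat.gcd_dvd_left _ _
  have hdX : d ∣ X := Nat.gcd_dvd_right _ _
  have h1 : t.card ≤ (M / (Q / d) + 1) * ((Ioc 0 J).filter fun j => d ∣ j).card := by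
    apply card_le_mul_card_image_of_maps_to (f := Prod.snd)
    · intro a ha
      obtain ⟨_, h2, h3, h4⟩ := ht a ha
      rw [mem_filter, mem_Ioc]
      refine ⟨⟨h2, h3⟩, ?_⟩
      exact (Nat.dvd_add_right (Dvd.dvd.mul_right hdX _)).1 (hdQ.trans h4)
    · intro j _
      have hinj : Set.InjOn Prod.fst ((t.filter fun a => a.2 = j : Finset (ℕ × ℕ)) :
          Set (ℕ × ℕ)) := by
        intro a ha b hb hab
        rw [mem_coe, mem_filter] at ha hb
        exact Prod.ext hab (ha.2.trans hb.2.symm)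
      rw [← card_image_of_injOn hinj]
      apply cong_EdgeMult
      · intro a ha
        obtain ⟨b, hb, rfl⟩ := mem_image.1 ha
        exact (ht b (mem_filter.1 hb).1).1
      · intro a ha a' ha'
        obtain ⟨b, hb, rfl⟩ := mem_image.1 ha
        obtain ⟨b', hb', rfl⟩ := mem_image.1 ha'
        rw [mem_filter] at hb hb'
        have e1 := (ht b hb.1).2.2.2
        have e2 := (ht b' hb'.1).2.2.2
        rw [hb.2] at e1
        rw [hb'.2] at e2
        have e3 : X * b.1 + j ≡ X * b'.1 + j [MOD Q] :=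
          ((Nat.modEq_zero_iff_dvd.2 e1).trans (Nat.modEq_zero_iff_dvd.2 e2).symm)
        exact Nat.ModEq.cancel_left_div_gcd hQ (Nat.ModEq.add_right_cancel' j e3)
  rw [Nat.Ioc_filter_dvd_card_eq_div] at h1
  have hdR : (1 : ℝ) ≤ d := by exact_mod_cast hd0
  have hQR : (0 : ℝ) < Q := by exact_mod_cast hQ
  have h2 : ((M / (Q / d) : ℕ) : ℝ) ≤ M / Q * d := by
    refine Nat.cast_div_le.trans (le_of_eq ?_)
    rw [Nat.cast_div hdQ (by positivity)]
    field_simp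
  have h3 : ((J / d : ℕ) : ℝ) ≤ J / d := Nat.cast_div_le
  have h4 : (t.card : ℝ) ≤ (((M / (Q / d) : ℕ) : ℝ) + 1) * ((J / d : ℕ) : ℝ) := by
    exact_mod_cast h1
  have h5 : (J : ℝ) / d ≤ J := div_le_self (by positivity) hdR
  calc (t.card : ℝ) ≤ (M / Q * d + 1) * (J / d) := by
        refine h4.trans ?_
        gcongr
    _ = J / d + J * (M / Q) := by field_simp; ring
    _ ≤ J + J * (M / Q) := by linarith

lemma fibre_EdgeMult (N J C C' W : ℕ) (E : ℝ) (hN : 1 ≤ N) (hC' : 1 ≤ C') (hW : (W : ℝ) ≤ E)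
    (hCE : (C' : ℝ) ≤ E * C) (hd : DivB (4 * N * C') E) (s : Finset ED)
    (hs : s ⊆ Edg N J C C' W) (y : (ℕ × ℕ) × ℕ) (hy : ∀ e ∈ s, (e.p, e.x) = y) :
    (s.card : ℝ) ≤ 5 * E ^ 3 * J := by
  classical
  have hE : 1 ≤ E := hd.1
  rcases s.eq_empty_or_nonempty with rfl | ⟨e₀, he₀⟩
  · simp only [card_empty, Nat.cast_zero]
    positivity
  have hp : y.1 ∈ Win N C W := by
    rw [← hy e₀ he₀]
    exact (mem_Edg.1 (hs he₀)).1.1
  rw [mem_Win] at hp
  have hQ : 0 < y.1.2 := hp.1.2.1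
  have hQR : (0 : ℝ) < y.1.2 := by exact_mod_cast hQ
  have hNC : (N : ℝ) * C ≤ W * y.1.2 := by
    have : N * C ≤ W * y.1.2 := (Nat.mul_le_mul_left N hp.1.1.1).trans hp.2.1
    exact_mod_cast this
  have hM : ((4 * N * C' : ℕ) : ℝ) / y.1.2 ≤ 4 * E ^ 2 := by
    rw [div_le_iff₀ hQR]
    push_cast
    have hN0 : (0 : ℝ) ≤ N := by positivity
    calc (4 : ℝ) * N * C' ≤ 4 * N * (E * C) := by gcongr
      _ = 4 * E * (N * C) := by ring
      _ ≤ 4 * E * (W * y.1.2) := by gcongr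
      _ ≤ 4 * E * (E * y.1.2) := by gcongr
      _ = 4 * E ^ 2 * y.1.2 := by ring
  have hZ : ∀ e ∈ s, 1 ≤ e.c * e.z ∧ e.c * e.z ≤ 4 * N * C' := by
    intro e he
    obtain ⟨⟨_, h2, _, h4, _⟩, _⟩ := mem_Edg.1 (hs he)
    constructor
    · exact Nat.mul_pos (by omega) (by omega)
    · calc e.c * e.z ≤ (2 * C') * (2 * N) := Nat.mul_le_mul h2.2.le h4.2
        _ = 4 * N * C' := by ring
  have h1 := fib_EdgeMult s (fun e => (e.c * e.z, e.j)) E (by
    intro a ha
    obtain ⟨e₁, he₁, rfl⟩ := mem_image.1 ha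
    refine le_trans ?_ (hd.2 (e₁.c * e₁.z) (hZ e₁ he₁).2)
    have : (s.filter fun a => (a.c * a.z, a.j) = (e₁.c * e₁.z, e₁.j)).card ≤
        (e₁.c * e₁.z).divisors.card := by
      apply card_le_card_of_injOn ED.c
      · intro e he
        rw [mem_coe, mem_filter, Prod.mk.injEq] at he
        rw [mem_coe, Nat.mem_divisors]
        refine ⟨⟨e.z, he.2.1.symm⟩, ?_⟩
        have := (hZ e₁ he₁).1
        omega
      · intro e he e' he' hcc
        rw [mem_coe, mem_filter, Prod.mk.injEq] at he he'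
        have a1 := hy e he.1
        have a2 := hy e' he'.1
        have a3 : (e.p, e.x) = (e'.p, e'.x) := a1.trans a2.symm
        rw [Prod.mk.injEq] at a3
        have a4 : e.c * e.z = e.c * e'.z := by rw [he.2.1, ← he'.2.1, hcc]
        have a5 : 0 < e.c := by
          have := (mem_Edg.1 (hs he.1)).1.2.1.1
          omega
        have a6 : e.z = e'.z := Nat.eq_of_mul_eq_mul_left a5 a4
        have a7 : e.j = e'.j := he.2.2.trans he'.2.2.symm
        exact Prod.ext a3.1 (Prod.ext hcc (Prod.ext a3.2 (Prod.ext a6 a7)))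
    exact_mod_cast this)
  have h2 := pairs_EdgeMult (y.1.1 * y.2) y.1.2 (4 * N * C') J hQ
    (s.image fun e => (e.c * e.z, e.j)) (by
    intro a ha
    obtain ⟨e, he, rfl⟩ := mem_image.1 ha
    obtain ⟨⟨_, _, _, _, h5, h6⟩, h7⟩ := mem_Edg.1 (hs he)
    refine ⟨(hZ e he).2, h5, h6, ?_⟩
    rw [← hy e he]
    have : e.p.1 * e.x * (e.c * e.z) = e.p.1 * e.c * e.x * e.z := by ring
    simp only [this]
    exact h7)
  have hJ : (0 : ℝ) ≤ J := by positivity
  have hE2 : 1 ≤ E ^ 2 := one_le_pow₀ hE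
  calc (s.card : ℝ) ≤ E * (J + J * (((4 * N * C' : ℕ) : ℝ) / y.1.2)) := by
        refine h1.trans ?_
        gcongr
    _ ≤ E * (J * E ^ 2 + J * (4 * E ^ 2)) := by
        gcongr
        exact le_mul_of_one_le_right hJ hE2
    _ = 5 * E ^ 3 * J := by ring

theorem edgeMult_stmt (hM : MultStmt) (hG : GeoStmt) : EdgeMultStmt := by
  classical
  refine ⟨495, by norm_num, ?_⟩
  intro N T J C C' K W E Y h hW1 hW
  have hE := h.E1
  have hWE : (W : ℝ) ≤ E := by
    have : (W : ℝ) ≤ 200 * K := by exact_mod_cast hW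
    exact this.trans h.KE
  have hT : 1 ≤ T := h.N1.trans h.NT
  have hTR : (0 : ℝ) < T := by exact_mod_cast hT
  have hK := h.K1
  have d1 : DivB (4 * N * C) E := divB_mono h.dv (by
    calc 4 * N * C ≤ (400 * K) * N * (C + C') := by gcongr <;> omega
      _ = _ := rfl) le_rfl
  have d2 : DivB (4 * N * C') E := divB_mono h.dv (by
    calc 4 * N * C' ≤ (400 * K) * N * (C + C') := by gcongr <;> omega
      _ = _ := rfl) le_rfl
  set A : ℝ := (C : ℝ) ^ 2 * (N : ℝ) ^ 2 / T with hA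
  have hA0 : 0 ≤ A := by positivity
  have hJ0 : (0 : ℝ) ≤ J := by positivity
  have hJA : (J : ℝ) ≤ E * A := by
    rw [hA, ← mul_div_assoc, le_div_iff₀ hTR]
    have hY := h.Y1
    have hCE := h.CE
    calc (J : ℝ) * T ≤ J * T * Y := le_mul_of_one_le_right (by positivity) hY
      _ ≤ C * C' * (N : ℝ) ^ 2 := h.JU
      _ ≤ C * (E * C) * (N : ℝ) ^ 2 := by gcongr
      _ = E * ((C : ℝ) ^ 2 * (N : ℝ) ^ 2) := by ring
  have hb : 3 * W * E * (J + 32 * (W : ℝ) ^ 3 * (N : ℝ) ^ 2 * (C : ℝ) ^ 2 / T) ≤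
      99 * E ^ 5 * A := by
    have e1 : 32 * (W : ℝ) ^ 3 * (N : ℝ) ^ 2 * (C : ℝ) ^ 2 / T = 32 * (W : ℝ) ^ 3 * A := by
      rw [hA]; ring
    have e2 : E ≤ E ^ 3 := le_self_pow₀ hE (by norm_num)
    rw [e1]
    calc 3 * W * E * (J + 32 * (W : ℝ) ^ 3 * A) ≤ 3 * E * E * (E ^ 3 * A + 32 * E ^ 3 * A) := by
          gcongr
          exact hJA.trans (by gcongr)
      _ = 99 * E ^ 5 * A := by ring
  have c1 : CM ((Fam N C W).filter fun e => gx e.1 e.2 ≤ J) (fun e => pt e.1 e.2) T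
      (99 * E ^ 5 * A) :=
    ((hM N C W E h.N1 h.C1 hW1 d1).2.2 T J hT).mono subset_rfl hb
  have c2 : CM (Edg N J C C' W) (fun e => pt e.p e.x) T (495 * E ^ 10 * J * A) := by
    intro l s hs hl
    have f1 := fib_EdgeMult s (fun e => (e.p, e.x)) (5 * E ^ 3 * J) (by
      intro y _
      exact fibre_EdgeMult N J C C' W E h.N1 h.C1' hWE h.CE d2 _
        ((filter_subset _ _).trans hs) y (fun e he => (mem_filter.1 he).2))
    have f2 := c1 l (s.image fun e => (e.p, e.x)) (by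
      intro y hy
      obtain ⟨e, he, rfl⟩ := mem_image.1 hy
      have g1 := hG N T J C C' W Y e h.N1 hT h.C1 h.C1' hW1 h.Y1 h.JU (hs he)
      have g2 := mem_Edg.1 (hs he)
      rw [mem_filter, mem_Fam]
      exact ⟨⟨g2.1.1, g2.1.2.2.1⟩, g1.2.1⟩) (by
      intro y hy
      obtain ⟨e, he, rfl⟩ := mem_image.1 hy
      exact hl e he)
    have e3 : E ^ 8 ≤ E ^ 10 := pow_le_pow_right₀ hE (by norm_num)
    calc (s.card : ℝ) ≤ 5 * E ^ 3 * J * (99 * E ^ 5 * A) := by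
          refine f1.trans ?_
          gcongr
      _ = 495 * E ^ 8 * J * A := by ring
      _ ≤ 495 * E ^ 10 * J * A := by gcongr
  refine ⟨c1.mono subset_rfl (by gcongr; norm_num), c2, ?_⟩
  intro l s hs hl
  have hinj : Function.Injective fun e : ED => ((e.p, e.c, e.z, e.x, e.j) : ED) := by
    intro e e' hee
    simp only [Prod.mk.injEq] at hee
    exact Prod.ext hee.1 (Prod.ext hee.2.1 (Prod.ext hee.2.2.2.1
      (Prod.ext hee.2.2.1 hee.2.2.2.2)))
  rw [← card_image_of_injective s hinj]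
  apply c2 l
  · intro y hy
    obtain ⟨e, he, rfl⟩ := mem_image.1 hy
    obtain ⟨⟨g1, g2, g3, g4, g5⟩, g6⟩ := mem_Edg.1 (hs he)
    refine mem_Edg.2 ⟨⟨g1, g2, g4, g3, g5⟩, ?_⟩
    have : e.p.1 * e.c * e.z * e.x = e.p.1 * e.c * e.x * e.z := by ring
    show e.p.2 ∣ e.p.1 * e.c * e.z * e.x + e.j
    rw [this]
    exact g6
  · intro y hy
    obtain ⟨e, he, rfl⟩ := mem_image.1 hy
    exact hl e he

end Pool.Agent.MP_2a1f0e_nt.RF
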