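import Pool.Agent.MP_2a1f0e_nt.RF.Basic
set_option autoImplicit false
open Finset
open scoped ComplexConjugate
namespace Pool.Agent.MP_2a1f0e_nt.RF
open GM

lemma uP_End {N T : ℕ} (hN : 1 ≤ N) (g : ℤ → ℝ) (b : ℕ → ℂ) {p : ℕ × ℕ} (h1 : 1 ≤ p.1)
    (h2 : 1 ≤ p.2) :
    uP N T g b p = trig T (fun t => (g t : ℂ) * DP N b t) (-Real.log (yv p)) := by
  simp only [uP, av, fu, trig, DP, mul_sum, sum_mul]
  rw [sum_comm]
  refine sum_congr rfl fun t _ => sum_congr rfl fun x hx => ?_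
  have a : (p.1 : ℝ) ≠ 0 := (Nat.cast_pos.2 h1).ne'
  have c : (p.2 : ℝ) ≠ 0 := (Nat.cast_pos.2 h2).ne'
  have d : (x : ℝ) ≠ 0 := (Nat.cast_pos.2 (hN.trans (mem_Icc.1 hx).1)).ne'
  have e : pt p x = Real.log x + -Real.log (yv p) := by
    rw [pt, yv, Nat.cast_mul, Real.log_div (mul_ne_zero a d) c, Real.log_mul a d, Real.log_div c a]
    ring
  rw [e, Complex.ofReal_add, mul_add, Complex.exp_add, pw, Complex.ofReal_intCast]
  ring

theorem end_stmt (hL : LSStmt) (hM : Mult0Stmt) : EndStmt := by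
  obtain ⟨c, hc, hL⟩ := hL
  refine ⟨54 * c, by positivity, fun N T C K g U MM hN hT hC hK hTN hg hb b hb1 => ?_⟩
  have hU : 0 ≤ U := by
    have := hg 0 (mem_IT.2 ⟨by omega, by omega⟩)
    exact this.1.trans this.2
  have h1 : ∑ t ∈ IT T, ‖(g t : ℂ) * DP N b t‖ ^ 2 ≤ U * MM := by
    refine le_trans ?_ (mul_le_mul_of_nonneg_left (hb b hb1) hU)
    rw [mul_sum]
    refine sum_le_sum fun t ht => ?_
    obtain ⟨a, d⟩ := hg t ht
    rw [norm_mul, Complex.norm_real, Real.norm_of_nonneg a, mul_pow, sq (g t), mul_assoc]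
    gcongr
  have h2 : (T : ℝ) ≤ N * C := by exact_mod_cast hTN
  have h3 : (1 : ℝ) ≤ K := by exact_mod_cast hK
  have h4 : (0 : ℝ) < T := Nat.cast_pos.2 hT
  have h5 : 3 * K * (2 * C + 16 * K * N * (C : ℝ) ^ 2 / T) * T ≤ 54 * K ^ 2 * N * (C : ℝ) ^ 2 :=
    calc _ = 6 * K * 1 * C * T + 48 * K ^ 2 * N * (C : ℝ) ^ 2 := by field_simp; ring
      _ ≤ 6 * K * K * C * (N * C) + 48 * K ^ 2 * N * (C : ℝ) ^ 2 := by gcongr
      _ = _ := by ring
  rw [sum_congr rfl fun p hp => by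
    rw [uP_End hN g b (hC.trans (mem_Win.1 hp).1.1.1) (mem_Win.1 hp).1.2.1]]
  refine (hL _ _ _ T _ hT (hM N C K T hN hC hK hT) _).trans ?_
  rw [mul_assoc c]
  calc _ ≤ c * (54 * K ^ 2 * N * (C : ℝ) ^ 2) * (U * MM) :=
        mul_le_mul (mul_le_mul_of_nonneg_left h5 hc.le) h1 (sum_nonneg fun _ _ => sq_nonneg _)
          (by positivity)
    _ = _ := by ring

end Pool.Agent.MP_2a1f0e_nt.RF
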