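import Pool.Agent.MP_2a1f0e_nt.RF.Basic

set_option autoImplicit false

open Finset
open scoped ComplexConjugate

namespace Pool.Agent.MP_2a1f0e_nt.RF

open GM

theorem sep_Farey {a q a' q' : ℕ} {q₀ : ℝ} (h : Nat.Coprime a q) (h' : Nat.Coprime a' q')
    (hq : 1 ≤ q) (hq' : 1 ≤ q') (h0 : (q : ℝ) ≤ q₀) (h0' : (q' : ℝ) ≤ q₀)
    (hlt : |q₀ ^ 2 * ((a : ℝ) / q) - q₀ ^ 2 * ((a' : ℝ) / q')| < 1) : a = a' ∧ q = q' := by
  have p1 : (0 : ℝ) < q := by exact_mod_cast hq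
  have p2 : (0 : ℝ) < q' := by exact_mod_cast hq'
  have e : q₀ ^ 2 * ((a : ℝ) / q) - q₀ ^ 2 * ((a' : ℝ) / q') =
      q₀ ^ 2 / (q * q') * (((a * q' : ℤ) - a' * q : ℤ) : ℝ) := by
    push_cast
    field_simp
  have h1 : 1 ≤ q₀ ^ 2 / (q * q') := by
    rw [le_div_iff₀ (by positivity)]
    nlinarith
  rw [e, abs_mul, abs_of_nonneg (by linarith : 0 ≤ q₀ ^ 2 / (q * q'))] at hlt
  have h2 : |(((a * q' : ℤ) - a' * q : ℤ) : ℝ)| < 1 := by
    nlinarith [abs_nonneg (((a * q' : ℤ) - a' * q : ℤ) : ℝ)]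
  rw [← Int.cast_abs] at h2
  have h3 : |((a * q' : ℤ) - a' * q : ℤ)| < 1 := by exact_mod_cast h2
  have h4 : a * q' = a' * q := by
    have := Int.abs_lt_one_iff.1 h3
    exact_mod_cast sub_eq_zero.1 this
  have d1 : q ∣ q' := h.symm.dvd_of_dvd_mul_left ⟨a', by rw [h4]; ring⟩
  have d2 : q' ∣ q := h'.symm.dvd_of_dvd_mul_left ⟨a, by rw [← h4]; ring⟩
  have e2 := Nat.dvd_antisymm d1 d2
  subst e2
  exact ⟨Nat.eq_of_mul_eq_mul_right hq h4, rfl⟩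

theorem farey_stmt : FareyStmt := by
  intro s q₀ α w hw h
  set y : ℕ × ℕ → ℝ := fun r => q₀ ^ 2 * ((r.1 : ℝ) / r.2) - q₀ ^ 2 * α with hy
  have y0 : ∀ r ∈ s, 0 ≤ y r := fun r hr => by
    have := mul_le_mul_of_nonneg_left (h r hr).2.2.2.1 (sq_nonneg q₀)
    simp only [hy]; linarith
  have y1 : ∀ r ∈ s, y r ≤ w * q₀ ^ 2 := fun r hr => by
    have := mul_le_mul_of_nonneg_left (h r hr).2.2.2.2 (sq_nonneg q₀)
    simp only [hy]; linarith
  have hc : s.card ≤ (range (⌊w * q₀ ^ 2⌋₊ + 1)).card := by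
    refine card_le_card_of_injOn (fun r => ⌊y r⌋₊) (fun r hr => ?_) (fun r hr r' hr' e => ?_)
    · simp only [coe_range, Set.mem_Iio]
      exact Nat.lt_succ_of_le (Nat.floor_mono (y1 r hr))
    · have a1 := Nat.floor_le (y0 r hr)
      have a2 := Nat.floor_le (y0 r' hr')
      have b1 := Nat.lt_floor_add_one (y r)
      have b2 := Nat.lt_floor_add_one (y r')
      have e' : ⌊y r⌋₊ = ⌊y r'⌋₊ := e
      rw [e'] at a1 b1
      obtain ⟨c1, c2, c3, -⟩ := h r hr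
      obtain ⟨d1, d2, d3, -⟩ := h r' hr'
      have := sep_Farey c1 d1 c2 d2 c3 d3 (by
        simp only [hy] at a1 a2 b1 b2
        rw [abs_lt]; constructor <;> linarith)
      exact Prod.ext this.1 this.2
  rw [card_range] at hc
  have h2 : (s.card : ℝ) ≤ ⌊w * q₀ ^ 2⌋₊ + 1 := by exact_mod_cast hc
  have h3 := Nat.floor_le (show 0 ≤ w * q₀ ^ 2 by positivity)
  linarith

end Pool.Agent.MP_2a1f0e_nt.RF
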