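import Pool.Agent.MP_2a1f0e_nt.RF.Basic

set_option autoImplicit false

open Finset
open scoped ComplexConjugate

namespace Pool.Agent.MP_2a1f0e_nt.RF

open GM

/-- the conductor together with the primitive character -/
noncomputable def emb_Fib (q : ℕ) (χ : DirichletCharacter ℂ q) :
    (r : ℕ) × DirichletCharacter ℂ r := ⟨χ.conductor, χ.primitiveCharacter⟩

theorem inj_Fib (q : ℕ) : Function.Injective (emb_Fib q) := by
  classical
  let G : ((r : ℕ) × DirichletCharacter ℂ r) → DirichletCharacter ℂ q := fun a =>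
    if h : a.1 ∣ q then DirichletCharacter.changeLevel h a.2 else 1
  refine Function.LeftInverse.injective (g := G) fun χ => ?_
  have h : (emb_Fib q χ).1 ∣ q := χ.conductor_dvd_level
  simp only [G, dif_pos h]
  exact χ.changeLevel_primitiveCharacter

theorem fib_stmt : FibStmt := by
  classical
  intro q F hq hF
  have : NeZero q := ⟨by omega⟩
  rw [sum_sigma' (q.divisors.erase 1) prim (fun r ψ => F r ψ)]
  refine le_of_eq_of_le (sum_image (g := emb_Fib q) (f := fun a => F a.1 a.2)
    (fun a _ b _ h => inj_Fib q h)).symm ?_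
  refine sum_le_sum_of_subset_of_nonneg (fun a ha => ?_) (fun a _ _ => hF _ _)
  obtain ⟨χ, hχ, rfl⟩ := mem_image.mp ha
  rw [mem_sigma, mem_erase, Nat.mem_divisors, mem_prim]
  refine ⟨⟨fun h => (@ne_of_mem_erase _ (_) _ _ _ hχ) ?_, χ.conductor_dvd_level, by omega⟩,
    χ.primitiveCharacter_isPrimitive⟩
  exact DirichletCharacter.eq_one_iff_conductor_eq_one.mpr h

end Pool.Agent.MP_2a1f0e_nt.RF
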