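import Pool.Agent.MP_2a1f0e_nt.RF.Basic
set_option autoImplicit false
open Finset
open scoped ComplexConjugate
namespace Pool.Agent.MP_2a1f0e_nt.RF
open GM

lemma gcd_le_Geo {a Q n j J R : ℕ} (h : R = n + j) (hQ : Q ∣ R) (ha : a ∣ n) (hj : 1 ≤ j)
    (hJ : j ≤ J) : Nat.gcd a Q ≤ J := by
  have h1 : Nat.gcd a Q ∣ n := (Nat.gcd_dvd_left _ _).trans ha
  have h2 : Nat.gcd a Q ∣ n + j := h ▸ (Nat.gcd_dvd_right _ _).trans hQ
  exact (Nat.le_of_dvd hj ((Nat.dvd_add_right h1).1 h2)).trans hJ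

lemma core_Geo (N T J C C' W : ℕ) (Y : ℝ) (c Q c' x z j Q' : ℕ) (hN : 1 ≤ N) (hT : 1 ≤ T)
    (hC : 1 ≤ C) (hC' : 1 ≤ C') (hY : 1 ≤ Y)
    (hJ : (J : ℝ) * T * Y ≤ C * C' * (N : ℝ) ^ 2)
    (hc : C ≤ c) (hQ : 1 ≤ Q) (h1 : N * c ≤ W * Q) (h2 : Q ≤ W * N * c)
    (hc' : C' ≤ c') (hx : N ≤ x) (hx2 : x ≤ 2 * N) (hz : N ≤ z) (hz2 : z ≤ 2 * N)
    (hj : 1 ≤ j) (hjJ : j ≤ J) (hE : Q * Q' = c * c' * x * z + j) :
    (1 ≤ Q' ∧ N * c' ≤ W * Q' ∧ Q' ≤ 8 * W * N * c') ∧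
    ∃ θ : ℝ, 0 ≤ θ ∧ T * Y * θ ≤ 1 ∧ θ * (C * C' * (N : ℝ) ^ 2) ≤ J ∧
      Real.log Q + Real.log Q' = Real.log c + Real.log c' + Real.log x + Real.log z + θ := by
  have hc0 : 1 ≤ c := hC.trans hc
  have hc0' : 1 ≤ c' := hC'.trans hc'
  have hn : C * C' * N ^ 2 ≤ c * c' * x * z := by
    calc C * C' * N ^ 2 = C * C' * N * N := by ring
      _ ≤ _ := by gcongr
  have hn1 : c * c' * N * N ≤ c * c' * x * z := by gcongr
  have hn2 : c * c' * x * z ≤ c * c' * (2 * N) * (2 * N) := by gcongr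
  have hT' : (1 : ℝ) ≤ T := by exact_mod_cast hT
  have hJ0 : (0 : ℝ) ≤ J := Nat.cast_nonneg _
  have hTY : (1 : ℝ) ≤ T * Y := one_le_mul_of_one_le_of_one_le hT' hY
  have hJn : J ≤ C * C' * N ^ 2 := by
    have : (J : ℝ) ≤ C * C' * (N : ℝ) ^ 2 := by
      calc (J : ℝ) = J * 1 := by ring
        _ ≤ J * (T * Y) := mul_le_mul_of_nonneg_left hTY hJ0
        _ = J * T * Y := by ring
        _ ≤ _ := hJ
    exact_mod_cast this
  have hjn : j ≤ c * c' * x * z := hjJ.trans (hJn.trans hn)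
  have hQ' : 1 ≤ Q' := by
    rcases Nat.eq_zero_or_pos Q' with h | h
    · rw [h] at hE
      omega
    · exact h
  have hNc : 0 < N * c := Nat.mul_pos hN hc0
  refine ⟨⟨hQ', ?_, ?_⟩, ?_⟩
  · refine Nat.le_of_mul_le_mul_left ?_ hNc
    calc N * c * (N * c') = c * c' * N * N := by ring
      _ ≤ Q * Q' := by omega
      _ ≤ W * N * c * Q' := by gcongr
      _ = N * c * (W * Q') := by ring
  · refine Nat.le_of_mul_le_mul_left ?_ hNc
    calc N * c * Q' ≤ W * Q * Q' := by gcongr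
      _ = W * (Q * Q') := by ring
      _ ≤ W * (2 * (c * c' * (2 * N) * (2 * N))) := Nat.mul_le_mul_left _ (by omega)
      _ = N * c * (8 * W * N * c') := by ring
  · have hx0 : (0 : ℝ) < x := by exact_mod_cast hN.trans hx
    have hz0 : (0 : ℝ) < z := by exact_mod_cast hN.trans hz
    have hcr : (0 : ℝ) < c := by exact_mod_cast hc0
    have hcr' : (0 : ℝ) < c' := by exact_mod_cast hc0'
    have hQr : (0 : ℝ) < Q := by exact_mod_cast hQ
    have hQr' : (0 : ℝ) < Q' := by exact_mod_cast hQ'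
    have hjr : (0 : ℝ) ≤ j := Nat.cast_nonneg _
    have hjJr : (j : ℝ) ≤ J := by exact_mod_cast hjJ
    have hEr : (Q : ℝ) * Q' = c * c' * x * z + j := by exact_mod_cast hE
    have hnr : (C : ℝ) * C' * (N : ℝ) ^ 2 ≤ c * c' * x * z := by exact_mod_cast hn
    set n : ℝ := (c : ℝ) * c' * x * z with hndef
    have hn0 : 0 < n := by positivity
    have hpos : 0 < 1 + j / n := by positivity
    have hθ0 : 0 ≤ Real.log (1 + j / n) := Real.log_nonneg (by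
      have : 0 ≤ j / n := by positivity
      linarith)
    have hθ1 : Real.log (1 + j / n) ≤ j / n := by
      have := Real.log_le_sub_one_of_pos hpos
      linarith
    have hθn : Real.log (1 + j / n) * n ≤ J := by
      have := (le_div_iff₀ hn0).1 hθ1
      linarith
    refine ⟨Real.log (1 + j / n), hθ0, ?_, ?_, ?_⟩
    · refine le_of_mul_le_mul_right ?_ hn0
      calc T * Y * Real.log (1 + j / n) * n = T * Y * (Real.log (1 + j / n) * n) := by ring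
        _ ≤ T * Y * J := mul_le_mul_of_nonneg_left hθn (by linarith)
        _ = J * T * Y := by ring
        _ ≤ 1 * n := by linarith
    · exact (mul_le_mul_of_nonneg_left hnr hθ0).trans hθn
    · have e1 : Real.log n = Real.log c + Real.log c' + Real.log x + Real.log z := by
        rw [hndef, Real.log_mul (by positivity) hz0.ne', Real.log_mul (by positivity) hx0.ne',
          Real.log_mul hcr.ne' hcr'.ne']
      rw [← e1, ← Real.log_mul hQr.ne' hQr'.ne', ← Real.log_mul hn0.ne' hpos.ne', hEr]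
      congr 1
      field_simp

lemma pt_eq_Geo {c Q x : ℕ} (hc : 1 ≤ c) (hQ : 1 ≤ Q) (hx : 1 ≤ x) :
    pt (c, Q) x = Real.log c + Real.log x - Real.log Q := by
  have hcr : (0 : ℝ) < c := by exact_mod_cast hc
  have hQr : (0 : ℝ) < Q := by exact_mod_cast hQ
  have hxr : (0 : ℝ) < x := by exact_mod_cast hx
  unfold pt
  push_cast
  rw [Real.log_div (by positivity) hQr.ne', Real.log_mul hcr.ne' hxr.ne']

lemma yv_eq_Geo {c Q : ℕ} (hc : 1 ≤ c) (hQ : 1 ≤ Q) :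
    Real.log (yv (c, Q)) = Real.log Q - Real.log c := by
  have hcr : (0 : ℝ) < c := by exact_mod_cast hc
  have hQr : (0 : ℝ) < Q := by exact_mod_cast hQ
  unfold yv
  exact Real.log_div hQr.ne' hcr.ne'

theorem geo_stmt : GeoStmt := by
  rintro N T J C C' W Y ⟨⟨c, Q⟩, c', x, z, j⟩ hN hT hC hC' hW hY hJ he
  rw [mem_Edg, mem_Win] at he
  simp only [ED.p, ED.c, ED.x, ED.z, ED.j, ED.r] at he ⊢
  obtain ⟨⟨⟨⟨⟨hc, -⟩, hQ, -⟩, h1, h2⟩, ⟨hc', hc2'⟩, ⟨hx, hx2⟩, ⟨hz, hz2⟩, hj, hjJ⟩, hd⟩ := he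
  have hE : Q * ((c * c' * x * z + j) / Q) = c * c' * x * z + j := Nat.mul_div_cancel' hd
  generalize (c * c' * x * z + j) / Q = Q' at hE ⊢
  obtain ⟨⟨hQ', h3, h4⟩, θ, t0, t1, t2, t3⟩ := core_Geo N T J C C' W Y c Q c' x z j Q' hN hT hC hC'
    hY hJ hc hQ h1 h2 hc' hx hx2 hz hz2 hj hjJ hE
  have hc0 : 1 ≤ c := hC.trans hc
  have hc0' : 1 ≤ c' := hC'.trans hc'
  have hx0 : 1 ≤ x := hN.trans hx
  have hz0 : 1 ≤ z := hN.trans hz
  refine ⟨?_, ?_, ?_, ?_, ?_, hE, θ, t0, t1, t2, ?_, ?_, ?_⟩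
  · rw [mem_Win]
    refine ⟨⟨⟨hc', hc2'⟩, hQ', ?_⟩, ?_, h4⟩
    · calc Q' ≤ 8 * W * N * c' := h4
        _ ≤ 8 * W * N * (2 * C') := Nat.mul_le_mul_left _ hc2'.le
        _ = 2 * (8 * W) * N * C' := by ring
    · calc N * c' ≤ W * Q' := h3
        _ ≤ 8 * W * Q' := Nat.mul_le_mul_right _ (by omega)
  · exact gcd_le_Geo hE (Dvd.intro _ rfl) ⟨c' * z, by ring⟩ hj hjJ
  · exact gcd_le_Geo hE (Dvd.intro _ rfl) ⟨c' * x, by ring⟩ hj hjJ
  · exact gcd_le_Geo hE (Dvd.intro_left _ rfl) ⟨c * z, by ring⟩ hj hjJ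
  · exact gcd_le_Geo hE (Dvd.intro_left _ rfl) ⟨c * x, by ring⟩ hj hjJ
  · rw [pt_eq_Geo hc0' hQ' hz0, pt_eq_Geo hc0 hQ hx0]
    linarith
  · rw [pt_eq_Geo hc0' hQ' hx0, pt_eq_Geo hc0 hQ hz0]
    linarith
  · rw [yv_eq_Geo hc0 hQ, yv_eq_Geo hc0' hQ']
    linarith

end Pool.Agent.MP_2a1f0e_nt.RF
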