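import Pool.Agent.MP_2a1f0e_nt.RF.Basic
set_option autoImplicit false
open Finset
open scoped ComplexConjugate
namespace Pool.Agent.MP_2a1f0e_nt.RF
open GM

theorem grow_stmt : GrowStmt := by
  intro η B κ hη hB
  have B0 : 0 < B := by linarith
  set e := η / (B * ((κ : ℝ) ^ 2 + 2)) with he
  have e0 : 0 < e := by positivity
  obtain ⟨C, hC, hd⟩ := divisor_bound e0
  have a1 : 1 ≤ C ^ κ := one_le_pow₀ hC
  have a2 : 1 ≤ (1 + 1 / e) ^ 2 := one_le_pow₀ (le_add_of_nonneg_right (by positivity))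
  have a3 : 1 ≤ B ^ (η / B) := Real.one_le_rpow hB (by positivity)
  refine ⟨C ^ κ * (1 + 1 / e) ^ 2 * B ^ (η / B),
    one_le_mul_of_one_le_of_one_le (one_le_mul_of_one_le_of_one_le a1 a2) a3,
    fun N X hN hX h => ?_⟩
  have x1 : (1 : ℝ) ≤ X := by exact_mod_cast hX
  have x0 : (0 : ℝ) < X := by linarith
  have n0 : (0 : ℝ) ≤ N := Nat.cast_nonneg _
  set y := (X : ℝ) ^ e with hy
  have y1 : 1 ≤ y := Real.one_le_rpow x1 e0.le
  have hk : ∀ k : ℕ, y ^ k = (X : ℝ) ^ (e * k) := fun k => by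
    rw [hy, ← Real.rpow_natCast, ← Real.rpow_mul x0.le]
  refine ⟨C * y ^ κ, ⟨one_le_mul_of_one_le_of_one_le hC (one_le_pow₀ y1), fun n hn => ?_⟩, ?_⟩
  · refine (hd n).trans (mul_le_mul_of_nonneg_left ?_ (by linarith))
    rw [hk, mul_comm e, Real.rpow_mul x0.le, Real.rpow_natCast]
    exact Real.rpow_le_rpow (Nat.cast_nonneg _) (by exact_mod_cast hn) e0.le
  · have l1 : 1 + Real.log X ≤ (1 + 1 / e) * y := by
      have := Real.log_le_rpow_div x0.le e0
      rw [add_mul, one_mul, one_div_mul_eq_div]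
      exact add_le_add y1 this
    have l0 : 0 ≤ 1 + Real.log X := by linarith [Real.log_nonneg x1]
    have l2 : y ^ (κ ^ 2 + 2) ≤ B ^ (η / B) * (N : ℝ) ^ η := by
      have h1 : e * ((κ ^ 2 + 2 : ℕ) : ℝ) = η / B := by
        rw [he]
        push_cast
        field_simp
      rw [hk, h1]
      refine (Real.rpow_le_rpow x0.le h (by positivity)).trans_eq ?_
      rw [Real.mul_rpow B0.le (by positivity), ← Real.rpow_mul n0, mul_div_cancel₀ _ B0.ne']
    calc _ ≤ (C * y ^ κ) ^ κ * ((1 + 1 / e) * y) ^ 2 := by gcongr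
      _ = C ^ κ * (1 + 1 / e) ^ 2 * y ^ (κ ^ 2 + 2) := by ring
      _ ≤ C ^ κ * (1 + 1 / e) ^ 2 * (B ^ (η / B) * (N : ℝ) ^ η) := by gcongr
      _ = _ := by ring

end Pool.Agent.MP_2a1f0e_nt.RF
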