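import Pool.Agent.MP_2a1f0e_nt.RF.Basic

set_option autoImplicit false

open Finset
open scoped ComplexConjugate

namespace Pool.Agent.MP_2a1f0e_nt.RF

open GM

theorem XiB_mono_Hp {J C X : ℕ} {E E' Y : ℝ} (h : XiB J C X E Y) (hE : E ≤ E') (hY : 0 ≤ Y) :
    XiB J C X E' Y := by
  unfold XiB at h ⊢
  refine h.trans ?_
  gcongr

/-- one level of the iteration -/
theorem one_Hp {c : ℝ} (hc : 0 < c)
    (hX : ∀ (J C X κ : ℕ) (Y Δ : ℝ), 1 ≤ C → 1 ≤ X → 1 ≤ Y →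
      Y ^ 6 * (C : ℝ) ^ 2 ≤ J → 2 ≤ κ → 2 * (X : ℝ) ≤ Y ^ (4 * κ - 1) → DivB (J ^ κ) Δ →
        XiB J C X (c * Δ ^ κ * (1 + Real.log X) ^ 2) Y)
    {N T C ρ K X' κ : ℕ} {E Y Δ : ℝ} (hN : 1 ≤ N) (hNT : N ≤ T) (hTN : T ≤ N ^ 2)
    (hC : 1 ≤ C) (hρ : 1 ≤ ρ) (hK : 1 ≤ K) (hY : 1 ≤ Y) (hκ : 2 ≤ κ)
    (hKE : 200 * (K : ℝ) ≤ E) (hρE : (ρ : ℝ) ≤ E)
    (hρY : 2 * (ρ : ℝ) * Y ^ 7 * T ≤ (N : ℝ) ^ 2)
    (hX1 : 400 * K * N * (C + C * ρ) ≤ X') (hX2 : C * (C * ρ) * N ^ 2 ≤ X')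
    (hX3 : 2 * (X' : ℝ) ≤ Y ^ (4 * κ - 1)) (hD : DivB (X' ^ κ) Δ)
    (hE1 : Δ ^ κ * (1 + Real.log X') ^ 2 ≤ E) (hE2 : c * (Δ ^ κ * (1 + Real.log X') ^ 2) ≤ E) :
    Hp N T ⌊(C : ℝ) * (C * ρ : ℕ) * (N : ℝ) ^ 2 / (T * Y)⌋₊ C (C * ρ) K E Y := by
  set J := ⌊(C : ℝ) * (C * ρ : ℕ) * (N : ℝ) ^ 2 / (T * Y)⌋₊ with hJ
  set X := 400 * K * N * (C + C * ρ) with hXd
  have hT1 : (1 : ℝ) ≤ T := by exact_mod_cast hN.trans hNT
  have hC1 : (1 : ℝ) ≤ C := by exact_mod_cast hC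
  have hρ1 : (1 : ℝ) ≤ ρ := by exact_mod_cast hρ
  have hTY : (1 : ℝ) ≤ T * Y := one_le_mul_of_one_le_of_one_le hT1 hY
  have hC' : 1 ≤ C * ρ := Nat.mul_pos hC hρ
  have hC1' : (1 : ℝ) ≤ (C * ρ : ℕ) := by exact_mod_cast hC'
  have hE : 1 ≤ E := hρ1.trans hρE
  have hJ1 : (J : ℝ) ≤ (C : ℝ) * (C * ρ : ℕ) * (N : ℝ) ^ 2 / (T * Y) :=
    Nat.floor_le (by positivity)
  have hJ2 : (C : ℝ) * (C * ρ : ℕ) * (N : ℝ) ^ 2 / (T * Y) < J + 1 := Nat.lt_floor_add_one _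
  have hY6 : 1 ≤ Y ^ 6 * ((C * ρ : ℕ) : ℝ) ^ 2 :=
    one_le_mul_of_one_le_of_one_le (one_le_pow₀ hY) (one_le_pow₀ hC1')
  have hJL' : Y ^ 6 * ((C * ρ : ℕ) : ℝ) ^ 2 ≤ J := by
    have : 2 * (Y ^ 6 * ((C * ρ : ℕ) : ℝ) ^ 2) ≤
        (C : ℝ) * (C * ρ : ℕ) * (N : ℝ) ^ 2 / (T * Y) := by
      rw [le_div_iff₀ (by positivity)]
      calc _ = (C : ℝ) * (C * ρ : ℕ) * (2 * (ρ : ℝ) * Y ^ 7 * T) := by
            push_cast
            ring
        _ ≤ _ := by gcongr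
    linarith
  have hCC : (C : ℝ) ≤ (C * ρ : ℕ) := by exact_mod_cast Nat.le_mul_of_pos_right C hρ
  have hJL : Y ^ 6 * (C : ℝ) ^ 2 ≤ J := le_trans (by gcongr) hJL'
  have hJX : J ≤ X' := by
    refine le_trans ?_ hX2
    have : (J : ℝ) ≤ ((C * (C * ρ) * N ^ 2 : ℕ) : ℝ) := by
      refine hJ1.trans ((div_le_self (by positivity) hTY).trans (le_of_eq ?_))
      push_cast
      ring
    exact_mod_cast this
  have hX0 : 1 ≤ X := Nat.mul_pos (Nat.mul_pos (by omega) hN) (by omega)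
  have hX0' : (1 : ℝ) ≤ X := by exact_mod_cast hX0
  have hXX : (X : ℝ) ≤ X' := by exact_mod_cast hX1
  have hl0 : 0 ≤ Real.log X := Real.log_nonneg hX0'
  have hl1 : Real.log X ≤ Real.log X' := Real.log_le_log (by linarith) hXX
  have hΔ : 1 ≤ Δ := hD.1
  have hΔκ : Δ ≤ Δ ^ κ := le_self_pow₀ hΔ (by omega)
  have hL : 1 + Real.log X' ≤ (1 + Real.log X') ^ 2 := le_self_pow₀ (by linarith) two_ne_zero
  have hDJ : DivB (J ^ κ) Δ := divB_mono hD (Nat.pow_le_pow_left hJX _) le_rfl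
  have hE3 : c * Δ ^ κ * (1 + Real.log X) ^ 2 ≤ E := by
    refine le_trans ?_ hE2
    rw [mul_assoc]
    gcongr
  have hX4 : 2 * (X : ℝ) ≤ Y ^ (4 * κ - 1) := le_trans (by linarith) hX3
  refine ⟨hN, hNT, hTN, hC, hC', hK, ?_, hY, hKE, ?_, ?_, ?_, hJL, hJL', ?_, ?_, ?_, ?_, ?_⟩
  · exact_mod_cast hY6.trans hJL'
  · push_cast
    rw [mul_comm]
    gcongr
  · exact hCC.trans (le_mul_of_one_le_left (by positivity) hE)
  · rw [le_div_iff₀ (by positivity)] at hJ1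
    linarith
  · refine le_trans ?_ hρY
    have : 0 ≤ (T : ℝ) * Y ^ 7 := by positivity
    nlinarith
  · refine divB_mono hD (hX1.trans (Nat.le_self_pow (by omega) _)) ?_
    refine le_trans ?_ hE1
    exact hΔκ.trans (le_mul_of_one_le_right (by positivity) (by linarith))
  · refine le_trans ?_ hE1
    refine le_trans ?_ (le_mul_of_one_le_left (by positivity) (hΔ.trans hΔκ))
    linarith
  · exact XiB_mono_Hp (hX J C X κ Y Δ hC hX0 hY hJL hκ hX4 hDJ) hE3 (by linarith)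
  · exact XiB_mono_Hp (hX J (C * ρ) X κ Y Δ hC' hX0 hY hJL' hκ hX4 hDJ) hE3 (by linarith)

theorem hp_stmt (hX : XiStmt) (hG : GrowStmt) : HpStmt := by
  obtain ⟨c, hc, hX⟩ := hX
  intro η hη
  set n := ⌈1 / η⌉₊ with hn
  have hηn : 1 ≤ η * n := by
    have := Nat.le_ceil (1 / η)
    rw [div_le_iff₀ hη] at this
    linarith
  set B : ℕ := 1600 * 200 ^ n + 2 * n + 2 with hB
  set κ : ℕ := n * (2 * B + 1) + 2 with hκ
  have hB1 : 1 ≤ B := by omega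
  obtain ⟨A', hA', hG⟩ := hG η B κ hη (by exact_mod_cast hB1)
  have h200 : (0 : ℝ) < 200 ^ n := by positivity
  have hcA : 0 < c * A' := by positivity
  refine ⟨n, 400 * 200 ^ n + 2 + A' + c * A', by linarith, ?_⟩
  intro N T E Y hN hNT hTN hY hYT hE
  have hN1 : (1 : ℝ) ≤ N := by exact_mod_cast (by omega : 1 ≤ N)
  have hN2 : (2 : ℝ) ≤ N := by exact_mod_cast hN
  have hNT' : (N : ℝ) ≤ T := by exact_mod_cast hNT
  set w : ℝ := (N : ℝ) ^ η with hw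
  have hw1 : 1 ≤ w := Real.one_le_rpow hN1 hη.le
  have hY1 : 1 ≤ Y := hw1.trans hY
  have hwn : (N : ℝ) ≤ w ^ n := by
    rw [hw, ← Real.rpow_natCast, ← Real.rpow_mul (by positivity)]
    calc (N : ℝ) = (N : ℝ) ^ (1 : ℝ) := (Real.rpow_one _).symm
      _ ≤ _ := Real.rpow_le_rpow_of_exponent_le hN1 hηn
  set ρ := ⌈w⌉₊ with hρ
  have hρ1 : w ≤ ρ := Nat.le_ceil w
  have hρ2 : (ρ : ℝ) < w + 1 := Nat.ceil_lt_add_one (by linarith)
  have hρ3 : 1 ≤ ρ := by exact_mod_cast hw1.trans hρ1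
  have hw4 : 4 * w ≤ N := by
    have h7 : 1 ≤ Y ^ 7 := one_le_pow₀ hY1
    have : 4 * w * N ≤ (N : ℝ) * N := by
      calc 4 * w * N = 4 * w * 1 * N := by ring
        _ ≤ 4 * w * Y ^ 7 * T := by gcongr
        _ ≤ _ := hYT
        _ = _ := by ring
    exact le_of_mul_le_mul_right this (by linarith)
  have hρN : ρ ≤ N := by
    have : (ρ : ℝ) ≤ N := by linarith
    exact_mod_cast this
  have hX' : 1 ≤ B * N ^ B := Nat.mul_pos hB1 (Nat.pow_pos (by omega))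
  obtain ⟨Δ, hD, hΔ⟩ := hG N (B * N ^ B) (by omega) hX' (by
    push_cast
    rw [Real.rpow_natCast])
  have e1 : 400 * 200 ^ n ≤ E := by
    refine le_trans ?_ hE
    refine le_trans ?_ (le_mul_of_one_le_right (by positivity) hw1)
    linarith
  have e2 : 2 * w ≤ E := by
    refine le_trans ?_ hE
    gcongr
    linarith
  have e3 : A' * w ≤ E := by
    refine le_trans ?_ hE
    gcongr
    linarith
  have e4 : c * A' * w ≤ E := by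
    refine le_trans ?_ hE
    gcongr
    linarith
  have hX3 : 2 * ((B * N ^ B : ℕ) : ℝ) ≤ Y ^ (4 * κ - 1) := by
    have a1 : 2 * (B * N ^ B) ≤ N ^ (2 * B + 1) := by
      have b1 : B ≤ N ^ B := (Nat.lt_two_pow_self).le.trans (Nat.pow_le_pow_left hN _)
      calc 2 * (B * N ^ B) ≤ N * (N ^ B * N ^ B) := by gcongr
        _ = _ := by ring
    have a2 : (N : ℝ) ≤ Y ^ n := hwn.trans (by gcongr)
    calc 2 * ((B * N ^ B : ℕ) : ℝ) ≤ (N : ℝ) ^ (2 * B + 1) := by exact_mod_cast a1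
      _ ≤ (Y ^ n) ^ (2 * B + 1) := by gcongr
      _ = Y ^ (n * (2 * B + 1)) := by rw [pow_mul]
      _ ≤ _ := pow_le_pow_right₀ hY1 (by omega)
  refine ⟨ρ, fun i => ⌊((ρ ^ i : ℕ) : ℝ) * (ρ ^ i * ρ : ℕ) * (N : ℝ) ^ 2 / (T * Y)⌋₊, hρ3, ?_,
    fun i hi => ?_⟩
  · have : N ≤ ρ ^ n := by
      have : (N : ℝ) ≤ (ρ : ℝ) ^ n := hwn.trans (by gcongr)
      exact_mod_cast this
    calc T ≤ N ^ 2 := hTN
      _ = N * N := by ring
      _ ≤ _ := Nat.mul_le_mul_left _ this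
  · have p1 : ρ ^ i * ρ ≤ N ^ n := by
      rw [← pow_succ]
      exact (Nat.pow_le_pow_left hρN _).trans (Nat.pow_le_pow_right (by omega) hi)
    have p0 : ρ ^ i ≤ N ^ n := (Nat.le_mul_of_pos_right _ hρ3).trans p1
    have p2 : 200 ^ i ≤ 200 ^ n := Nat.pow_le_pow_right (by norm_num) hi.le
    have p3 : N ^ (2 * n + 2) ≤ N ^ B := Nat.pow_le_pow_right (by omega) (by omega)
    have p4 : N ^ (n + 1) ≤ N ^ B := Nat.pow_le_pow_right (by omega) (by omega)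
    rw [pow_succ]
    refine one_Hp hc hX (X' := B * N ^ B) (κ := κ) (Δ := Δ) (by omega) hNT hTN
      (Nat.pow_pos hρ3) hρ3 (Nat.mul_pos (by norm_num) (by positivity)) hY1 (by omega) ?_
      (by linarith) ?_ ?_ ?_ hX3 hD (hΔ.trans e3) ?_
    · have : ((200 : ℝ)) ^ i ≤ 200 ^ n := by exact_mod_cast p2
      push_cast
      linarith
    · refine le_trans ?_ hYT
      have : 2 * (ρ : ℝ) ≤ 4 * w := by linarith
      gcongr
    · calc 400 * (2 * 200 ^ i) * N * (ρ ^ i + ρ ^ i * ρ)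
          ≤ 400 * (2 * 200 ^ n) * N * (N ^ n + N ^ n) := by gcongr
        _ = 1600 * 200 ^ n * N ^ (n + 1) := by ring
        _ ≤ _ := Nat.mul_le_mul (by omega) p4
    · calc ρ ^ i * (ρ ^ i * ρ) * N ^ 2 ≤ N ^ n * N ^ n * N ^ 2 := by gcongr
        _ = 1 * N ^ (2 * n + 2) := by ring
        _ ≤ _ := Nat.mul_le_mul hB1 p3
    · refine le_trans ?_ e4
      rw [mul_assoc]
      gcongr

end Pool.Agent.MP_2a1f0e_nt.RF
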