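import Pool.Agent.MP_2a1f0e_nt.RF.Basic

set_option autoImplicit false

open Finset
open scoped ComplexConjugate

namespace Pool.Agent.MP_2a1f0e_nt.RF

open GM

theorem down_Iter (hS : StepStmt) (m i : ℕ) : ∃ A : ℝ, 1 ≤ A ∧
    ∀ (N T ρ : ℕ) (J : ℕ → ℕ) (E Y MM Z : ℝ) (g : ℤ → ℝ), 0 ≤ Z → 1 ≤ E → 1 ≤ Y → 0 ≤ MM →
      (∀ j < i + m, Hp N T (J j) (ρ ^ j) (ρ ^ (j + 1)) (2 * 200 ^ j) E Y) → Hg N T g E Y MM →
      Th N T g (ρ ^ (i + m)) (2 * 200 ^ (i + m)) Z →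
        Th N T g (ρ ^ i) (2 * 200 ^ i) (A * (Z + E ^ 17 * ((N : ℝ) ^ 2 * MM / Y))) := by
  obtain ⟨c, hc, hS⟩ := hS
  induction m generalizing i with
  | zero =>
    refine ⟨1, le_rfl, fun N T ρ J E Y MM Z g hZ hE hY hM _ _ h => h.mono ?_⟩
    have : 0 ≤ E ^ 17 * ((N : ℝ) ^ 2 * MM / Y) := by positivity
    linarith
  | succ m ih =>
    obtain ⟨A, hA, ih⟩ := ih (i + 1)
    refine ⟨c * ((2 * 200 ^ i : ℕ) : ℝ) ^ 2 * A + c + 1, ?_,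
      fun N T ρ J E Y MM Z g hZ hE hY hM hp hg h => ?_⟩
    · have : 0 ≤ c * ((2 * 200 ^ i : ℕ) : ℝ) ^ 2 * A := by positivity
      linarith
    have e : i + (m + 1) = i + 1 + m := by omega
    have h1 := ih N T ρ J E Y MM Z g hZ hE hY hM (e ▸ hp) hg (e ▸ h)
    have e2 : 2 * 200 ^ (i + 1) = 200 * (2 * 200 ^ i) := by ring
    rw [e2] at h1
    refine (hS N T (J i) _ _ _ E Y MM _ g (hp i (by omega)) hg h1).mono ?_
    have hW : 0 ≤ E ^ 17 * ((N : ℝ) ^ 2 * MM / Y) := by positivity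
    rw [mul_assoc c (E ^ 17)]
    generalize E ^ 17 * ((N : ℝ) ^ 2 * MM / Y) = W at hW ⊢
    nlinarith [mul_nonneg hc.le hZ]

theorem iter_stmt (hS : StepStmt) : IterStmt := by
  intro n
  obtain ⟨A, hA, h⟩ := down_Iter hS n 0
  refine ⟨A, by linarith, fun N T ρ J E Y MM Z g hZ hE hY hM hp hg hT => ?_⟩
  simpa only [pow_zero, mul_one] using
    h N T ρ J E Y MM Z g hZ hE hY hM (by rwa [zero_add]) hg (by rwa [zero_add])

end Pool.Agent.MP_2a1f0e_nt.RF
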