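import Pool.Agent.MP_2a1f0e_nt.RF.Basic
set_option autoImplicit false
open Finset
open scoped ComplexConjugate
namespace Pool.Agent.MP_2a1f0e_nt.RF
open GM

lemma fu_eq_Ker (hT : TriangStmt) (T : ℕ) (u : ℝ) :
    fu T (fun t => (2 * (T : ℝ) - |(t : ℝ)|) / (2 * T)) u =
      ((‖gs (2 * T) (u / (2 * Real.pi))‖ ^ 2 / (2 * T) : ℝ) : ℂ) := by
  have h := hT (2 * T) (u / (2 * Real.pi))
  rw [Complex.ofReal_div, ← h, sum_div]
  unfold fu trig IT
  have e : ((2 * T : ℕ) : ℤ) = 2 * T := by push_cast; ring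
  rw [e]
  refine sum_congr rfl fun t _ => ?_
  have e2 : ex ((t : ℝ) * (u / (2 * Real.pi))) = Complex.exp (Complex.I * (t : ℂ) * (u : ℂ)) := by
    unfold ex
    have : 2 * Real.pi * ((t : ℝ) * (u / (2 * Real.pi))) = t * u := by
      have := Real.pi_pos
      field_simp
    rw [this]
    congr 1
    push_cast
    ring
  rw [e2]
  push_cast
  ring

theorem ker_stmt (hT : TriangStmt) : KerStmt := by
  refine ⟨192, by norm_num, fun T u hT1 hu => ?_⟩
  have hT' : (1 : ℝ) ≤ T := by exact_mod_cast hT1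
  have hp := Real.pi_gt_three
  have hp4 := Real.pi_le_four
  rw [fu_eq_Ker hT, Complex.norm_real, Real.norm_of_nonneg (by positivity)]
  obtain ⟨x, hx⟩ : ∃ x, x = u / (2 * Real.pi) := ⟨_, rfl⟩
  rw [← hx]
  have hx1 : |x| ≤ 2 / 3 := by
    rw [hx, abs_div, abs_of_pos (by positivity : 0 < 2 * Real.pi), div_le_iff₀ (by positivity)]
    linarith
  have hx2 := abs_le.1 hx1
  have h := gs_sq_le' (2 * T) (x := x) (by linarith)
  have eL : ((2 * T : ℕ) : ℝ) = 2 * T := by push_cast; ring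
  rw [eL] at h
  have T2 : (0 : ℝ) ≤ (2 * T) ^ 2 := by positivity
  have k1 : kp (2 * (2 * T) * (x - 1)) ≤ kp (2 * T * x) := by
    apply kp_anti
    have : x ^ 2 ≤ 4 * (x - 1) ^ 2 := by nlinarith [hx2.1, hx2.2]
    have := mul_le_mul_of_nonneg_left this T2
    nlinarith
  have k2 : kp (2 * (2 * T) * x) ≤ kp (2 * T * x) := by
    apply kp_anti
    have := mul_nonneg T2 (sq_nonneg x)
    nlinarith
  have k3 : kp (2 * (2 * T) * (x + 1)) ≤ kp (2 * T * x) := by
    apply kp_anti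
    have : x ^ 2 ≤ 4 * (x + 1) ^ 2 := by nlinarith [hx2.1, hx2.2]
    have := mul_le_mul_of_nonneg_left this T2
    nlinarith
  have k4 : kp (2 * T * x) ≤ 4 ^ 2 * kp (T * u) := by
    have e : 2 * T * x = 1 / Real.pi * (T * u) := by rw [hx]; field_simp
    rw [e]
    refine kp_mul_le (by norm_num) ?_ _
    rw [abs_of_pos (by positivity), mul_one_div, le_div_iff₀ (by positivity)]
    linarith
  rw [div_le_iff₀ (by positivity)]
  refine h.trans ?_
  have k5 : kp (2 * (2 * T) * (x - 1)) + kp (2 * (2 * T) * x) + kp (2 * (2 * T) * (x + 1)) ≤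
      48 * kp (T * u) := by linarith
  have := mul_le_mul_of_nonneg_left k5 (by positivity : (0 : ℝ) ≤ 2 * (2 * T) ^ 2)
  refine this.trans (le_of_eq ?_)
  ring

end Pool.Agent.MP_2a1f0e_nt.RF
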