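import Pool.Agent.MP_2a1f0e_nt.RF.Basic

set_option autoImplicit false

open Finset
open scoped ComplexConjugate

namespace Pool.Agent.MP_2a1f0e_nt.RF

open GM

theorem kp_floor_Kp (y : ℝ) : kp y ≤ 3 * kp ((⌊y⌋ : ℤ) : ℝ) := by
  have h1 := Int.floor_le y
  have h2 := Int.lt_floor_add_one y
  set n : ℝ := ((⌊y⌋ : ℤ) : ℝ)
  unfold kp
  rw [mul_one_div, div_le_div_iff₀ (by positivity) (by positivity)]
  have h3 : (y - n) ^ 2 ≤ 1 := by nlinarith
  nlinarith [sq_nonneg (y + (y - n))]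

theorem kp_stmt : KpStmt := by
  classical
  refine ⟨18, by norm_num, fun ι s u T μ v hT h => ?_⟩
  have hT' : (0 : ℝ) < T := by exact_mod_cast hT
  set n : ι → ℤ := fun i => ⌊(T : ℝ) * (u i - v)⌋ with hn
  have h1 : ∑ i ∈ s, kp (T * (u i - v)) ≤ ∑ i ∈ s, 3 * kp (n i : ℝ) :=
    sum_le_sum fun i _ => kp_floor_Kp _
  have h2 : ∑ i ∈ s, 3 * kp (n i : ℝ) ≤ ∑ m ∈ s.image n, μ * (3 * kp (m : ℝ)) := by
    rw [sum_comp (fun m : ℤ => 3 * kp (m : ℝ)) n]
    refine sum_le_sum fun m _ => ?_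
    rw [nsmul_eq_mul]
    refine mul_le_mul_of_nonneg_right ?_ (by have := kp_pos (m : ℝ); positivity)
    refine h (v + m / T) _ (filter_subset _ _) fun i hi => ⟨0, ?_⟩
    have e : n i = m := (mem_filter.1 hi).2
    have a1 := Int.floor_le ((T : ℝ) * (u i - v))
    have a2 := Int.lt_floor_add_one ((T : ℝ) * (u i - v))
    change (n i : ℝ) ≤ _ at a1
    change _ < (n i : ℝ) + 1 at a2
    rw [e] at a1 a2
    have b1 : (m : ℝ) / T ≤ u i - v := by rw [div_le_iff₀ hT']; linarith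
    have b2 : u i - v ≤ (m + 1 : ℝ) / T := by rw [le_div_iff₀ hT']; linarith
    rw [add_div] at b2
    push_cast
    constructor <;> linarith
  have h3 := sum_kp_sep (s.image n) (fun m : ℤ => (m : ℝ)) (fun i _ j _ hij => by
    rw [← Int.cast_sub, ← Int.cast_abs]
    exact_mod_cast Int.one_le_abs (sub_ne_zero.2 hij)) 0 one_pos
  simp only [sub_zero, div_one] at h3
  have h4 : ∑ m ∈ s.image n, μ * (3 * kp (m : ℝ)) = 3 * (μ * ∑ m ∈ s.image n, kp (m : ℝ)) := by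
    rw [← mul_sum, ← mul_sum]; ring
  have := mul_le_mul_of_nonneg_left h3 h.nonneg
  linarith

end Pool.Agent.MP_2a1f0e_nt.RF
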