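import Pool.Agent.MP_2a1f0e_nt.RF.Basic
set_option autoImplicit false
open Finset
open scoped ComplexConjugate
namespace Pool.Agent.MP_2a1f0e_nt.RF
open GM

lemma gs_neg_LS (L : ℕ) (x : ℝ) : ‖gs L (-x)‖ = ‖gs L x‖ := by
  rw [← Complex.norm_conj (gs L x)]
  congr 1
  unfold gs
  rw [map_sum]
  exact sum_congr rfl fun r _ => by rw [conj_ex, mul_neg]

lemma exp_LS (t : ℤ) (u : ℝ) :
    Complex.exp (Complex.I * (t : ℂ) * (u : ℂ)) = ex (t * (u / (2 * Real.pi))) := by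
  unfold ex
  congr 1
  have : 2 * Real.pi * (t * (u / (2 * Real.pi))) = t * u := by
    have := Real.pi_ne_zero
    field_simp
  rw [this]
  push_cast
  ring

lemma shift_LS {ι : Type} {s : Finset ι} {u : ι → ℝ} {T : ℕ} {μ : ℝ} (h : CM s u T μ)
    (k : ι → ℤ) : CM s (fun j => u j - 2 * Real.pi * k j) T μ := by
  intro l s' hs h'
  refine h l s' hs fun i hi => ?_
  obtain ⟨m, h1, h2⟩ := h' i hi
  refine ⟨k i + m, ?_, ?_⟩ <;> push_cast <;> linarith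

lemma row_LS {c : ℝ}
    (hK : ∀ (ι : Type) (s : Finset ι) (u : ι → ℝ) (T : ℕ) (μ v : ℝ),
      1 ≤ T → CM s u T μ → ∑ i ∈ s, kp (T * (u i - v)) ≤ c * μ)
    {ι : Type} {s : Finset ι} {u : ι → ℝ} {T : ℕ} {μ : ℝ} (hT : 1 ≤ T) (h : CM s u T μ) (i : ι) :
    ∑ j ∈ s, ‖gs (2 * (4 * T)) (u i / (2 * Real.pi) - u j / (2 * Real.pi))‖ ^ 2 ≤
      128 * (T : ℝ) ^ 2 * (c * μ) := by
  obtain ⟨k, hk⟩ : ∃ k : ι → ℤ, ∀ j, k j = round (u j / (2 * Real.pi) - u i / (2 * Real.pi)) :=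
    ⟨_, fun _ => rfl⟩
  have h1 := hK ι s _ T μ (u i) hT (shift_LS h k)
  refine le_trans ?_ (mul_le_mul_of_nonneg_left h1 (by positivity))
  rw [mul_sum]
  refine sum_le_sum fun j _ => ?_
  obtain ⟨x, hx⟩ : ∃ x, x = u j / (2 * Real.pi) - u i / (2 * Real.pi) - k j := ⟨_, rfl⟩
  have hx1 : |x| ≤ 1 / 2 := by rw [hx, hk]; exact abs_sub_round _
  have e1 : u i / (2 * Real.pi) - u j / (2 * Real.pi) = -(x + k j) := by rw [hx]; ring
  have e2 : u j - 2 * Real.pi * k j - u i = 2 * Real.pi * x := by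
    rw [hx]
    have := Real.pi_ne_zero
    field_simp
    ring
  rw [e1, gs_neg_LS, gs_add_int, e2]
  refine (gs_sq_le _ hx1).trans ?_
  push_cast
  have e3 : kp (2 * (2 * (4 * (T : ℝ))) * x) ≤ kp (T * (2 * Real.pi * x)) := by
    refine kp_anti ?_
    have p1 := Real.pi_le_four
    have p2 := Real.pi_pos
    have p3 : Real.pi ^ 2 ≤ 64 := by nlinarith
    have p4 : 0 ≤ ((T : ℝ) * x) ^ 2 := sq_nonneg _
    nlinarith
  calc _ = 128 * (T : ℝ) ^ 2 * kp (2 * (2 * (4 * (T : ℝ))) * x) := by ring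
    _ ≤ _ := mul_le_mul_of_nonneg_left e3 (by positivity)

lemma dual_LS {ι : Type} (s : Finset ι) (φ : ι → ℝ) (T : ℕ) (w : ι → ℂ) :
    ∑ t ∈ IT T, ‖∑ i ∈ s, w i * ex (t * φ i)‖ ^ 2 ≤
      ∑ t ∈ Icc 1 (4 * T), ‖∑ i ∈ s, (w i * ex (-(2 * T) * φ i)) * ex (t * φ i)‖ ^ 2 := by
  have hsub : IT T ⊆ (Icc 1 (4 * T)).image (fun t : ℕ => (t : ℤ) - 2 * T) := by
    intro t ht
    obtain ⟨h1, h2⟩ := mem_IT.1 ht
    refine mem_image.2 ⟨(t + 2 * T).toNat, mem_Icc.2 ⟨by omega, by omega⟩, by omega⟩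
  refine (sum_le_sum_of_subset_of_nonneg hsub fun _ _ _ => sq_nonneg _).trans (le_of_eq ?_)
  rw [sum_image fun a _ b _ h => by simpa using h]
  refine sum_congr rfl fun t _ => ?_
  congr 2
  refine sum_congr rfl fun i _ => ?_
  rw [mul_assoc, ← ex_add]
  congr 2
  push_cast
  ring

theorem ls_stmt (hK : KpStmt) : LSStmt := by
  obtain ⟨c, hc, hK⟩ := hK
  refine ⟨32 * c, by positivity, fun ι s u T μ hT h a => ?_⟩
  have hμ : 0 ≤ μ := by simpa using h 0 ∅ (empty_subset _) (by simp)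
  have hT' : (1 : ℝ) ≤ T := by exact_mod_cast hT
  obtain ⟨w, hw⟩ : ∃ w : ι → ℂ, ∀ i, w i = trig T a (u i) := ⟨_, fun _ => rfl⟩
  simp only [← hw]
  obtain ⟨G, hG⟩ : ∃ G : ℤ → ℂ, ∀ t, G t = ∑ i ∈ s, conj (w i) * ex (t * (u i / (2 * Real.pi))) :=
    ⟨_, fun _ => rfl⟩
  obtain ⟨S, hS⟩ : ∃ S, S = ∑ i ∈ s, ‖w i‖ ^ 2 := ⟨_, rfl⟩
  have S0 : 0 ≤ S := hS ▸ sum_nonneg fun _ _ => sq_nonneg _
  have e1 : (S : ℂ) = ∑ t ∈ IT T, a t * G t := by
    rw [hS]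
    push_cast
    simp only [hG, mul_sum]
    rw [sum_comm]
    refine sum_congr rfl fun i _ => ?_
    rw [← Complex.conj_mul']
    nth_rewrite 2 [hw i]
    rw [trig, mul_sum]
    refine sum_congr rfl fun t _ => ?_
    rw [exp_LS]
    ring
  have e2 : S ≤ ∑ t ∈ IT T, ‖a t‖ * ‖G t‖ := by
    rw [← abs_of_nonneg S0, ← Real.norm_eq_abs, ← Complex.norm_real, e1]
    exact (norm_sum_le _ _).trans (le_of_eq (sum_congr rfl fun t _ => norm_mul _ _))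
  have e3 : S ^ 2 ≤ (∑ t ∈ IT T, ‖a t‖ ^ 2) * ∑ t ∈ IT T, ‖G t‖ ^ 2 :=
    (pow_le_pow_left₀ S0 e2 2).trans (sum_mul_sq_le_sq_mul_sq _ _ _)
  have e4 := dual_LS s (fun i => u i / (2 * Real.pi)) T fun i => conj (w i)
  simp only [← hG] at e4
  have e5 := fejer s (fun i => conj (w i) * ex (-(2 * T) * (u i / (2 * Real.pi))))
    (fun i => u i / (2 * Real.pi)) (4 * T)
  have e6 := schur s (fun i => ‖w i‖)
    (fun i j => ‖gs (2 * (4 * T)) (u i / (2 * Real.pi) - u j / (2 * Real.pi))‖ ^ 2)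
    (fun _ _ _ _ => sq_nonneg _) (fun i _ j _ => by rw [← gs_neg_LS, neg_sub])
    _ (fun i _ => row_LS hK hT h i)
  simp only [norm_mul, norm_ex, mul_one, Complex.norm_conj] at e5
  rw [← hS] at e6 ⊢
  have e7 : ∑ t ∈ IT T, ‖G t‖ ^ 2 ≤ 32 * c * μ * T * S := by
    have h1 := (mul_le_mul_of_nonneg_left e4 (by positivity : (0 : ℝ) ≤ ((4 * T : ℕ) : ℝ))).trans
      (e5.trans e6)
    push_cast at h1
    refine le_of_mul_le_mul_left (h1.trans (le_of_eq ?_)) (by positivity)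
    ring
  have A0 : 0 ≤ ∑ t ∈ IT T, ‖a t‖ ^ 2 := sum_nonneg fun _ _ => sq_nonneg _
  rcases S0.eq_or_lt with h0 | h0
  · rw [← h0]
    positivity
  · refine le_of_mul_le_mul_right ?_ h0
    calc S * S = S ^ 2 := by ring
      _ ≤ _ := e3.trans (mul_le_mul_of_nonneg_left e7 A0)
      _ = _ := by ring

end Pool.Agent.MP_2a1f0e_nt.RF
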