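import Pool.Agent.MP_2a1f0e_nt.RF.Basic

set_option autoImplicit false

open Finset
open scoped ComplexConjugate

namespace Pool.Agent.MP_2a1f0e_nt.RF

open GM

theorem parseval_LS0 {κ ι : Type*} [Fintype κ] [Fintype ι] [DecidableEq ι] (g : κ → ι → ℂ)
    (w : ι → ℝ)
    (h : ∀ b b', ∑ k, g k b * conj (g k b') = if b = b' then (w b : ℂ) else 0) (x : ι → ℂ) :
    ∑ k, ‖∑ b, g k b * x b‖ ^ 2 = ∑ b, w b * ‖x b‖ ^ 2 := by
  apply Complex.ofReal_injective
  push_cast
  simp only [← Complex.mul_conj', map_sum, map_mul, Finset.sum_mul_sum]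
  rw [Finset.sum_comm]
  refine Finset.sum_congr rfl fun b _ => ?_
  rw [Finset.sum_comm]
  have : ∀ b', ∑ k, g k b * x b * (conj (g k b') * conj (x b')) =
      (∑ k, g k b * conj (g k b')) * (x b * conj (x b')) := fun b' => by
    rw [Finset.sum_mul]; exact Finset.sum_congr rfl fun k _ => by ring
  simp [this, h]

section

open scoped Classical

variable {d : ℕ} [NeZero d]

theorem norm_chi_LS0 (χ : DirichletCharacter ℂ d) (b : ZMod d) :
    ‖χ b‖ ^ 2 = if IsUnit b then 1 else 0 := by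
  split_ifs with h
  · obtain ⟨u, rfl⟩ := h
    rw [χ.unit_norm_eq_one, one_pow]
  · simp [χ.map_nonunit h]

theorem norm_gauss_LS0 {χ : DirichletCharacter ℂ d} (hχ : χ.IsPrimitive) :
    ‖gaussSum χ ZMod.stdAddChar‖ ^ 2 = d := by
  have h := parseval_LS0 (fun n b : ZMod d => ZMod.stdAddChar (n * b)) (fun _ => (d : ℝ))
    (fun b b' => by
      have := AddChar.sum_mulShift (b - b') (ZMod.isPrimitive_stdAddChar d)
      simp only [← AddChar.map_neg_eq_conj, ← AddChar.map_add_eq_mul, ← sub_eq_add_neg, ← mul_sub]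
      rw [this]
      simp [sub_eq_zero]) χ
  have e : ∀ n : ZMod d, ∑ b, ZMod.stdAddChar (n * b) * χ b =
      χ⁻¹ n * gaussSum χ ZMod.stdAddChar := fun n => by
    rw [← gaussSum_mulShift_of_isPrimitive _ hχ, gaussSum]
    exact Finset.sum_congr rfl fun b _ => by rw [AddChar.mulShift_apply, mul_comm]
  simp only [e, norm_mul, mul_pow, norm_chi_LS0, ← Finset.sum_mul, ← Finset.mul_sum] at h
  have hp : (0 : ℝ) < ∑ b : ZMod d, if IsUnit b then 1 else 0 :=
    Finset.sum_pos' (fun b _ => by positivity) ⟨1, mem_univ _, by simp⟩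
  rw [mul_comm] at h
  exact mul_right_cancel₀ hp.ne' h

theorem orth_LS0 (b b' : ZMod d) : ∑ χ : DirichletCharacter ℂ d, χ⁻¹ b * conj (χ⁻¹ b') =
    if b = b' then (((if IsUnit b then Nat.totient d else 0 : ℝ)) : ℂ) else 0 := by
  by_cases hb : IsUnit b
  · obtain ⟨u, rfl⟩ := hb
    have : ∀ χ : DirichletCharacter ℂ d, χ⁻¹ u * conj (χ⁻¹ b') = χ (↑u⁻¹ * b') := fun χ => by
      rw [map_mul, map_units_inv, MulChar.inv_apply_eq_inv', ← Complex.star_def,
        MulChar.star_apply', inv_inv]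
    simp only [this, DirichletCharacter.sum_characters_eq, Units.inv_mul_eq_one]
    simp
  · simp [MulChar.map_nonunit _ hb, hb]

theorem sum_red_LS0 (f : ZMod d → ℝ) :
    ∑ b : ZMod d, (if IsUnit b then f b else 0) =
      ∑ b ∈ (range d).filter fun b => Nat.Coprime b d, f b := by
  rw [Finset.sum_filter]
  refine Finset.sum_nbij' (fun b => b.val) (fun n => (n : ZMod d)) (fun b _ => ?_)
    (fun _ _ => mem_univ _) (fun b _ => by simp) (fun n hn => ?_) (fun b _ => ?_)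
  · simpa using b.val_lt
  · exact ZMod.val_cast_of_lt (by simpa using hn)
  · simp [← ZMod.isUnit_iff_coprime]

theorem gauss_LS0 (N : ℕ) (a : ℕ → ℂ) :
    ∑ χ ∈ prim d, ‖∑ n ∈ Icc 1 N, a n * χ (n : ZMod d)‖ ^ 2 ≤
      ∑ b ∈ (range d).filter fun b => Nat.Coprime b d,
        ‖∑ n ∈ Icc 1 N, a n * ZMod.stdAddChar ((n : ZMod d) * (b : ZMod d))‖ ^ 2 := by
  have hd' : (0 : ℝ) < d := by exact_mod_cast Nat.pos_of_ne_zero (NeZero.ne d)
  have h := parseval_LS0 _ _ (orth_LS0 (d := d))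
    fun b => ∑ n ∈ Icc 1 N, a n * ZMod.stdAddChar ((n : ZMod d) * b)
  simp only [ite_mul, zero_mul, sum_red_LS0] at h
  rw [← Finset.mul_sum] at h
  have h2 : (Nat.totient d : ℝ) ≤ d := by exact_mod_cast Nat.totient_le d
  refine le_of_mul_le_mul_left (le_trans ?_ (mul_le_mul_of_nonneg_right h2
    (sum_nonneg fun _ _ => by positivity))) hd'
  rw [← h, Finset.mul_sum]
  refine le_trans (le_of_eq (Finset.sum_congr rfl fun χ hχ => ?_))
    (Finset.sum_le_sum_of_subset_of_nonneg (subset_univ (prim d)) fun _ _ _ => by positivity)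
  have hp : χ⁻¹.IsPrimitive := by
    have := mem_prim.1 hχ
    rwa [DirichletCharacter.isPrimitive_def, DirichletCharacter.conductor_inv] at *
  rw [← norm_gauss_LS0 hp, ← mul_pow, ← norm_mul]
  congr 2
  simp only [Finset.mul_sum]
  rw [Finset.sum_comm]
  refine Finset.sum_congr rfl fun n _ => ?_
  have := gaussSum_mulShift_of_isPrimitive ZMod.stdAddChar hp (n : ZMod d)
  rw [inv_inv] at this
  rw [mul_comm, mul_assoc, ← this, gaussSum, Finset.mul_sum]
  exact Finset.sum_congr rfl fun b _ => by rw [AddChar.mulShift_apply]; ring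

end

theorem sum_LS0 {M : Type} [AddCommMonoid M] (L : ℕ) (F : ℕ → M) :
    ∑ t ∈ IT L, (if 1 ≤ t ∧ t ≤ L then F t.toNat else 0) = ∑ n ∈ Icc 1 L, F n := by
  rw [← sum_filter]
  refine sum_nbij' (fun t => t.toNat) (fun n => (n : ℤ)) (fun t ht => ?_) (fun n hn => ?_)
    (fun t ht => ?_) (fun n _ => by simp) fun t _ => rfl
  · simp only [mem_filter, mem_IT, mem_Icc] at ht ⊢
    omega
  · simp only [mem_filter, mem_IT, mem_Icc] at hn ⊢
    omega
  · simp only [mem_filter, mem_IT] at ht ⊢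
    omega

theorem trig_LS0 {d : ℕ} [NeZero d] (L : ℕ) (a : ℕ → ℂ) (b : ℕ) :
    trig L (fun t => if 1 ≤ t ∧ t ≤ L then a t.toNat else 0) (2 * Real.pi * ((b : ℝ) / d)) =
      ∑ n ∈ Icc 1 L, a n * ZMod.stdAddChar ((n : ZMod d) * (b : ZMod d)) := by
  rw [← sum_LS0, trig]
  refine sum_congr rfl fun t _ => ?_
  split_ifs with h
  · obtain ⟨n, rfl⟩ := Int.eq_ofNat_of_zero_le (show 0 ≤ t by omega)
    have := ZMod.stdAddChar_coe (N := d) ((n * b : ℕ) : ℤ)
    push_cast at this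
    rw [Int.toNat_natCast, this]
    congr 2
    push_cast
    ring
  · exact zero_mul _

theorem cm_LS0 (hF : FareyStmt) (R L : ℕ) (hL : 1 ≤ L) :
    CM ((range R ×ˢ Icc 1 R).filter fun p => p.1 < p.2 ∧ Nat.Coprime p.1 p.2)
      (fun p : ℕ × ℕ => 2 * Real.pi * ((p.1 : ℝ) / p.2)) L (2 * (1 + 1 / L * (R : ℝ) ^ 2)) := by
  classical
  intro l s' hs hk
  have hL' : (1 : ℝ) ≤ L := by exact_mod_cast hL
  have hw : (0 : ℝ) ≤ 1 / L := by positivity
  have hw1 : (1 : ℝ) / L ≤ 1 := by rw [div_le_one (by positivity)]; exact hL'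
  have hpi := Real.pi_gt_three
  obtain ⟨f, hf⟩ : ∃ f, f = l / (2 * Real.pi) := ⟨_, rfl⟩
  have hl : l = 2 * Real.pi * f := by rw [hf]; field_simp
  have key : ∀ α : ℝ, ((s'.filter fun p : ℕ × ℕ =>
      α ≤ (p.1 : ℝ) / p.2 ∧ (p.1 : ℝ) / p.2 ≤ α + 1 / L).card : ℝ) ≤ 1 + 1 / L * (R : ℝ) ^ 2 :=
    fun α => hF _ R α _ hw fun p hp => by
      obtain ⟨h1, h2⟩ := mem_filter.1 hp
      have h3 := hs h1
      simp only [mem_filter, mem_product, mem_Icc] at h3
      exact ⟨h3.2.2, h3.1.2.1, by exact_mod_cast h3.1.2.2, h2⟩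
  have hsub : s' ⊆ (s'.filter fun p : ℕ × ℕ => Int.fract f ≤ (p.1 : ℝ) / p.2 ∧
      (p.1 : ℝ) / p.2 ≤ Int.fract f + 1 / L) ∪ s'.filter fun p : ℕ × ℕ =>
      Int.fract f - 1 ≤ (p.1 : ℝ) / p.2 ∧ (p.1 : ℝ) / p.2 ≤ Int.fract f - 1 + 1 / L := by
    intro p hp
    obtain ⟨k, k1, k2⟩ := hk p hp
    beta_reduce at k1 k2
    have h3 := hs hp
    simp only [mem_filter, mem_product, mem_Icc] at h3
    have p0 : (0 : ℝ) < p.2 := by exact_mod_cast h3.1.2.1
    have x0 : 0 ≤ (p.1 : ℝ) / p.2 := by positivity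
    have x1 : (p.1 : ℝ) / p.2 < 1 := by rw [div_lt_one p0]; exact_mod_cast h3.2.1
    simp only [mem_union, mem_filter, hp, true_and]
    generalize (p.1 : ℝ) / p.2 = x at *
    generalize (1 : ℝ) / L = w at *
    have a1 : f + k ≤ x := by
      by_contra hc
      nlinarith
    have a2 : x ≤ f + k + w := by
      by_contra hc
      nlinarith
    have b0 := Int.fract_nonneg f
    have b1 := Int.fract_lt_one f
    have b2 := Int.floor_add_fract f
    have c1 : ⌊f⌋ + k < 1 := by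
      have : ((⌊f⌋ + k : ℤ) : ℝ) < (1 : ℤ) := by push_cast; linarith
      exact_mod_cast this
    have c2 : -2 < ⌊f⌋ + k := by
      have : ((-2 : ℤ) : ℝ) < (⌊f⌋ + k : ℤ) := by push_cast; linarith
      exact_mod_cast this
    rcases (by omega : ⌊f⌋ + k = 0 ∨ ⌊f⌋ + k = -1) with h | h
    · have : (⌊f⌋ : ℝ) + k = 0 := by exact_mod_cast h
      exact Or.inl ⟨by linarith, by linarith⟩
    · have : (⌊f⌋ : ℝ) + k = -1 := by exact_mod_cast h
      exact Or.inr ⟨by linarith, by linarith⟩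
  have h1 := (Nat.cast_le (α := ℝ)).2 ((card_le_card hsub).trans (card_union_le _ _))
  push_cast at h1
  linarith [key (Int.fract f), key (Int.fract f - 1)]

theorem ls0_stmt (hL : LSStmt) (hF : FareyStmt) : LS0Stmt := by
  obtain ⟨c, hc, h⟩ := hL
  refine ⟨2 * c, by positivity, fun R L a => ?_⟩
  rcases Nat.eq_zero_or_pos L with rfl | hL
  · simp
  have hL' : (0 : ℝ) < L := by exact_mod_cast hL
  have h1 := h _ _ _ L _ hL (cm_LS0 hF R L hL) fun t => if 1 ≤ t ∧ t ≤ L then a t.toNat else 0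
  have e1 : ∑ t ∈ IT L, ‖if 1 ≤ t ∧ t ≤ (L : ℤ) then a t.toNat else 0‖ ^ 2 =
      ∑ n ∈ Icc 1 L, ‖a n‖ ^ 2 := by
    rw [← sum_LS0]
    exact sum_congr rfl fun t _ => by split_ifs <;> simp
  rw [e1, sum_finset_product_right _ (Icc 1 R) (fun r => (range r).filter fun b => Nat.Coprime b r)
    (fun p => by
      simp only [mem_filter, mem_product, mem_Icc, mem_range]
      exact ⟨fun h => ⟨h.1.2, h.2⟩, fun h => ⟨⟨by omega, h.1⟩, h.2⟩⟩)] at h1
  refine le_trans (sum_le_sum fun r hr => ?_) (h1.trans (le_of_eq ?_))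
  · have : NeZero r := ⟨by have := (mem_Icc.1 hr).1; omega⟩
    simp only [trig_LS0]
    exact gauss_LS0 L a
  · field_simp
    ring

end Pool.Agent.MP_2a1f0e_nt.RF
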