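import Pool.Agent.MP_2a1f0e_nt.RF.Basic

set_option autoImplicit false

open Finset
open scoped ComplexConjugate

namespace Pool.Agent.MP_2a1f0e_nt.RF

open GM

theorem split_LV (N : ℕ) (b : ℕ → ℂ) (I : Finset ℤ) (V V1 : ℝ) (hV : 0 < V) :
    Mass N b I V ≤ Mass N b I V1 +
      (∑ t ∈ I.filter (fun t : ℤ => ‖DP N b t‖ < V1), ‖DP N b t‖ ^ 4) / V ^ 2 := by
  unfold Mass
  rw [sum_div, sum_filter, sum_filter, sum_filter, ← sum_add_distrib]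
  refine sum_le_sum fun t _ => ?_
  have h0 : 0 ≤ ‖DP N b t‖ := norm_nonneg _
  generalize ‖DP N b t‖ = x at h0 ⊢
  by_cases h1 : V1 ≤ x
  · have h2 : ¬ x < V1 := not_lt.2 h1
    rw [if_pos h1, if_neg h2]
    split_ifs
    · simp
    · positivity
  · have h2 : x < V1 := not_le.1 h1
    rw [if_neg h1, if_pos h2, zero_add]
    split_ifs with h3
    · rw [le_div_iff₀ (by positivity)]
      have h4 : V ^ 2 ≤ x ^ 2 := pow_le_pow_left₀ hV.le h3 2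
      calc x ^ 2 * V ^ 2 ≤ x ^ 2 * x ^ 2 := mul_le_mul_of_nonneg_left h4 (sq_nonneg x)
        _ = x ^ 4 := by ring
    · positivity

theorem sub_LV (N T : ℕ) (b : ℕ → ℂ) (V : ℝ) (hT : 1 ≤ T) :
    Mass N b (Icc 0 (T : ℤ)) V ≤ Mass N b (IT T) V := by
  unfold Mass
  refine sum_le_sum_of_subset_of_nonneg (filter_subset_filter _ fun t ht => ?_)
    fun _ _ _ => sq_nonneg _
  rw [mem_Icc] at ht
  rw [mem_IT]
  constructor <;> omega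

theorem lv_stmt (hC : CoreStmt) (hM : MassStmt) (hT : TayStmt) : LVStmt := by
  intro ε hε
  obtain ⟨K1, hK1, h1⟩ := hC ε hε
  obtain ⟨K2, hK2, h2⟩ := hM ε hε
  refine ⟨36 * 36 * (K1 + K2), fun N T V hN hNT hTN hV b hb W hW hsep hWV => ?_⟩
  have hT0 : 0 ≤ T := (Nat.cast_nonneg N).trans hNT
  have hfl : (⌊T⌋₊ : ℝ) ≤ T := Nat.floor_le hT0
  have hNT0 : N ≤ ⌊T⌋₊ := Nat.le_floor hNT
  have hT0N : ⌊T⌋₊ ≤ N ^ 2 := by
    have : (⌊T⌋₊ : ℝ) ≤ ((N ^ 2 : ℕ) : ℝ) := by push_cast; exact hfl.trans hTN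
    exact_mod_cast this
  set A : ℝ := (N : ℝ) ^ ε with hA
  have hA0 : 0 ≤ A := by positivity
  set F : ℝ := (N : ℝ) ^ (26 / 7 : ℝ) * T ^ (1 / 7 : ℝ) with hF
  have hF0 : 0 ≤ F := by positivity
  have hZ : ∀ b : ℕ → ℂ, (∀ n, ‖b n‖ ≤ 1) → Mass N b (Icc 0 ((⌊T⌋₊ : ℕ) : ℤ)) (V / 6) ≤
      36 * (K1 + K2) * A * ((N : ℝ) ^ 2 + F / V ^ 2) := by
    intro b hb
    have e1 := split_LV N b (Icc 0 ((⌊T⌋₊ : ℕ) : ℤ)) (V / 6) (√(N * √((⌊T⌋₊ : ℕ) : ℝ)))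
      (by positivity)
    have e2 := (sub_LV N ⌊T⌋₊ b (√(N * √((⌊T⌋₊ : ℕ) : ℝ))) (hN.trans hNT0)).trans
      (h2 N ⌊T⌋₊ hN hNT0 hT0N b hb)
    have e3 := h1 N ⌊T⌋₊ hN hNT0 hT0N b hb
    have e4 : (N : ℝ) ^ (26 / 7 : ℝ) * ((⌊T⌋₊ : ℕ) : ℝ) ^ (1 / 7 : ℝ) ≤ F := by
      rw [hF]
      gcongr
    have e5 := e3.trans (mul_le_mul_of_nonneg_left e4 (by positivity : 0 ≤ K1 * A))
    have e6 := div_le_div_of_nonneg_right e5 (sq_nonneg (V / 6))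
    have e7 : K1 * A * F / (V / 6) ^ 2 = 36 * K1 * A * (F / V ^ 2) := by
      field_simp
      ring
    rw [e7] at e6
    have p1 : 0 ≤ A * (N : ℝ) ^ 2 := by positivity
    have p2 : 0 ≤ A * (F / V ^ 2) := by positivity
    have e8 : K2 * A * (N : ℝ) ^ 2 + 36 * K1 * A * (F / V ^ 2) ≤
        36 * (K1 + K2) * A * ((N : ℝ) ^ 2 + F / V ^ 2) := by
      nlinarith [mul_nonneg hK1.le p1, mul_nonneg hK2.le p1, mul_nonneg hK2.le p2]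
    linarith
  have h3 := hT N ⌊T⌋₊ V _ hN hV hZ b hb W
    (fun t ht => ⟨(hW t ht).1, (hW t ht).2.trans_lt (Nat.lt_floor_add_one T)⟩) hsep hWV
  have h4 : (W.card : ℝ) * V ^ 2 ≤ ∑ t ∈ W, ‖DP N b t‖ ^ 2 := by
    rw [← nsmul_eq_mul]
    exact card_nsmul_le_sum W _ _ fun t ht => pow_le_pow_left₀ hV.le (hWV t ht) 2
  have h7 := h4.trans h3
  rw [← le_div_iff₀ (by positivity)] at h7
  refine h7.trans_eq ?_
  field_simp

end Pool.Agent.MP_2a1f0e_nt.RF
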