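import Pool.Agent.MP_2a1f0e_nt.RF.Basic
import Pool.Agent.MP_2a1f0e_nt.Power

set_option autoImplicit false

open Finset
open scoped ComplexConjugate

namespace Pool.Agent.MP_2a1f0e_nt.RF

open GM

lemma split_Lqk (M : ℕ) (f : ℕ → ℂ) (m : ℕ) :
    ∑ n ∈ Icc M (2 ^ (m + 1) * M), f n = ∑ j ∈ range (m + 1),
      ∑ n ∈ Icc (2 ^ j * M) (2 * (2 ^ j * M)), if j = 0 ∨ n ≠ 2 ^ j * M then f n else 0 := by
  induction m with
  | zero => simp
  | succ m ih =>
    have h1 : M ≤ 2 ^ (m + 1) * M := Nat.le_mul_of_pos_left _ (by positivity)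
    rw [sum_range_succ, ← ih, ← sum_filter, pow_succ' 2 (m + 1), mul_assoc]
    generalize 2 ^ (m + 1) * M = X at h1
    rw [← sum_union]
    · congr 1
      ext n
      simp only [mem_union, mem_filter, mem_Icc]
      omega
    · rw [disjoint_left]
      intro n
      simp only [mem_filter, mem_Icc]
      omega

lemma pow_Lqk {N : ℕ} (hN : 1 ≤ N) (b : ℕ → ℂ) (hb : ∀ n, ‖b n‖ ≤ 1) (m : ℕ) {τ : ℝ}
    (hτ1 : 1 ≤ τ) (hτ : ∀ n ≤ (2 * N) ^ (m + 1), (n.divisors.card : ℝ) ≤ τ) :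
    ∃ c : ℕ → ℕ → ℂ, (∀ j n, ‖c j n‖ ≤ 1) ∧ ∀ t : ℝ, ‖DP N b t‖ ^ (m + 1) ≤
      τ ^ (m + 1) * ∑ j ∈ range (m + 1), ‖DP (2 ^ j * N ^ (m + 1)) (c j) t‖ := by
  have h0 : 0 < τ ^ (m + 1) := by positivity
  refine ⟨fun j n => if j = 0 ∨ n ≠ 2 ^ j * N ^ (m + 1) then
    (tr N b ^ (m + 1)) n / (τ ^ (m + 1) : ℝ) else 0, fun j n => ?_, fun t => ?_⟩
  · beta_reduce
    split_ifs
    · rw [norm_div, Complex.norm_real, Real.norm_of_nonneg h0.le, div_le_one h0]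
      by_cases h : n ≤ (2 * N) ^ (m + 1)
      · exact (tr_pow_norm N b _ n).trans (tr_pow_le N b hb hτ1 hτ _ n h)
      · rw [tr_pow_supp N b _ n fun h' => h (mem_Icc.1 h').2, norm_zero]
        exact h0.le
    · simp
  · have h1 := tr_pow_sum hN b (fun n => pw n t) (fun x y hx hy => by
      rw [Nat.cast_mul, pw_mul (by exact_mod_cast hx) (by exact_mod_cast hy)])
      (by simp [pw_one]) (m + 1)
    rw [← norm_pow, DP, ← h1, mul_pow, split_Lqk, mul_sum]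
    refine (norm_sum_le _ _).trans (sum_le_sum fun j _ => le_of_eq ?_)
    rw [← Real.norm_of_nonneg h0.le, ← Complex.norm_real, ← norm_mul, DP, mul_sum]
    refine congrArg _ (sum_congr rfl fun n _ => ?_)
    have : ((τ ^ (m + 1) : ℝ) : ℂ) ≠ 0 := by exact_mod_cast h0.ne'
    rw [Complex.norm_real, Real.norm_of_nonneg h0.le]
    beta_reduce
    split_ifs
    · field_simp
    · simp

theorem lqk_stmt (hL : LqStmt) : LqkStmt := by
  intro k hk q hq1 hq2 ε hε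
  have hk0 : (0 : ℝ) < k := by exact_mod_cast hk
  have hk1 : (1 : ℝ) ≤ k := by exact_mod_cast hk
  obtain ⟨r, rfl⟩ : ∃ r, q = k * r := ⟨q / k, by field_simp⟩
  have hr1 : 2 ≤ r := le_of_mul_le_mul_left (by linarith) hk0
  have hr2 : r ≤ 4 := le_of_mul_le_mul_left (by linarith) hk0
  obtain ⟨e, he, heε⟩ : ∃ e : ℝ, 0 < e ∧ k * (e * (k * 4) + e) ≤ ε := by
    refine ⟨ε / (5 * k ^ 2), by positivity, ?_⟩
    have : k * (ε / (5 * k ^ 2) * (k * 4) + ε / (5 * k ^ 2)) = ε * ((4 * k + 1) / (5 * k)) := by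
      field_simp
    rw [this]
    exact mul_le_of_le_one_right hε.le ((div_le_one (by positivity)).2 (by linarith))
  obtain ⟨K, hK, hL⟩ := hL r hr1 hr2 e he
  obtain ⟨C, hC, hd⟩ := divisor_bound he
  refine ⟨C ^ (k * 4 : ℝ) * (k : ℝ) ^ (r - 1) * k * K * 2 ^ ε * 2 ^ (k * r),
    fun N T hN hT b hb => ?_⟩
  rw [show 24 * (k : ℝ) - 5 * (k * r) = k * (24 - 5 * r) by ring,
    show 26 * (k : ℝ) - 6 * (k * r) = k * (26 - 6 * r) by ring, mul_div_assoc,
    mul_div_mul_left _ _ hk0.ne', Real.rpow_mul (by positivity), Real.rpow_natCast] at hT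
  have hN1 : (1 : ℝ) ≤ N := by exact_mod_cast hN
  obtain ⟨X, hX⟩ : ∃ X : ℝ, X = (2 * N) ^ k := ⟨_, rfl⟩
  have hX1 : 1 ≤ X := hX ▸ one_le_pow₀ (by linarith)
  have hX0 : 0 < X := by linarith
  have hτ : 1 ≤ C * X ^ e := one_le_mul_of_one_le_of_one_le hC (Real.one_le_rpow hX1 he.le)
  obtain ⟨m, rfl⟩ : ∃ m, k = m + 1 := ⟨k - 1, by omega⟩
  obtain ⟨c, hc, h1⟩ := pow_Lqk hN b hb m hτ fun n hn => (hd n).trans (by
    gcongr
    rw [hX]
    exact_mod_cast hn)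
  generalize m + 1 = k at *
  have h2 : ∀ t : ℝ, ‖DP N b t‖ ^ (k * r) ≤ (C * X ^ e) ^ (k * 4 : ℝ) * (k : ℝ) ^ (r - 1) *
      ∑ j ∈ range k, ‖DP (2 ^ j * N ^ k) (c j) t‖ ^ r := fun t => by
    rw [Real.rpow_mul (norm_nonneg _), Real.rpow_natCast]
    refine (Real.rpow_le_rpow (by positivity) (h1 t) (by linarith)).trans ?_
    rw [Real.mul_rpow (by positivity) (by positivity), mul_assoc]
    refine mul_le_mul ?_ ?_ (by positivity) (by positivity)
    · rw [← Real.rpow_natCast, ← Real.rpow_mul (by positivity)]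
      exact Real.rpow_le_rpow_of_exponent_le hτ (by gcongr)
    · simpa using Real.rpow_sum_le_const_mul_sum_rpow_of_nonneg (s := range k)
        (f := fun j => ‖DP (2 ^ j * N ^ k) (c j) t‖) (p := r) (by linarith)
        fun _ _ => norm_nonneg _
  have h3 : ∀ j ∈ range k, ∑ t ∈ Icc 1 T, ‖DP (2 ^ j * N ^ k) (c j) (t : ℕ)‖ ^ r ≤
      K * X ^ e * X ^ r := fun j hj => by
    have k1 : ((2 ^ j * N ^ k : ℕ) : ℝ) ≤ X := by
      rw [hX, mul_pow]
      push_cast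
      gcongr
      · norm_num
      · exact (mem_range.1 hj).le
    refine (hL _ T (Nat.succ_le_of_lt (by positivity)) (hT.trans ?_) _ (hc j)).trans (by gcongr)
    refine Real.rpow_le_rpow (by positivity) ?_ (div_nonneg (by linarith) (by linarith))
    push_cast
    exact le_mul_of_one_le_left (by positivity) (one_le_pow₀ one_le_two)
  refine (sum_le_sum fun (t : ℕ) _ => h2 t).trans ?_
  rw [← mul_sum, sum_comm]
  have h4 := sum_le_card_nsmul _ _ _ h3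
  rw [card_range, nsmul_eq_mul] at h4
  have h5 : (X ^ e) ^ (k * 4 : ℝ) * X ^ e ≤ 2 ^ ε * (N : ℝ) ^ ε := by
    rw [← Real.rpow_mul hX0.le, ← Real.rpow_add hX0, hX, ← Real.rpow_natCast,
      ← Real.rpow_mul (by positivity), ← Real.mul_rpow (by norm_num) (by positivity)]
    exact Real.rpow_le_rpow_of_exponent_le (by linarith) heε
  have h6 : X ^ r = 2 ^ (k * r) * (N : ℝ) ^ (k * r) := by
    rw [hX, ← Real.rpow_natCast, ← Real.rpow_mul (by positivity),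
      Real.mul_rpow (by norm_num) (by positivity)]
  calc _ ≤ (C * X ^ e) ^ (k * 4 : ℝ) * (k : ℝ) ^ (r - 1) * (k * (K * X ^ e * X ^ r)) := by gcongr
    _ = C ^ (k * 4 : ℝ) * (k : ℝ) ^ (r - 1) * k * K * ((X ^ e) ^ (k * 4 : ℝ) * X ^ e) * X ^ r := by
      rw [Real.mul_rpow (by positivity) (by positivity)]
      ring
    _ ≤ C ^ (k * 4 : ℝ) * (k : ℝ) ^ (r - 1) * k * K * (2 ^ ε * (N : ℝ) ^ ε) * X ^ r := by gcongr
    _ = _ := by
      rw [h6]
      ring

end Pool.Agent.MP_2a1f0e_nt.RF
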