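import Pool.Agent.MP_2a1f0e_nt.RF.Basic
import Pool.Agent.MP_2a1f0e_nt.Moments

set_option autoImplicit false

open Finset
open scoped ComplexConjugate

namespace Pool.Agent.MP_2a1f0e_nt.RF

open GM

lemma DP_nat_MV (N : ℕ) (b : ℕ → ℂ) (t : ℕ) :
    DP N b (t : ℝ) = ∑ a ∈ Icc N (2 * N), b a * nit t a := by
  unfold DP pw nit
  simp

lemma sum_int_MV (T : ℕ) (f : ℝ → ℝ) :
    ∑ t ∈ Icc 0 (T : ℤ), f (t : ℝ) = f 0 + ∑ t ∈ Icc 1 T, f (t : ℝ) := by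
  induction T with
  | zero => simp
  | succ n ih =>
    have h1 : Icc 0 ((n + 1 : ℕ) : ℤ) = insert ((n + 1 : ℕ) : ℤ) (Icc 0 (n : ℤ)) := by
      ext x
      simp only [mem_Icc, mem_insert]
      omega
    rw [h1, sum_insert (by simp only [mem_Icc]; omega), ih, sum_Icc_succ_top (by omega)]
    push_cast
    ring

lemma sum_norm_MV {N : ℕ} (hN : 1 ≤ N) {b : ℕ → ℂ} (hb : ∀ n, ‖b n‖ ≤ 1) :
    ∑ a ∈ Icc N (2 * N), ‖b a‖ ≤ 2 * N := by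
  have h := sum_le_card_nsmul (Icc N (2 * N)) (fun a => ‖b a‖) 1 fun a _ => hb a
  rw [Nat.card_Icc, nsmul_eq_mul, mul_one] at h
  refine h.trans ?_
  have : 2 * N + 1 - N ≤ 2 * N := by omega
  exact_mod_cast this

theorem mv_stmt : MVStmt := by
  intro ε hε
  obtain ⟨C, hC1, hC⟩ := divisor_bound (ε := ε / 4) (by positivity)
  refine ⟨16 + 2176 * (C ^ 2 * (4 : ℝ) ^ (ε / 2)), by positivity, ?_⟩
  intro N T hN hNT hTN b hb
  have hN' : (1 : ℝ) ≤ N := by exact_mod_cast hN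
  have hNT' : (N : ℝ) ≤ T := by exact_mod_cast hNT
  set τ : ℝ := C * ((4 : ℝ) * (N : ℝ) ^ 2) ^ (ε / 4) with hτ
  have h4 : (1 : ℝ) ≤ 4 * (N : ℝ) ^ 2 := by nlinarith
  have hτ1 : 1 ≤ τ := by
    have : (1 : ℝ) ≤ ((4 : ℝ) * (N : ℝ) ^ 2) ^ (ε / 4) := Real.one_le_rpow h4 (by positivity)
    nlinarith
  have hdiv : ∀ n ≤ (2 * N) ^ 2, (n.divisors.card : ℝ) ≤ τ := by
    intro n hn
    refine (hC n).trans (mul_le_mul_of_nonneg_left ?_ (by linarith))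
    apply Real.rpow_le_rpow (Nat.cast_nonneg _) _ (by positivity)
    have : (n : ℝ) ≤ ((2 * N : ℕ) : ℝ) ^ 2 := by exact_mod_cast hn
    push_cast at this
    linarith
  have hτ2 : τ ^ 2 = C ^ 2 * (4 : ℝ) ^ (ε / 2) * (N : ℝ) ^ ε := by
    rw [hτ, mul_pow, ← Real.rpow_natCast (((4 : ℝ) * (N : ℝ) ^ 2) ^ (ε / 4)) 2,
      ← Real.rpow_mul (by positivity), Real.mul_rpow (by norm_num) (by positivity),
      ← Real.rpow_natCast (N : ℝ) 2, ← Real.rpow_mul (by positivity)]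
    have e1 : ε / 4 * ((2 : ℕ) : ℝ) = ε / 2 := by push_cast; ring
    have e2 : ((2 : ℕ) : ℝ) * (ε / 2) = ε := by push_cast; ring
    rw [e1, e2]
    ring
  have hNe : (1 : ℝ) ≤ (N : ℝ) ^ ε := Real.one_le_rpow hN' hε.le
  have hM := sum_norm_MV hN hb
  have hM0 : 0 ≤ ∑ a ∈ Icc N (2 * N), ‖b a‖ := sum_nonneg fun _ _ => norm_nonneg _
  have h0 : ‖DP N b 0‖ ≤ 2 * N := (norm_DP_le N b hb 0).trans (by linarith)
  have hK : (16 + 2176 * (C ^ 2 * (4 : ℝ) ^ (ε / 2))) * (N : ℝ) ^ ε =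
      16 * (N : ℝ) ^ ε + 2176 * τ ^ 2 := by rw [hτ2]; ring
  rw [hK]
  constructor
  · rw [sum_int_MV T fun t => ‖DP N b t‖ ^ 2]
    simp only [DP_nat_MV]
    have h1 := moment_low (k := 1) (T := T) (X := (2 * N) ^ 2) hN le_rfl (by simpa using hNT) b hb
      hτ1 (Nat.pow_le_pow_right (by omega) (by norm_num)) hdiv
    norm_num at h1
    have h2 : ‖DP N b 0‖ ^ 2 ≤ (2 * N) ^ 2 := pow_le_pow_left₀ (norm_nonneg _) h0 2
    have h3 : τ * (T * ∑ a ∈ Icc N (2 * N), ‖b a‖) ≤ τ ^ 2 * (T * (2 * N)) := by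
      have : τ ≤ τ ^ 2 := by nlinarith
      gcongr
    have h5 : (N : ℝ) ^ 2 ≤ (N : ℝ) ^ ε * (T * N) := by
      have : (N : ℝ) ^ 2 ≤ T * N := by nlinarith
      have h6 : (0 : ℝ) ≤ T * N := by positivity
      nlinarith
    have h7 : 0 ≤ τ ^ 2 * ((T : ℝ) * N) := by positivity
    have h8 : 0 ≤ (N : ℝ) ^ ε * ((T : ℝ) * N) := by positivity
    nlinarith
  · have hsub : ∑ t ∈ Icc 0 (T : ℤ), ‖DP N b t‖ ^ 4 ≤
        ∑ t ∈ Icc 0 ((N ^ 2 : ℕ) : ℤ), ‖DP N b t‖ ^ 4 :=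
      sum_le_sum_of_subset_of_nonneg (Icc_subset_Icc le_rfl (by exact_mod_cast hTN))
        fun _ _ _ => by positivity
    refine hsub.trans ?_
    rw [sum_int_MV (N ^ 2) fun t => ‖DP N b t‖ ^ 4]
    simp only [DP_nat_MV]
    have h1 := moment_low (k := 2) (T := N ^ 2) (X := (2 * N) ^ 2) hN (by norm_num) le_rfl b hb
      hτ1 le_rfl hdiv
    norm_num at h1
    have h2 : ‖DP N b 0‖ ^ 4 ≤ (2 * N) ^ 4 := pow_le_pow_left₀ (norm_nonneg _) h0 4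
    have h3 : τ ^ 2 * ((N : ℝ) ^ 2 * (∑ a ∈ Icc N (2 * N), ‖b a‖) ^ 2) ≤
        τ ^ 2 * ((N : ℝ) ^ 2 * (2 * N) ^ 2) := by gcongr
    have h5 : (N : ℝ) ^ 4 ≤ (N : ℝ) ^ ε * (N : ℝ) ^ 4 := by
      have h6 : (0 : ℝ) ≤ (N : ℝ) ^ 4 := by positivity
      nlinarith
    nlinarith

end Pool.Agent.MP_2a1f0e_nt.RF
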