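import Pool.Agent.MP_2a1f0e_nt.RF.Basic

set_option autoImplicit false

open Finset
open scoped ComplexConjugate

namespace Pool.Agent.MP_2a1f0e_nt.RF

open GM

lemma mem_FR_Maj {N T : ℕ} {r : ℕ × ℕ} (h : r ∈ FR N T) :
    (1 ≤ r.1 ∧ r.1 ≤ 4 * T / N) ∧ (1 ≤ r.2 ∧ r.2 ≤ 2 * T / N) ∧ Nat.Coprime r.1 r.2 ∧
      r.1 ≤ 2 * r.2 := by
  simp only [FR, mem_filter, mem_product, mem_Icc] at h
  exact ⟨h.1.1, h.1.2, h.2.1, h.2.2.1⟩

lemma ne_Maj {r r' : ℕ × ℕ} (h : Nat.Coprime r.1 r.2) (h' : Nat.Coprime r'.1 r'.2)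
    (h2 : 1 ≤ r.2) (e : r.2 * r'.1 = r'.2 * r.1) : r = r' := by
  have a1 : r.2 ∣ r'.2 := h.symm.dvd_of_dvd_mul_right ⟨r'.1, e.symm⟩
  have a2 : r'.2 ∣ r.2 := h'.symm.dvd_of_dvd_mul_right ⟨r.1, e⟩
  have a3 : r.2 = r'.2 := Nat.dvd_antisymm a1 a2
  rw [← a3] at e
  exact Prod.ext (Nat.eq_of_mul_eq_mul_left h2 e).symm a3

lemma first_Maj {N T : ℕ} (hN : 1 ≤ N) (hNT : N ≤ T) (hT : T ≤ N ^ 2) (u : ℝ) :
    ∑ r ∈ FR N T, kp (T * (u + Real.log r.2 - Real.log r.1)) ≤ 34 := by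
  have hN' : (1 : ℝ) ≤ N := by exact_mod_cast hN
  have hNT' : (N : ℝ) ≤ T := by exact_mod_cast hNT
  have hT' : (T : ℝ) ≤ (N : ℝ) ^ 2 := by exact_mod_cast hT
  have hT0 : (0 : ℝ) < T := by linarith
  set X : ℝ := (2 * T / N) * (4 * T / N) with hX
  have hX0 : 0 < X := by positivity
  have h := sum_kp_sep (FR N T) (fun r => X * (Real.log r.2 - Real.log r.1)) (fun r hr r' hr' hne => by
    obtain ⟨⟨a1, a2⟩, ⟨a3, a4⟩, a5, -⟩ := mem_FR_Maj hr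
    obtain ⟨⟨b1, b2⟩, ⟨b3, b4⟩, b5, -⟩ := mem_FR_Maj hr'
    have c1 : (r.1 : ℝ) ≤ 4 * T / N := by
      have := (Nat.cast_le (α := ℝ)).2 a2
      exact this.trans (by simpa using Nat.cast_div_le (α := ℝ) (m := 4 * T) (n := N))
    have c2 : (r.2 : ℝ) ≤ 2 * T / N := by
      have := (Nat.cast_le (α := ℝ)).2 a4
      exact this.trans (by simpa using Nat.cast_div_le (α := ℝ) (m := 2 * T) (n := N))
    have d1 : (r'.1 : ℝ) ≤ 4 * T / N := by
      have := (Nat.cast_le (α := ℝ)).2 b2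
      exact this.trans (by simpa using Nat.cast_div_le (α := ℝ) (m := 4 * T) (n := N))
    have d2 : (r'.2 : ℝ) ≤ 2 * T / N := by
      have := (Nat.cast_le (α := ℝ)).2 b4
      exact this.trans (by simpa using Nat.cast_div_le (α := ℝ) (m := 2 * T) (n := N))
    have p1 : (0 : ℝ) < r.1 := by exact_mod_cast a1
    have p2 : (0 : ℝ) < r.2 := by exact_mod_cast a3
    have q1 : (0 : ℝ) < r'.1 := by exact_mod_cast b1
    have q2 : (0 : ℝ) < r'.2 := by exact_mod_cast b3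
    have hl := abs_sub_div_le_log (a := (r.2 : ℝ) * r'.1) (b := (r'.2 : ℝ) * r.1) (X := X)
      (by positivity) (by positivity) (by rw [hX]; gcongr) (by rw [hX]; gcongr)
    rw [Real.log_mul p2.ne' q1.ne', Real.log_mul q2.ne' p1.ne', div_le_iff₀ hX0] at hl
    have hn : r.2 * r'.1 ≠ r'.2 * r.1 := fun e => hne (ne_Maj a5 b5 a3 e)
    have h1 : (1 : ℝ) ≤ |(r.2 : ℝ) * r'.1 - (r'.2 : ℝ) * r.1| := by
      have : (1 : ℤ) ≤ |((r.2 * r'.1 : ℕ) : ℤ) - ((r'.2 * r.1 : ℕ) : ℤ)| :=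
        Int.one_le_abs (sub_ne_zero.2 (by exact_mod_cast hn))
      exact_mod_cast this
    rw [← mul_sub, abs_mul, abs_of_pos hX0, mul_comm]
    refine (h1.trans hl).trans (le_of_eq ?_)
    congr 2
    ring) (-(X * u)) (L := X / T) (by positivity)
  have hL : X / T ≤ 8 := by
    rw [hX, div_le_iff₀ hT0, div_mul_div_comm, div_le_iff₀ (by positivity)]
    nlinarith
  refine le_trans (le_of_eq (sum_congr rfl fun r _ => ?_)) (h.trans (by linarith))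
  congr 1
  field_simp
  ring

lemma second_Maj {N T : ℕ} (hN : 1 ≤ N) (hT : T ≤ N ^ 2) :
    ∑ r ∈ FR N T, ((N : ℝ) / r.2) ^ 2 ≤ 4 * (N : ℝ) ^ 2 * (1 + Real.log N) := by
  have hN' : (1 : ℝ) ≤ N := by exact_mod_cast hN
  have hsub : FR N T ⊆ ((Icc 1 (2 * N)).sigma fun q => Icc 1 (2 * q)).image
      fun z => (z.2, z.1) := by
    intro r hr
    obtain ⟨⟨a1, -⟩, ⟨a3, a4⟩, -, a6⟩ := mem_FR_Maj hr
    refine mem_image.2 ⟨⟨r.2, r.1⟩, mem_sigma.2 ⟨mem_Icc.2 ⟨a3, a4.trans ?_⟩,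
      mem_Icc.2 ⟨a1, a6⟩⟩, rfl⟩
    refine Nat.div_le_of_le_mul ?_
    nlinarith
  refine (sum_le_sum_of_subset_of_nonneg hsub fun _ _ _ => sq_nonneg _).trans ?_
  refine (sum_image_le_of_nonneg fun _ _ => sq_nonneg _).trans ?_
  rw [sum_sigma]
  have e : ∑ q ∈ Icc 1 (2 * N), ∑ _a ∈ Icc 1 (2 * q), ((N : ℝ) / q) ^ 2 =
      2 * (N : ℝ) ^ 2 * ((harmonic (2 * N) : ℚ) : ℝ) := by
    rw [harmonic_eq_sum_Icc]
    push_cast
    rw [mul_sum]
    refine sum_congr rfl fun q hq => ?_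
    have : (0 : ℝ) < q := by exact_mod_cast (mem_Icc.1 hq).1
    rw [sum_const, Nat.card_Icc, nsmul_eq_mul]
    push_cast
    field_simp
  refine (le_of_eq e).trans ?_
  have h1 := harmonic_le_one_add_log (2 * N)
  have h2 : Real.log ((2 * N : ℕ) : ℝ) = Real.log 2 + Real.log N := by
    push_cast
    exact Real.log_mul (by norm_num) (by linarith)
  have h3 := Real.log_two_lt_d9
  have h4 : 0 ≤ Real.log N := Real.log_nonneg hN'
  have h5 : ((harmonic (2 * N) : ℚ) : ℝ) ≤ 2 * (1 + Real.log N) := by linarith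
  calc 2 * (N : ℝ) ^ 2 * ((harmonic (2 * N) : ℚ) : ℝ)
      ≤ 2 * (N : ℝ) ^ 2 * (2 * (1 + Real.log N)) := by gcongr
    _ = _ := by ring

lemma cs_Maj {N T : ℕ} (hN : 1 ≤ N) (hNT : N ≤ T) (hT : T ≤ N ^ 2) (u : ℝ) :
    maj N T u ^ 2 ≤ 34 * ∑ r ∈ FR N T, ((N : ℝ) / r.2) ^ 2 *
      kp (T * (u + Real.log r.2 - Real.log r.1)) := by
  have h := sum_mul_sq_le_sq_mul_sq (FR N T)
    (fun r => √(kp (T * (u + Real.log r.2 - Real.log r.1))))
    (fun r => (N : ℝ) / r.2 * √(kp (T * (u + Real.log r.2 - Real.log r.1))))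
  simp only [mul_pow, Real.sq_sqrt (kp_pos _).le] at h
  have e : maj N T u = ∑ r ∈ FR N T, √(kp (T * (u + Real.log r.2 - Real.log r.1))) *
      ((N : ℝ) / r.2 * √(kp (T * (u + Real.log r.2 - Real.log r.1)))) := by
    unfold maj
    refine sum_congr rfl fun r _ => ?_
    rw [mul_left_comm, Real.mul_self_sqrt (kp_pos _).le]
  rw [e]
  refine h.trans (mul_le_mul_of_nonneg_right (first_Maj hN hNT hT u) ?_)
  exact sum_nonneg fun r _ => mul_nonneg (sq_nonneg _) (kp_pos _).le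

theorem maj_stmt (hK : KpStmt) : MajStmt := by
  obtain ⟨c, hc, hK⟩ := hK
  refine ⟨136 * c, by positivity, fun N T ι s u μ hN hNT hT hs => ?_⟩
  have hμ := hs.nonneg
  refine (sum_le_sum fun i _ => cs_Maj hN hNT hT (u i)).trans ?_
  rw [← mul_sum, sum_comm]
  have h1 : ∑ r ∈ FR N T, ∑ i ∈ s, ((N : ℝ) / r.2) ^ 2 *
      kp (T * (u i + Real.log r.2 - Real.log r.1)) ≤
      ∑ r ∈ FR N T, ((N : ℝ) / r.2) ^ 2 * (c * μ) := by
    refine sum_le_sum fun r _ => ?_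
    rw [← mul_sum]
    refine mul_le_mul_of_nonneg_left ?_ (sq_nonneg _)
    refine le_trans (le_of_eq (sum_congr rfl fun i _ => ?_))
      (hK ι s u T μ (Real.log r.1 - Real.log r.2) (hN.trans hNT) hs)
    congr 2
    ring
  rw [← sum_mul] at h1
  have h2 := mul_le_mul_of_nonneg_right (second_Maj hN hT) (by positivity : 0 ≤ c * μ)
  calc _ ≤ 34 * (4 * (N : ℝ) ^ 2 * (1 + Real.log N) * (c * μ)) := by linarith
    _ = _ := by ring

end Pool.Agent.MP_2a1f0e_nt.RF
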