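import Pool.Agent.MP_2a1f0e_nt.RF.Basic

set_option autoImplicit false

open Finset
open scoped ComplexConjugate

namespace Pool.Agent.MP_2a1f0e_nt.RF

open GM

/-- number of factorisations of `n` into `k` factors from `[1, L]` -/
def co_Mom (k L n : ℕ) : ℕ :=
  ((Fintype.piFinset fun _ : Fin k => Icc 1 L).filter fun f => ∏ i, f i = n).card

lemma maps_Mom (k L : ℕ) : ∀ f ∈ (Fintype.piFinset fun _ : Fin k => Icc 1 L),
    ∏ i, f i ∈ Icc 1 (L ^ k) := by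
  intro f hf
  rw [Fintype.mem_piFinset] at hf
  rw [mem_Icc]
  constructor
  · have : 0 < ∏ i, f i := prod_pos fun i _ => Nat.succ_le_iff.1 (mem_Icc.1 (hf i)).1
    exact this
  · calc ∏ i, f i ≤ ∏ _i : Fin k, L := prod_le_prod' fun i _ => (mem_Icc.1 (hf i)).2
      _ = L ^ k := by simp

lemma pow_Mom (k L r : ℕ) (χ : DirichletCharacter ℂ r) :
    Sc r χ L ^ k = ∑ n ∈ Icc 1 (L ^ k), (co_Mom k L n : ℂ) * χ (n : ZMod r) := by
  have h1 : Sc r χ L ^ k = ∏ _i : Fin k, ∑ j ∈ Icc 1 L, χ (j : ZMod r) := by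
    simp [Sc]
  rw [h1, prod_univ_sum, ← sum_fiberwise_of_maps_to (maps_Mom k L)]
  refine sum_congr rfl fun n _ => ?_
  rw [co_Mom, ← nsmul_eq_mul, ← sum_const]
  refine sum_congr rfl fun f hf => ?_
  rw [← (mem_filter.1 hf).2, Nat.cast_prod, map_prod]

lemma sum_Mom (k L : ℕ) : ∑ n ∈ Icc 1 (L ^ k), co_Mom k L n = L ^ k := by
  unfold co_Mom
  rw [← card_eq_sum_card_fiberwise (maps_Mom k L)]
  simp

lemma le_Mom (k L n : ℕ) (hn : 1 ≤ n) : co_Mom k L n ≤ n.divisors.card ^ k := by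
  have : n.divisors.card ^ k = (Fintype.piFinset fun _ : Fin k => n.divisors).card := by simp
  rw [this]
  apply card_le_card
  intro f hf
  rw [mem_filter] at hf
  rw [Fintype.mem_piFinset]
  intro i
  rw [Nat.mem_divisors]
  refine ⟨?_, by omega⟩
  rw [← hf.2]
  exact dvd_prod_of_mem _ (mem_univ i)

theorem mom_stmt (hL : LS0Stmt) : MomStmt := by
  obtain ⟨c, hc, hL⟩ := hL
  refine ⟨c, hc, ?_⟩
  intro k R L Δ _ hd
  have h1 := hL R (L ^ k) fun n => (co_Mom k L n : ℂ)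
  have h2 : ∑ n ∈ Icc 1 (L ^ k), ‖(co_Mom k L n : ℂ)‖ ^ 2 ≤ Δ ^ k * (L : ℝ) ^ k := by
    have e : (L : ℝ) ^ k = ∑ n ∈ Icc 1 (L ^ k), (co_Mom k L n : ℝ) := by
      exact_mod_cast (sum_Mom k L).symm
    rw [e, mul_sum]
    refine sum_le_sum fun n hn => ?_
    rw [mem_Icc] at hn
    rw [Complex.norm_natCast, sq]
    apply mul_le_mul_of_nonneg_right _ (Nat.cast_nonneg _)
    calc (co_Mom k L n : ℝ) ≤ (n.divisors.card : ℝ) ^ k := by
          exact_mod_cast le_Mom k L n hn.1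
      _ ≤ Δ ^ k := pow_le_pow_left₀ (Nat.cast_nonneg _) (hd.2 n hn.2) k
  calc ∑ r ∈ Icc 1 R, ∑ χ ∈ prim r, ‖Sc r χ L‖ ^ (2 * k)
      = ∑ r ∈ Icc 1 R, ∑ χ ∈ prim r,
          ‖∑ n ∈ Icc 1 (L ^ k), (co_Mom k L n : ℂ) * χ (n : ZMod r)‖ ^ 2 := by
        refine sum_congr rfl fun r _ => sum_congr rfl fun χ _ => ?_
        rw [← pow_Mom, norm_pow, ← pow_mul, mul_comm]
    _ ≤ c * ((R : ℝ) ^ 2 + ((L ^ k : ℕ) : ℝ)) *
          ∑ n ∈ Icc 1 (L ^ k), ‖(co_Mom k L n : ℂ)‖ ^ 2 := h1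
    _ ≤ c * ((R : ℝ) ^ 2 + (L : ℝ) ^ k) * (Δ ^ k * (L : ℝ) ^ k) := by
        rw [Nat.cast_pow]
        exact mul_le_mul_of_nonneg_left h2 (by positivity)

end Pool.Agent.MP_2a1f0e_nt.RF
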