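import Pool.Agent.MP_2a1f0e_nt.RF.Basic

set_option autoImplicit false

open Finset
open scoped ComplexConjugate

namespace Pool.Agent.MP_2a1f0e_nt.RF

open GM

theorem cm_Mult {ι : Type} (s : Finset ι) (u : ι → ℝ) (T : ℕ) (hT : 1 ≤ T) (a R m B : ℝ)
    (hm : 0 ≤ m) (hR : 0 ≤ R) (hu : ∀ i ∈ s, a ≤ u i ∧ u i ≤ a + R)
    (h : ∀ (l : ℝ) (s' : Finset ι), s' ⊆ s → (∀ i ∈ s', l ≤ u i ∧ u i ≤ l + 1 / T) →
      (s'.card : ℝ) ≤ m) (hB : (R + 1) / (2 * Real.pi) + 1 ≤ B) : CM s u T (B * m) := by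
  classical
  intro l s' hs hk
  have hT' : (1 : ℝ) ≤ T := by exact_mod_cast hT
  have hw1 : (1 : ℝ) / T ≤ 1 := by rw [div_le_one (by positivity)]; exact hT'
  have hpi : 0 < 2 * Real.pi := by positivity
  have hsub : s' ⊆ (Icc ⌈(a - l - 1) / (2 * Real.pi)⌉ ⌊(a + R - l) / (2 * Real.pi)⌋).biUnion
      fun k : ℤ => s'.filter fun i =>
        l + 2 * Real.pi * k ≤ u i ∧ u i ≤ l + 2 * Real.pi * k + 1 / T := by
    intro i hi
    obtain ⟨k, k1, k2⟩ := hk i hi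
    obtain ⟨u1, u2⟩ := hu i (hs hi)
    refine mem_biUnion.2 ⟨k, mem_Icc.2 ⟨Int.ceil_le.2 ?_, Int.le_floor.2 ?_⟩,
      mem_filter.2 ⟨hi, by linarith, by linarith⟩⟩
    · rw [div_le_iff₀ hpi]
      linarith
    · rw [le_div_iff₀ hpi]
      linarith
  have h1 := (Nat.cast_le (α := ℝ)).2 ((card_le_card hsub).trans card_biUnion_le)
  push_cast at h1
  refine h1.trans ((sum_le_card_nsmul _ _ m fun (k : ℤ) _ =>
    h (l + 2 * Real.pi * k) _ ((filter_subset _ _).trans hs) fun i hi =>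
      (mem_filter.1 hi).2).trans ?_)
  rw [nsmul_eq_mul]
  refine mul_le_mul_of_nonneg_right (le_trans ?_ hB) hm
  have e : (R + 1) / (2 * Real.pi) =
      (a + R - l) / (2 * Real.pi) - (a - l - 1) / (2 * Real.pi) := by ring
  have h0 : 0 ≤ (R + 1) / (2 * Real.pi) := by positivity
  have h2 := Int.le_ceil ((a - l - 1) / (2 * Real.pi))
  have h3 := Int.floor_le ((a + R - l) / (2 * Real.pi))
  rw [Int.card_Icc]
  rcases le_total 0 (⌊(a + R - l) / (2 * Real.pi)⌋ + 1 - ⌈(a - l - 1) / (2 * Real.pi)⌉) with h4 | h4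
  · rw [← Int.cast_natCast, Int.toNat_of_nonneg h4]
    push_cast
    linarith
  · rw [Int.toNat_eq_zero.2 h4]
    push_cast
    linarith

theorem pt_Mult {N C K : ℕ} (hN : 1 ≤ N) (hC : 1 ≤ C) (hK : 1 ≤ K) {e : (ℕ × ℕ) × ℕ}
    (he : e ∈ Fam N C K) : -(K : ℝ) ≤ pt e.1 e.2 ∧ pt e.1 e.2 ≤ -(K : ℝ) + 3 * K := by
  rw [mem_Fam, mem_Win] at he
  obtain ⟨⟨⟨⟨h1, -⟩, h2, -⟩, h3, h4⟩, h5, h6⟩ := he
  have a1 : e.1.2 ≤ e.1.1 * e.2 * K := h4.trans (by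
    rw [show K * N * e.1.1 = e.1.1 * N * K by ring]
    gcongr)
  have a2 : e.1.1 * e.2 ≤ 2 * K * e.1.2 := by
    calc e.1.1 * e.2 ≤ e.1.1 * (2 * N) := by gcongr
      _ = 2 * (N * e.1.1) := by ring
      _ ≤ 2 * (K * e.1.2) := by gcongr
      _ = _ := by ring
  have a3 : 0 < e.1.1 * e.2 := Nat.mul_pos (by omega) (by omega)
  have b1 : (e.1.2 : ℝ) ≤ ((e.1.1 * e.2 : ℕ) : ℝ) * K := by exact_mod_cast a1
  have b2 : ((e.1.1 * e.2 : ℕ) : ℝ) ≤ 2 * K * e.1.2 := by exact_mod_cast a2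
  have b3 : (0 : ℝ) < ((e.1.1 * e.2 : ℕ) : ℝ) := by exact_mod_cast a3
  have b4 : (0 : ℝ) < e.1.2 := by exact_mod_cast h2
  unfold pt
  constructor
  · have c1 := Real.log_le_sub_one_of_pos (div_pos b4 b3)
    have c2 := (div_le_iff₀' b3).2 b1
    rw [← inv_div, Real.log_inv] at c1
    rw [← inv_div] at c2
    linarith
  · have c1 := Real.log_le_sub_one_of_pos (div_pos b3 b4)
    have c2 := (div_le_iff₀ b4).2 b2
    linarith

theorem mult_stmt (hM : MultEqStmt) : MultStmt := by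
  intro N C K Δ hN hC hK hΔ
  have hΔ0 : 0 ≤ Δ := zero_le_one.trans hΔ.1
  have hK' : (1 : ℝ) ≤ K := by exact_mod_cast hK
  have hB : (3 * (K : ℝ) + 1) / (2 * Real.pi) + 1 ≤ 3 * K := by
    have : (3 * (K : ℝ) + 1) / (2 * Real.pi) ≤ (3 * (K : ℝ) + 1) / 6 :=
      div_le_div_of_nonneg_left (by positivity) (by norm_num) (by linarith [Real.pi_gt_three])
    linarith
  have h1 : ∀ (G : ℕ) (w l : ℝ), 0 ≤ w → w ≤ 1 → ∀ s : Finset ((ℕ × ℕ) × ℕ), s ⊆ Fam N C K →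
      (∀ e ∈ s, gx e.1 e.2 ≤ G ∧ l ≤ pt e.1 e.2 ∧ pt e.1 e.2 ≤ l + w) →
      (s.card : ℝ) ≤ Δ * (G + 32 * (K : ℝ) ^ 3 * (N : ℝ) ^ 2 * (C : ℝ) ^ 2 * w) := by
    intro G w l hw hw1 s hs h
    rw [card_eq_sum_card_fiberwise (f := fun e => gx e.1 e.2) (t := Ioo 0 (G + 1)) fun e he => by
      have h2 := hs he
      rw [mem_Fam, mem_Win] at h2
      exact mem_coe.2 (mem_Ioo.2 ⟨Nat.gcd_pos_of_pos_right _ h2.1.1.2.1,
        Nat.lt_succ_of_le (h e he).1⟩)]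
    push_cast
    refine (sum_le_sum fun d hd => hM N C K d Δ w l hN hC hK (mem_Ioo.1 hd).1 hΔ hw hw1 _
      ((filter_subset _ _).trans hs) fun e he =>
        ⟨(mem_filter.1 he).2, (h e (mem_filter.1 he).1).2⟩).trans ?_
    rw [← mul_sum, sum_add_distrib]
    refine mul_le_mul_of_nonneg_left (add_le_add (by simp) ?_) hΔ0
    simp only [div_eq_mul_inv, ← mul_sum]
    have h3 := sum_Ioo_inv_sq_le (α := ℝ) 0 (G + 1)
    have h4 : 0 ≤ 16 * (K : ℝ) ^ 3 * (N : ℝ) ^ 2 * (C : ℝ) ^ 2 * w := by positivity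
    have h5 := mul_le_mul_of_nonneg_left h3 h4
    norm_num at h5 ⊢
    linarith
  have hw : ∀ T : ℕ, 1 ≤ T → (0 : ℝ) ≤ 1 / T ∧ (1 : ℝ) / T ≤ 1 := fun T hT => by
    have hT' : (1 : ℝ) ≤ T := by exact_mod_cast hT
    exact ⟨by positivity, by rw [div_le_one (by positivity)]; exact hT'⟩
  refine ⟨h1, fun T d hT hd => ?_, fun T G hT => ?_⟩
  · rw [mul_assoc (3 * (K : ℝ))]
    refine cm_Mult _ _ T hT (-(K : ℝ)) (3 * K) _ _ (by positivity) (by positivity)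
      (fun e he => pt_Mult hN hC hK (mem_filter.1 he).1) (fun l s hs h => ?_) hB
    refine (hM N C K d Δ (1 / T) l hN hC hK hd hΔ (hw T hT).1 (hw T hT).2 s
      (hs.trans (filter_subset _ _)) fun e he => ⟨(mem_filter.1 (hs he)).2, h e he⟩).trans
      (le_of_eq ?_)
    ring
  · rw [mul_assoc (3 * (K : ℝ))]
    refine cm_Mult _ _ T hT (-(K : ℝ)) (3 * K) _ _ (by positivity) (by positivity)
      (fun e he => pt_Mult hN hC hK (mem_filter.1 he).1) (fun l s hs h => ?_) hB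
    refine (h1 G (1 / T) l (hw T hT).1 (hw T hT).2 s
      (hs.trans (filter_subset _ _)) fun e he => ⟨(mem_filter.1 (hs he)).2, h e he⟩).trans
      (le_of_eq ?_)
    ring

end Pool.Agent.MP_2a1f0e_nt.RF
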