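import Pool.Agent.MP_2a1f0e_nt.RF.Basic
set_option autoImplicit false
open Finset
open scoped ComplexConjugate
namespace Pool.Agent.MP_2a1f0e_nt.RF
open GM

theorem int_Mult0 (t : Finset ℤ) {α D : ℝ} (hD : 0 ≤ D) (h : ∀ k ∈ t, α ≤ k ∧ (k : ℝ) ≤ α + D) :
    (t.card : ℝ) ≤ 1 + D := by
  have h1 : t ⊆ Icc ⌈α⌉ ⌊α + D⌋ := fun k hk =>
    mem_Icc.2 ⟨Int.ceil_le.2 (h k hk).1, Int.le_floor.2 (h k hk).2⟩
  have h2 := card_le_card h1
  rw [Int.card_Icc] at h2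
  have h3 : (t.card : ℤ) ≤ max (⌊α + D⌋ + 1 - ⌈α⌉) 0 := by
    rw [← Int.toNat_eq_max]
    exact_mod_cast h2
  have h4 : (t.card : ℝ) ≤ max ((⌊α + D⌋ : ℝ) + 1 - ⌈α⌉) 0 := by exact_mod_cast h3
  exact h4.trans (max_le (by linarith [Int.floor_le (α + D), Int.le_ceil α]) (by linarith))

theorem fib_Mult0 {ι β : Type} [DecidableEq β] (s : Finset ι) (f : ι → β) {m n : ℝ} (hm : 0 ≤ m)
    (hn : ((s.image f).card : ℝ) ≤ n) (h : ∀ b, ((s.filter fun i => f i = b).card : ℝ) ≤ m) :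
    (s.card : ℝ) ≤ n * m := by
  rw [card_eq_sum_card_image f s, Nat.cast_sum]
  refine (sum_le_card_nsmul _ _ m fun b _ => h b).trans ?_
  rw [nsmul_eq_mul]
  exact mul_le_mul_of_nonneg_right hn hm

theorem yv_Mult0 {N C K : ℕ} (hC : 1 ≤ C) {p : ℕ × ℕ} (hp : p ∈ Win N C K) :
    0 < yv p ∧ (N : ℝ) ≤ K * yv p ∧ yv p ≤ K * N ∧ (p.2 : ℝ) = p.1 * yv p := by
  obtain ⟨⟨⟨h1, -⟩, h2, -⟩, h3, h4⟩ := mem_Win.1 hp
  have a1 : (0 : ℝ) < p.1 := by exact_mod_cast hC.trans h1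
  have a2 : (0 : ℝ) < p.2 := by exact_mod_cast h2
  unfold yv
  refine ⟨div_pos a2 a1, ?_, ?_, by field_simp⟩
  · rw [← mul_div_assoc, le_div_iff₀ a1]
    exact_mod_cast h3
  · rw [div_le_iff₀ a1]
    exact_mod_cast h4

theorem real_Mult0 {N C K : ℕ} (hC : 1 ≤ C) {l w : ℝ} (h0 : 0 ≤ w) (h1 : w ≤ 1)
    {s : Finset (ℕ × ℕ)} (hs : s ⊆ Win N C K)
    (h : ∀ p ∈ s, l ≤ -Real.log (yv p) ∧ -Real.log (yv p) ≤ l + w) :
    (s.card : ℝ) ≤ C * (1 + 4 * K * N * C * w) := by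
  refine fib_Mult0 s Prod.fst (by positivity) ?_ fun c => ?_
  · have : s.image Prod.fst ⊆ Ico C (2 * C) := fun c hc => by
      obtain ⟨p, hp, rfl⟩ := mem_image.1 hc
      exact mem_Ico.2 (mem_Win.1 (hs hp)).1.1
    have h2 := card_le_card this
    rw [Nat.card_Ico] at h2
    exact_mod_cast h2.trans (by omega)
  rw [← card_image_of_injOn (f := fun p : ℕ × ℕ => (p.2 : ℤ)) fun p hp q hq e =>
    Prod.ext ((mem_filter.1 hp).2.trans (mem_filter.1 hq).2.symm) (Nat.cast_injective e)]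
  refine int_Mult0 _ (α := c * Real.exp (-l - w)) (by positivity) fun k hk => ?_
  obtain ⟨p, hp', rfl⟩ := mem_image.1 hk
  obtain ⟨hp, rfl⟩ := mem_filter.1 hp'
  obtain ⟨a1, -, a3, a4⟩ := yv_Mult0 hC (hs hp)
  have a5 : (p.1 : ℝ) ≤ 2 * C := by exact_mod_cast (mem_Win.1 (hs hp)).1.1.2.le
  have b1 : Real.exp (-l - w) ≤ yv p := (Real.le_log_iff_exp_le a1).1 (by linarith [(h p hp).2])
  have b2 : yv p ≤ Real.exp (-l - w) * Real.exp w := by
    rw [← Real.exp_add]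
    exact (Real.log_le_iff_le_exp a1).1 (by linarith [(h p hp).1])
  have b3 : Real.exp w ≤ 1 + 2 * w := by
    have := (abs_le.1 (Real.abs_exp_sub_one_le (x := w) (by rwa [abs_of_nonneg h0]))).2
    rw [abs_of_nonneg h0] at this
    linarith
  have b4 := Real.exp_pos (-l - w)
  rw [Int.cast_natCast, a4]
  generalize Real.exp (-l - w) = a at *
  refine ⟨by gcongr, ?_⟩
  calc p.1 * yv p ≤ p.1 * (a * (1 + 2 * w)) := by gcongr; exact b2.trans (by gcongr)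
    _ = p.1 * a + p.1 * a * (2 * w) := by ring
    _ ≤ p.1 * a + 2 * C * (K * N) * (2 * w) := by gcongr; exact b1.trans a3
    _ = _ := by ring

theorem mult0_stmt : Mult0Stmt := by
  intro N C K T hN hC hK hT l s hs h
  choose! k hk using h
  have hT' : (1 : ℝ) ≤ T := by exact_mod_cast hT
  have hK' : (1 : ℝ) ≤ K := by exact_mod_cast hK
  have hN' : (0 : ℝ) < N := by exact_mod_cast hN
  have hw : 1 / (T : ℝ) ≤ 1 := (div_le_one (by linarith)).2 hT'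
  have hw0 : 0 ≤ 1 / (T : ℝ) := by positivity
  have hπ := Real.pi_gt_three
  refine (fib_Mult0 s k (m := C * (1 + 4 * K * N * C * (1 / T))) (n := 1 + K) (by positivity)
    (int_Mult0 _ (α := (-Real.log K - Real.log N - l - 1) / (2 * Real.pi)) (by linarith)
      fun j hj => ?_) fun j => ?_).trans ?_
  · obtain ⟨p, hp, rfl⟩ := mem_image.1 hj
    obtain ⟨a1, a2, a3, -⟩ := yv_Mult0 hC (hs hp)
    have b1 := Real.log_le_log hN' a2
    have b2 := Real.log_le_log a1 a3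
    rw [Real.log_mul (by linarith) a1.ne'] at b1
    rw [Real.log_mul (by linarith) hN'.ne'] at b2
    have b3 := Real.log_le_sub_one_of_pos (show (0 : ℝ) < K by linarith)
    obtain ⟨b4, b5⟩ := hk p hp
    refine ⟨(div_le_iff₀ (by linarith)).2 (by linarith), ?_⟩
    rw [← sub_le_iff_le_add, le_div_iff₀ (by linarith)]
    nlinarith
  · refine real_Mult0 hC (l := l + 2 * Real.pi * j) hw0 hw ((filter_subset _ _).trans hs)
      fun p hp' => ?_
    obtain ⟨hp, rfl⟩ := mem_filter.1 hp'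
    obtain ⟨b4, b5⟩ := hk p hp
    exact ⟨by linarith, by linarith⟩
  · refine mul_le_mul (by linarith) ?_ (by positivity) (by positivity)
    have e : (0 : ℝ) ≤ K * N * (C : ℝ) ^ 2 / T := by positivity
    have e1 : (C : ℝ) * (1 + 4 * K * N * C * (1 / T)) = C + 4 * (K * N * (C : ℝ) ^ 2 / T) := by ring
    have e2 : 16 * (K : ℝ) * N * (C : ℝ) ^ 2 / T = 16 * (K * N * (C : ℝ) ^ 2 / T) := by ring
    rw [e1, e2]
    linarith [Nat.cast_nonneg (α := ℝ) C]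

end Pool.Agent.MP_2a1f0e_nt.RF
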