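import Pool.Agent.MP_2a1f0e_nt.RF.Basic

set_option autoImplicit false

open Finset
open scoped ComplexConjugate

namespace Pool.Agent.MP_2a1f0e_nt.RF

open GM

lemma win_MultEq {ρ l w K : ℝ} (hρ : 0 < ρ) (hK : ρ ≤ 2 * K) (hw : 0 ≤ w) (hw1 : w ≤ 1)
    (h1 : l ≤ Real.log ρ) (h2 : Real.log ρ ≤ l + w) :
    Real.exp l ≤ ρ ∧ ρ ≤ Real.exp l + 4 * K * w := by
  have a1 : Real.exp l ≤ ρ := (Real.le_log_iff_exp_le hρ).1 h1
  have a2 : ρ ≤ Real.exp l * Real.exp w := by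
    rw [← Real.exp_add]
    exact (Real.log_le_iff_le_exp hρ).1 h2
  have a3 := Real.abs_exp_sub_one_le (x := w) (by rwa [abs_of_nonneg hw])
  rw [abs_of_nonneg hw] at a3
  have a4 : Real.exp l * Real.exp w ≤ Real.exp l * (1 + 2 * w) :=
    mul_le_mul_of_nonneg_left (by linarith [le_abs_self (Real.exp w - 1)]) (Real.exp_pos l).le
  have a5 : Real.exp l * w ≤ 2 * K * w := mul_le_mul_of_nonneg_right (a1.trans hK) hw
  exact ⟨a1, by linarith⟩

theorem multEq_stmt (hF : FareyStmt) : MultEqStmt := by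
  intro N C K d Δ w l hN hC hK hd hΔ hw hw1 s hs h
  have hd0 : (0 : ℝ) < d := by exact_mod_cast hd
  obtain ⟨φ, hφ⟩ : ∃ φ : (ℕ × ℕ) × ℕ → ℕ × ℕ, φ = fun e => (e.1.1 * e.2 / d, e.1.2 / d) := ⟨_, rfl⟩
  have d1 : ∀ e ∈ s, d ∣ e.1.1 * e.2 := fun e he => (h e he).1 ▸ Nat.gcd_dvd_left _ _
  have d2 : ∀ e ∈ s, d ∣ e.1.2 := fun e he => (h e he).1 ▸ Nat.gcd_dvd_right _ _
  have h1 := hF (s.image φ) (2 * K * N * C / d) (Real.exp l) (4 * K * w) (by positivity) ?_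
  · have h2 : ∀ r ∈ s.image φ, (((s.filter fun e => φ e = r).card : ℕ) : ℝ) ≤ Δ := fun r hr => by
      obtain ⟨e, he, rfl⟩ := mem_image.1 hr
      obtain ⟨hw, hx1, hx2⟩ := mem_Fam.1 (hs he)
      obtain ⟨⟨⟨c1, c2⟩, -⟩, -⟩ := mem_Win.1 hw
      refine le_trans (Nat.cast_le.2 ?_) (hΔ.2 (e.1.1 * e.2) (by nlinarith))
      have key : ∀ a ∈ s.filter fun a => φ a = φ e,
          a.1.1 * a.2 = e.1.1 * e.2 ∧ a.1.2 = e.1.2 := fun a ha => by
        obtain ⟨ha, hb⟩ := mem_filter.1 ha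
        simp only [hφ, Prod.mk.injEq] at hb
        exact ⟨(Nat.div_left_inj (d1 a ha) (d1 e he)).1 hb.1,
          (Nat.div_left_inj (d2 a ha) (d2 e he)).1 hb.2⟩
      have hne : e.1.1 * e.2 ≠ 0 := Nat.mul_ne_zero (by omega) (by omega)
      exact card_le_card_of_injOn (fun a : (ℕ × ℕ) × ℕ => a.1.1)
        (fun a ha => mem_coe.2 (Nat.mem_divisors.2 ⟨(key a ha).1 ▸ Dvd.intro _ rfl, hne⟩))
        fun a ha b hb hab => by
          have ka := key a ha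
          have kb := key b hb
          have hab' : a.1.1 = b.1.1 := hab
          have hb0 : 0 < b.1.1 := Nat.pos_of_ne_zero fun h0 => hne (by rw [← kb.1, h0, zero_mul])
          refine Prod.ext (Prod.ext hab' (ka.2.trans kb.2.symm))
            (Nat.eq_of_mul_eq_mul_left hb0 ?_)
          rw [kb.1, ← ka.1, hab']
    have h3 := sum_le_card_nsmul _ _ _ h2
    rw [← Nat.cast_sum, ← card_eq_sum_card_image, nsmul_eq_mul, mul_comm] at h3
    refine h3.trans (mul_le_mul_of_nonneg_left (h1.trans_eq ?_) (zero_le_one.trans hΔ.1))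
    ring
  · intro r hr
    obtain ⟨e, he, rfl⟩ := mem_image.1 hr
    obtain ⟨hW, hx1, hx2⟩ := mem_Fam.1 (hs he)
    obtain ⟨⟨⟨c1, c2⟩, q1, q2⟩, q3, -⟩ := mem_Win.1 hW
    obtain ⟨g1, g2, g3⟩ := h e he
    have hQ : (0 : ℝ) < e.1.2 := by exact_mod_cast q1
    have hn : (0 : ℝ) < ((e.1.1 * e.2 : ℕ) : ℝ) := by
      exact_mod_cast Nat.mul_pos (by omega : 0 < e.1.1) (by omega : 0 < e.2)
    have e1 : ((φ e).1 : ℝ) = ((e.1.1 * e.2 : ℕ) : ℝ) / d := by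
      rw [hφ]
      exact Nat.cast_div (d1 e he) hd0.ne'
    have e2 : ((φ e).2 : ℝ) = (e.1.2 : ℝ) / d := by
      rw [hφ]
      exact Nat.cast_div (d2 e he) hd0.ne'
    have hw' := win_MultEq (K := K) (div_pos hn hQ) ((div_le_iff₀ hQ).2 (by
      exact_mod_cast (by nlinarith : e.1.1 * e.2 ≤ 2 * K * e.1.2))) hw hw1 g2 g3
    rw [e1, e2, div_div_div_cancel_right₀ hd0.ne']
    refine ⟨?_, ?_, div_le_div_of_nonneg_right (by exact_mod_cast q2) hd0.le, hw'⟩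
    · rw [hφ, ← g1]
      exact Nat.coprime_div_gcd_div_gcd (g1 ▸ hd : 0 < gx e.1 e.2)
    · rw [hφ]
      exact Nat.div_pos (Nat.le_of_dvd q1 (d2 e he)) hd

end Pool.Agent.MP_2a1f0e_nt.RF
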