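import Pool.Agent.MP_2a1f0e_nt.RF.Basic

set_option autoImplicit false

open Finset
open scoped ComplexConjugate

namespace Pool.Agent.MP_2a1f0e_nt.RF

open GM

lemma step_Om (P : ℕ) (f : ℤ → ℝ) (h0 : ∀ x, 0 ≤ f x) (h1 : ∀ x, f x ≤ 1) (n : ℤ) :
    |∑ a ∈ range P ×ˢ range P, f ((a.1 : ℤ) + a.2 - (n + 1)) -
      ∑ a ∈ range P ×ˢ range P, f ((a.1 : ℤ) + a.2 - n)| ≤ P := by
  rw [abs_sub_comm, ← sum_sub_distrib, sum_product]
  refine (abs_sum_le_sum_abs _ _).trans ?_
  have h2 := sum_le_card_nsmul (range P) (fun i : ℕ => |∑ j ∈ range P,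
    (f ((i : ℤ) + (j : ℕ) - n) - f ((i : ℤ) + (j : ℕ) - (n + 1)))|) 1 fun i _ => by
      have h3 := sum_range_sub (fun j : ℕ => f ((i : ℤ) + j - (n + 1))) P
      rw [sum_congr rfl (g := fun j : ℕ => f ((i : ℤ) + (j + 1 : ℕ) - (n + 1)) -
        f ((i : ℤ) + j - (n + 1))) fun j _ => by
          rw [show (i : ℤ) + (j + 1 : ℕ) - (n + 1) = i + j - n by push_cast; ring], h3, abs_le]
      constructor <;> linarith [h0 ((i : ℤ) + P - (n + 1)), h1 ((i : ℤ) + P - (n + 1)),
        h0 ((i : ℤ) + (0 : ℕ) - (n + 1)), h1 ((i : ℤ) + (0 : ℕ) - (n + 1))]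
  simpa using h2

lemma lip_Om (F : ℤ → ℝ) (c : ℝ) (h : ∀ n, |F (n + 1) - F n| ≤ c) (n n' : ℤ) :
    |F n - F n'| ≤ |((n - n' : ℤ) : ℝ)| * c := by
  have h1 : ∀ (m : ℤ) (k : ℕ), |F (m + k) - F m| ≤ k * c := by
    intro m k
    induction k with
    | zero => simp
    | succ k ih =>
      have h2 := h (m + k)
      have h3 := abs_sub_le (F (m + k + 1)) (F (m + k)) (F m)
      push_cast
      rw [← add_assoc]
      linarith
  rcases le_total n' n with h2 | h2
  · obtain ⟨k, rfl⟩ := Int.le.dest h2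
    simpa using h1 n' k
  · obtain ⟨k, rfl⟩ := Int.le.dest h2
    rw [abs_sub_comm]
    simpa using h1 n k

theorem om_stmt : OmStmt := by
  intro N P K hP
  have hP0 : (0 : ℝ) < P := by exact_mod_cast hP
  have hc : ((range P ×ˢ range P).card : ℝ) = (P : ℝ) ^ 2 := by
    rw [card_product, card_range, sq, Nat.cast_mul]
  refine ⟨fun n => ⟨by unfold Om; positivity, ?_⟩, fun n h1 h2 => ?_, fun n h => ?_,
    fun n n' => ?_, fun Λ a a' n h1 h2 => ?_⟩
  · unfold Om
    rw [div_le_one (by positivity), ← hc]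
    exact_mod_cast card_filter_le _ _
  · unfold Om
    rw [filter_true_of_mem, hc, div_self (by positivity)]
    intro a ha
    simp only [mem_product, mem_range] at ha
    unfold BB
    rw [mem_Icc]
    omega
  · unfold Om at h
    have h1 := (div_ne_zero_iff.1 h).1
    rw [Nat.cast_ne_zero, card_ne_zero] at h1
    obtain ⟨a, ha⟩ := h1
    unfold BB at ha
    simp only [mem_filter, mem_product, mem_range, mem_Icc] at ha
    omega
  · refine (lip_Om (Om N P K) (1 / P) (fun m => ?_) n n').trans ?_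
    · have h1 := step_Om P (fun x => if x ∈ BB N P K then 1 else 0)
        (fun x => by split_ifs <;> norm_num) (fun x => by split_ifs <;> norm_num) m
      simp only [sum_boole] at h1
      unfold Om
      rw [← sub_div, abs_div, abs_of_pos (show (0 : ℝ) < (P : ℝ) ^ 2 by positivity),
        div_le_div_iff₀ (by positivity) hP0]
      have := mul_le_mul_of_nonneg_right h1 hP0.le
      linarith
    · rw [mul_one_div]
      exact div_le_div_of_nonneg_right (by linarith [abs_nonneg ((n - n' : ℤ) : ℝ)]) hP0.le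
  · unfold Om
    rw [← sum_product' (f := fun i i' : ℤ => if (i ≤ a ∧ a < i + P) ∧ (i' ≤ a' ∧ a' < i' + P) ∧
      n - i - i' ∈ BB N P K then (1 : ℝ) else 0), sum_boole]
    refine congrArg (fun k : ℕ => (k : ℝ) / (P : ℝ) ^ 2) ?_
    refine card_bij (fun x _ => (a - x.1, a' - x.2)) (fun x hx => ?_) (fun x _ y _ e => ?_)
      fun y hy => ?_
    · simp only [mem_filter, mem_product, mem_range] at hx ⊢
      refine ⟨⟨h1 (mem_Icc.2 (by omega)), h2 (mem_Icc.2 (by omega))⟩, by omega, by omega, ?_⟩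
      rw [show n - (a - x.1) - (a' - x.2) = x.1 + x.2 - (a + a' - n) by ring]
      exact hx.2
    · simp only [Prod.mk.injEq] at e
      exact Prod.ext (by omega) (by omega)
    · simp only [mem_filter, mem_product] at hy
      obtain ⟨-, b1, b2, b3⟩ := hy
      have e1 : ((a - y.1).toNat : ℤ) = a - y.1 := Int.toNat_of_nonneg (by omega)
      have e2 : ((a' - y.2).toNat : ℤ) = a' - y.2 := Int.toNat_of_nonneg (by omega)
      refine ⟨((a - y.1).toNat, (a' - y.2).toNat), ?_, Prod.ext (by simp only; omega)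
        (by simp only; omega)⟩
      simp only [mem_filter, mem_product, mem_range]
      refine ⟨⟨by omega, by omega⟩, ?_⟩
      rw [e1, e2, show a - y.1 + (a' - y.2) - (a + a' - n) = n - y.1 - y.2 by ring]
      exact b3

end Pool.Agent.MP_2a1f0e_nt.RF
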