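import Pool.Agent.MP_2a1f0e_nt.RF.Basic

set_option autoImplicit false

open Finset
open scoped ComplexConjugate

namespace Pool.Agent.MP_2a1f0e_nt.RF

open GM

theorem orth_Orth {q : ℕ} [NeZero q] (b b' : ZMod q) :
    ‖∑ χ : DirichletCharacter ℂ q, χ b * conj (χ b')‖ ≤
      if b = b' then (q.totient : ℝ) else 0 := by
  by_cases hb : IsUnit b'
  · obtain ⟨u, rfl⟩ := hb
    have : ∀ χ : DirichletCharacter ℂ q, χ b * conj (χ u) = χ (↑u⁻¹ * b) := fun χ => by
      rw [map_mul, map_units_inv, ← Complex.star_def, MulChar.star_apply',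
        MulChar.inv_apply_eq_inv', mul_comm]
    simp only [this, DirichletCharacter.sum_characters_eq, Units.inv_mul_eq_one]
    by_cases h : (u : ZMod q) = b
    · simp [h]
    · simp [h, Ne.symm h]
  · simp only [MulChar.map_nonunit _ hb, map_zero, mul_zero, sum_const_zero, norm_zero]
    split_ifs <;> positivity

theorem orth_stmt : OrthStmt := by
  classical
  intro q ι s ξ α m hq hm
  have : NeZero q := ⟨by omega⟩
  have h1 : ((∑ χ : DirichletCharacter ℂ q, ‖∑ i ∈ s, α i * χ (ξ i : ZMod q)‖ ^ 2 : ℝ) : ℂ) =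
      ∑ i ∈ s, ∑ i' ∈ s, α i * conj (α i') *
        ∑ χ : DirichletCharacter ℂ q, χ (ξ i : ZMod q) * conj (χ (ξ i' : ZMod q)) := by
    push_cast
    simp only [← Complex.mul_conj', map_sum, map_mul]
    simp only [sum_mul_sum]
    simp only [mul_sum]
    rw [sum_comm]
    refine sum_congr rfl fun i _ => ?_
    rw [sum_comm]
    refine sum_congr rfl fun i' _ => sum_congr rfl fun χ _ => by ring
  have h2 : (∑ χ : DirichletCharacter ℂ q, ‖∑ i ∈ s, α i * χ (ξ i : ZMod q)‖ ^ 2 : ℝ) ≤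
      ∑ i ∈ s, ∑ i' ∈ s, ‖α i‖ * ‖α i'‖ *
        (if (ξ i : ZMod q) = (ξ i' : ZMod q) then (q.totient : ℝ) else 0) := by
    refine (le_abs_self _).trans ?_
    rw [← Real.norm_eq_abs, ← Complex.norm_real, h1]
    refine (norm_sum_le _ _).trans (sum_le_sum fun i _ => (norm_sum_le _ _).trans
      (sum_le_sum fun i' _ => ?_))
    rw [norm_mul, norm_mul, Complex.norm_conj]
    exact mul_le_mul_of_nonneg_left (orth_Orth _ _) (by positivity)
  refine h2.trans ?_
  have h3 : ∀ i ∈ s, ∑ i' ∈ s,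
      (if (ξ i : ZMod q) = (ξ i' : ZMod q) then (q.totient : ℝ) else 0) ≤ q.totient * m := by
    intro i _
    rw [← sum_filter, sum_const, nsmul_eq_mul, mul_comm]
    refine mul_le_mul_of_nonneg_left (hm _ (filter_subset _ _) fun a ha a' ha' => ?_)
      (by positivity)
    rw [← ZMod.natCast_eq_natCast_iff, ← (mem_filter.1 ha).2, ← (mem_filter.1 ha').2]
  calc _ ≤ ∑ i ∈ s, ∑ i' ∈ s, (‖α i‖ ^ 2 / 2 + ‖α i'‖ ^ 2 / 2) *
        (if (ξ i : ZMod q) = (ξ i' : ZMod q) then (q.totient : ℝ) else 0) := by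
        refine sum_le_sum fun i _ => sum_le_sum fun i' _ => mul_le_mul_of_nonneg_right ?_ ?_
        · nlinarith [sq_nonneg (‖α i‖ - ‖α i'‖)]
        · split_ifs <;> positivity
    _ = ∑ i ∈ s, ‖α i‖ ^ 2 * ∑ i' ∈ s,
        (if (ξ i : ZMod q) = (ξ i' : ZMod q) then (q.totient : ℝ) else 0) := by
        simp only [add_mul, sum_add_distrib]
        rw [sum_comm (s := s) (t := s) (f := fun i i' => ‖α i'‖ ^ 2 / 2 * _), ← sum_add_distrib]
        refine sum_congr rfl fun i _ => ?_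
        rw [mul_sum, ← sum_add_distrib]
        refine sum_congr rfl fun i' _ => ?_
        by_cases h : (ξ i : ZMod q) = (ξ i' : ZMod q)
        · rw [if_pos h, if_pos h.symm]; ring
        · rw [if_neg h, if_neg (Ne.symm h)]; ring
    _ ≤ ∑ i ∈ s, ‖α i‖ ^ 2 * (q.totient * m) :=
        sum_le_sum fun i hi => mul_le_mul_of_nonneg_left (h3 i hi) (by positivity)
    _ = _ := by rw [← sum_mul]; ring

end Pool.Agent.MP_2a1f0e_nt.RF
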