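import Pool.Agent.MP_2a1f0e_nt.RF.Basic

set_option autoImplicit false

open Finset
open scoped ComplexConjugate

namespace Pool.Agent.MP_2a1f0e_nt.RF

open GM

lemma gsum_Peak (hC : CountStmt) {N C W : ℕ} {E : ℝ} {p : ℕ × ℕ} (hN : 1 ≤ N) (hC1 : 1 ≤ C)
    (hp : p ∈ Win N C W) (hD : DivB (2 * W * N * C) E) :
    ∑ x ∈ Icc N (2 * N), (gx p x : ℝ) ≤ E * (6 * N * C) := by
  obtain ⟨⟨⟨a1, a2⟩, a3, a4⟩, -⟩ := mem_Win.1 hp
  rw [← sum_fiberwise_of_maps_to (g := gx p) (t := p.2.divisors)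
    fun x _ => Nat.mem_divisors.2 ⟨Nat.gcd_dvd_right _ _, by omega⟩]
  have h1 := sum_le_card_nsmul p.2.divisors
    (fun d => ∑ x ∈ Icc N (2 * N) with gx p x = d, (gx p x : ℝ)) (6 * N * C) fun d hd => by
      have hd0 : (0 : ℝ) < d := by exact_mod_cast Nat.pos_of_mem_divisors hd
      have h2 := (hC.1 N p.1 p.2 d 1 ((Icc N (2 * N)).filter fun x => gx p x = d) hN (by omega) a3
        (by rw [mul_one]; exact Nat.dvd_of_mem_divisors hd) (filter_subset _ _)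
        fun x hx => (mem_filter.1 hx).2).1
      rw [le_div_iff₀ hd0] at h2
      rw [sum_congr rfl fun x hx => congrArg Nat.cast (mem_filter.1 hx).2, sum_const,
        nsmul_eq_mul]
      have h3 : (Nat.gcd p.1 p.2 : ℝ) ≤ 2 * C := by
        exact_mod_cast (Nat.gcd_le_left _ (by omega)).trans a2.le
      have h4 := mul_le_mul_of_nonneg_left h3 (show (0 : ℝ) ≤ 3 * N by positivity)
      linarith
  rw [nsmul_eq_mul] at h1
  exact h1.trans (mul_le_mul_of_nonneg_right (hD.2 _ a4) (by positivity))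

lemma cs_Peak (s : Finset ℕ) (G : ℕ → ℕ) (a : ℕ → ℂ) (F : ℕ → ℝ) (J : ℕ)
    (h : ∀ x, ‖a x‖ ≤ F x) :
    ‖∑ x ∈ s, if J < G x then a x else 0‖ ^ 2 ≤
      (∑ x ∈ s, (G x : ℝ)) * ∑ x ∈ s, if J < G x then F x ^ 2 / G x else 0 := by
  have h1 : ‖∑ x ∈ s, if J < G x then a x else 0‖ ≤ ∑ x ∈ s, if J < G x then F x else 0 := by
    refine (norm_sum_le _ _).trans (sum_le_sum fun x _ => ?_)
    split_ifs
    · exact h x
    · simp
  refine (pow_le_pow_left₀ (norm_nonneg _) h1 2).trans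
    (sum_sq_le_sum_mul_sum_of_sq_le_mul s (fun x _ => Nat.cast_nonneg _) (fun x _ => ?_)
      fun x _ => le_of_eq ?_)
  · split_ifs <;> positivity
  · split_ifs with h2
    · have h3 : (G x : ℝ) ≠ 0 := by exact_mod_cast (by omega : G x ≠ 0)
      field_simp
    · simp

lemma har_Peak {ι : Type} (s : Finset ι) (G : ι → ℕ) (F : ι → ℝ) (J X : ℕ) (B : ℝ) (hB : 0 ≤ B)
    (hG : ∀ e ∈ s, 1 ≤ G e ∧ G e ≤ X) (h : ∀ d, J < d → ∑ e ∈ s with G e = d, F e ≤ B) :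
    ∑ e ∈ s, (if J < G e then F e / G e else 0) ≤ (1 + Real.log X) * B := by
  rw [← sum_fiberwise_of_maps_to (g := G) (t := Icc 1 X) fun e he => mem_Icc.2 (hG e he)]
  have h1 : ∑ d ∈ Icc 1 X, (d : ℝ)⁻¹ ≤ 1 + Real.log X := by
    have := harmonic_le_one_add_log X
    rw [harmonic_eq_sum_Icc] at this
    push_cast at this
    exact this
  refine le_trans ?_ (mul_le_mul_of_nonneg_right h1 hB)
  rw [sum_mul]
  refine sum_le_sum fun d _ => ?_
  rw [sum_congr rfl (g := fun e => if J < d then F e / d else 0) fun e he => by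
    rw [(mem_filter.1 he).2]]
  split_ifs with h2
  · rw [← sum_div, div_eq_inv_mul]
    exact mul_le_mul_of_nonneg_left (h d h2) (by positivity)
  · rw [sum_const_zero]
    positivity

lemma num_Peak {N T J C W d E Y : ℝ} (hN : 1 ≤ N) (hT : 1 ≤ T) (hC : 1 ≤ C) (hY : 1 ≤ Y)
    (hE : 1 ≤ E) (hW0 : 0 ≤ W) (hW : W ≤ E) (hJ : Y ^ 6 * C ^ 2 ≤ J) (hd : J ≤ d)
    (hH : T * Y ^ 7 ≤ N ^ 2) :
    3 * W * E * (1 + 16 * W ^ 3 * N ^ 2 * C ^ 2 / (T * d ^ 2)) * T ≤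
      51 * E ^ 5 * (N ^ 2 * C / Y) := by
  have hY0 : 0 < Y := by linarith
  have hT0 : 0 < T := by linarith
  have h1 : Y * C ≤ Y ^ 6 * C ^ 2 :=
    mul_le_mul (le_self_pow₀ hY (by norm_num)) (le_self_pow₀ hC (by norm_num)) (by linarith)
      (by positivity)
  have h2 : 1 ≤ Y * C := one_le_mul_of_one_le_of_one_le hY hC
  have h3 : 1 ≤ d := by linarith
  have h4 : Y * C ≤ d ^ 2 := (h1.trans (hJ.trans hd)).trans (le_self_pow₀ h3 (by norm_num))
  have h5 : T ≤ N ^ 2 * C / Y := by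
    rw [le_div_iff₀ hY0]
    have a1 := mul_le_mul_of_nonneg_left (le_self_pow₀ hY (show 7 ≠ 0 by norm_num)) hT0.le
    have a2 : N ^ 2 ≤ N ^ 2 * C := le_mul_of_one_le_right (by positivity) hC
    linarith
  have h6 : N ^ 2 * C ^ 2 / d ^ 2 ≤ N ^ 2 * C / Y := by
    rw [div_le_div_iff₀ (by positivity) hY0]
    have := mul_le_mul_of_nonneg_left h4 (show 0 ≤ N ^ 2 * C by positivity)
    linarith
  have h7 : W ^ 3 ≤ E ^ 3 := pow_le_pow_left₀ hW0 hW 3
  have h8 : 1 ≤ E ^ 3 := one_le_pow₀ hE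
  have h9 : (1 + 16 * W ^ 3 * N ^ 2 * C ^ 2 / (T * d ^ 2)) * T =
      T + 16 * (W ^ 3 * (N ^ 2 * C ^ 2 / d ^ 2)) := by
    field_simp
  have h10 : W ^ 3 * (N ^ 2 * C ^ 2 / d ^ 2) ≤ E ^ 3 * (N ^ 2 * C / Y) :=
    mul_le_mul h7 h6 (by positivity) (by positivity)
  have h11 : N ^ 2 * C / Y ≤ E ^ 3 * (N ^ 2 * C / Y) :=
    le_mul_of_one_le_left (by positivity) h8
  rw [mul_assoc (3 * W * E), h9]
  calc _ ≤ 3 * E * E * (17 * (E ^ 3 * (N ^ 2 * C / Y))) :=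
        mul_le_mul (by gcongr) (by linarith) (by positivity) (by positivity)
    _ = _ := by ring

theorem peak_stmt (hL : LSStmt) (hM : MultStmt) (hC : CountStmt) : PeakStmt := by
  obtain ⟨c, hc, hL⟩ := hL
  refine ⟨306 * c, by positivity, ?_⟩
  intro N T J C C' K W E Y MM g b hp hg hW1 hW hb
  have hE := hp.E1
  have hT : 1 ≤ T := hp.N1.trans hp.NT
  have hY : 0 < Y := zero_lt_one.trans_le hp.Y1
  have hMM := hg.MM0
  have hX : 2 * W * N * C ≤ 400 * K * N * (C + C') :=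
    Nat.mul_le_mul (Nat.mul_le_mul_right _ (by omega)) (Nat.le_add_right _ _)
  have hX' : 4 * N * C ≤ 400 * K * N * (C + C') :=
    Nat.mul_le_mul (Nat.mul_le_mul_right _ (by have := hp.K1; omega)) (Nat.le_add_right _ _)
  have hWE : (W : ℝ) ≤ E := le_trans (by exact_mod_cast hW) hp.KE
  have h1 : ∀ p ∈ Win N C W, ‖uK N T J g b p‖ ^ 2 ≤ E * (6 * N * C) *
      ∑ x ∈ Icc N (2 * N), if J < gx p x then ‖fu T g (pt p x)‖ ^ 2 / gx p x else 0 := by
    intro p h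
    refine (cs_Peak _ (gx p) _ (fun x => ‖fu T g (pt p x)‖) J
      (norm_av_le hb p)).trans (mul_le_mul_of_nonneg_right
        (gsum_Peak hC hp.N1 hp.C1 h (divB_mono hp.dv hX le_rfl)) (sum_nonneg fun x _ => ?_))
    split_ifs <;> positivity
  have hB : 0 ≤ c * (51 * E ^ 5 * ((N : ℝ) ^ 2 * C / Y)) * MM := by positivity
  have h2 := har_Peak (Fam N C W) (fun e => gx e.1 e.2) (fun e => ‖fu T g (pt e.1 e.2)‖ ^ 2) J
    (400 * K * N * (C + C')) _ hB
    (fun e he => by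
      obtain ⟨⟨-, a3, a4⟩, -⟩ := mem_Win.1 (mem_Fam.1 he).1
      exact ⟨Nat.gcd_pos_of_pos_right _ a3, (Nat.gcd_le_right _ a3).trans (a4.trans hX)⟩)
    (fun d hd => by
      have a1 := (hM N C W E hp.N1 hp.C1 hW1 (divB_mono hp.dv hX' le_rfl)).2.1 T d hT (by omega)
      have a2 := hL _ _ _ T _ hT a1 fun t => (g t : ℂ)
      rw [sum_sq_fu, mul_assoc c] at a2
      refine a2.trans (mul_le_mul (mul_le_mul_of_nonneg_left (num_Peak (J := J)
        (by exact_mod_cast hp.N1) (by exact_mod_cast hT) (by exact_mod_cast hp.C1) hp.Y1 hE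
        (Nat.cast_nonneg _) hWE hp.JL (by exact_mod_cast hd.le) hp.HY) hc.le) hg.sq
        (sum_nonneg fun _ _ => sq_nonneg _) (by positivity)))
  have h3 := h2.trans (mul_le_mul_of_nonneg_right hp.lg hB)
  unfold Fam at h3
  rw [sum_product] at h3
  refine (sum_le_sum h1).trans ?_
  rw [← mul_sum]
  refine (mul_le_mul_of_nonneg_left h3 (by positivity)).trans ?_
  have h4 : E ^ 7 ≤ E ^ 8 := pow_le_pow_right₀ hE (by norm_num)
  calc _ = 306 * c * E ^ 7 * ((N : ℝ) ^ 3 * (C : ℝ) ^ 2 * MM / Y) := by ring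
    _ ≤ _ := by gcongr

end Pool.Agent.MP_2a1f0e_nt.RF
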