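import Pool.Agent.MP_2a1f0e_nt.RF.Basic

set_option autoImplicit false

open Finset
open scoped ComplexConjugate

namespace Pool.Agent.MP_2a1f0e_nt.RF

open GM

lemma cs_Pert {f : ℝ → ℝ} (hf : Continuous f) {a b : ℝ} (hab : a ≤ b) :
    (∫ x in a..b, f x) ^ 2 ≤ (b - a) * ∫ x in a..b, f x ^ 2 := by
  have h := discrim_le_zero (a := b - a) (b := -2 * ∫ x in a..b, f x)
    (c := ∫ x in a..b, f x ^ 2) fun m => by
    have h1 : 0 ≤ ∫ x in a..b, (f x ^ 2 + -2 * m * f x + m * m) :=
      intervalIntegral.integral_nonneg hab fun x _ => by nlinarith [sq_nonneg (f x - m)]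
    rw [intervalIntegral.integral_add (Continuous.intervalIntegrable (by fun_prop) _ _)
      intervalIntegrable_const, intervalIntegral.integral_add
      (Continuous.intervalIntegrable (by fun_prop) _ _)
      (Continuous.intervalIntegrable (by fun_prop) _ _), intervalIntegral.integral_const_mul,
      intervalIntegral.integral_const, smul_eq_mul] at h1
    linarith
  rw [discrim] at h
  linarith

lemma cont_Pert (T : ℕ) (a : ℤ → ℂ) : Continuous (trig T a) := by
  unfold trig
  fun_prop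

lemma der_Pert (T : ℕ) (a : ℤ → ℂ) (u v : ℝ) : HasDerivAt (fun v => trig T a (u + v))
    (trig T (fun t => Complex.I * t * a t) (u + v)) v := by
  refine HasDerivAt.fun_sum fun t _ => ?_
  have h := ((((hasDerivAt_id v).const_add u).ofReal_comp.const_mul
    (Complex.I * t)).cexp).const_mul (a t)
  refine h.congr_deriv ?_
  simp only [id, Complex.ofReal_one]
  ring

lemma one_Pert (T : ℕ) (a : ℤ → ℂ) (u : ℝ) {θ θ₀ : ℝ} (h : |θ| ≤ θ₀) :
    ‖trig T a (u + θ) - trig T a u‖ ^ 2 ≤
      2 * θ₀ * ∫ v in -θ₀..θ₀, ‖trig T (fun t => Complex.I * t * a t) (u + v)‖ ^ 2 := by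
  have hc : Continuous fun v => trig T (fun t => Complex.I * t * a t) (u + v) :=
    (cont_Pert _ _).comp (by fun_prop)
  have h0 : 0 ≤ θ₀ := (abs_nonneg _).trans h
  have h1 := intervalIntegral.integral_eq_sub_of_hasDerivAt (a := 0) (b := θ)
    (fun v _ => der_Pert T a u v) (hc.intervalIntegrable _ _)
  rw [add_zero] at h1
  have h2 := cs_Pert hc.norm (neg_le_self h0)
  rw [sub_neg_eq_add, ← two_mul] at h2
  refine le_trans (pow_le_pow_left₀ (norm_nonneg _) ?_ 2) h2
  rw [← h1]
  refine intervalIntegral.norm_integral_le_abs_integral_norm.trans ?_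
  refine (intervalIntegral.abs_integral_mono_interval (μ := MeasureTheory.volume)
    (c := -θ₀) (d := θ₀) ?_
    (Filter.Eventually.of_forall fun _ => norm_nonneg _) (hc.norm.intervalIntegrable _ _)).trans ?_
  · rw [Set.uIoc_of_le (neg_le_self h0)]
    exact Set.Ioc_subset_Ioc (le_min (neg_nonpos.2 h0) (abs_le.1 h).1) (max_le h0 (abs_le.1 h).2)
  · exact (abs_of_nonneg (intervalIntegral.integral_nonneg (neg_le_self h0)
      fun _ _ => norm_nonneg _)).le

theorem pert_stmt (hL : LSStmt) : PertStmt := by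
  obtain ⟨c, hc, hL⟩ := hL
  refine ⟨16 * c, by positivity, fun ι s u θ T μ θ₀ hT hM _ hθ a => ?_⟩
  have hμ := hM.nonneg
  rcases s.eq_empty_or_nonempty with rfl | ⟨i, hi⟩
  · rw [sum_empty]
    positivity
  have h0 : 0 ≤ θ₀ := (abs_nonneg _).trans (hθ i hi)
  have h1 : ∑ t ∈ IT T, ‖Complex.I * t * a t‖ ^ 2 ≤ 4 * (T : ℝ) ^ 2 * ∑ t ∈ IT T, ‖a t‖ ^ 2 := by
    rw [mul_sum]
    refine sum_le_sum fun t ht => ?_
    have h2 : |(t : ℝ)| ≤ 2 * T := by exact_mod_cast (abs_lt.2 (mem_IT.1 ht)).le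
    rw [norm_mul, norm_mul, Complex.norm_I, one_mul, Complex.norm_intCast, mul_pow]
    exact mul_le_mul_of_nonneg_right
      ((pow_le_pow_left₀ (abs_nonneg _) h2 2).trans_eq (by ring)) (sq_nonneg _)
  have hc' : ∀ i, Continuous fun v => ‖trig T (fun t => Complex.I * t * a t) (u i + v)‖ ^ 2 :=
    fun i => ((cont_Pert _ _).comp (by fun_prop)).norm.pow 2
  refine (sum_le_sum fun i hi => one_Pert T a (u i) (hθ i hi)).trans ?_
  rw [← mul_sum, ← intervalIntegral.integral_finsetSum fun i _ => (hc' i).intervalIntegrable _ _]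
  have h3 := intervalIntegral.integral_mono_on (μ := MeasureTheory.volume) (neg_le_self h0)
    ((continuous_finsetSum s fun i _ => hc' i).intervalIntegrable _ _)
    (intervalIntegrable_const (c := c * μ * T * (4 * (T : ℝ) ^ 2 * ∑ t ∈ IT T, ‖a t‖ ^ 2)))
    fun v _ => (hL ι s (fun i => u i + v) T μ hT (fun l s' h4 h5 => hM (l - v) s' h4 fun i hi => by
      obtain ⟨k, h6, h7⟩ := h5 i hi
      exact ⟨k, by linarith, by linarith⟩) _).trans
      (mul_le_mul_of_nonneg_left h1 (by positivity))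
  rw [intervalIntegral.integral_const, smul_eq_mul] at h3
  exact (mul_le_mul_of_nonneg_left h3 (by positivity)).trans_eq (by ring)

end Pool.Agent.MP_2a1f0e_nt.RF
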