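import Pool.Agent.MP_2a1f0e_nt.RF.Basic

set_option autoImplicit false

open Finset
open scoped ComplexConjugate

namespace Pool.Agent.MP_2a1f0e_nt.RF

open GM

theorem mu_Prim (j s : ℕ) (hs : s ≠ 0) :
    ∑ e ∈ s.divisors, (if e ∣ j then ((ArithmeticFunction.moebius e : ℤ) : ℂ) else 0) =
      if Nat.Coprime j s then 1 else 0 := by
  have h := congrArg (fun f : ArithmeticFunction ℂ => f (Nat.gcd j s))
    (ArithmeticFunction.coe_moebius_mul_coe_zeta (R := ℂ))
  simp only [ArithmeticFunction.coe_mul_zeta_apply, ArithmeticFunction.one_apply,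
    ArithmeticFunction.intCoe_apply] at h
  rw [← sum_filter]
  refine Eq.trans (sum_congr ?_ fun _ _ => rfl) h
  ext e
  simp only [mem_filter, Nat.mem_divisors, Nat.dvd_gcd_iff, ne_eq, Nat.gcd_eq_zero_iff]
  tauto

theorem val_Prim {q : ℕ} (χ : DirichletCharacter ℂ q) (j : ℕ) :
    χ j = χ.primitiveCharacter j * if Nat.Coprime j (q / χ.conductor) then 1 else 0 := by
  have hq : χ.conductor * (q / χ.conductor) = q := Nat.mul_div_cancel' χ.conductor_dvd_level
  by_cases h : Nat.Coprime j q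
  · have := χ.primitiveCharacter_apply_of_isCoprime (Nat.isCoprime_iff_coprime.2 h)
    rw [Int.cast_natCast, Int.cast_natCast] at this
    rw [if_pos (h.coprime_dvd_right (Dvd.intro_left _ hq)), mul_one, this]
  · rw [χ.map_nonunit (by rwa [ZMod.isUnit_iff_coprime])]
    split_ifs with h'
    · rw [χ.primitiveCharacter.map_nonunit, zero_mul]
      rw [ZMod.isUnit_iff_coprime]
      exact fun h1 => h (hq ▸ h1.mul_right h')
    · rw [mul_zero]

theorem sum_Prim (f : ℕ → ℂ) (L : ℕ) {e : ℕ} (he : 0 < e) :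
    ∑ j ∈ Icc 1 L, (if e ∣ j then f j else 0) = ∑ j ∈ Icc 1 (L / e), f (e * j) := by
  rw [← sum_filter]
  refine (sum_nbij (fun j => e * j) (fun j hj => ?_) (fun a _ b _ h => ?_) (fun j hj => ?_)
    fun _ _ => rfl).symm
  · rw [mem_Icc, Nat.le_div_iff_mul_le he, mul_comm] at hj
    exact mem_filter.2 ⟨mem_Icc.2 ⟨Nat.mul_pos he hj.1, hj.2⟩, Dvd.intro _ rfl⟩
  · exact Nat.eq_of_mul_eq_mul_left he h
  · obtain ⟨h1, k, rfl⟩ := mem_filter.1 (mem_coe.1 hj)
    rw [mem_Icc] at h1
    exact ⟨k, mem_coe.2 (mem_Icc.2 ⟨Nat.pos_of_mul_pos_left h1.1,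
      (Nat.le_div_iff_mul_le he).2 (mul_comm e k ▸ h1.2)⟩), rfl⟩

theorem prim_stmt : PrimStmt := by
  intro q L χ hq
  have hs : q / χ.conductor ≠ 0 := fun h => by
    have := Nat.mul_div_cancel' χ.conductor_dvd_level
    rw [h, mul_zero] at this
    omega
  have e1 : Sc q χ L = ∑ e ∈ (q / χ.conductor).divisors, ((ArithmeticFunction.moebius e : ℤ) : ℂ) *
      χ.primitiveCharacter e * Sc χ.conductor χ.primitiveCharacter (L / e) := by
    unfold Sc
    simp only [val_Prim χ, ← mu_Prim _ _ hs, mul_sum]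
    rw [sum_comm]
    refine sum_congr rfl fun e he => ?_
    simp only [mul_ite, mul_zero]
    rw [sum_Prim (fun j => χ.primitiveCharacter j * _) L (Nat.pos_of_mem_divisors he)]
    refine sum_congr rfl fun j _ => ?_
    rw [Nat.cast_mul, map_mul]
    ring
  rw [e1]
  refine (norm_sum_le _ _).trans (sum_le_sum fun e _ => ?_)
  rw [norm_mul, norm_mul]
  refine mul_le_of_le_one_left (norm_nonneg _) (mul_le_one₀ ?_ (norm_nonneg _)
    (χ.primitiveCharacter.norm_le_one _))
  rw [Complex.norm_intCast]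
  exact_mod_cast ArithmeticFunction.abs_moebius_le_one

end Pool.Agent.MP_2a1f0e_nt.RF
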