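import Pool.Agent.MP_2a1f0e_nt.RF.Basic

set_option autoImplicit false

open Finset
open scoped ComplexConjugate

namespace Pool.Agent.MP_2a1f0e_nt.RF

open GM

lemma mu_Prin (n : ℕ) : ∑ e ∈ n.divisors, ArithmeticFunction.moebius e = if n = 1 then 1 else 0 := by
  have h := congrArg (fun f : ArithmeticFunction ℤ => f n)
    (ArithmeticFunction.coe_moebius_mul_coe_zeta (R := ℤ))
  simp only [ArithmeticFunction.coe_mul_zeta_apply, ArithmeticFunction.one_apply] at h
  simpa using h

lemma cop_Prin (L q : ℕ) (hq : 1 ≤ q) :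
    (cop L q : ℤ) = ∑ e ∈ q.divisors, ArithmeticFunction.moebius e * ((L / e : ℕ) : ℤ) := by
  have h1 : ∀ j : ℕ, (if Nat.Coprime j q then (1 : ℤ) else 0) =
      ∑ e ∈ q.divisors, if e ∣ j then ArithmeticFunction.moebius e else 0 := by
    intro j
    rw [← sum_filter, ← mu_Prin]
    refine sum_congr ?_ fun _ _ => rfl
    ext e
    rw [mem_filter, Nat.mem_divisors, Nat.mem_divisors, Nat.dvd_gcd_iff]
    have : Nat.gcd j q ≠ 0 := Nat.gcd_ne_zero_right (by omega)
    constructor
    · exact fun h => ⟨⟨h.1.2, by omega⟩, h.1.1⟩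
    · exact fun h => ⟨⟨h.2, h.1.1⟩, this⟩
  rw [cop, card_filter]
  push_cast
  simp only [h1]
  rw [sum_comm]
  refine sum_congr rfl fun e _ => ?_
  rw [← sum_filter, sum_const, nsmul_eq_mul, mul_comm]
  congr 1
  have : Icc 1 L = Ioc 0 L := rfl
  rw [this, Nat.Ioc_filter_dvd_card_eq_div]
  rfl

lemma tot_Prin (q : ℕ) (hq : 1 ≤ q) :
    (q.totient : ℝ) = q * ∑ e ∈ q.divisors, (ArithmeticFunction.moebius e : ℝ) / e := by
  have h1 : cop q q = q.totient := by
    rw [cop, ← Nat.filter_coprime_Ico_eq_totient q 1]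
    congr 1
    ext j
    simp only [mem_filter, mem_Icc, mem_Ico, Nat.coprime_comm]
    constructor
    · exact fun h => ⟨⟨h.1.1, by omega⟩, h.2⟩
    · exact fun h => ⟨⟨h.1.1, by omega⟩, h.2⟩
  have h2 := congrArg (fun x : ℤ => (x : ℝ)) (cop_Prin q q hq)
  simp only [h1, Int.cast_natCast, Int.cast_sum, Int.cast_mul] at h2
  rw [h2, mul_sum]
  refine sum_congr rfl fun e he => ?_
  have he' := Nat.dvd_of_mem_divisors he
  have h0 : (e : ℝ) ≠ 0 := by exact_mod_cast (Nat.pos_of_mem_divisors he).ne'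
  rw [Nat.cast_div he' h0]
  ring

theorem prin_stmt : PrinStmt := by
  intro q J g hq hg
  have hφ : (0 : ℝ) < q.totient := by exact_mod_cast Nat.totient_pos.2 hq
  have hq' : (0 : ℝ) < q := by exact_mod_cast hq
  have hg' : (0 : ℝ) < g := by exact_mod_cast hg
  have h1 : (q : ℝ) ≤ q.totient * q.divisors.card := by
    have k : q ≤ q.divisors.card * q.totient := by
      conv_lhs => rw [← Nat.sum_totient q]
      exact sum_le_card_nsmul _ _ _ fun e he => Nat.le_of_dvd (Nat.totient_pos.2 hq)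
        (Nat.totient_dvd_of_dvd (Nat.dvd_of_mem_divisors he))
    rw [mul_comm]
    exact_mod_cast k
  refine ⟨h1, ?_⟩
  have h2 := congrArg (fun x : ℤ => (x : ℝ)) (cop_Prin (J / g) q hq)
  simp only [Int.cast_natCast, Int.cast_sum, Int.cast_mul] at h2
  have h3 : (cop (J / g) q : ℝ) - (J : ℝ) / (g * q) * q.totient =
      ∑ e ∈ q.divisors, (ArithmeticFunction.moebius e : ℝ) *
        (((J / g / e : ℕ) : ℝ) - (J : ℝ) / (g * e)) := by
    rw [h2, tot_Prin q hq, ← mul_assoc, mul_sum, ← sum_sub_distrib]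
    refine sum_congr rfl fun e he => ?_
    have h0 : (e : ℝ) ≠ 0 := by exact_mod_cast (Nat.pos_of_mem_divisors he).ne'
    field_simp
  have h4 : |(cop (J / g) q : ℝ) - (J : ℝ) / (g * q) * q.totient| ≤ q.divisors.card := by
    rw [h3]
    refine (abs_sum_le_sum_abs _ _).trans ?_
    have := sum_le_card_nsmul q.divisors (fun e => |(ArithmeticFunction.moebius e : ℝ) *
        (((J / g / e : ℕ) : ℝ) - (J : ℝ) / (g * e))|) 1 fun e he => by
      have k1 : |(ArithmeticFunction.moebius e : ℝ)| ≤ 1 := by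
        exact_mod_cast ArithmeticFunction.abs_moebius_le_one
      have k2 : |((J / g / e : ℕ) : ℝ) - (J : ℝ) / (g * e)| ≤ 1 := by
        rw [Nat.div_div_eq_div_mul, ← Nat.cast_mul, ← Nat.floor_div_eq_div (K := ℝ), abs_le]
        have k3 := Nat.floor_le (show (0 : ℝ) ≤ (J : ℝ) / (g * e : ℕ) by positivity)
        have k4 := Nat.lt_floor_add_one ((J : ℝ) / (g * e : ℕ))
        constructor <;> linarith
      rw [abs_mul]
      exact mul_le_one₀ k1 (abs_nonneg _) k2
    simpa using this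
  have h5 : (cop (J / g) q : ℝ) / q.totient - (J : ℝ) / (g * q) =
      ((cop (J / g) q : ℝ) - (J : ℝ) / (g * q) * q.totient) / q.totient := by
    field_simp
  rw [h5, abs_div, abs_of_pos hφ, div_le_div_iff₀ hφ hq']
  have h6 : (0 : ℝ) ≤ q.divisors.card := by positivity
  calc _ ≤ (q.divisors.card : ℝ) * (q.totient * q.divisors.card) := mul_le_mul h4 h1 hq'.le h6
    _ = _ := by ring

end Pool.Agent.MP_2a1f0e_nt.RF
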