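import Pool.Agent.MP_2a1f0e_nt.RF.Basic

set_option autoImplicit false

open Finset
open scoped ComplexConjugate

namespace Pool.Agent.MP_2a1f0e_nt.RF

open GM

theorem cs_Refl {ι : Type} {s : Finset ι} {a b : ι → ℝ} {D x y : ℝ} (hD : 0 ≤ D) (hx : 0 ≤ x)
    (hy : 0 ≤ y) (ha : ∑ i ∈ s, a i ^ 2 ≤ D * x ^ 2) (hb : ∑ i ∈ s, b i ^ 2 ≤ D * y ^ 2) :
    ∑ i ∈ s, a i * b i ≤ D * x * y := by
  refine le_trans (le_abs_self _) (abs_le_of_sq_le_sq' ?_ (by positivity) |> abs_le.2)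
  refine (sum_mul_sq_le_sq_mul_sq s a b).trans ?_
  calc _ ≤ D * x ^ 2 * (D * y ^ 2) :=
        mul_le_mul ha hb (sum_nonneg fun _ _ => sq_nonneg _) (by positivity)
    _ = _ := by ring

theorem pt_Refl {bx bz f₁ f₂ g₁ g₂ : ℂ} (hx : ‖bx‖ ≤ 1) (hz : ‖bz‖ ≤ 1) :
    ‖bx * f₁ * conj (bz * f₂) - bx * conj g₂ * conj (bz * conj g₁)‖ ≤
      ‖g₁ - f₁‖ * ‖f₂‖ + ‖f₁‖ * ‖g₂ - f₂‖ + ‖g₁ - f₁‖ * ‖g₂ - f₂‖ := by
  have e : bx * f₁ * conj (bz * f₂) - bx * conj g₂ * conj (bz * conj g₁) =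
      -(bx * conj bz) * ((g₁ - f₁) * conj f₂ + f₁ * conj (g₂ - f₂) +
        (g₁ - f₁) * conj (g₂ - f₂)) := by
    simp only [map_mul, map_sub, Complex.conj_conj]
    ring
  rw [e, norm_mul, norm_neg, norm_mul, Complex.norm_conj]
  refine (mul_le_of_le_one_left (norm_nonneg _)
    (mul_le_one₀ hx (norm_nonneg _) hz)).trans (norm_add₃_le.trans (le_of_eq ?_))
  simp only [norm_mul, Complex.norm_conj]

theorem refl_stmt (hL : LSStmt) (hP : PertStmt) (hE : EdgeMultStmt) (hG : GeoStmt) :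
    ReflStmt := by
  classical
  obtain ⟨cL, cL0, hL⟩ := hL
  obtain ⟨cP, cP0, hP⟩ := hP
  obtain ⟨cE, cE0, hE⟩ := hE
  refine ⟨3 * ((cL + cP) * cE), by positivity, ?_⟩
  intro N T J C C' K W E Y MM g b hp hg hW hWK hb
  have T1 : 1 ≤ T := hp.N1.trans hp.NT
  have T0 : (0 : ℝ) < T := by exact_mod_cast T1
  have Y0 : 0 < Y := one_pos.trans_le hp.Y1
  have E1 := hp.E1
  have M0 := hg.MM0
  have R0 : 0 ≤ Err N J C C' Y MM := Err_nonneg Y0.le M0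
  have hθ : ∀ e : ED, ∃ θ : ℝ, e ∈ Edg N J C C' W → |θ| ≤ 1 / (T * Y) ∧
      pt e.r e.z = -(pt e.p e.x + θ) ∧ pt e.r e.x = -(pt e.p e.z + θ) := fun e => by
    by_cases he : e ∈ Edg N J C C' W
    · obtain ⟨-, -, -, -, -, -, θ, h0, h1, -, h2, h3, -⟩ :=
        hG N T J C C' W Y e hp.N1 T1 hp.C1 hp.C1' hW hp.Y1 hp.JU he
      refine ⟨θ, fun _ => ⟨?_, h2, h3⟩⟩
      rw [abs_of_nonneg h0, le_div_iff₀ (by positivity), mul_comm]
      exact h1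
    · exact ⟨0, fun h => absurd h he⟩
  choose θ hθ using hθ
  obtain ⟨-, m1, m2⟩ := hE N T J C C' K W E Y hp hW hWK
  set μ := cE * E ^ 10 * J * ((C : ℝ) ^ 2 * (N : ℝ) ^ 2 / T) with hμ
  set D := (cL + cP) * cE * E ^ 16 * (Y * Err N J C C' Y MM) with hD
  have D0 : 0 ≤ D := by positivity
  have k1 : μ * T * ∑ t ∈ IT T, ‖((g t : ℝ) : ℂ)‖ ^ 2 ≤
      cE * E ^ 16 * (Y * Err N J C C' Y MM) := by
    have a1 : μ * T = cE * E ^ 10 * (J * C * C * (N : ℝ) ^ 2) := by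
      rw [hμ]
      field_simp
    have a2 : Y * Err N J C C' Y MM = J * C * C' * (N : ℝ) ^ 2 * MM := by
      unfold Err
      field_simp
    have a3 : (C : ℝ) ≤ E ^ 6 * C' :=
      hp.CE'.trans (mul_le_mul_of_nonneg_right (le_self_pow₀ E1 (by norm_num)) (by positivity))
    rw [sum_sq_fu, a1, a2]
    calc _ ≤ cE * E ^ 10 * (J * C * (E ^ 6 * C') * (N : ℝ) ^ 2) * MM := by
          have := hg.sq
          gcongr
      _ = _ := by ring
  have k0 : 0 ≤ cE * E ^ 16 * (Y * Err N J C C' Y MM) := by positivity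
  have k2 : ∀ u : ED → ℝ, CM (Edg N J C C' W) u T μ →
      ∑ e ∈ Edg N J C C' W, ‖fu T g (u e)‖ ^ 2 ≤ D * 1 ^ 2 := fun u hu => by
    refine (hL ED _ u T μ T1 hu _).trans ?_
    have := mul_le_mul_of_nonneg_left k1 cL0.le
    have := mul_nonneg cP0.le k0
    rw [hD]
    linarith
  have eT : T * (1 / (T * Y)) = 1 / Y := by field_simp
  have Y1 : 1 / Y ≤ 1 := (div_le_one Y0).2 hp.Y1
  have k3 : ∀ u : ED → ℝ, CM (Edg N J C C' W) u T μ →
      ∑ e ∈ Edg N J C C' W, ‖fu T g (u e + θ e) - fu T g (u e)‖ ^ 2 ≤ D * (1 / Y) ^ 2 :=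
    fun u hu => by
      refine (hP ED _ u θ T μ _ T1 hu (eT.trans_le Y1) (fun e he => (hθ e he).1) _).trans ?_
      have h1 := mul_le_mul_of_nonneg_left k1 (show 0 ≤ cP * (1 / Y) ^ 2 by positivity)
      have h2 := mul_nonneg (show 0 ≤ cL * (1 / Y) ^ 2 by positivity) k0
      rw [hD, eT]
      linarith
  have Y2 : 0 ≤ 1 / Y := by positivity
  have s1 := cs_Refl D0 Y2 zero_le_one (k3 _ m1) (k2 _ m2)
  have s2 := cs_Refl D0 zero_le_one Y2 (k2 _ m1) (k3 _ m2)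
  have s3 := cs_Refl D0 Y2 Y2 (k3 _ m1) (k3 _ m2)
  have s4 := cs_Refl D0 zero_le_one zero_le_one (k2 _ m1) (k2 _ m2)
  constructor
  · have s5 : D * (1 / Y) * (1 / Y) ≤ D * (1 / Y) :=
      mul_le_of_le_one_right (mul_nonneg D0 Y2) Y1
    have s6 : D * (1 / Y) = (cL + cP) * cE * E ^ 16 * Err N J C C' Y MM := by
      rw [hD]
      field_simp
    refine (sum_le_sum (g := fun e : ED =>
      ‖fu T g (pt e.p e.x + θ e) - fu T g (pt e.p e.x)‖ * ‖fu T g (pt e.p e.z)‖ +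
      ‖fu T g (pt e.p e.x)‖ * ‖fu T g (pt e.p e.z + θ e) - fu T g (pt e.p e.z)‖ +
      ‖fu T g (pt e.p e.x + θ e) - fu T g (pt e.p e.x)‖ *
        ‖fu T g (pt e.p e.z + θ e) - fu T g (pt e.p e.z)‖) fun e he => ?_).trans ?_
    · unfold av
      rw [(hθ e he).2.1, (hθ e he).2.2, ← conj_fu, ← conj_fu]
      exact pt_Refl (hb _) (hb _)
    · rw [sum_add_distrib, sum_add_distrib]
      linarith
  · refine (sum_le_sum (g := fun e : ED => ‖fu T g (pt e.p e.x)‖ * ‖fu T g (pt e.p e.z)‖)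
      fun e _ => ?_).trans ?_
    · rw [norm_mul, Complex.norm_conj]
      exact mul_le_mul (norm_av_le hb _ _) (norm_av_le hb _ _) (norm_nonneg _) (norm_nonneg _)
    · linarith

end Pool.Agent.MP_2a1f0e_nt.RF
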