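import Pool.Agent.MP_2a1f0e_nt.RF.Basic

set_option autoImplicit false

open Finset
open scoped ComplexConjugate

namespace Pool.Agent.MP_2a1f0e_nt.RF

open GM

lemma uu_mono_SS (P : ℕ) {x y : ℝ} (hx : 0 < x) (h : x ≤ y) : uu P x ≤ uu P y :=
  Int.floor_mono (mul_le_mul_of_nonneg_left (Real.log_le_log hx h) (Nat.cast_nonneg P))

lemma sub_Lam_SS {N : ℕ} (P : ℕ) (hN : 1 ≤ N) {x : ℕ} (hx : x ∈ Icc N (2 * N)) :
    Icc (uu P x - P) (uu P x) ⊆ Lam N P := by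
  obtain ⟨h1, h2⟩ := mem_Icc.1 hx
  have N0 : (0 : ℝ) < N := by exact_mod_cast hN
  have h3 : (N : ℝ) ≤ x := by exact_mod_cast h1
  have h4 : (x : ℝ) ≤ 2 * N := by exact_mod_cast h2
  exact Icc_subset_Icc (sub_le_sub_right (uu_mono_SS P N0 h3) _)
    (uu_mono_SS P (N0.trans_le h3) h4)

lemma card_Lam_SS {N P : ℕ} (hN : 1 ≤ N) (hP : 1 ≤ P) : ((Lam N P).card : ℝ) ≤ 3 * P := by
  have N0 : (0 : ℝ) < N := by exact_mod_cast hN
  have h1 : uu P (2 * N) < uu P N + 1 + P := by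
    unfold uu
    rw [Int.floor_lt, Real.log_mul (by norm_num) N0.ne']
    have h2 := Int.lt_floor_add_one ((P : ℝ) * Real.log N)
    have h3 : (P : ℝ) * Real.log 2 ≤ P * 1 :=
      mul_le_mul_of_nonneg_left (by linarith [Real.log_two_lt_d9]) (Nat.cast_nonneg P)
    push_cast
    linarith
  have h4 : (Lam N P).card ≤ 3 * P := by
    rw [Lam, Int.card_Icc]
    omega
  exact_mod_cast h4

lemma norm_bI_SS (P : ℕ) {b : ℕ → ℂ} (hb : ∀ n, ‖b n‖ ≤ 1) (i : ℤ) (n : ℕ) :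
    ‖bI P b i n‖ ≤ 1 := by
  unfold bI
  split_ifs
  · exact hb n
  · simp

lemma av_bI_SS (T P : ℕ) (g : ℤ → ℝ) (b : ℕ → ℂ) (i : ℤ) (p : ℕ × ℕ) (x : ℕ) :
    av T g (bI P b i) p x = if i ≤ uu P x ∧ uu P x < i + P then av T g b p x else 0 := by
  unfold av bI
  split_ifs <;> simp

lemma comm5_SS {α β γ δ M : Type*} [AddCommMonoid M] (A : Finset α) (B : Finset β)
    (D : Finset γ) (L : Finset δ) (F : α → β → γ → δ → δ → M) :
    ∑ a ∈ A, ∑ b ∈ B, ∑ d ∈ D, ∑ i ∈ L, ∑ i' ∈ L, F a b d i i' =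
      ∑ i ∈ L, ∑ i' ∈ L, ∑ a ∈ A, ∑ b ∈ B, ∑ d ∈ D, F a b d i i' := by
  have h : ∀ G : α → β → γ → δ → M, ∑ a ∈ A, ∑ b ∈ B, ∑ d ∈ D, ∑ i ∈ L, G a b d i =
      ∑ i ∈ L, ∑ a ∈ A, ∑ b ∈ B, ∑ d ∈ D, G a b d i := fun G =>
    (sum_congr rfl fun _ _ => (sum_congr rfl fun _ _ => sum_comm).trans sum_comm).trans sum_comm
  rw [h]
  exact sum_congr rfl fun i _ => h fun a b d i' => F a b d i i'

lemma expand_SS (hO : OmStmt) (N T J C C' K P : ℕ) (g : ℤ → ℝ) (b : ℕ → ℂ) (hN : 1 ≤ N)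
    (hP : 1 ≤ P) :
    SS N T J C C' K P g b = ∑ p ∈ Win N C' (200 * K), ∑ i ∈ Lam N P, ∑ i' ∈ Lam N P,
      (if uu P (yv p) - i - i' ∈ BB N P K then
        Bp N T J C g (bI P b i) (bI P b i') p else 0) / (P : ℂ) ^ 2 := by
  unfold SS
  rw [sum_Edg N J C' C (200 * K) fun p _ x z =>
    (Om N P K (uu P x + uu P z - uu P (yv p)) : ℂ) * (av T g b p x * conj (av T g b p z))]
  refine sum_congr rfl fun p _ => ?_
  have e1 : ∀ i i' : ℤ, (if uu P (yv p) - i - i' ∈ BB N P K then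
        Bp N T J C g (bI P b i) (bI P b i') p else 0) / (P : ℂ) ^ 2 =
      ∑ c ∈ Ico C (2 * C), ∑ x ∈ Icc N (2 * N), ∑ z ∈ Icc N (2 * N),
        (if uu P (yv p) - i - i' ∈ BB N P K then
          (cnt J p.2 (p.1 * c * x * z) : ℂ) *
            (av T g (bI P b i) p x * conj (av T g (bI P b i') p z)) else 0) / (P : ℂ) ^ 2 := by
    intro i i'
    split_ifs
    · simp only [Bp, sum_div]
    · simp
  simp only [e1]
  rw [← comm5_SS]
  refine sum_congr rfl fun c _ => sum_congr rfl fun x hx => sum_congr rfl fun z hz => ?_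
  rw [(hO N P K hP).2.2.2.2 (Lam N P) _ _ _ (sub_Lam_SS P hN hx) (sub_Lam_SS P hN hz),
    nsmul_eq_mul]
  push_cast
  simp only [sum_div, sum_mul, mul_sum]
  refine sum_congr rfl fun i _ => sum_congr rfl fun i' _ => ?_
  rw [av_bI_SS, av_bI_SS]
  by_cases h1 : i ≤ uu P x ∧ uu P x < i + P
  · by_cases h2 : i' ≤ uu P z ∧ uu P z < i' + P
    · by_cases h3 : uu P (yv p) - i - i' ∈ BB N P K
      · rw [if_pos ⟨h1, h2, h3⟩, if_pos h1, if_pos h2, if_pos h3]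
        push_cast
        ring
      · rw [if_neg fun h => h3 h.2.2, if_neg h3]
        simp
    · rw [if_neg fun h => h2 h.2.1, if_neg h2]
      simp
  · rw [if_neg fun h => h1 h.1, if_neg h1]
    simp

lemma uO_sq_SS (N T J : ℕ) (g : ℤ → ℝ) (b : ℕ → ℂ) (p : ℕ × ℕ) :
    ‖uO N T J g b p‖ ^ 2 ≤ 2 * ‖uP N T g b p‖ ^ 2 + 2 * ‖uK N T J g b p‖ ^ 2 := by
  have h1 : uO N T J g b p = uP N T g b p - uK N T J g b p := by
    rw [uP_eq N T J]
    ring
  have h2 := norm_sub_le (uP N T g b p) (uK N T J g b p)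
  rw [← h1] at h2
  have h3 := pow_le_pow_left₀ (norm_nonneg _) h2 2
  nlinarith [sq_nonneg (‖uP N T g b p‖ - ‖uK N T J g b p‖)]

lemma main_SS {N C C' W : ℕ} (T J : ℕ) (g : ℤ → ℝ) (b b' : ℕ → ℂ) (hN : 1 ≤ N) (hC : 1 ≤ C')
    {p : ℕ × ℕ} (hp : p ∈ Win N C' W) :
    ‖(((J : ℝ) * C / p.2 : ℝ) : ℂ) * (uO N T J g b p * conj (uO N T J g b' p))‖ ≤
      W * J * C / (N * C') * (‖uP N T g b p‖ ^ 2 + ‖uK N T J g b p‖ ^ 2 +
        (‖uP N T g b' p‖ ^ 2 + ‖uK N T J g b' p‖ ^ 2)) := by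
  obtain ⟨⟨⟨h1, -⟩, h2, -⟩, h3, -⟩ := mem_Win.1 hp
  have N0 : (0 : ℝ) < N := by exact_mod_cast hN
  have C0 : (0 : ℝ) < C' := by exact_mod_cast hC
  have Q0 : (0 : ℝ) < p.2 := by exact_mod_cast h2
  have h4 : (N : ℝ) * C' ≤ W * p.2 := by
    exact_mod_cast (Nat.mul_le_mul_left N h1).trans h3
  have h5 : (J : ℝ) * C / p.2 ≤ W * J * C / (N * C') := by
    rw [div_le_div_iff₀ Q0 (mul_pos N0 C0)]
    have := mul_le_mul_of_nonneg_left h4 (show (0 : ℝ) ≤ J * C by positivity)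
    linarith
  rw [norm_mul, norm_mul, Complex.norm_real, Real.norm_of_nonneg (by positivity),
    Complex.norm_conj]
  refine mul_le_mul h5 ?_ (by positivity) (by positivity)
  nlinarith [uO_sq_SS N T J g b p, uO_sq_SS N T J g b' p,
    sq_nonneg (‖uO N T J g b p‖ - ‖uO N T J g b' p‖)]

theorem ss_stmt (hS : SideStmt) (hP : PeakStmt) (hO : OmStmt) : SSStmt := by
  obtain ⟨cS, cS0, hS⟩ := hS
  obtain ⟨cP, cP0, hP⟩ := hP
  refine ⟨9 * (400 + cS + 2 * cP), by positivity, ?_⟩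
  intro N T J C C' K P E Y MM Z g b h hg P2 hb hT
  have N0 : (0 : ℝ) < N := by exact_mod_cast h.N1
  have C0 : (0 : ℝ) < C' := by exact_mod_cast h.C1'
  have P0 : (0 : ℝ) < P := by exact_mod_cast (by omega : 0 < P)
  have E1 := h.E1
  have Y0 : 0 < Y := by linarith [h.Y1]
  have W1 : 1 ≤ 200 * K := by have := h.K1; omega
  have R0 : 0 ≤ Err N J C C' Y MM := Err_nonneg Y0.le hg.MM0
  have Z0 : 0 ≤ Z := by
    have h1 := (sum_nonneg fun _ _ => sq_nonneg _).trans (hT b hb)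
    rw [mul_assoc] at h1
    exact nonneg_of_mul_nonneg_left h1 (by positivity)
  have key : ∀ b₁ b₂ : ℕ → ℂ, (∀ n, ‖b₁ n‖ ≤ 1) → (∀ n, ‖b₂ n‖ ≤ 1) →
      ∑ p ∈ Win N C' (200 * K), ‖Bp N T J C g b₁ b₂ p‖ ≤
        400 * (K * J * C * C' * Z) + (cS + 2 * cP) * E ^ 16 * Err N J C C' Y MM := by
    intro b₁ b₂ h₁ h₂
    have s1 := hS N T J C' C K (200 * K) E Y MM g b₁ b₂ h.symm hg W1 le_rfl h₁ h₂
    rw [Err_comm] at s1
    have p1 := hP N T J C' C K (200 * K) E Y MM g b₁ h.symm hg W1 le_rfl h₁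
    have p2 := hP N T J C' C K (200 * K) E Y MM g b₂ h.symm hg W1 le_rfl h₂
    have t1 := hT b₁ h₁
    have t2 := hT b₂ h₂
    have s2 := sum_le_sum fun p (hp : p ∈ Win N C' (200 * K)) =>
      main_SS (C := C) T J g b₁ b₂ h.N1 h.C1' hp
    rw [← mul_sum, sum_add_distrib, sum_add_distrib, sum_add_distrib] at s2
    have s3 := s2.trans (mul_le_mul_of_nonneg_left
      (add_le_add (add_le_add t1 p1) (add_le_add t2 p2)) (by positivity))
    have e1 : ((200 * K : ℕ) : ℝ) * J * C / (N * C') *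
        (Z * N * (C' : ℝ) ^ 2 + cP * E ^ 8 * ((N : ℝ) ^ 3 * (C' : ℝ) ^ 2 * MM / Y) +
          (Z * N * (C' : ℝ) ^ 2 + cP * E ^ 8 * ((N : ℝ) ^ 3 * (C' : ℝ) ^ 2 * MM / Y))) =
        400 * (K * J * C * C' * Z) + 2 * cP * (200 * K * E ^ 8) * Err N J C C' Y MM := by
      unfold Err
      push_cast
      field_simp
      ring
    rw [e1] at s3
    have e2 : 200 * (K : ℝ) * E ^ 8 ≤ E ^ 16 :=
      calc _ ≤ E * E ^ 8 := mul_le_mul_of_nonneg_right h.KE (by positivity)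
        _ = E ^ 9 := by ring
        _ ≤ _ := pow_le_pow_right₀ E1 (by norm_num)
    have e3 : 2 * cP * (200 * K * E ^ 8) * Err N J C C' Y MM ≤
        2 * cP * E ^ 16 * Err N J C C' Y MM := by gcongr
    have s4 := sum_le_sum fun p (_ : p ∈ Win N C' (200 * K)) =>
      norm_le_norm_sub_add (Bp N T J C g b₁ b₂ p)
        ((((J : ℝ) * C / p.2 : ℝ) : ℂ) * (uO N T J g b₁ p * conj (uO N T J g b₂ p)))
    rw [sum_add_distrib] at s4
    linarith
  have B0 : 0 ≤ 400 * (K * J * C * C' * Z) + (cS + 2 * cP) * E ^ 16 * Err N J C C' Y MM := by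
    positivity
  have hL := card_Lam_SS h.N1 (by omega : 1 ≤ P)
  rw [expand_SS hO N T J C C' K P g b h.N1 (by omega), sum_comm]
  calc _ ≤ ∑ i ∈ Lam N P, ∑ i' ∈ Lam N P, (400 * (K * J * C * C' * Z) +
          (cS + 2 * cP) * E ^ 16 * Err N J C C' Y MM) / (P : ℝ) ^ 2 := by
        refine norm_sum_le_of_le _ fun i _ => ?_
        rw [sum_comm]
        refine norm_sum_le_of_le _ fun i' _ => ?_
        refine le_trans ?_ (div_le_div_of_nonneg_right
          (key _ _ (norm_bI_SS P hb i) (norm_bI_SS P hb i')) (by positivity))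
        rw [sum_div]
        refine norm_sum_le_of_le _ fun p _ => ?_
        rw [norm_div, norm_pow, Complex.norm_natCast]
        gcongr
        split_ifs
        · exact le_rfl
        · simp
    _ = (Lam N P).card * ((Lam N P).card * ((400 * (K * J * C * C' * Z) +
          (cS + 2 * cP) * E ^ 16 * Err N J C C' Y MM) / (P : ℝ) ^ 2)) := by
        simp only [sum_const, nsmul_eq_mul]
    _ ≤ 3 * P * (3 * P * ((400 * (K * J * C * C' * Z) +
          (cS + 2 * cP) * E ^ 16 * Err N J C C' Y MM) / (P : ℝ) ^ 2)) := by gcongr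
    _ = 9 * (400 * (K * J * C * C' * Z) + (cS + 2 * cP) * E ^ 16 * Err N J C C' Y MM) := by
        field_simp
        ring
    _ ≤ _ := by
        have a1 : 0 ≤ (K : ℝ) * J * C * C' * Z := by positivity
        have a2 : 0 ≤ E ^ 16 * Err N J C C' Y MM := by positivity
        nlinarith [mul_nonneg cS0.le a1, mul_nonneg cP0.le a1]

end Pool.Agent.MP_2a1f0e_nt.RF
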