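import Pool.Agent.MP_2a1f0e_nt.RF.Basic

set_option autoImplicit false

open Finset
open scoped ComplexConjugate

namespace Pool.Agent.MP_2a1f0e_nt.RF

open GM

theorem uu_mono_SY (P : ℕ) {x y : ℝ} (hx : 0 < x) (h : x ≤ y) : uu P x ≤ uu P y :=
  Int.floor_le_floor (mul_le_mul_of_nonneg_left (Real.log_le_log hx h) (Nat.cast_nonneg _))

theorem yv_SY {N C K : ℕ} (hC : 1 ≤ C) (hK : 1 ≤ K) {p : ℕ × ℕ} (hp : p ∈ Win N C K) :
    (N : ℝ) / K ≤ yv p ∧ yv p ≤ (K : ℝ) * N := by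
  obtain ⟨⟨⟨h1, -⟩, -⟩, h2, h3⟩ := mem_Win.1 hp
  have c0 : (0 : ℝ) < p.1 := by exact_mod_cast hC.trans h1
  have k0 : (0 : ℝ) < K := by exact_mod_cast hK
  unfold yv
  rw [div_le_div_iff₀ k0 c0, div_le_iff₀ c0, mul_comm (p.2 : ℝ)]
  exact ⟨by exact_mod_cast h2, by exact_mod_cast h3⟩

theorem sy_stmt (hS : SideStmt) (hP : PeakStmt) (hO : OmStmt) : SYStmt := by
  obtain ⟨cS, cS0, hS⟩ := hS
  obtain ⟨cP, cP0, hP⟩ := hP
  refine ⟨cS + cP, by positivity, ?_⟩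
  intro N T J C C' K P E Y MM g b hp hg hP2 hb
  have K1 := hp.K1
  have Y0 : 0 < Y := one_pos.trans_le hp.Y1
  have E1 := hp.E1
  have R0 : 0 ≤ Err N J C C' Y MM := Err_nonneg Y0.le hg.MM0
  have N0 : (0 : ℝ) < N := by exact_mod_cast hp.N1
  have K0 : (1 : ℝ) ≤ K := by exact_mod_cast K1
  obtain ⟨o1, o2, -⟩ := hO N P K (by omega)
  have s1 := hS N T J C C' K (25 * K) E Y MM g b b hp hg (by omega) (by omega) hb hb
  have s2 := hP N T J C C' K K E Y MM g b hp hg K1 (by omega) hb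
  let m : ℕ × ℕ → ℝ := fun p => (J : ℝ) * C' / p.2 * ‖uO N T J g b p‖ ^ 2
  have m0 : ∀ p, 0 ≤ m p := fun p => by positivity
  have em : ∀ p : ℕ × ℕ, (((J : ℝ) * C' / p.2 : ℝ) : ℂ) *
      (uO N T J g b p * conj (uO N T J g b p)) = (m p : ℂ) := fun p => by
    rw [Complex.mul_conj, Complex.normSq_eq_norm_sq, ← Complex.ofReal_mul]
  simp only [em] at s1
  have a1 : ∑ p ∈ Win N C (25 * K), Om N P K (uu P (yv p)) * m p ≤
      ‖SY N T J C C' K P g b‖ + cS * E ^ 16 * Err N J C C' Y MM := by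
    have e : ((∑ p ∈ Win N C (25 * K), Om N P K (uu P (yv p)) * m p : ℝ) : ℂ) =
        SY N T J C C' K P g b - ∑ p ∈ Win N C (25 * K),
          (Om N P K (uu P (yv p)) : ℂ) * (Bp N T J C' g b b p - m p) := by
      rw [SY, ← sum_sub_distrib]
      push_cast
      exact sum_congr rfl fun p _ => by ring
    refine (le_abs_self _).trans ?_
    rw [← Real.norm_eq_abs, ← Complex.norm_real, e]
    refine (norm_sub_le _ _).trans (add_le_add le_rfl
      ((norm_sum_le _ _).trans ((sum_le_sum fun p _ => ?_).trans s1)))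
    rw [norm_mul, Complex.norm_real, Real.norm_of_nonneg (o1 _).1]
    exact mul_le_of_le_one_left (norm_nonneg _) (o1 _).2
  have a2 : ∑ p ∈ Win N C K, m p ≤ ∑ p ∈ Win N C (25 * K), Om N P K (uu P (yv p)) * m p := by
    refine le_trans (le_of_eq (sum_congr rfl fun p h => ?_)) (sum_le_sum_of_subset_of_nonneg
      (Win_mono (by omega)) fun p _ _ => mul_nonneg (o1 _).1 (m0 p))
    obtain ⟨h1, h2⟩ := yv_SY hp.C1 K1 h
    have h0 : (0 : ℝ) < N / K := by positivity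
    rw [o2 _ (uu_mono_SY P h0 h1) (uu_mono_SY P (h0.trans_le h1) h2), one_mul]
  have a3 : (J : ℝ) * C' * ∑ p ∈ Win N C K, ‖uO N T J g b p‖ ^ 2 ≤
      2 * K * N * C * ∑ p ∈ Win N C K, m p := by
    rw [mul_sum, mul_sum]
    refine sum_le_sum fun p h => ?_
    obtain ⟨⟨-, h1, h2⟩, -⟩ := mem_Win.1 h
    have q0 : (0 : ℝ) < p.2 := by exact_mod_cast h1
    have q1 : (p.2 : ℝ) ≤ 2 * K * N * C := by exact_mod_cast h2
    calc _ = p.2 * m p := by simp only [m]; field_simp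
      _ ≤ _ := mul_le_mul_of_nonneg_right q1 (m0 p)
  have a4 : ∑ p ∈ Win N C K, ‖uP N T g b p‖ ^ 2 ≤
      2 * ∑ p ∈ Win N C K, ‖uO N T J g b p‖ ^ 2 + 2 * ∑ p ∈ Win N C K, ‖uK N T J g b p‖ ^ 2 := by
    rw [mul_sum, mul_sum, ← sum_add_distrib]
    refine sum_le_sum fun p _ => ?_
    rw [uP_eq N T J]
    have h1 := pow_le_pow_left₀ (norm_nonneg _) (norm_add_le (uO N T J g b p) (uK N T J g b p)) 2
    nlinarith [sq_nonneg (‖uO N T J g b p‖ - ‖uK N T J g b p‖)]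
  have a5 : (J : ℝ) * C' * (cP * E ^ 8 * ((N : ℝ) ^ 3 * (C : ℝ) ^ 2 * MM / Y)) ≤
      2 * K * N * C * (cP * E ^ 16 * Err N J C C' Y MM) := by
    have h1 : E ^ 8 ≤ 2 * K * E ^ 16 :=
      (pow_le_pow_right₀ E1 (by norm_num)).trans
        (le_mul_of_one_le_left (by positivity) (by linarith))
    calc _ = E ^ 8 * (N * C * cP * Err N J C C' Y MM) := by unfold Err; ring
      _ ≤ 2 * K * E ^ 16 * (N * C * cP * Err N J C C' Y MM) :=
          mul_le_mul_of_nonneg_right h1 (by positivity)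
      _ = _ := by ring
  have j0 : (0 : ℝ) ≤ J * C' := by positivity
  have b1 := mul_le_mul_of_nonneg_left a4 j0
  have b2 := mul_le_mul_of_nonneg_left s2 j0
  have b3 := mul_le_mul_of_nonneg_left (a2.trans a1) (show (0 : ℝ) ≤ 2 * K * N * C by positivity)
  linarith

end Pool.Agent.MP_2a1f0e_nt.RF
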