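import Pool.Agent.MP_2a1f0e_nt.RF.Basic

set_option autoImplicit false

open Finset
open scoped ComplexConjugate

namespace Pool.Agent.MP_2a1f0e_nt.RF

open GM

theorem sel_stmt : SelStmt := by
  intro J L R D Y κ hL hLJ hD hY hR h4 h10 hκ hRκ hDL
  classical
  have hex : ∃ k : ℕ, 2 ≤ k ∧ R ≤ Y * D ^ (2 * k) := ⟨κ, hκ, hRκ⟩
  obtain ⟨hk2, hk⟩ := Nat.find_spec hex
  refine ⟨Nat.find hex, hk2, Nat.find_min' hex ⟨hκ, hRκ⟩, hk, ?_⟩
  have hL3 : L ^ 3 ≤ D ^ 10 * Y ^ 2 := (pow_le_pow_left₀ hL hLJ 3).trans h10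
  rcases hk2.eq_or_lt with h | h
  · rw [← h]
    refine abs_le_of_sq_le_sq' ?_ (by positivity) |>.2
    have h1 : L ^ 3 * L ≤ D ^ 10 * Y ^ 2 * L := mul_le_mul_of_nonneg_right hL3 hL
    have h2 : D ^ 8 * Y ^ 2 * (D ^ 2 * L) ≤ D ^ 8 * Y ^ 2 * R ^ 2 :=
      mul_le_mul_of_nonneg_left hDL.le (by positivity)
    calc (L ^ 2) ^ 2 = L ^ 3 * L := by ring
      _ ≤ D ^ 8 * Y ^ 2 * (D ^ 2 * L) := h1.trans_eq (by ring)
      _ ≤ _ := h2.trans_eq (by ring)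
  · obtain ⟨j, hj⟩ : ∃ j, Nat.find hex = j + 3 := ⟨Nat.find hex - 3, by omega⟩
    have hmin := Nat.find_min hex (show j + 2 < Nat.find hex by omega)
    have h1 : Y * D ^ (2 * (j + 2)) ≤ R := by
      by_contra hc
      exact hmin ⟨by omega, (not_le.1 hc).le⟩
    rw [hj]
    have h2 : L ^ j ≤ (D ^ 4) ^ j := pow_le_pow_left₀ hL (hLJ.trans h4) j
    calc L ^ (j + 3) = L ^ 3 * L ^ j := by ring
      _ ≤ D ^ 10 * Y ^ 2 * (D ^ 4) ^ j := mul_le_mul hL3 h2 (by positivity) (by positivity)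
      _ = Y * D ^ (2 * (j + 2)) * (Y * D ^ (2 * (j + 3))) := by ring
      _ ≤ _ := mul_le_mul_of_nonneg_right h1 (by positivity)

end Pool.Agent.MP_2a1f0e_nt.RF
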