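import Pool.Agent.MP_2a1f0e_nt.RF.Basic
set_option autoImplicit false
open Finset
open scoped ComplexConjugate
namespace Pool.Agent.MP_2a1f0e_nt.RF
open GM

theorem gcd_le_Side {J Q a w : ℕ} (h : cnt J Q (a * w) ≠ 0) : Nat.gcd a Q ≤ J := by
  obtain ⟨j, hj⟩ := card_ne_zero.1 h
  obtain ⟨h1, h2⟩ := mem_filter.1 hj
  obtain ⟨h3, h4⟩ := mem_Icc.1 h1
  refine (Nat.le_of_dvd h3 ?_).trans h4
  exact (Nat.dvd_add_right ((Nat.gcd_dvd_left a Q).mul_right w)).1
    ((Nat.gcd_dvd_right a Q).trans h2)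

theorem eq_bil_Side (N T J C' : ℕ) (g : ℤ → ℝ) (b b' : ℕ → ℂ) (p : ℕ × ℕ) :
    Bp N T J C' g b b' p -
        (((J : ℝ) * C' / p.2 : ℝ) : ℂ) * (uO N T J g b p * conj (uO N T J g b' p)) =
      Bil N J C' p (aO T J g b p) (aO T J g b' p) := by
  have h1 : Bp N T J C' g b b' p = ∑ c' ∈ Ico C' (2 * C'), ∑ x ∈ Icc N (2 * N),
      ∑ z ∈ Icc N (2 * N),
        (cnt J p.2 (p.1 * c' * x * z) : ℂ) * (aO T J g b p x * conj (aO T J g b' p z)) := by
    refine sum_congr rfl fun c' _ => sum_congr rfl fun x _ => sum_congr rfl fun z _ => ?_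
    by_cases h : cnt J p.2 (p.1 * c' * x * z) = 0
    · rw [h, Nat.cast_zero, zero_mul, zero_mul]
    · have hx : gx p x ≤ J := gcd_le_Side (w := c' * z) (by
        rwa [show p.1 * x * (c' * z) = p.1 * c' * x * z by ring])
      have hz : gx p z ≤ J := gcd_le_Side (w := c' * x) (by
        rwa [show p.1 * z * (c' * x) = p.1 * c' * x * z by ring])
      rw [aO, aO, if_pos hx, if_pos hz]
  have h2 : (((J : ℝ) * C' / p.2 : ℝ) : ℂ) * (uO N T J g b p * conj (uO N T J g b' p)) =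
      ∑ c' ∈ Ico C' (2 * C'), ∑ x ∈ Icc N (2 * N), ∑ z ∈ Icc N (2 * N),
        (((J : ℝ) / p.2 : ℝ) : ℂ) * (aO T J g b p x * conj (aO T J g b' p z)) := by
    rw [sum_const, Nat.card_Ico, show 2 * C' - C' = C' by omega, uO, uO, map_sum, sum_mul_sum,
      nsmul_eq_mul]
    simp only [← mul_sum]
    push_cast
    ring
  rw [h1, h2, Bil, ← sum_sub_distrib]
  refine sum_congr rfl fun c' _ => ?_
  rw [← sum_sub_distrib]
  refine sum_congr rfl fun x _ => ?_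
  rw [← sum_sub_distrib]
  refine sum_congr rfl fun z _ => ?_
  push_cast
  ring

theorem split_Side (N T J C' : ℕ) (g : ℤ → ℝ) (U : ℝ) (b b' : ℕ → ℂ) (p : ℕ × ℕ) :
    Bil N J C' p (aO T J g b p) (aO T J g b' p) =
      Bil N J C' p (aS T J g U b p) (aS T J g U b' p) +
        Bil N J C' p (aB T J g U b p) (aO T J g b' p) +
        Bil N J C' p (aS T J g U b p) (aB T J g U b' p) := by
  simp only [Bil, ← sum_add_distrib]
  refine sum_congr rfl fun c' _ => sum_congr rfl fun x _ => sum_congr rfl fun z _ => ?_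
  rw [aO_eq T J g U b, aO_eq T J g U b', map_add]
  ring

theorem av_le_Side {T : ℕ} {g : ℤ → ℝ} {b : ℕ → ℂ} (hb : ∀ n, ‖b n‖ ≤ 1) (p : ℕ × ℕ) (x : ℕ) :
    ‖av T g b p x‖ ≤ ‖av T g (fun _ => 1) p x‖ :=
  (norm_av_le hb p x).trans (by rw [av, one_mul])

theorem side_stmt (hA : SideAStmt) (hB : SideBStmt) : SideStmt := by
  obtain ⟨cA, hcA, hA⟩ := hA
  obtain ⟨cB, hcB, hB⟩ := hB
  refine ⟨cA + cB + cB, by positivity, fun N T J C C' K W E Y MM g b b' hp hg hW hW' hb hb' => ?_⟩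
  have hB1 : ∀ {b : ℕ → ℂ}, (∀ n, ‖b n‖ ≤ 1) → ∀ p x, ‖aB T J g (E * (N : ℝ) ^ 2) b p x‖ ≤
      ‖aB T J g (E * (N : ℝ) ^ 2) (fun _ => 1) p x‖ := fun hb p x => by
    unfold aB
    split_ifs
    · exact av_le_Side hb p x
    · exact le_rfl
  have hO : ∀ p x, ‖aO T J g b' p x‖ ≤ ‖aO T J g (fun _ => 1) p x‖ := fun p x => by
    unfold aO
    split_ifs
    · exact av_le_Side hb' p x
    · exact le_rfl
  have hS : ∀ p x, ‖aS T J g (E * (N : ℝ) ^ 2) b p x‖ ≤ ‖aO T J g (fun _ => 1) p x‖ :=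
    fun p x => by
      unfold aS aO
      by_cases h : gx p x ≤ J ∧ ‖fu T g (pt p x)‖ ≤ E * (N : ℝ) ^ 2
      · rw [if_pos h, if_pos h.1]
        exact av_le_Side hb p x
      · rw [if_neg h, norm_zero]
        exact norm_nonneg _
  have h1 := hA N T J C C' K W E Y MM g b b' hp hg hW hW' hb hb'
  have h2 := (hB N T J C C' K W E Y MM g _ _ hp hg hW hW' (hB1 hb) hO).1
  have h3 := (hB N T J C C' K W E Y MM g _ _ hp hg hW hW' (hB1 hb') hS).2
  refine (sum_le_sum fun p _ => ?_).trans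
    ((sum_add_distrib.trans (congrArg (· + _) sum_add_distrib)).le.trans
      ((add_le_add (add_le_add h1 h2) h3).trans (le_of_eq (by ring))))
  rw [eq_bil_Side, split_Side N T J C' g (E * (N : ℝ) ^ 2)]
  exact norm_add₃_le

end Pool.Agent.MP_2a1f0e_nt.RF
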