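import Pool.Agent.MP_2a1f0e_nt.RF.Basic

set_option autoImplicit false

open Finset
open scoped ComplexConjugate

namespace Pool.Agent.MP_2a1f0e_nt.RF

open GM

lemma sum_aS_SideA (N T J C W : ℕ) (g : ℤ → ℝ) (U : ℝ) {b : ℕ → ℂ} (hb : ∀ n, ‖b n‖ ≤ 1) :
    ∑ p ∈ Win N C W, ∑ x ∈ Icc N (2 * N), ‖aS T J g U b p x‖ ^ 2 ≤
      ∑ e ∈ (Fam N C W).filter fun e => gx e.1 e.2 ≤ J, ‖fu T g (pt e.1 e.2)‖ ^ 2 := by
  rw [sum_filter, Fam, sum_product]
  refine sum_le_sum fun p _ => sum_le_sum fun x _ => ?_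
  unfold aS
  by_cases h : gx p x ≤ J
  · rw [if_pos h]
    split_ifs
    · exact pow_le_pow_left₀ (norm_nonneg _) (norm_av_le hb p x) 2
    · rw [norm_zero, zero_pow two_ne_zero]
      exact sq_nonneg _
  · rw [if_neg h, if_neg fun h' => h h'.1, norm_zero, zero_pow two_ne_zero]

lemma one_aS_SideA {N : ℕ} (hN : 1 ≤ N) (T J : ℕ) (g : ℤ → ℝ) (U : ℝ) {b : ℕ → ℂ}
    (hb : ∀ n, ‖b n‖ ≤ 1) (p : ℕ × ℕ) :
    ∑ x ∈ Icc N (2 * N), ‖aS T J g U b p x‖ ^ 2 ≤ 2 * N * U ^ 2 := by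
  have h : ∀ x ∈ Icc N (2 * N), ‖aS T J g U b p x‖ ^ 2 ≤ U ^ 2 := fun x _ => by
    unfold aS
    split_ifs with h
    · exact pow_le_pow_left₀ (norm_nonneg _) ((norm_av_le hb p x).trans h.2) 2
    · rw [norm_zero, zero_pow two_ne_zero]
      exact sq_nonneg _
  refine (sum_le_card_nsmul _ _ _ h).trans ?_
  rw [nsmul_eq_mul, Nat.card_Icc]
  refine mul_le_mul_of_nonneg_right ?_ (sq_nonneg _)
  exact_mod_cast (by omega : 2 * N + 1 - N ≤ 2 * N)

lemma bad_SideA (hC : CountStmt) {N C W X J : ℕ} {E lam : ℝ} (hX : 2 * W * N * C ≤ X)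
    (hd : DivB X E) : ∑ p ∈ Win N C W, (Nat.gcd p.1 p.2 : ℝ) * BadQ J lam p.2 ≤
      3 * C * E * ∑ Q ∈ Icc 1 X, BadQ J lam Q := by
  have hs : Win N C W ⊆ Ico C (2 * C) ×ˢ Icc 1 X :=
    (filter_subset _ _).trans (product_subset_product_right (Icc_subset_Icc_right hX))
  refine (sum_le_sum_of_subset_of_nonneg hs fun p _ _ =>
    mul_nonneg (Nat.cast_nonneg _) (BadQ_nonneg _ _ _)).trans ?_
  rw [sum_product_right, mul_sum]
  refine sum_le_sum fun Q hQ => ?_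
  obtain ⟨h1, h2⟩ := mem_Icc.1 hQ
  simp only [← sum_mul]
  exact mul_le_mul_of_nonneg_right ((hC.2.2 C Q h1).trans
    (mul_le_mul_of_nonneg_left (hd.2 Q h2) (by positivity))) (BadQ_nonneg _ _ _)

lemma amgm_SideA {a b : ℝ} (ha : 0 ≤ a) (hb : 0 ≤ b) : √a * √b ≤ (a + b) / 2 := by
  nlinarith [sq_nonneg (√a - √b), Real.sq_sqrt ha, Real.sq_sqrt hb]

theorem sideA_stmt (hCh : CharStmt) (hL : LSStmt) (hE : EdgeMultStmt) (hC : CountStmt) :
    SideAStmt := by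
  obtain ⟨c1, hc1, hCh⟩ := hCh
  obtain ⟨cL, hcL, hL⟩ := hL
  obtain ⟨cE, hcE, hE⟩ := hE
  refine ⟨c1 * (cL * cE + 24), by positivity,
    fun N T J C C' K W E Y MM g b b' hp hg hW hWK hb hb' => ?_⟩
  have E1 := hp.E1
  have Y1 := hp.Y1
  have M0 := hg.MM0
  have T1 : 1 ≤ T := hp.N1.trans hp.NT
  have n1 : (1 : ℝ) ≤ N := by exact_mod_cast hp.N1
  have t1 : (1 : ℝ) ≤ T := by exact_mod_cast T1
  have k1 : (1 : ℝ) ≤ C := by exact_mod_cast hp.C1
  have k2 : (1 : ℝ) ≤ C' := by exact_mod_cast hp.C1'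
  have j1 : (1 : ℝ) ≤ J := by exact_mod_cast hp.J1
  have s0 : 0 < √(C : ℝ) := Real.sqrt_pos.2 (by linarith)
  have s1 := Real.sq_sqrt (show (0 : ℝ) ≤ C by linarith)
  have s2 := Real.sq_sqrt (show (0 : ℝ) ≤ C' by linarith)
  have l0 : 0 < lamv J C Y := by unfold lamv; positivity
  have l1 : (J : ℝ) ≤ lamv J C Y ^ 2 := by
    rw [lamv, div_pow, mul_pow, s1, le_div_iff₀ (by positivity), pow_two (J : ℝ)]
    refine mul_le_mul_of_nonneg_left (le_trans ?_ hp.JL) (by linarith)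
    exact mul_le_mul (pow_le_pow_right₀ Y1 (by norm_num)) (le_self_pow₀ k1 two_ne_zero)
      (by linarith) (by positivity)
  have l2 : √(C' : ℝ) * lamv J C Y * (C ^ 2 * N ^ 2 * MM) ≤ E * Err N J C C' Y MM := by
    have h1 : √(C : ℝ) ≤ E * √(C' : ℝ) := by
      refine Real.sqrt_le_iff.2 ⟨by positivity, ?_⟩
      rw [mul_pow, s2]
      exact hp.CE'.trans (mul_le_mul_of_nonneg_right (le_self_pow₀ E1 two_ne_zero) (by linarith))
    calc √(C' : ℝ) * lamv J C Y * (C ^ 2 * N ^ 2 * MM)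
        = √(C : ℝ) * (√(C' : ℝ) * (J * C * N ^ 2 * MM / Y)) := by
          have : (C : ℝ) ^ 2 = C * √(C : ℝ) ^ 2 := by rw [s1, pow_two]
          rw [this, lamv]
          field_simp
      _ ≤ E * √(C' : ℝ) * (√(C' : ℝ) * (J * C * N ^ 2 * MM / Y)) := by gcongr
      _ = E * (√(C' : ℝ) ^ 2 * (J * C * N ^ 2 * MM / Y)) := by ring
      _ = _ := by rw [s2, Err]; ring
  have x1 : 2 * W * N * C ≤ 400 * K * N * (C + C') :=
    Nat.mul_le_mul (Nat.mul_le_mul_right _ (by omega)) (by omega)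
  have x2 : 4 * N * C' ≤ 400 * K * N * (C + C') :=
    Nat.mul_le_mul (Nat.mul_le_mul_right _ (by have := hp.K1; omega)) (by omega)
  have x3 : ((400 * K * N * (C + C') : ℕ) : ℝ) ≤ 2 * E * N * (2 * E * C) := by
    push_cast
    have := hp.KE
    have := hp.CE
    have : (C : ℝ) ≤ E * C := le_mul_of_one_le_left (by linarith) E1
    exact mul_le_mul (mul_le_mul_of_nonneg_right (by linarith) (by linarith)) (by linarith)
      (by linarith) (by positivity)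
  have w1 : (W : ℝ) ≤ E := le_trans (by exact_mod_cast hWK) hp.KE
  have a1 : ∀ {b : ℕ → ℂ}, (∀ n, ‖b n‖ ≤ 1) → ∑ p ∈ Win N C W, ∑ x ∈ Icc N (2 * N),
      ‖aS T J g (E * (N : ℝ) ^ 2) b p x‖ ^ 2 ≤ cL * cE * E ^ 5 * (C ^ 2 * N ^ 2 * MM) := by
    intro b hb
    refine (sum_aS_SideA N T J C W g _ hb).trans ((hL _ _ _ T _ T1
      (hE N T J C C' K W E Y hp hW hWK).1 fun t => (g t : ℂ)).trans ?_)
    rw [sum_sq_fu]
    refine (mul_le_mul_of_nonneg_left hg.sq (by positivity)).trans (le_of_eq ?_)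
    field_simp
  have a2 : ∀ {b : ℕ → ℂ}, (∀ n, ‖b n‖ ≤ 1) → ∀ p, ∑ x ∈ Icc N (2 * N),
      ‖aS T J g (E * (N : ℝ) ^ 2) b p x‖ ^ 2 ≤ 2 * N * E ^ 2 * (Y * MM) := by
    intro b hb p
    refine (one_aS_SideA hp.N1 T J g _ hb p).trans ?_
    rw [mul_pow, ← pow_mul, ← mul_assoc]
    exact mul_le_mul_of_nonneg_left hg.low (by positivity)
  have a3 : ∑ p ∈ Win N C W, (Nat.gcd p.1 p.2 : ℝ) * BadQ J (lamv J C Y) p.2 ≤
      3 * C * E * (E * (2 * E * N * (2 * E * C)) * lamv J C Y ^ 2 * (C / Y)) :=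
    (bad_SideA hC x1 hp.dv).trans (mul_le_mul_of_nonneg_left (le_trans hp.xi (by gcongr))
      (by positivity))
  have a4 := add_le_add (a1 hb) (a1 hb')
  have a5 := fun p (hpW : p ∈ Win N C W) => hCh N J C C' W E (lamv J C Y) p
    (aS T J g (E * (N : ℝ) ^ 2) b p) (aS T J g (E * (N : ℝ) ^ 2) b' p) hp.N1 hp.C1 hp.C1' hW w1
    hp.CE hpW (divB_mono hp.dv x2 le_rfl) (divB_mono hp.dv x1 le_rfl) l0 l1
  have a6 := fun p => add_le_add (a2 hb p) (a2 hb' p)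
  rw [← sum_add_distrib] at a4
  have e0 := Err_nonneg (N := N) (J := J) (C := C) (C' := C') (by linarith : 0 ≤ Y) M0
  generalize lamv J C Y = lam at *
  generalize Err N J C C' Y MM = R at *
  calc _ ≤ ∑ p ∈ Win N C W, c1 * E ^ 7 * √(C' : ℝ) * (lam / 2 *
        (∑ x ∈ Icc N (2 * N), ‖aS T J g (E * (N : ℝ) ^ 2) b p x‖ ^ 2 +
          ∑ x ∈ Icc N (2 * N), ‖aS T J g (E * (N : ℝ) ^ 2) b' p x‖ ^ 2) +
        2 * N * E ^ 2 * (Y * MM) / (C * lam) * (Nat.gcd p.1 p.2 * BadQ J lam p.2)) := by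
        refine sum_le_sum fun p hpW => (a5 p hpW).trans ?_
        rw [mul_assoc (c1 * E ^ 7 * √(C' : ℝ))]
        refine mul_le_mul_of_nonneg_left ?_ (by positivity)
        have q0 := BadQ_nonneg J lam p.2
        have q1 := amgm_SideA
          (sum_nonneg (s := Icc N (2 * N)) fun x _ => sq_nonneg ‖aS T J g (E * (N : ℝ) ^ 2) b p x‖)
          (sum_nonneg (s := Icc N (2 * N)) fun x _ => sq_nonneg ‖aS T J g (E * (N : ℝ) ^ 2) b' p x‖)
        rw [mul_add]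
        refine add_le_add ((mul_le_mul_of_nonneg_right q1 l0.le).trans (le_of_eq (by ring)))
          ((mul_le_mul_of_nonneg_right (q1.trans (by linarith [a6 p] :
            _ ≤ 2 * N * E ^ 2 * (Y * MM))) (by positivity)).trans (le_of_eq (by ring)))
    _ ≤ c1 * E ^ 7 * √(C' : ℝ) * (lam / 2 * (cL * cE * E ^ 5 * (C ^ 2 * N ^ 2 * MM) +
          cL * cE * E ^ 5 * (C ^ 2 * N ^ 2 * MM)) + 2 * N * E ^ 2 * (Y * MM) / (C * lam) *
          (3 * C * E * (E * (2 * E * N * (2 * E * C)) * lam ^ 2 * (C / Y)))) := by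
        rw [← mul_sum, sum_add_distrib, ← mul_sum, ← mul_sum]
        gcongr
    _ = c1 * (cL * cE * E ^ 12 + 24 * E ^ 13) * (√(C' : ℝ) * lam * (C ^ 2 * N ^ 2 * MM)) := by
        field_simp
        ring
    _ ≤ c1 * (cL * cE * E ^ 15 + 24 * E ^ 15) * (E * R) := by
        gcongr <;> first | exact E1 | norm_num
    _ = _ := by ring

end Pool.Agent.MP_2a1f0e_nt.RF
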