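import Pool.Agent.MP_2a1f0e_nt.RF.Basic

set_option autoImplicit false

open Finset
open scoped ComplexConjugate

namespace Pool.Agent.MP_2a1f0e_nt.RF

open GM

theorem aB_sq_SideB (T J : ℕ) (g : ℤ → ℝ) (U : ℝ) (p : ℕ × ℕ) (x : ℕ) :
    ‖aB T J g U (fun _ => 1) p x‖ ^ 2 =
      if gx p x ≤ J ∧ U < ‖fu T g (pt p x)‖ then ‖fu T g (pt p x)‖ ^ 2 else 0 := by
  unfold aB av
  split_ifs <;> simp

theorem aO_sq_SideB (T J : ℕ) (g : ℤ → ℝ) (p : ℕ × ℕ) (x : ℕ) :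
    ‖aO T J g (fun _ => 1) p x‖ ^ 2 = if gx p x ≤ J then ‖fu T g (pt p x)‖ ^ 2 else 0 := by
  unfold aO av
  split_ifs <;> simp

theorem big_SideB {T : ℕ} {g : ℤ → ℝ} {U B μ : ℝ} (h : BigP T g U B) {ι : Type} {s : Finset ι}
    {u : ι → ℝ} (hc : CM s u T μ) (a : ι → ℝ)
    (ha : ∀ i ∈ s, a i ≤ if U < ‖fu T g (u i)‖ then ‖fu T g (u i)‖ ^ 2 else 0) :
    ∑ i ∈ s, a i ≤ B * μ := by
  classical
  calc ∑ i ∈ s, a i
      ≤ ∑ i ∈ s, if U < ‖fu T g (u i)‖ then ‖fu T g (u i)‖ ^ 2 else 0 := sum_le_sum ha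
    _ = ∑ i ∈ s.filter (fun i => U < ‖fu T g (u i)‖), ‖fu T g (u i)‖ ^ 2 :=
        (sum_filter _ _).symm
    _ ≤ B * μ := h ι _ u μ (hc.mono (filter_subset _ _) le_rfl) fun i hi => (mem_filter.1 hi).2

theorem amgm_SideB {l : ℝ} (hl : 0 < l) (a b : ℝ) : a * b ≤ l * a ^ 2 + l⁻¹ * b ^ 2 := by
  have h1 : 0 ≤ l⁻¹ * (l * a - b) ^ 2 := by positivity
  have h2 : l⁻¹ * (l * a - b) ^ 2 = l * a ^ 2 - 2 * (a * b) + l⁻¹ * b ^ 2 := by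
    field_simp
    ring
  have h3 : 0 ≤ l * a ^ 2 := by positivity
  have h4 : 0 ≤ l⁻¹ * b ^ 2 := by positivity
  linarith

theorem bil_le_SideB (N J C' : ℕ) (p : ℕ × ℕ) (a b : ℕ → ℂ) :
    ‖Bil N J C' p a b‖ ≤
      (∑ c' ∈ Ico C' (2 * C'), ∑ x ∈ Icc N (2 * N), ∑ z ∈ Icc N (2 * N),
        cnt J p.2 (p.1 * c' * x * z) • (‖a x‖ * ‖b z‖)) +
      (J : ℝ) * C' / p.2 * ((∑ x ∈ Icc N (2 * N), ‖a x‖) * ∑ z ∈ Icc N (2 * N), ‖b z‖) := by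
  have h1 : (J : ℝ) * C' / p.2 * ((∑ x ∈ Icc N (2 * N), ‖a x‖) * ∑ z ∈ Icc N (2 * N), ‖b z‖) =
      ∑ _c' ∈ Ico C' (2 * C'), ∑ x ∈ Icc N (2 * N), ∑ z ∈ Icc N (2 * N),
        (J : ℝ) / p.2 * (‖a x‖ * ‖b z‖) := by
    rw [sum_const, Nat.card_Ico, nsmul_eq_mul, sum_mul_sum]
    simp_rw [← mul_sum]
    have : 2 * C' - C' = C' := by omega
    rw [this]
    ring
  rw [h1, ← sum_add_distrib]
  unfold Bil
  refine (norm_sum_le _ _).trans (sum_le_sum fun c' _ => ?_)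
  rw [← sum_add_distrib]
  refine (norm_sum_le _ _).trans (sum_le_sum fun x _ => ?_)
  rw [← sum_add_distrib]
  refine (norm_sum_le _ _).trans (sum_le_sum fun z _ => ?_)
  rw [norm_mul, norm_mul, Complex.norm_conj, Complex.norm_real, Real.norm_eq_abs, nsmul_eq_mul,
    ← add_mul]
  refine mul_le_mul_of_nonneg_right ?_ (by positivity)
  have h2 : (0 : ℝ) ≤ (cnt J p.2 (p.1 * c' * x * z) : ℝ) := by positivity
  have h3 : (0 : ℝ) ≤ (J : ℝ) / p.2 := by positivity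
  rw [abs_le]
  constructor <;> linarith

theorem sq_sum_SideB {N : ℕ} (hN : 1 ≤ N) (a : ℕ → ℝ) :
    (∑ x ∈ Icc N (2 * N), a x) ^ 2 ≤ 2 * N * ∑ x ∈ Icc N (2 * N), a x ^ 2 := by
  refine (sq_sum_le_card_mul_sum_sq).trans ?_
  refine mul_le_mul_of_nonneg_right ?_ (sum_nonneg fun _ _ => sq_nonneg _)
  rw [Nat.card_Icc]
  have : 2 * N + 1 - N ≤ 2 * N := by omega
  exact_mod_cast this

theorem main_SideB {N J C C' W : ℕ} {E l : ℝ} (hN : 1 ≤ N) (hC : 1 ≤ C) (hW : (W : ℝ) ≤ E)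
    (hl : 0 < l) (a b : ℕ × ℕ → ℕ → ℂ) :
    ∑ p ∈ Win N C W, ‖Bil N J C' p (a p) (b p)‖ ≤
      (l * ∑ e ∈ Edg N J C C' W, ‖a e.p e.x‖ ^ 2 + l⁻¹ * ∑ e ∈ Edg N J C C' W, ‖b e.p e.z‖ ^ 2) +
      2 * J * C' * E / C * (l * ∑ e ∈ Fam N C W, ‖a e.1 e.2‖ ^ 2 +
        l⁻¹ * ∑ e ∈ Fam N C W, ‖b e.1 e.2‖ ^ 2) := by
  have hN0 : (0 : ℝ) < N := by exact_mod_cast hN
  have hC0 : (0 : ℝ) < C := by exact_mod_cast hC
  have hE0 : 0 ≤ E := le_trans (by positivity) hW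
  refine (sum_le_sum fun p _ => bil_le_SideB N J C' p (a p) (b p)).trans ?_
  rw [sum_add_distrib]
  refine add_le_add ?_ ?_
  · rw [← sum_Edg N J C C' W (fun p _ x z => ‖a p x‖ * ‖b p z‖), mul_sum, mul_sum,
      ← sum_add_distrib]
    exact sum_le_sum fun e _ => amgm_SideB hl _ _
  · unfold Fam
    rw [sum_product, sum_product, mul_sum, mul_sum, ← sum_add_distrib, mul_sum]
    refine sum_le_sum fun p hp => ?_
    rw [mem_Win] at hp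
    have hQ : (0 : ℝ) < p.2 := by exact_mod_cast hp.1.2.1
    have h1 : (N : ℝ) * C ≤ E * p.2 := by
      have h2 : N * C ≤ W * p.2 := le_trans (Nat.mul_le_mul_left _ hp.1.1.1) hp.2.1
      have h3 : (N : ℝ) * C ≤ W * p.2 := by exact_mod_cast h2
      exact h3.trans (mul_le_mul_of_nonneg_right hW hQ.le)
    have h4 : (J : ℝ) * C' / p.2 ≤ J * C' * E / (N * C) := by
      rw [div_le_div_iff₀ hQ (by positivity)]
      have : (0 : ℝ) ≤ J * C' := by positivity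
      nlinarith
    have h5 := amgm_SideB hl (∑ x ∈ Icc N (2 * N), ‖a p x‖) (∑ z ∈ Icc N (2 * N), ‖b p z‖)
    have h6 := sq_sum_SideB hN (fun x => ‖a p x‖)
    have h7 := sq_sum_SideB hN (fun x => ‖b p x‖)
    have h8 : (∑ x ∈ Icc N (2 * N), ‖a p x‖) * (∑ z ∈ Icc N (2 * N), ‖b p z‖) ≤
        2 * N * (l * ∑ x ∈ Icc N (2 * N), ‖a p x‖ ^ 2 +
          l⁻¹ * ∑ x ∈ Icc N (2 * N), ‖b p x‖ ^ 2) := by
      have h9 := mul_le_mul_of_nonneg_left h6 hl.le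
      have h10 := mul_le_mul_of_nonneg_left h7 (inv_pos.2 hl).le
      linarith
    calc (J : ℝ) * C' / p.2 *
          ((∑ x ∈ Icc N (2 * N), ‖a p x‖) * ∑ z ∈ Icc N (2 * N), ‖b p z‖)
        ≤ J * C' * E / (N * C) * (2 * N * (l * ∑ x ∈ Icc N (2 * N), ‖a p x‖ ^ 2 +
          l⁻¹ * ∑ x ∈ Icc N (2 * N), ‖b p x‖ ^ 2)) :=
          mul_le_mul h4 h8 (by positivity) (by positivity)
      _ = _ := by
          field_simp

theorem fam_SideB {N J C W : ℕ} (F : (ℕ × ℕ) × ℕ → ℝ) (h : ∀ e, ¬ gx e.1 e.2 ≤ J → F e = 0) :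
    ∑ e ∈ Fam N C W, F e = ∑ e ∈ (Fam N C W).filter (fun e => gx e.1 e.2 ≤ J), F e := by
  rw [sum_filter]
  refine sum_congr rfl fun e _ => ?_
  split_ifs with h1
  · rfl
  · exact h e h1

theorem num_SideB {N T E Y MM cL μ l A B : ℝ} (hN : 0 < N) (hT : 0 < T) (hE : 1 ≤ E) (hY : 1 ≤ Y)
    (hM : 0 < MM) (hc : 0 < cL) (hμ : 0 ≤ μ) (hk : N ^ 2 * T * Y ^ 2 ≤ MM)
    (hl : l = MM / (Y * T * N ^ 2)) (hA : A ≤ E * T ^ 2 * N ^ 2 * μ) (hB : B ≤ cL * μ * T * MM) :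
    l * A + l⁻¹ * B ≤ (1 + cL) * E * (μ * T) * MM / Y := by
  have hY0 : 0 < Y := by linarith
  have hl0 : 0 < l := by rw [hl]; positivity
  have h1 : l * A ≤ E * (μ * T) * MM / Y := by
    calc l * A ≤ l * (E * T ^ 2 * N ^ 2 * μ) := mul_le_mul_of_nonneg_left hA hl0.le
      _ = E * (μ * T) * MM / Y := by rw [hl]; field_simp
  have h2 : l⁻¹ * B ≤ cL * E * (μ * T) * MM / Y := by
    calc l⁻¹ * B ≤ l⁻¹ * (cL * μ * T * MM) := mul_le_mul_of_nonneg_left hB (inv_pos.2 hl0).le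
      _ = cL * 1 * (μ * T) * (N ^ 2 * T * Y ^ 2) / Y := by rw [hl]; field_simp
      _ ≤ cL * E * (μ * T) * MM / Y := by gcongr
  calc l * A + l⁻¹ * B ≤ E * (μ * T) * MM / Y + cL * E * (μ * T) * MM / Y := add_le_add h1 h2
    _ = _ := by ring

theorem sideB_stmt (hL : LSStmt) (hE : EdgeMultStmt) (hG : GeoStmt) : SideBStmt := by
  have _hG := hG
  obtain ⟨cL, hcL, hL⟩ := hL
  obtain ⟨cE, hcE, hE⟩ := hE
  refine ⟨3 * ((1 + cL) * cE), by positivity, ?_⟩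
  intro N T J C C' K W E Y MM g α β hp hg hW1 hW hα hβ
  obtain ⟨hE0, hE1, hE2⟩ := hE N T J C C' K W E Y hp hW1 hW
  have hT1 : 1 ≤ T := hp.N1.trans hp.NT
  have hN0 : (0 : ℝ) < N := by exact_mod_cast hp.N1
  have hT0 : (0 : ℝ) < T := by exact_mod_cast hT1
  have hC0 : (0 : ℝ) < C := by exact_mod_cast hp.C1
  have hC0' : (0 : ℝ) < C' := by exact_mod_cast hp.C1'
  have hE1' : 1 ≤ E := hp.E1
  have hY1 : 1 ≤ Y := hp.Y1
  have hY0 : 0 < Y := by linarith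
  have hWE : (W : ℝ) ≤ E := by
    have h1 : (W : ℝ) ≤ 200 * K := by exact_mod_cast hW
    exact h1.trans hp.KE
  have hM : 0 < MM := by
    have h1 : 0 < Y * MM := lt_of_lt_of_le (by positivity) hg.low
    exact (mul_pos_iff_of_pos_left hY0).1 h1
  have hk : (N : ℝ) ^ 2 * T * Y ^ 2 ≤ MM := by
    have h1 : Y ^ 3 ≤ Y ^ 7 := pow_le_pow_right₀ hY1 (by norm_num)
    have h2 : (T : ℝ) * Y ^ 3 ≤ (N : ℝ) ^ 2 :=
      (mul_le_mul_of_nonneg_left h1 hT0.le).trans hp.HY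
    have h3 : Y * ((N : ℝ) ^ 2 * T * Y ^ 2) ≤ Y * MM := by
      calc Y * ((N : ℝ) ^ 2 * T * Y ^ 2) = (N : ℝ) ^ 2 * (T * Y ^ 3) := by ring
        _ ≤ (N : ℝ) ^ 2 * (N : ℝ) ^ 2 := mul_le_mul_of_nonneg_left h2 (by positivity)
        _ = (N : ℝ) ^ 4 := by ring
        _ ≤ Y * MM := hg.low
    exact le_of_mul_le_mul_left h3 hY0
  -- pointwise bounds
  have hα2 : ∀ p x, ‖α p x‖ ^ 2 ≤
      if gx p x ≤ J ∧ E * (N : ℝ) ^ 2 < ‖fu T g (pt p x)‖ then ‖fu T g (pt p x)‖ ^ 2 else 0 := by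
    intro p x
    rw [← aB_sq_SideB]
    exact pow_le_pow_left₀ (norm_nonneg _) (hα p x) 2
  have hβ2 : ∀ p x, ‖β p x‖ ^ 2 ≤ if gx p x ≤ J then ‖fu T g (pt p x)‖ ^ 2 else 0 := by
    intro p x
    rw [← aO_sq_SideB]
    exact pow_le_pow_left₀ (norm_nonneg _) (hβ p x) 2
  have hα3 : ∀ p x, ‖α p x‖ ^ 2 ≤
      if E * (N : ℝ) ^ 2 < ‖fu T g (pt p x)‖ then ‖fu T g (pt p x)‖ ^ 2 else 0 := by
    intro p x
    refine (hα2 p x).trans ?_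
    by_cases h1 : E * (N : ℝ) ^ 2 < ‖fu T g (pt p x)‖
    · by_cases h2 : gx p x ≤ J
      · simp [h1, h2]
      · simp [h1, h2]
    · simp [h1]
  have hβ3 : ∀ p x, ‖β p x‖ ^ 2 ≤ ‖fu T g (pt p x)‖ ^ 2 := by
    intro p x
    refine (hβ2 p x).trans ?_
    split_ifs
    · exact le_rfl
    · positivity
  have hα4 : ∀ e : (ℕ × ℕ) × ℕ, ¬ gx e.1 e.2 ≤ J → ‖α e.1 e.2‖ ^ 2 = 0 := by
    intro e he
    have h1 := hα2 e.1 e.2
    rw [if_neg fun h => he h.1] at h1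
    exact le_antisymm h1 (sq_nonneg _)
  have hβ4 : ∀ e : (ℕ × ℕ) × ℕ, ¬ gx e.1 e.2 ≤ J → ‖β e.1 e.2‖ ^ 2 = 0 := by
    intro e he
    have h1 := hβ2 e.1 e.2
    rw [if_neg he] at h1
    exact le_antisymm h1 (sq_nonneg _)
  have hLS : ∀ (ι : Type) (s : Finset ι) (u : ι → ℝ) (μ : ℝ), CM s u T μ → ∀ b : ι → ℝ,
      (∀ i ∈ s, b i ≤ ‖fu T g (u i)‖ ^ 2) → ∑ i ∈ s, b i ≤ cL * μ * T * MM := by
    intro ι s u μ hc b hb
    have h1 := hL ι s u T μ hT1 hc (fun t => (g t : ℂ))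
    rw [sum_sq_fu] at h1
    have h2 := hc.nonneg
    calc ∑ i ∈ s, b i ≤ ∑ i ∈ s, ‖fu T g (u i)‖ ^ 2 := sum_le_sum hb
      _ ≤ cL * μ * T * ∑ t ∈ IT T, g t ^ 2 := h1
      _ ≤ cL * μ * T * MM := mul_le_mul_of_nonneg_left hg.sq (by positivity)
  obtain ⟨l, hl⟩ : ∃ l : ℝ, l = MM / (Y * T * (N : ℝ) ^ 2) := ⟨_, rfl⟩
  have hl0 : 0 < l := by rw [hl]; positivity
  have e1 := num_SideB hN0 hT0 hE1' hY1 hM hcL hE1.nonneg hk hl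
    (big_SideB hg.big hE1 (fun e => ‖α e.p e.x‖ ^ 2) fun e _ => hα3 _ _)
    (hLS _ _ _ _ hE2 (fun e => ‖β e.p e.z‖ ^ 2) fun e _ => hβ3 _ _)
  have e2 := num_SideB hN0 hT0 hE1' hY1 hM hcL hE1.nonneg hk hl
    (big_SideB hg.big hE2 (fun e => ‖α e.p e.z‖ ^ 2) fun e _ => hα3 _ _)
    (hLS _ _ _ _ hE1 (fun e => ‖β e.p e.x‖ ^ 2) fun e _ => hβ3 _ _)
  have e3 := num_SideB hN0 hT0 hE1' hY1 hM hcL hE0.nonneg hk hl
    (big_SideB hg.big hE0 (fun e => ‖α e.1 e.2‖ ^ 2) fun e _ => hα3 _ _)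
    (hLS _ _ _ _ hE0 (fun e => ‖β e.1 e.2‖ ^ 2) fun e _ => hβ3 _ _)
  rw [← fam_SideB _ hα4, ← fam_SideB _ hβ4] at e3
  have hcc : 0 < (1 + cL) * cE := by positivity
  have hErr : 0 ≤ Err N J C C' Y MM := Err_nonneg hY0.le hM.le
  have f1 : (1 + cL) * E * (cE * E ^ 10 * J * ((C : ℝ) ^ 2 * (N : ℝ) ^ 2 / T) * T) * MM / Y ≤
      (1 + cL) * cE * E ^ 16 * Err N J C C' Y MM := by
    have h1 : E ^ 12 ≤ E ^ 16 := pow_le_pow_right₀ hE1' (by norm_num)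
    have h2 := hp.CE'
    calc (1 + cL) * E * (cE * E ^ 10 * J * ((C : ℝ) ^ 2 * (N : ℝ) ^ 2 / T) * T) * MM / Y
        = (1 + cL) * cE * E ^ 11 * (J * C * C * (N : ℝ) ^ 2 * MM / Y) := by field_simp
      _ ≤ (1 + cL) * cE * E ^ 11 * (J * C * (E * C') * (N : ℝ) ^ 2 * MM / Y) := by gcongr
      _ = (1 + cL) * cE * E ^ 12 * Err N J C C' Y MM := by unfold Err; ring
      _ ≤ (1 + cL) * cE * E ^ 16 * Err N J C C' Y MM := by gcongr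
  have f2 : 2 * J * C' * E / C *
      ((1 + cL) * E * (cE * E ^ 5 * ((C : ℝ) ^ 2 * (N : ℝ) ^ 2 / T) * T) * MM / Y) ≤
      2 * ((1 + cL) * cE * E ^ 16 * Err N J C C' Y MM) := by
    have h1 : E ^ 7 ≤ E ^ 16 := pow_le_pow_right₀ hE1' (by norm_num)
    calc 2 * J * C' * E / C *
        ((1 + cL) * E * (cE * E ^ 5 * ((C : ℝ) ^ 2 * (N : ℝ) ^ 2 / T) * T) * MM / Y)
        = 2 * ((1 + cL) * cE * E ^ 7 * Err N J C C' Y MM) := by unfold Err; field_simp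
      _ ≤ 2 * ((1 + cL) * cE * E ^ 16 * Err N J C C' Y MM) := by gcongr
  have hpre : (0 : ℝ) ≤ 2 * J * C' * E / C := by positivity
  have e4 := mul_le_mul_of_nonneg_left e3 hpre
  constructor
  · have m1 := main_SideB (J := J) (C' := C') hp.N1 hp.C1 hWE hl0 α β
    linarith
  · have m2 := main_SideB (J := J) (C' := C') hp.N1 hp.C1 hWE (inv_pos.2 hl0) β α
    rw [inv_inv, add_comm (l⁻¹ * _) (l * _), add_comm (l⁻¹ * _) (l * _)] at m2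
    linarith

end Pool.Agent.MP_2a1f0e_nt.RF
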