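import Pool.Agent.MP_2a1f0e_nt.RF.Basic
set_option autoImplicit false
open Finset
open scoped ComplexConjugate
namespace Pool.Agent.MP_2a1f0e_nt.RF
open GM

theorem uP_eq_Start {N T Q : ℕ} (g : ℤ → ℝ) (b : ℕ → ℂ) (hN : 1 ≤ N) (hQ : 1 ≤ Q) :
    uP N T g b (1, Q) = ∑ t ∈ IT T, g t * DP N b t * conj (pw Q t) := by
  unfold uP av fu trig DP
  simp only [mul_sum, sum_mul]
  rw [sum_comm]
  refine sum_congr rfl fun t _ => sum_congr rfl fun x hx => ?_
  have hx0 : (x : ℝ) ≠ 0 := Nat.cast_ne_zero.2 (by have := (mem_Icc.1 hx).1; omega)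
  have hQ0 : (Q : ℝ) ≠ 0 := Nat.cast_ne_zero.2 (by omega)
  have e : Complex.exp (Complex.I * (t : ℂ) * (pt (1, Q) x : ℂ)) = pw (x / Q) t := by
    simp [pw, pt]
  rw [e, pw_div hx0 hQ0, conj_pw]
  ring

theorem start_stmt : StartStmt := by
  intro N T g b hN hb
  have h1 : ((∑ t ∈ IT T, g t * ‖DP N b t‖ ^ 2 : ℝ) : ℂ) =
      ∑ Q ∈ Icc N (2 * N), conj (b Q) * uP N T g b (1, Q) := by
    have e : ∀ Q ∈ Icc N (2 * N), conj (b Q) * uP N T g b (1, Q) =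
        ∑ t ∈ IT T, g t * DP N b t * conj (b Q * pw Q t) := fun Q hQ => by
      rw [uP_eq_Start g b hN (hN.trans (mem_Icc.1 hQ).1), mul_sum]
      refine sum_congr rfl fun t _ => ?_
      rw [map_mul]
      ring
    rw [sum_congr rfl e, sum_comm, Complex.ofReal_sum]
    refine sum_congr rfl fun t _ => ?_
    rw [← mul_sum, ← map_sum, Complex.ofReal_mul, Complex.ofReal_pow, ← Complex.mul_conj',
      ← mul_assoc]
    rfl
  have h2 : |∑ t ∈ IT T, g t * ‖DP N b t‖ ^ 2| ≤ ∑ Q ∈ Icc N (2 * N), ‖uP N T g b (1, Q)‖ := by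
    rw [← Real.norm_eq_abs, ← Complex.norm_real, h1]
    refine norm_sum_le_of_le _ fun Q _ => ?_
    rw [norm_mul, Complex.norm_conj]
    exact mul_le_of_le_one_left (norm_nonneg _) (hb Q)
  have h3 : ∑ Q ∈ Icc N (2 * N), ‖uP N T g b (1, Q)‖ ^ 2 ≤ ∑ p ∈ Win N 1 2, ‖uP N T g b p‖ ^ 2 := by
    rw [← sum_image (s := Icc N (2 * N)) (g := fun Q : ℕ => ((1 : ℕ), Q))
      (f := fun p => ‖uP N T g b p‖ ^ 2) fun _ _ _ _ h => (Prod.mk.inj h).2]
    refine sum_le_sum_of_subset_of_nonneg (fun p hp => ?_) fun _ _ _ => by positivity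
    obtain ⟨Q, hQ, rfl⟩ := mem_image.1 hp
    rw [mem_Icc] at hQ
    rw [mem_Win]
    dsimp only
    omega
  rw [← sq_abs]
  refine (pow_le_pow_left₀ (abs_nonneg _) h2 2).trans (sq_sum_le_card_mul_sum_sq.trans ?_)
  refine mul_le_mul ?_ h3 (sum_nonneg fun _ _ => by positivity) (by positivity)
  rw [Nat.card_Icc]
  exact_mod_cast (by omega : 2 * N + 1 - N ≤ 2 * N)

end Pool.Agent.MP_2a1f0e_nt.RF
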