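import Pool.Agent.MP_2a1f0e_nt.RF.Basic

set_option autoImplicit false

open Finset
open scoped ComplexConjugate

namespace Pool.Agent.MP_2a1f0e_nt.RF

open GM

theorem step_stmt (hE : EdgeStmt) (hS : SSStmt) (hY : SYStmt) : StepStmt := by
  obtain ⟨c1, h1, hE⟩ := hE
  obtain ⟨c2, h2, hS⟩ := hS
  obtain ⟨c3, h3, hY⟩ := hY
  refine ⟨4 * (c1 + c2 + c3), by positivity, ?_⟩
  intro N T J C C' K E Y MM Z g hp hg hZ b hb
  have hY1 := hp.Y1
  have hE1 := hp.E1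
  have hN : (0 : ℝ) < N := by exact_mod_cast hp.N1
  have hJ : (0 : ℝ) < J := by exact_mod_cast hp.J1
  have hC : (0 : ℝ) < C := by exact_mod_cast hp.C1
  have hC' : (0 : ℝ) < C' := by exact_mod_cast hp.C1'
  have hK : (0 : ℝ) ≤ K := Nat.cast_nonneg K
  have hKE : (K : ℝ) ≤ E := by linarith [hp.KE]
  have hM : 0 ≤ MM := (sum_nonneg fun _ _ => sq_nonneg _).trans hg.sq
  have hZ0 : 0 ≤ Z := by
    have := (sum_nonneg fun _ _ => sq_nonneg _).trans (hZ b hb)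
    rw [mul_assoc] at this
    exact nonneg_of_mul_nonneg_left this (by positivity)
  have hP : 2 ≤ ⌈Y⌉₊ + 1 := Nat.succ_le_succ (Nat.one_le_ceil_iff.2 (by linarith))
  have a1 := hE N T J C C' K (⌈Y⌉₊ + 1) E Y MM g b hp hg hP
    (by push_cast; linarith [Nat.le_ceil Y])
    (by push_cast; linarith [Nat.ceil_lt_add_one (show 0 ≤ Y by linarith)]) hb
  have a2 := hS N T J C C' K _ E Y MM Z g b hp hg hP hb hZ
  have a3 := hY N T J C C' K _ E Y MM g b hp hg hP hb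
  have a4 := norm_le_norm_add_norm_sub' (SY N T J C C' K (⌈Y⌉₊ + 1) g b)
    (SS N T J C C' K (⌈Y⌉₊ + 1) g b)
  obtain ⟨R, hR, e⟩ : ∃ R, 0 ≤ R ∧ (N : ℝ) ^ 2 * MM / Y = R := ⟨_, by positivity, rfl⟩
  have e' : Err N J C C' Y MM = J * C * C' * R := by rw [← e, Err]; ring
  rw [e'] at a1 a2 a3
  rw [e]
  refine le_of_mul_le_mul_left (a3.trans ?_) (mul_pos hJ hC')
  calc _ ≤ 4 * K * N * C * (c2 * (K * J * C * C' * Z) +
        (c1 + c2 + c3) * E ^ 16 * (J * C * C' * R)) :=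
        mul_le_mul_of_nonneg_left (by linarith) (by positivity)
    _ = J * C' * ((4 * c2 * K ^ 2 * Z + 4 * (c1 + c2 + c3) * (K * E ^ 16) * R) * N * C ^ 2) := by
        ring
    _ ≤ J * C' * ((4 * (c1 + c2 + c3) * K ^ 2 * Z + 4 * (c1 + c2 + c3) * (E * E ^ 16) * R) *
        N * C ^ 2) := by
        gcongr
        linarith
    _ = _ := by ring

end Pool.Agent.MP_2a1f0e_nt.RF
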