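import Pool.Agent.MP_2a1f0e_nt.RF.Basic

set_option autoImplicit false

open Finset
open scoped ComplexConjugate

namespace Pool.Agent.MP_2a1f0e_nt.RF

open GM

theorem triv_stmt : TrivStmt := by
  intro r L hr χ hχ
  have : NeZero r := ⟨by omega⟩
  have hne : χ ≠ 1 := by
    intro h
    have h1 : χ.conductor = r := mem_prim.1 hχ
    rw [h, DirichletCharacter.conductor_one] at h1
    omega
  have hper : ∀ M : ℕ, ∑ j ∈ range r, χ ((M + j : ℕ) : ZMod r) = 0 := by
    intro M
    rw [← MulChar.sum_eq_zero_of_ne_one hne]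
    refine sum_nbij' (fun j => ((M + j : ℕ) : ZMod r)) (fun a => (a - (M : ZMod r)).val)
      (fun _ _ => mem_univ _) (fun a _ => mem_range.2 (ZMod.val_lt _)) (fun j hj => ?_)
      (fun a _ => by simp) (fun _ _ => rfl)
    simp [ZMod.val_natCast, Nat.mod_eq_of_lt (mem_range.1 hj)]
  induction L using Nat.strong_induction_on with
  | _ L ih =>
    rcases lt_or_ge L r with h | h
    · refine (norm_sum_le _ _).trans ?_
      refine (sum_le_card_nsmul _ _ 1 fun j _ => χ.norm_le_one _).trans ?_
      simp only [Nat.card_Icc, add_tsub_cancel_right, nsmul_eq_mul, mul_one]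
      exact_mod_cast h.le
    · obtain ⟨M, rfl⟩ := Nat.exists_eq_add_of_le' h
      have e : Sc r χ (M + r) = Sc r χ M := by
        unfold Sc
        have e1 : ∀ n : ℕ, Icc 1 n = Ico 1 (n + 1) := fun n => rfl
        rw [e1, e1, ← sum_Ico_consecutive _ (show 1 ≤ M + 1 by omega)
          (show M + 1 ≤ M + r + 1 by omega), sum_Ico_eq_sum_range (m := M + 1),
          show M + r + 1 - (M + 1) = r by omega, hper, add_zero]
      rw [e]
      exact ih M (by omega)

end Pool.Agent.MP_2a1f0e_nt.RF
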