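import Pool.Agent.MP_2a1f0e_nt.RF.Basic

set_option autoImplicit false

open Finset
open scoped ComplexConjugate

namespace Pool.Agent.MP_2a1f0e_nt.RF

open GM

theorem dyad_Xi {f : ℕ → ℝ} {B : ℝ} {X : ℕ} (hX : 1 ≤ X) (hf : ∀ r, 0 ≤ f r)
    (h : ∀ R : ℕ, 1 ≤ R → R ≤ X → ∑ r ∈ Ioc R (2 * R), f r ≤ B * R) :
    ∑ r ∈ Icc 2 X, f r / r ≤ B * (2 * (1 + Real.log X)) := by
  have hB : 0 ≤ B := by simpa using (sum_nonneg fun r _ => hf r).trans (h 1 le_rfl hX)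
  have key : ∀ i ≤ Nat.log 2 X + 1, ∑ r ∈ Ioc 1 (2 ^ i), f r / r ≤ B * i := by
    intro i
    induction i with
    | zero => simp
    | succ i ih =>
      intro hi
      have h1 : 1 ≤ 2 ^ i := Nat.one_le_two_pow
      have h2 : 2 ^ i ≤ X := Nat.pow_le_of_le_log (by omega) (by omega)
      have h3 : (0 : ℝ) < (2 ^ i : ℕ) := by exact_mod_cast h1
      rw [pow_succ', ← sum_Ioc_consecutive _ h1 (by omega : 2 ^ i ≤ 2 * 2 ^ i), Nat.cast_succ,
        mul_add, mul_one]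
      refine add_le_add (ih (by omega)) ?_
      refine le_trans (sum_le_sum fun r hr => div_le_div_of_nonneg_left (hf r) h3
        (by exact_mod_cast (mem_Ioc.1 hr).1.le)) ?_
      rw [← sum_div, div_le_iff₀ h3]
      exact h _ h1 h2
  refine le_trans (sum_le_sum_of_subset_of_nonneg (fun r hr => ?_)
    fun r _ _ => div_nonneg (hf r) r.cast_nonneg) ((key _ le_rfl).trans ?_)
  · have := Nat.lt_pow_succ_log_self (b := 2) one_lt_two X
    rw [mem_Icc] at hr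
    exact mem_Ioc.2 ⟨hr.1, hr.2.trans this.le⟩
  · refine mul_le_mul_of_nonneg_left ?_ hB
    have h1 : ((2 : ℝ)) ^ Nat.log 2 X ≤ X := by
      exact_mod_cast Nat.pow_log_le_self 2 (by omega : X ≠ 0)
    have h2 := Real.log_le_log (by positivity) h1
    rw [Real.log_pow] at h2
    have h3 := Real.log_two_gt_d9
    have h4 : (0 : ℝ) ≤ Nat.log 2 X := Nat.cast_nonneg _
    push_cast
    nlinarith

theorem swap_Xi {F : ℕ → ℕ → ℝ} (hF : ∀ m r, 0 ≤ F m r) (X : ℕ) :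
    ∑ Q ∈ Icc 1 X, ∑ m ∈ Q.divisors, ∑ r ∈ (Q / m).divisors.erase 1, F m r ≤
      ∑ m ∈ Icc 1 X, (X : ℝ) * (m : ℝ)⁻¹ * ∑ r ∈ Icc 2 X, F m r / r := by
  have h0 : ∀ Q m r, 0 ≤ if m * r ∣ Q then F m r else 0 := fun Q m r => by
    split_ifs
    exacts [hF m r, le_rfl]
  have h1 : ∀ Q ∈ Icc 1 X, ∑ m ∈ Q.divisors, ∑ r ∈ (Q / m).divisors.erase 1, F m r ≤
      ∑ m ∈ Icc 1 X, ∑ r ∈ Icc 2 X, if m * r ∣ Q then F m r else 0 := fun Q hQ => by
    rw [mem_Icc] at hQ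
    refine le_trans (sum_le_sum fun m hm => ?_) (sum_le_sum_of_subset_of_nonneg (fun m hm => ?_)
      fun m _ _ => sum_nonneg fun r _ => h0 Q m r)
    · rw [← sum_filter]
      refine sum_le_sum_of_subset_of_nonneg (fun r hr => ?_) fun r _ _ => hF m r
      rw [mem_erase] at hr
      have h2 := Nat.pos_of_mem_divisors hr.2
      have h3 := Nat.divisor_le hr.2
      have h4 := Nat.div_le_self Q m
      exact mem_filter.2 ⟨mem_Icc.2 ⟨by omega, by omega⟩, Nat.mul_dvd_of_dvd_div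
        (Nat.dvd_of_mem_divisors hm) (Nat.dvd_of_mem_divisors hr.2)⟩
    · exact mem_Icc.2 ⟨Nat.pos_of_mem_divisors hm, (Nat.divisor_le hm).trans hQ.2⟩
  refine (sum_le_sum h1).trans ?_
  rw [sum_comm]
  refine sum_le_sum fun m _ => ?_
  rw [sum_comm, mul_sum]
  refine sum_le_sum fun r _ => ?_
  rw [← sum_filter, sum_const, nsmul_eq_mul, show Icc 1 X = Ioc 0 X from rfl,
    Nat.Ioc_filter_dvd_card_eq_div]
  refine (mul_le_mul_of_nonneg_right Nat.cast_div_le (hF m r)).trans (le_of_eq ?_)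
  push_cast
  ring

theorem xi_stmt (hD : DyStmt) : XiStmt := by
  obtain ⟨c, hc, hD⟩ := hD
  refine ⟨2 * c, by positivity, fun J C X κ Y Δ hC hX hY hJ hκ hXY hΔ => ?_⟩
  have hC' : (1 : ℝ) ≤ C := by exact_mod_cast hC
  have hY0 : 0 < Y := by linarith
  obtain ⟨d, hd⟩ : ∃ d : ℝ, d = J / (Y ^ 2 * C) := ⟨_, rfl⟩
  have e1 : (J : ℝ) = d * (Y ^ 2 * C) := by rw [hd]; field_simp
  have h1 : Y ^ 4 * C ≤ d := by
    rw [hd, le_div_iff₀ (by positivity)]
    linarith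
  have h2 : Y ^ 4 ≤ d := (le_mul_of_one_le_right (by positivity) hC').trans h1
  have h3 : 1 ≤ d := (one_le_pow₀ hY).trans h2
  have hJ1 : 1 ≤ J := by
    have : (1 : ℝ) ≤ J := (one_le_mul_of_one_le_of_one_le (one_le_pow₀ hY) (one_le_pow₀ hC')).trans hJ
    exact_mod_cast this
  have e2 : √d ^ 2 = d := Real.sq_sqrt (by linarith)
  have e3 : lamv J C Y ^ 2 = √d ^ 2 * J := by
    rw [lamv, e2, div_pow, mul_pow, Real.sq_sqrt (by positivity), hd]
    ring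
  have h4 : (J : ℝ) ≤ √d ^ 4 := by
    rw [show 4 = 2 * 2 from rfl, pow_mul, e2, e1, sq d]
    refine mul_le_mul_of_nonneg_left (le_trans ?_ h1) (by linarith)
    gcongr
    norm_num
  have h5 : (J : ℝ) ^ 3 ≤ √d ^ 10 * (C / Y) ^ 2 := by
    have a1 : (Y ^ 4 * C) ^ 2 ≤ d ^ 2 := by gcongr
    have a2 : Y ^ 8 * C ≤ (Y ^ 4 * C) ^ 2 := by
      have := mul_le_mul_of_nonneg_left hC' (show 0 ≤ Y ^ 8 * C by positivity)
      linarith
    have a3 := mul_le_mul_of_nonneg_left (a2.trans a1) (show 0 ≤ d ^ 3 * C ^ 2 by positivity)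
    rw [show 10 = 2 * 5 from rfl, pow_mul, e2, e1, div_pow, ← mul_div_assoc,
      le_div_iff₀ (by positivity)]
    linarith
  have h6 : 2 * (X : ℝ) ≤ C / Y * √d ^ (2 * κ) := by
    refine hXY.trans ?_
    rw [pow_mul, e2, div_mul_eq_mul_div, le_div_iff₀ hY0, ← pow_succ,
      show 4 * κ - 1 + 1 = 4 * κ by omega, pow_mul]
    exact (pow_le_pow_left₀ (by positivity) h2 κ).trans
      (le_mul_of_one_le_left (by positivity) hC')
  have hl : 0 ≤ 1 + Real.log X := by have := Real.log_natCast_nonneg X; linarith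
  have hΔ0 : 0 ≤ Δ := zero_le_one.trans hΔ.1
  have h7 : ∀ m ∈ Icc 1 X, (X : ℝ) * (m : ℝ)⁻¹ * ∑ r ∈ Icc 2 X, Bad J (lamv J C Y) m r / r ≤
      X * (c * Δ ^ κ * lamv J C Y ^ 2 * (C / Y) * (2 * (1 + Real.log X))) * (m : ℝ)⁻¹ := by
    intro m hm
    rw [mul_right_comm]
    refine mul_le_mul_of_nonneg_right (mul_le_mul_of_nonneg_left (dyad_Xi hX
      (Bad_nonneg _ _ m) fun R hR hRX => ?_) X.cast_nonneg) (by positivity)
    rw [mul_right_comm]
    refine hD J m R κ _ (√d) _ Δ hJ1 (mem_Icc.1 hm).1 hR (Real.one_le_sqrt.2 h3) (by positivity)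
      e3 h4 h5 hκ (le_trans ?_ h6) hΔ
    gcongr
  have h8 : ∑ m ∈ Icc 1 X, (m : ℝ)⁻¹ ≤ 1 + Real.log X := by
    have := harmonic_le_one_add_log X
    rwa [harmonic_eq_sum_Icc, Rat.cast_sum, sum_congr rfl fun m _ => Rat.cast_inv _] at this
  refine (swap_Xi (Bad_nonneg J _) X).trans ((sum_le_sum h7).trans ?_)
  rw [← mul_sum]
  exact (mul_le_mul_of_nonneg_left h8 (by positivity)).trans (le_of_eq (by ring))

end Pool.Agent.MP_2a1f0e_nt.RF
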