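import Pool.Agent.MP_2a1f0e_nt.GM.Main
import Pool.Agent.MP_2a1f0e_nt.RF.Char
import Pool.Agent.MP_2a1f0e_nt.RF.Block
import Pool.Agent.MP_2a1f0e_nt.RF.Bij
import Pool.Agent.MP_2a1f0e_nt.RF.SS
import Pool.Agent.MP_2a1f0e_nt.RF.Xi
import Pool.Agent.MP_2a1f0e_nt.RF.Hp
import Pool.Agent.MP_2a1f0e_nt.RF.LS0
import Pool.Agent.MP_2a1f0e_nt.RF.Peak
import Pool.Agent.MP_2a1f0e_nt.RF.SideA
import Pool.Agent.MP_2a1f0e_nt.RF.SideB
import Pool.Agent.MP_2a1f0e_nt.RF.Refl
import Pool.Agent.MP_2a1f0e_nt.RF.Prs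
import Pool.Agent.MP_2a1f0e_nt.RF.EdgeMult
import Pool.Agent.MP_2a1f0e_nt.RF.Lqk
import Pool.Agent.MP_2a1f0e_nt.RF.Core
import Pool.Agent.MP_2a1f0e_nt.RF.Big
import Pool.Agent.MP_2a1f0e_nt.RF.Count
import Pool.Agent.MP_2a1f0e_nt.RF.Dy
import Pool.Agent.MP_2a1f0e_nt.RF.Abs
import Pool.Agent.MP_2a1f0e_nt.RF.Prim
import Pool.Agent.MP_2a1f0e_nt.RF.Prin
import Pool.Agent.MP_2a1f0e_nt.RF.Orth
import Pool.Agent.MP_2a1f0e_nt.RF.Exp2
import Pool.Agent.MP_2a1f0e_nt.RF.Fib
import Pool.Agent.MP_2a1f0e_nt.RF.Red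
import Pool.Agent.MP_2a1f0e_nt.RF.Geo
import Pool.Agent.MP_2a1f0e_nt.RF.Om
import Pool.Agent.MP_2a1f0e_nt.RF.Edge
import Pool.Agent.MP_2a1f0e_nt.RF.SY
import Pool.Agent.MP_2a1f0e_nt.RF.Side
import Pool.Agent.MP_2a1f0e_nt.RF.MultEq
import Pool.Agent.MP_2a1f0e_nt.RF.Mult
import Pool.Agent.MP_2a1f0e_nt.RF.Mult0
import Pool.Agent.MP_2a1f0e_nt.RF.LS
import Pool.Agent.MP_2a1f0e_nt.RF.Pert
import Pool.Agent.MP_2a1f0e_nt.RF.Mom
import Pool.Agent.MP_2a1f0e_nt.RF.Maj
import Pool.Agent.MP_2a1f0e_nt.RF.Lq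
import Pool.Agent.MP_2a1f0e_nt.RF.LV
import Pool.Agent.MP_2a1f0e_nt.RF.End
import Pool.Agent.MP_2a1f0e_nt.RF.Start
import Pool.Agent.MP_2a1f0e_nt.RF.Ker
import Pool.Agent.MP_2a1f0e_nt.RF.Kp
import Pool.Agent.MP_2a1f0e_nt.RF.Farey
import Pool.Agent.MP_2a1f0e_nt.RF.Triv
import Pool.Agent.MP_2a1f0e_nt.RF.Sel
import Pool.Agent.MP_2a1f0e_nt.RF.Step
import Pool.Agent.MP_2a1f0e_nt.RF.Iter
import Pool.Agent.MP_2a1f0e_nt.RF.Grow
import Pool.Agent.MP_2a1f0e_nt.RF.MV
import Pool.Agent.MP_2a1f0e_nt.RF.Mass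

set_option autoImplicit false

namespace Pool.Agent.MP_2a1f0e_nt.RF

open GM

theorem orth_all : OrthStmt :=
  orth_stmt

theorem exp_all : ExpStmt :=
  exp2_stmt

theorem prim_all : PrimStmt :=
  prim_stmt

theorem fib_all : FibStmt :=
  fib_stmt

theorem block_all : BlockStmt :=
  block_stmt orth_all exp_all prim_all fib_all

theorem red_all : RedStmt :=
  red_stmt

theorem count_all : CountStmt :=
  count_stmt

theorem prin_all : PrinStmt :=
  prin_stmt

theorem char_all : CharStmt :=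
  char_stmt block_all red_all count_all prin_all

theorem om_all : OmStmt :=
  om_stmt

theorem geo_all : GeoStmt :=
  geo_stmt

theorem bij_all : BijStmt :=
  bij_stmt om_all geo_all

theorem kp_all : KpStmt :=
  kp_stmt

theorem ls_all : LSStmt :=
  ls_stmt kp_all

theorem farey_all : FareyStmt :=
  farey_stmt

theorem multEq_all : MultEqStmt :=
  multEq_stmt farey_all

theorem mult_all : MultStmt :=
  mult_stmt multEq_all

theorem edgeMult_all : EdgeMultStmt :=
  edgeMult_stmt mult_all geo_all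

theorem sideA_all : SideAStmt :=
  sideA_stmt char_all ls_all edgeMult_all count_all

theorem sideB_all : SideBStmt :=
  sideB_stmt ls_all edgeMult_all geo_all

theorem side_all : SideStmt :=
  side_stmt sideA_all sideB_all

theorem peak_all : PeakStmt :=
  peak_stmt ls_all mult_all count_all

theorem ss_all : SSStmt :=
  ss_stmt side_all peak_all om_all

theorem ls0_all : LS0Stmt :=
  ls0_stmt ls_all farey_all

theorem mom_all : MomStmt :=
  mom_stmt ls0_all

theorem triv_all : TrivStmt :=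
  triv_stmt

theorem sel_all : SelStmt :=
  sel_stmt

theorem dy_all : DyStmt :=
  dy_stmt mom_all triv_all sel_all

theorem xi_all : XiStmt :=
  xi_stmt dy_all

theorem grow_all : GrowStmt :=
  grow_stmt

theorem hp_all : HpStmt :=
  hp_stmt xi_all grow_all

theorem pert_all : PertStmt :=
  pert_stmt ls_all

theorem refl_all : ReflStmt :=
  refl_stmt ls_all pert_all edgeMult_all geo_all

theorem prs_all : PrsStmt :=
  prs_stmt

theorem edge_all : EdgeStmt :=
  edge_stmt bij_all refl_all om_all geo_all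

theorem sy_all : SYStmt :=
  sy_stmt side_all peak_all om_all

theorem step_all : StepStmt :=
  step_stmt edge_all ss_all sy_all

theorem iter_all : IterStmt :=
  iter_stmt step_all

theorem start_all : StartStmt :=
  start_stmt

theorem mult0_all : Mult0Stmt :=
  mult0_stmt

theorem end_all : EndStmt :=
  end_stmt ls_all mult0_all

theorem abs_all : AbsStmt :=
  abs_stmt hp_all iter_all start_all end_all

theorem ker_all : KerStmt :=
  ker_stmt triang_stmt

theorem maj_all : MajStmt :=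
  maj_stmt kp_all

theorem big_all : BigStmt :=
  big_stmt ker_all prs_all maj_all

theorem mass_all : MassStmt :=
  mass_stmt b2_all blk_stmt

theorem mv_all : MVStmt :=
  mv_stmt

theorem core_all : CoreStmt :=
  core_stmt abs_all big_all mass_all mv_all

theorem lq_all : LqStmt :=
  lq_stmt core_all mass_all mv_all

theorem lqk_all : LqkStmt :=
  lqk_stmt lq_all

theorem lv_all : LVStmt :=
  lv_stmt core_all mass_all tay_stmt

end Pool.Agent.MP_2a1f0e_nt.RF
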