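import Pool.Agent.MP_2a1f0e_nt.RF.Defs

set_option autoImplicit false

open Finset
open scoped ComplexConjugate

namespace Pool.Agent.MP_2a1f0e_nt.RF

open GM

theorem divB_mono {X X' : ℕ} {Δ Δ' : ℝ} (h : DivB X Δ) (hX : X' ≤ X) (hΔ : Δ ≤ Δ') :
    DivB X' Δ' :=
  ⟨h.1.trans hΔ, fun n hn => (h.2 n (hn.trans hX)).trans hΔ⟩

theorem mem_IT {T : ℕ} {t : ℤ} : t ∈ IT T ↔ -(2 * T : ℤ) < t ∧ t < 2 * T := by
  simp [IT]

theorem mem_Win {N C K : ℕ} {p : ℕ × ℕ} : p ∈ Win N C K ↔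
    ((C ≤ p.1 ∧ p.1 < 2 * C) ∧ 1 ≤ p.2 ∧ p.2 ≤ 2 * K * N * C) ∧
      N * p.1 ≤ K * p.2 ∧ p.2 ≤ K * N * p.1 := by
  simp [Win]

theorem mem_Fam {N C K : ℕ} {e : (ℕ × ℕ) × ℕ} :
    e ∈ Fam N C K ↔ e.1 ∈ Win N C K ∧ N ≤ e.2 ∧ e.2 ≤ 2 * N := by
  simp [Fam]

theorem mem_Edg {N J C C' K : ℕ} {e : ED} : e ∈ Edg N J C C' K ↔
    (e.p ∈ Win N C K ∧ (C' ≤ e.c ∧ e.c < 2 * C') ∧ (N ≤ e.x ∧ e.x ≤ 2 * N) ∧
      (N ≤ e.z ∧ e.z ≤ 2 * N) ∧ 1 ≤ e.j ∧ e.j ≤ J) ∧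
      e.p.2 ∣ e.p.1 * e.c * e.x * e.z + e.j := by
  simp only [Edg, mem_filter, mem_product, mem_Ico, mem_Icc]
  rfl

theorem Win_mono {N C K K' : ℕ} (h : K ≤ K') : Win N C K ⊆ Win N C K' := by
  intro p hp
  rw [mem_Win] at hp ⊢
  refine ⟨⟨hp.1.1, hp.1.2.1, hp.1.2.2.trans ?_⟩, hp.2.1.trans ?_, hp.2.2.trans ?_⟩ <;> gcongr

theorem conj_fu (T : ℕ) (g : ℤ → ℝ) (u : ℝ) : conj (fu T g u) = fu T g (-u) := by
  unfold fu trig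
  rw [map_sum]
  refine sum_congr rfl fun t _ => ?_
  rw [map_mul, Complex.conj_ofReal, ← Complex.exp_conj]
  congr 2
  simp only [map_mul, Complex.conj_I, Complex.conj_ofReal, map_intCast]
  push_cast
  ring

theorem norm_fu_neg (T : ℕ) (g : ℤ → ℝ) (u : ℝ) : ‖fu T g (-u)‖ = ‖fu T g u‖ := by
  rw [← conj_fu, Complex.norm_conj]

theorem trig_per (T : ℕ) (a : ℤ → ℂ) (u : ℝ) (k : ℤ) :
    trig T a (u - 2 * Real.pi * k) = trig T a u := by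
  unfold trig
  refine sum_congr rfl fun t _ => ?_
  congr 1
  rw [Complex.exp_eq_exp_iff_exists_int]
  refine ⟨-(t * k), ?_⟩
  push_cast
  ring

theorem sum_sq_fu (T : ℕ) (g : ℤ → ℝ) :
    ∑ t ∈ IT T, ‖((g t : ℝ) : ℂ)‖ ^ 2 = ∑ t ∈ IT T, g t ^ 2 := by
  simp

theorem norm_av_le {T : ℕ} {g : ℤ → ℝ} {b : ℕ → ℂ} (hb : ∀ n, ‖b n‖ ≤ 1) (p : ℕ × ℕ) (x : ℕ) :
    ‖av T g b p x‖ ≤ ‖fu T g (pt p x)‖ := by
  unfold av
  rw [norm_mul]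
  exact mul_le_of_le_one_left (norm_nonneg _) (hb x)

theorem uP_eq (N T J : ℕ) (g : ℤ → ℝ) (b : ℕ → ℂ) (p : ℕ × ℕ) :
    uP N T g b p = uO N T J g b p + uK N T J g b p := by
  unfold uP uO uK aO
  rw [← sum_add_distrib]
  refine sum_congr rfl fun x _ => ?_
  by_cases h : gx p x ≤ J
  · simp [h, not_lt.2 h]
  · simp [h, not_le.1 h]

theorem aO_eq (T J : ℕ) (g : ℤ → ℝ) (U : ℝ) (b : ℕ → ℂ) (p : ℕ × ℕ) (x : ℕ) :
    aO T J g b p x = aS T J g U b p x + aB T J g U b p x := by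
  unfold aO aS aB
  by_cases h : gx p x ≤ J
  · by_cases h' : ‖fu T g (pt p x)‖ ≤ U
    · simp [h, h', not_lt.2 h']
    · simp [h, h', not_le.1 h']
  · simp [h]

/-- a sum over the edges, fibred over the outer point -/
theorem sum_Edg {M : Type*} [AddCommMonoid M] (N J C C' K : ℕ) (F : ℕ × ℕ → ℕ → ℕ → ℕ → M) :
    ∑ e ∈ Edg N J C C' K, F e.p e.c e.x e.z =
      ∑ p ∈ Win N C K, ∑ c' ∈ Ico C' (2 * C'), ∑ x ∈ Icc N (2 * N), ∑ z ∈ Icc N (2 * N),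
        cnt J p.2 (p.1 * c' * x * z) • F p c' x z := by
  unfold Edg
  rw [sum_filter, sum_product]
  refine sum_congr rfl fun p _ => ?_
  rw [sum_product]
  refine sum_congr rfl fun c' _ => ?_
  rw [sum_product]
  refine sum_congr rfl fun x _ => ?_
  rw [sum_product]
  refine sum_congr rfl fun z _ => ?_
  rw [cnt, ← sum_const, sum_filter]
  rfl

theorem Err_comm (N J C C' : ℕ) (Y MM : ℝ) : Err N J C' C Y MM = Err N J C C' Y MM := by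
  unfold Err
  ring

theorem Hg.MM0 {N T : ℕ} {g : ℤ → ℝ} {E Y MM : ℝ} (h : Hg N T g E Y MM) : 0 ≤ MM :=
  (sum_nonneg fun _ _ => sq_nonneg _).trans h.sq

theorem Err_nonneg {N J C C' : ℕ} {Y MM : ℝ} (hY : 0 ≤ Y) (hM : 0 ≤ MM) :
    0 ≤ Err N J C C' Y MM := by
  unfold Err
  positivity

theorem Bad_nonneg (J : ℕ) (lam : ℝ) (m r : ℕ) : 0 ≤ Bad J lam m r :=
  sum_nonneg fun _ _ => by split_ifs <;> positivity

theorem BadQ_nonneg (J : ℕ) (lam : ℝ) (Q : ℕ) : 0 ≤ BadQ J lam Q :=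
  sum_nonneg fun _ _ => sum_nonneg fun _ _ => Bad_nonneg _ _ _ _

theorem mem_prim {r : ℕ} {χ : DirichletCharacter ℂ r} : χ ∈ prim r ↔ χ.IsPrimitive := by
  simp [prim]

theorem Th.mono {N T : ℕ} {g : ℤ → ℝ} {C K : ℕ} {Z Z' : ℝ} (h : Th N T g C K Z) (hZ : Z ≤ Z') :
    Th N T g C K Z' := fun b hb => (h b hb).trans (by gcongr)

theorem BigP.mono {T : ℕ} {g : ℤ → ℝ} {U U' B B' : ℝ} (h : BigP T g U B) (hU : U ≤ U')
    (hB : B ≤ B') : BigP T g U' B' := fun ι s u μ hc hs =>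
  (h ι s u μ hc fun i hi => hU.trans_lt (hs i hi)).trans
    (mul_le_mul_of_nonneg_right hB hc.nonneg)

end Pool.Agent.MP_2a1f0e_nt.RF
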