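import Pool.Agent.MP_2a1f0e_nt.GM.Basic

/-!
Reflection method for large values of Dirichlet polynomials: definitions and statements.
A point `p = (c, Q)` stands for the rational number `y = Q / c`.
-/

set_option autoImplicit false

open Finset
open scoped ComplexConjugate

namespace Pool.Agent.MP_2a1f0e_nt.RF

open GM

/-! ### Analytic side -/

/-- integers `|t| < 2T` -/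
noncomputable def IT (T : ℕ) : Finset ℤ := Ioo (-(2 * T : ℤ)) (2 * T)

noncomputable def trig (T : ℕ) (a : ℤ → ℂ) (u : ℝ) : ℂ :=
  ∑ t ∈ IT T, a t * Complex.exp (Complex.I * (t : ℂ) * (u : ℂ))

/-- `f(e^u)` for the weight `g` -/
noncomputable def fu (T : ℕ) (g : ℤ → ℝ) (u : ℝ) : ℂ := trig T (fun t => (g t : ℂ)) u

/-- every arc of length `1/T` of the circle `ℝ / 2πℤ` holds at most `μ` points of the family -/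
def CM {ι : Type} (s : Finset ι) (u : ι → ℝ) (T : ℕ) (μ : ℝ) : Prop :=
  ∀ (l : ℝ) (s' : Finset ι), s' ⊆ s →
    (∀ i ∈ s', ∃ k : ℤ, l ≤ u i - 2 * Real.pi * k ∧ u i - 2 * Real.pi * k ≤ l + 1 / T) →
    (s'.card : ℝ) ≤ μ

/-- pairs `(c, Q)` with `C ≤ c < 2C` and `N / K ≤ Q / c ≤ K N` -/
def Win (N C K : ℕ) : Finset (ℕ × ℕ) :=
  (Ico C (2 * C) ×ˢ Icc 1 (2 * K * N * C)).filter fun p => N * p.1 ≤ K * p.2 ∧ p.2 ≤ K * N * p.1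

def Fam (N C K : ℕ) : Finset ((ℕ × ℕ) × ℕ) := Win N C K ×ˢ Icc N (2 * N)

/-- `log (x / y)` -/
noncomputable def pt (p : ℕ × ℕ) (x : ℕ) : ℝ := Real.log (((p.1 * x : ℕ) : ℝ) / (p.2 : ℝ))

def gx (p : ℕ × ℕ) (x : ℕ) : ℕ := Nat.gcd (p.1 * x) p.2

/-- `a_y(x) = b_x f(x / y)` -/
noncomputable def av (T : ℕ) (g : ℤ → ℝ) (b : ℕ → ℂ) (p : ℕ × ℕ) (x : ℕ) : ℂ :=
  b x * fu T g (pt p x)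

/-- non-peak part -/
noncomputable def aO (T J : ℕ) (g : ℤ → ℝ) (b : ℕ → ℂ) (p : ℕ × ℕ) (x : ℕ) : ℂ :=
  if gx p x ≤ J then av T g b p x else 0

/-- non-peak part with small values of `f` -/
noncomputable def aS (T J : ℕ) (g : ℤ → ℝ) (U : ℝ) (b : ℕ → ℂ) (p : ℕ × ℕ) (x : ℕ) : ℂ :=
  if gx p x ≤ J ∧ ‖fu T g (pt p x)‖ ≤ U then av T g b p x else 0

/-- non-peak part with big values of `f` -/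
noncomputable def aB (T J : ℕ) (g : ℤ → ℝ) (U : ℝ) (b : ℕ → ℂ) (p : ℕ × ℕ) (x : ℕ) : ℂ :=
  if gx p x ≤ J ∧ U < ‖fu T g (pt p x)‖ then av T g b p x else 0

noncomputable def uP (N T : ℕ) (g : ℤ → ℝ) (b : ℕ → ℂ) (p : ℕ × ℕ) : ℂ :=
  ∑ x ∈ Icc N (2 * N), av T g b p x

noncomputable def uO (N T J : ℕ) (g : ℤ → ℝ) (b : ℕ → ℂ) (p : ℕ × ℕ) : ℂ :=
  ∑ x ∈ Icc N (2 * N), aO T J g b p x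

noncomputable def uK (N T J : ℕ) (g : ℤ → ℝ) (b : ℕ → ℂ) (p : ℕ × ℕ) : ℂ :=
  ∑ x ∈ Icc N (2 * N), if J < gx p x then av T g b p x else 0

/-- the mean of `|u_b(y)|^2` over the window is at most `Z`, for all bounded `b` -/
def Th (N T : ℕ) (g : ℤ → ℝ) (C K : ℕ) (Z : ℝ) : Prop :=
  ∀ b : ℕ → ℂ, (∀ n, ‖b n‖ ≤ 1) →
    ∑ p ∈ Win N C K, ‖uP N T g b p‖ ^ 2 ≤ Z * N * (C : ℝ) ^ 2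

/-- values of `f` above `U` have small mean square on every family -/
def BigP (T : ℕ) (g : ℤ → ℝ) (U B : ℝ) : Prop :=
  ∀ (ι : Type) (s : Finset ι) (u : ι → ℝ) (μ : ℝ), CM s u T μ →
    (∀ i ∈ s, U < ‖fu T g (u i)‖) → ∑ i ∈ s, ‖fu T g (u i)‖ ^ 2 ≤ B * μ

/-- the truncated weight -/
noncomputable def gw (N T : ℕ) (b : ℕ → ℂ) (V : ℝ) (t : ℤ) : ℝ :=
  (2 * (T : ℝ) - |(t : ℝ)|) / (2 * T) * (if ‖DP N b t‖ < V then ‖DP N b t‖ ^ 2 else 0)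

/-- reduced fractions `a / q` in `[1/2, 2]` with `q ≤ 2T/N`, as pairs `(a, q)` -/
def FR (N T : ℕ) : Finset (ℕ × ℕ) :=
  (Icc 1 (4 * T / N) ×ˢ Icc 1 (2 * T / N)).filter fun r =>
    Nat.Coprime r.1 r.2 ∧ r.1 ≤ 2 * r.2 ∧ r.2 ≤ 2 * r.1

noncomputable def maj (N T : ℕ) (u : ℝ) : ℝ :=
  ∑ r ∈ FR N T, (N : ℝ) / r.2 * kp (T * (u + Real.log r.2 - Real.log r.1))

/-! ### Arithmetic side -/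

def cnt (J Q n : ℕ) : ℕ := ((Icc 1 J).filter fun j => Q ∣ n + j).card

/-- number of `1 ≤ j ≤ L` coprime to `q` -/
def cop (L q : ℕ) : ℕ := ((Icc 1 L).filter fun j => Nat.Coprime j q).card

noncomputable def Sc (r : ℕ) (χ : DirichletCharacter ℂ r) (L : ℕ) : ℂ :=
  ∑ j ∈ Icc 1 L, χ (j : ZMod r)

open Classical in
noncomputable def prim (r : ℕ) : Finset (DirichletCharacter ℂ r) :=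
  univ.filter fun χ => χ.IsPrimitive

noncomputable def Bad (J : ℕ) (lam : ℝ) (m r : ℕ) : ℝ :=
  ∑ χ ∈ prim r,
    if lam ^ 2 < m * ‖Sc r χ (J / m)‖ ^ 2 then m * ‖Sc r χ (J / m)‖ ^ 2 else 0

noncomputable def BadQ (J : ℕ) (lam : ℝ) (Q : ℕ) : ℝ :=
  ∑ m ∈ Q.divisors, ∑ r ∈ (Q / m).divisors.erase 1, Bad J lam m r

/-- the centred bilinear form of the modulus `p.2` -/
noncomputable def Bil (N J C' : ℕ) (p : ℕ × ℕ) (α β : ℕ → ℂ) : ℂ :=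
  ∑ c' ∈ Ico C' (2 * C'), ∑ x ∈ Icc N (2 * N), ∑ z ∈ Icc N (2 * N),
    (((cnt J p.2 (p.1 * c' * x * z) : ℝ) - (J : ℝ) / p.2 : ℝ) : ℂ) * (α x * conj (β z))

/-- the sum over the edges at `p` -/
noncomputable def Bp (N T J C' : ℕ) (g : ℤ → ℝ) (b b' : ℕ → ℂ) (p : ℕ × ℕ) : ℂ :=
  ∑ c' ∈ Ico C' (2 * C'), ∑ x ∈ Icc N (2 * N), ∑ z ∈ Icc N (2 * N),
    (cnt J p.2 (p.1 * c' * x * z) : ℂ) * (av T g b p x * conj (av T g b' p z))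

/-- an edge `(p, c', x, z, j)` -/
abbrev ED : Type := (ℕ × ℕ) × ℕ × ℕ × ℕ × ℕ

def ED.p (e : ED) : ℕ × ℕ := e.1
def ED.c (e : ED) : ℕ := e.2.1
def ED.x (e : ED) : ℕ := e.2.2.1
def ED.z (e : ED) : ℕ := e.2.2.2.1
def ED.j (e : ED) : ℕ := e.2.2.2.2

/-- the reflected point -/
def ED.r (e : ED) : ℕ × ℕ := (e.c, (e.p.1 * e.c * e.x * e.z + e.j) / e.p.2)

def Edg (N J C C' K : ℕ) : Finset ED :=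
  (Win N C K ×ˢ Ico C' (2 * C') ×ˢ Icc N (2 * N) ×ˢ Icc N (2 * N) ×ˢ Icc 1 J).filter
    fun e : ED => e.p.2 ∣ e.p.1 * e.c * e.x * e.z + e.j

/-! ### The window weight -/

noncomputable def uu (P : ℕ) (x : ℝ) : ℤ := ⌊(P : ℝ) * Real.log x⌋

noncomputable def BB (N P K : ℕ) : Finset ℤ :=
  Icc (-uu P ((K : ℝ) * N)) (2 * P - uu P ((N : ℝ) / K))

noncomputable def Om (N P K : ℕ) (n : ℤ) : ℝ :=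
  (((range P ×ˢ range P).filter fun a => ((a.1 : ℤ) + a.2 - n) ∈ BB N P K).card : ℝ) / (P : ℝ) ^ 2

noncomputable def yv (p : ℕ × ℕ) : ℝ := (p.2 : ℝ) / (p.1 : ℝ)

noncomputable def Lam (N P : ℕ) : Finset ℤ := Icc (uu P N - P) (uu P (2 * N))

/-- `b` restricted to a multiplicative window -/
noncomputable def bI (P : ℕ) (b : ℕ → ℂ) (i : ℤ) (x : ℕ) : ℂ :=
  if i ≤ uu P x ∧ uu P x < i + P then b x else 0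

/-- the edge sum seen from `y` -/
noncomputable def SY (N T J C C' K P : ℕ) (g : ℤ → ℝ) (b : ℕ → ℂ) : ℂ :=
  ∑ p ∈ Win N C (25 * K), (Om N P K (uu P (yv p)) : ℂ) * Bp N T J C' g b b p

/-- the edge sum seen from `s` -/
noncomputable def SS (N T J C C' K P : ℕ) (g : ℤ → ℝ) (b : ℕ → ℂ) : ℂ :=
  ∑ e ∈ Edg N J C' C (200 * K), (Om N P K (uu P e.x + uu P e.z - uu P (yv e.p)) : ℂ) *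
    (av T g b e.p e.x * conj (av T g b e.p e.z))

/-! ### Hypotheses -/

noncomputable def lamv (J C : ℕ) (Y : ℝ) : ℝ := (J : ℝ) / (Y * √(C : ℝ))

def XiB (J C X : ℕ) (E Y : ℝ) : Prop :=
  ∑ Q ∈ Icc 1 X, BadQ J (lamv J C Y) Q ≤ E * X * lamv J C Y ^ 2 * (C / Y)

structure Hp (N T J C C' K : ℕ) (E Y : ℝ) : Prop where
  N1 : 1 ≤ N
  NT : N ≤ T
  TN : T ≤ N ^ 2
  C1 : 1 ≤ C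
  C1' : 1 ≤ C'
  K1 : 1 ≤ K
  J1 : 1 ≤ J
  Y1 : 1 ≤ Y
  KE : 200 * (K : ℝ) ≤ E
  CE : (C' : ℝ) ≤ E * C
  CE' : (C : ℝ) ≤ E * C'
  JU : (J : ℝ) * T * Y ≤ C * C' * (N : ℝ) ^ 2
  JL : Y ^ 6 * (C : ℝ) ^ 2 ≤ J
  JL' : Y ^ 6 * (C' : ℝ) ^ 2 ≤ J
  HY : (T : ℝ) * Y ^ 7 ≤ (N : ℝ) ^ 2
  dv : DivB (400 * K * N * (C + C')) E
  lg : 1 + Real.log ((400 * K * N * (C + C') : ℕ) : ℝ) ≤ E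
  xi : XiB J C (400 * K * N * (C + C')) E Y
  xi' : XiB J C' (400 * K * N * (C + C')) E Y

structure Hg (N T : ℕ) (g : ℤ → ℝ) (E Y MM : ℝ) : Prop where
  sq : ∑ t ∈ IT T, g t ^ 2 ≤ MM
  big : BigP T g (E * (N : ℝ) ^ 2) (E * (T : ℝ) ^ 2 * (N : ℝ) ^ 2)
  low : (N : ℝ) ^ 4 ≤ Y * MM

theorem Hp.symm {N T J C C' K : ℕ} {E Y : ℝ} (h : Hp N T J C C' K E Y) :
    Hp N T J C' C K E Y where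
  N1 := h.N1
  NT := h.NT
  TN := h.TN
  C1 := h.C1'
  C1' := h.C1
  K1 := h.K1
  J1 := h.J1
  Y1 := h.Y1
  KE := h.KE
  CE := h.CE'
  CE' := h.CE
  JU := by have := h.JU; linarith
  JL := h.JL'
  JL' := h.JL
  HY := h.HY
  dv := by rw [add_comm C' C]; exact h.dv
  lg := by rw [add_comm C' C]; exact h.lg
  xi := by rw [add_comm C' C]; exact h.xi'
  xi' := by rw [add_comm C' C]; exact h.xi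

theorem Hp.E1 {N T J C C' K : ℕ} {E Y : ℝ} (h : Hp N T J C C' K E Y) : 1 ≤ E := h.dv.1

theorem CM.mono {ι : Type} {s s' : Finset ι} {u : ι → ℝ} {T : ℕ} {μ μ' : ℝ} (h : CM s u T μ)
    (hs : s' ⊆ s) (hμ : μ ≤ μ') : CM s' u T μ' :=
  fun l t ht hl => (h l t (ht.trans hs) hl).trans hμ

theorem CM.nonneg {ι : Type} {s : Finset ι} {u : ι → ℝ} {T : ℕ} {μ : ℝ} (h : CM s u T μ) :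
    0 ≤ μ := by
  simpa using h 0 ∅ (empty_subset _) (by simp)

/-! ### Statements: large sieve and multiplicities -/

def KpStmt : Prop := ∃ c : ℝ, 0 < c ∧ ∀ (ι : Type) (s : Finset ι) (u : ι → ℝ) (T : ℕ) (μ v : ℝ),
  1 ≤ T → CM s u T μ → ∑ i ∈ s, kp (T * (u i - v)) ≤ c * μ

def LSStmt : Prop := ∃ c : ℝ, 0 < c ∧ ∀ (ι : Type) (s : Finset ι) (u : ι → ℝ) (T : ℕ) (μ : ℝ),
  1 ≤ T → CM s u T μ → ∀ a : ℤ → ℂ,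
    ∑ i ∈ s, ‖trig T a (u i)‖ ^ 2 ≤ c * μ * T * ∑ t ∈ IT T, ‖a t‖ ^ 2

def PertStmt : Prop := ∃ c : ℝ, 0 < c ∧
  ∀ (ι : Type) (s : Finset ι) (u θ : ι → ℝ) (T : ℕ) (μ θ₀ : ℝ),
    1 ≤ T → CM s u T μ → T * θ₀ ≤ 1 → (∀ i ∈ s, |θ i| ≤ θ₀) → ∀ a : ℤ → ℂ,
      ∑ i ∈ s, ‖trig T a (u i + θ i) - trig T a (u i)‖ ^ 2 ≤
        c * μ * T * (T * θ₀) ^ 2 * ∑ t ∈ IT T, ‖a t‖ ^ 2

def FareyStmt : Prop := ∀ (s : Finset (ℕ × ℕ)) (q₀ α w : ℝ), 0 ≤ w →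
  (∀ r ∈ s, Nat.Coprime r.1 r.2 ∧ 1 ≤ r.2 ∧ (r.2 : ℝ) ≤ q₀ ∧ α ≤ (r.1 : ℝ) / r.2 ∧
    (r.1 : ℝ) / r.2 ≤ α + w) → (s.card : ℝ) ≤ 1 + w * q₀ ^ 2

def MultEqStmt : Prop := ∀ (N C K d : ℕ) (Δ w l : ℝ), 1 ≤ N → 1 ≤ C → 1 ≤ K → 1 ≤ d →
  DivB (4 * N * C) Δ → 0 ≤ w → w ≤ 1 → ∀ s : Finset ((ℕ × ℕ) × ℕ), s ⊆ Fam N C K →
    (∀ e ∈ s, gx e.1 e.2 = d ∧ l ≤ pt e.1 e.2 ∧ pt e.1 e.2 ≤ l + w) →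
    (s.card : ℝ) ≤ Δ * (1 + 16 * (K : ℝ) ^ 3 * (N : ℝ) ^ 2 * (C : ℝ) ^ 2 * w / (d : ℝ) ^ 2)

def MultStmt : Prop := ∀ (N C K : ℕ) (Δ : ℝ), 1 ≤ N → 1 ≤ C → 1 ≤ K → DivB (4 * N * C) Δ →
  (∀ (G : ℕ) (w l : ℝ), 0 ≤ w → w ≤ 1 → ∀ s : Finset ((ℕ × ℕ) × ℕ), s ⊆ Fam N C K →
    (∀ e ∈ s, gx e.1 e.2 ≤ G ∧ l ≤ pt e.1 e.2 ∧ pt e.1 e.2 ≤ l + w) →
    (s.card : ℝ) ≤ Δ * (G + 32 * (K : ℝ) ^ 3 * (N : ℝ) ^ 2 * (C : ℝ) ^ 2 * w)) ∧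
  (∀ T d : ℕ, 1 ≤ T → 1 ≤ d →
    CM ((Fam N C K).filter fun e => gx e.1 e.2 = d) (fun e => pt e.1 e.2) T
      (3 * K * Δ * (1 + 16 * (K : ℝ) ^ 3 * (N : ℝ) ^ 2 * (C : ℝ) ^ 2 / (T * (d : ℝ) ^ 2)))) ∧
  (∀ T G : ℕ, 1 ≤ T →
    CM ((Fam N C K).filter fun e => gx e.1 e.2 ≤ G) (fun e => pt e.1 e.2) T
      (3 * K * Δ * (G + 32 * (K : ℝ) ^ 3 * (N : ℝ) ^ 2 * (C : ℝ) ^ 2 / T)))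

def Mult0Stmt : Prop := ∀ N C K T : ℕ, 1 ≤ N → 1 ≤ C → 1 ≤ K → 1 ≤ T →
  CM (Win N C K) (fun p => -Real.log (yv p)) T
    (3 * K * (2 * C + 16 * K * N * (C : ℝ) ^ 2 / T))

def EdgeMultStmt : Prop := ∃ c : ℝ, 0 < c ∧ ∀ (N T J C C' K W : ℕ) (E Y : ℝ),
  Hp N T J C C' K E Y → 1 ≤ W → W ≤ 200 * K →
    CM ((Fam N C W).filter fun e => gx e.1 e.2 ≤ J) (fun e => pt e.1 e.2) T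
      (c * E ^ 5 * ((C : ℝ) ^ 2 * (N : ℝ) ^ 2 / T)) ∧
    CM (Edg N J C C' W) (fun e => pt e.p e.x) T
      (c * E ^ 10 * J * ((C : ℝ) ^ 2 * (N : ℝ) ^ 2 / T)) ∧
    CM (Edg N J C C' W) (fun e => pt e.p e.z) T
      (c * E ^ 10 * J * ((C : ℝ) ^ 2 * (N : ℝ) ^ 2 / T))

/-! ### Statements: size of `f` -/

def KerStmt : Prop := ∃ c : ℝ, 0 < c ∧ ∀ (T : ℕ) (u : ℝ), 1 ≤ T → |u| ≤ 4 →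
  ‖fu T (fun t => (2 * (T : ℝ) - |(t : ℝ)|) / (2 * T)) u‖ ≤ c * T * kp (T * u)

def PrsStmt : Prop := ∃ c : ℝ, 0 < c ∧ ∀ (N T : ℕ) (u : ℝ), 1 ≤ N → N ≤ T → T ≤ N ^ 2 →
  ∑ x ∈ Icc N (2 * N), ∑ x' ∈ Icc N (2 * N),
      kp (T * (u + Real.log x - Real.log x')) ≤ c * ((N : ℝ) ^ 2 / T + maj N T u)

def MajStmt : Prop := ∃ c : ℝ, 0 < c ∧
  ∀ (N T : ℕ) (ι : Type) (s : Finset ι) (u : ι → ℝ) (μ : ℝ), 1 ≤ N → N ≤ T → T ≤ N ^ 2 →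
    CM s u T μ → ∑ i ∈ s, maj N T (u i) ^ 2 ≤ c * μ * (N : ℝ) ^ 2 * (1 + Real.log N)

def BigStmt : Prop := ∃ c : ℝ, 0 < c ∧ ∀ (N T : ℕ) (b : ℕ → ℂ) (V Ms : ℝ),
  1 ≤ N → N ≤ T → T ≤ N ^ 2 → (∀ n, ‖b n‖ ≤ 1) → Mass N b (IT T) V ≤ Ms →
    BigP T (gw N T b V) (c * (N : ℝ) ^ 2 + 2 * Ms)
      (c * (T : ℝ) ^ 2 * (N : ℝ) ^ 2 * (1 + Real.log N))

def StartStmt : Prop := ∀ (N T : ℕ) (g : ℤ → ℝ) (b : ℕ → ℂ), 1 ≤ N → (∀ n, ‖b n‖ ≤ 1) →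
  (∑ t ∈ IT T, g t * ‖DP N b t‖ ^ 2) ^ 2 ≤ 2 * N * ∑ p ∈ Win N 1 2, ‖uP N T g b p‖ ^ 2

def EndStmt : Prop := ∃ c : ℝ, 0 < c ∧ ∀ (N T C K : ℕ) (g : ℤ → ℝ) (U MM : ℝ),
  1 ≤ N → 1 ≤ T → 1 ≤ C → 1 ≤ K → T ≤ N * C → (∀ t ∈ IT T, 0 ≤ g t ∧ g t ≤ U) →
    (∀ b : ℕ → ℂ, (∀ n, ‖b n‖ ≤ 1) → ∑ t ∈ IT T, g t * ‖DP N b t‖ ^ 2 ≤ MM) →
    Th N T g C K (c * (K : ℝ) ^ 2 * U * MM)

def PeakStmt : Prop := ∃ c : ℝ, 0 < c ∧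
  ∀ (N T J C C' K W : ℕ) (E Y MM : ℝ) (g : ℤ → ℝ) (b : ℕ → ℂ),
    Hp N T J C C' K E Y → Hg N T g E Y MM → 1 ≤ W → W ≤ 200 * K → (∀ n, ‖b n‖ ≤ 1) →
      ∑ p ∈ Win N C W, ‖uK N T J g b p‖ ^ 2 ≤
        c * E ^ 8 * ((N : ℝ) ^ 3 * (C : ℝ) ^ 2 * MM / Y)

/-! ### Statements: characters -/

def LS0Stmt : Prop := ∃ c : ℝ, 0 < c ∧ ∀ (R L : ℕ) (a : ℕ → ℂ),
  ∑ r ∈ Icc 1 R, ∑ χ ∈ prim r, ‖∑ n ∈ Icc 1 L, a n * χ (n : ZMod r)‖ ^ 2 ≤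
    c * ((R : ℝ) ^ 2 + L) * ∑ n ∈ Icc 1 L, ‖a n‖ ^ 2

def MomStmt : Prop := ∃ c : ℝ, 0 < c ∧ ∀ (k R L : ℕ) (Δ : ℝ), 1 ≤ k → DivB (L ^ k) Δ →
  ∑ r ∈ Icc 1 R, ∑ χ ∈ prim r, ‖Sc r χ L‖ ^ (2 * k) ≤
    c * ((R : ℝ) ^ 2 + (L : ℝ) ^ k) * (Δ ^ k * (L : ℝ) ^ k)

def TrivStmt : Prop := ∀ (r L : ℕ), 2 ≤ r → ∀ χ ∈ prim r, ‖Sc r χ L‖ ≤ r

def SelStmt : Prop := ∀ (J L R D Y : ℝ) (κ : ℕ), 0 ≤ L → L ≤ J → 1 ≤ D → 0 < Y → 0 < R →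
  J ≤ D ^ 4 → J ^ 3 ≤ D ^ 10 * Y ^ 2 → 2 ≤ κ → R ≤ Y * D ^ (2 * κ) → D ^ 2 * L < R ^ 2 →
    ∃ k : ℕ, 2 ≤ k ∧ k ≤ κ ∧ R ≤ Y * D ^ (2 * k) ∧ L ^ k ≤ R * (Y * D ^ (2 * k))

def DyStmt : Prop := ∃ c : ℝ, 0 < c ∧ ∀ (J m R κ : ℕ) (lam D Y Δ : ℝ), 1 ≤ J → 1 ≤ m → 1 ≤ R →
  1 ≤ D → 0 < Y → lam ^ 2 = D ^ 2 * J → (J : ℝ) ≤ D ^ 4 → (J : ℝ) ^ 3 ≤ D ^ 10 * Y ^ 2 →
    2 ≤ κ → 2 * (R : ℝ) ≤ Y * D ^ (2 * κ) → DivB (J ^ κ) Δ →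
    ∑ r ∈ Ioc R (2 * R), Bad J lam m r ≤ c * Δ ^ κ * lam ^ 2 * R * Y

def XiStmt : Prop := ∃ c : ℝ, 0 < c ∧ ∀ (J C X κ : ℕ) (Y Δ : ℝ), 1 ≤ C → 1 ≤ X → 1 ≤ Y →
  Y ^ 6 * (C : ℝ) ^ 2 ≤ J → 2 ≤ κ → 2 * (X : ℝ) ≤ Y ^ (4 * κ - 1) → DivB (J ^ κ) Δ →
    XiB J C X (c * Δ ^ κ * (1 + Real.log X) ^ 2) Y

def OrthStmt : Prop := ∀ (q : ℕ) (ι : Type) (s : Finset ι) (ξ : ι → ℕ) (α : ι → ℂ) (m : ℝ),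
  1 ≤ q → (∀ s' : Finset ι, s' ⊆ s → (∀ i ∈ s', ∀ i' ∈ s', ξ i ≡ ξ i' [MOD q]) →
    (s'.card : ℝ) ≤ m) →
  ∑ χ : DirichletCharacter ℂ q, ‖∑ i ∈ s, α i * χ (ξ i : ZMod q)‖ ^ 2 ≤
    (q.totient : ℝ) * m * ∑ i ∈ s, ‖α i‖ ^ 2

open Classical in
def ExpStmt : Prop := ∀ q n L : ℕ, 1 ≤ q → Nat.Coprime n q →
  ((cnt L q n : ℂ) - (cop L q : ℂ) / (q.totient : ℂ)) * (q.totient : ℂ) =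
    ∑ χ ∈ (univ : Finset (DirichletCharacter ℂ q)).erase 1,
      χ (-1) * χ (n : ZMod q) * conj (Sc q χ L)

def PrinStmt : Prop := ∀ q J g : ℕ, 1 ≤ q → 1 ≤ g →
  (q : ℝ) ≤ q.totient * q.divisors.card ∧
  |(cop (J / g) q : ℝ) / q.totient - (J : ℝ) / (g * q)| ≤ (q.divisors.card : ℝ) ^ 2 / q

def PrimStmt : Prop := ∀ (q L : ℕ) (χ : DirichletCharacter ℂ q), 1 ≤ q →
  ‖Sc q χ L‖ ≤ ∑ e ∈ (q / χ.conductor).divisors, ‖Sc χ.conductor χ.primitiveCharacter (L / e)‖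

open Classical in
def FibStmt : Prop := ∀ (q : ℕ) (F : (r : ℕ) → DirichletCharacter ℂ r → ℝ), 1 ≤ q →
  (∀ r ψ, 0 ≤ F r ψ) →
  ∑ χ ∈ (univ : Finset (DirichletCharacter ℂ q)).erase 1, F χ.conductor χ.primitiveCharacter ≤
    ∑ r ∈ q.divisors.erase 1, ∑ ψ ∈ prim r, F r ψ

/-- one block of the gcd decomposition, non-principal characters -/
def BlockStmt : Prop := ∀ (q g J e₀ : ℕ) (ι κ : Type) (s : Finset ι) (s' : Finset κ)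
  (ξ : ι → ℕ) (ζ : κ → ℕ) (α : ι → ℂ) (β : κ → ℂ) (mA mB nA Δ lam : ℝ),
  1 ≤ q → 1 ≤ g → 0 < lam → (q.divisors.card : ℝ) ≤ Δ → Nat.Coprime e₀ q →
  (∀ i ∈ s, Nat.Coprime (ξ i) q) → (∀ i ∈ s', Nat.Coprime (ζ i) q) → (s.card : ℝ) ≤ nA →
  (∀ t : Finset ι, t ⊆ s → (∀ i ∈ t, ∀ i' ∈ t, ξ i ≡ ξ i' [MOD q]) → (t.card : ℝ) ≤ mA) →
  (∀ t : Finset κ, t ⊆ s' → (∀ i ∈ t, ∀ i' ∈ t, ζ i ≡ ζ i' [MOD q]) → (t.card : ℝ) ≤ mB) →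
  ‖∑ i ∈ s, ∑ i' ∈ s',
      ((cnt (J / g) q (e₀ * ξ i * ζ i') : ℂ) - (cop (J / g) q : ℂ) / (q.totient : ℂ)) *
        (α i * β i')‖ ≤
    √(∑ i ∈ s, ‖α i‖ ^ 2) * √(∑ i ∈ s', ‖β i‖ ^ 2) *
      (Δ * lam * √(mA * mB / g) + √(Δ * nA * mB * BadQ J lam (g * q) / (q.totient * g)))

/-- reduction of the modulus -/
def RedStmt : Prop := ∀ J Q X Z : ℕ, 1 ≤ Q →
  cnt J Q (X * Z) = cnt (J / Nat.gcd (Nat.gcd X Q * Nat.gcd Z Q) Q)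
      (Q / Nat.gcd (Nat.gcd X Q * Nat.gcd Z Q) Q)
      (Nat.gcd X Q * Nat.gcd Z Q / Nat.gcd (Nat.gcd X Q * Nat.gcd Z Q) Q *
        (X / Nat.gcd X Q) * (Z / Nat.gcd Z Q)) ∧
    Nat.Coprime (Nat.gcd X Q * Nat.gcd Z Q / Nat.gcd (Nat.gcd X Q * Nat.gcd Z Q) Q)
      (Q / Nat.gcd (Nat.gcd X Q * Nat.gcd Z Q) Q) ∧
    Nat.Coprime (X / Nat.gcd X Q) (Q / Nat.gcd (Nat.gcd X Q * Nat.gcd Z Q) Q) ∧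
    Nat.Coprime (Z / Nat.gcd Z Q) (Q / Nat.gcd (Nat.gcd X Q * Nat.gcd Z Q) Q)

/-- sizes and multiplicities of the blocks -/
def CountStmt : Prop :=
  (∀ (N c Q d q : ℕ) (t : Finset ℕ), 1 ≤ N → 1 ≤ c → 1 ≤ Q → d * q ∣ Q → t ⊆ Icc N (2 * N) →
    (∀ x ∈ t, Nat.gcd (c * x) Q = d) →
      (t.card : ℝ) ≤ 3 * N * Nat.gcd c Q / d ∧
      ((∀ x ∈ t, ∀ x' ∈ t, c * x / d ≡ c * x' / d [MOD q]) →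
        (t.card : ℝ) ≤ 1 + N * Nat.gcd c Q / (d * q))) ∧
  (∀ (N C' d q : ℕ) (Δ : ℝ) (t : Finset (ℕ × ℕ)), 1 ≤ N → 1 ≤ C' → 1 ≤ d → 1 ≤ q →
    DivB (4 * N * C') Δ → t ⊆ Ico C' (2 * C') ×ˢ Icc N (2 * N) → (∀ a ∈ t, d ∣ a.1 * a.2) →
      (t.card : ℝ) ≤ Δ * (4 * N * C' / d) ∧
      ((∀ a ∈ t, ∀ a' ∈ t, a.1 * a.2 / d ≡ a'.1 * a'.2 / d [MOD q]) →
        (t.card : ℝ) ≤ Δ * (1 + 4 * N * C' / (d * q)))) ∧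
  (∀ C Q : ℕ, 1 ≤ Q → ∑ c ∈ Ico C (2 * C), (Nat.gcd c Q : ℝ) ≤ 3 * C * Q.divisors.card)

def CharStmt : Prop := ∃ c : ℝ, 0 < c ∧
  ∀ (N J C C' W : ℕ) (E lam : ℝ) (p : ℕ × ℕ) (α β : ℕ → ℂ),
    1 ≤ N → 1 ≤ C → 1 ≤ C' → 1 ≤ W → (W : ℝ) ≤ E → (C' : ℝ) ≤ E * C → p ∈ Win N C W →
    DivB (4 * N * C') E → DivB (2 * W * N * C) E → 0 < lam → (J : ℝ) ≤ lam ^ 2 →
      ‖Bil N J C' p α β‖ ≤ c * E ^ 7 * √(C' : ℝ) *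
        (√(∑ x ∈ Icc N (2 * N), ‖α x‖ ^ 2) * √(∑ x ∈ Icc N (2 * N), ‖β x‖ ^ 2)) *
        (lam + Nat.gcd p.1 p.2 * BadQ J lam p.2 / (C * lam))

/-! ### Statements: the step -/

/-- the unit of the error terms -/
noncomputable def Err (N J C C' : ℕ) (Y MM : ℝ) : ℝ := J * C * C' * (N : ℝ) ^ 2 * MM / Y

def SideAStmt : Prop := ∃ c : ℝ, 0 < c ∧
  ∀ (N T J C C' K W : ℕ) (E Y MM : ℝ) (g : ℤ → ℝ) (b b' : ℕ → ℂ),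
    Hp N T J C C' K E Y → Hg N T g E Y MM → 1 ≤ W → W ≤ 200 * K →
    (∀ n, ‖b n‖ ≤ 1) → (∀ n, ‖b' n‖ ≤ 1) →
      ∑ p ∈ Win N C W, ‖Bil N J C' p (aS T J g (E * (N : ℝ) ^ 2) b p)
        (aS T J g (E * (N : ℝ) ^ 2) b' p)‖ ≤ c * E ^ 16 * Err N J C C' Y MM

/-- `α` lives on the big non-peak values, `β` on the non-peak values -/
def SideBStmt : Prop := ∃ c : ℝ, 0 < c ∧
  ∀ (N T J C C' K W : ℕ) (E Y MM : ℝ) (g : ℤ → ℝ) (α β : ℕ × ℕ → ℕ → ℂ),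
    Hp N T J C C' K E Y → Hg N T g E Y MM → 1 ≤ W → W ≤ 200 * K →
    (∀ p x, ‖α p x‖ ≤ ‖aB T J g (E * (N : ℝ) ^ 2) (fun _ => 1) p x‖) →
    (∀ p x, ‖β p x‖ ≤ ‖aO T J g (fun _ => 1) p x‖) →
      ∑ p ∈ Win N C W, ‖Bil N J C' p (α p) (β p)‖ ≤ c * E ^ 16 * Err N J C C' Y MM ∧
      ∑ p ∈ Win N C W, ‖Bil N J C' p (β p) (α p)‖ ≤ c * E ^ 16 * Err N J C C' Y MM

def SideStmt : Prop := ∃ c : ℝ, 0 < c ∧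
  ∀ (N T J C C' K W : ℕ) (E Y MM : ℝ) (g : ℤ → ℝ) (b b' : ℕ → ℂ),
    Hp N T J C C' K E Y → Hg N T g E Y MM → 1 ≤ W → W ≤ 200 * K →
    (∀ n, ‖b n‖ ≤ 1) → (∀ n, ‖b' n‖ ≤ 1) →
      ∑ p ∈ Win N C W, ‖Bp N T J C' g b b' p -
          (((J : ℝ) * C' / p.2 : ℝ) : ℂ) * (uO N T J g b p * conj (uO N T J g b' p))‖ ≤
        c * E ^ 16 * Err N J C C' Y MM

def OmStmt : Prop := ∀ N P K : ℕ, 1 ≤ P →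
  (∀ n, 0 ≤ Om N P K n ∧ Om N P K n ≤ 1) ∧
  (∀ n, uu P ((N : ℝ) / K) ≤ n → n ≤ uu P ((K : ℝ) * N) → Om N P K n = 1) ∧
  (∀ n, Om N P K n ≠ 0 → uu P ((N : ℝ) / K) - 2 * P ≤ n ∧ n ≤ uu P ((K : ℝ) * N) + 2 * P - 2) ∧
  (∀ n n', |Om N P K n - Om N P K n'| ≤ 2 * |((n - n' : ℤ) : ℝ)| / P) ∧
  (∀ (Λ : Finset ℤ) (a a' n : ℤ), Icc (a - P) a ⊆ Λ → Icc (a' - P) a' ⊆ Λ →
    Om N P K (a + a' - n) = (∑ i ∈ Λ, ∑ i' ∈ Λ,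
      if (i ≤ a ∧ a < i + P) ∧ (i' ≤ a' ∧ a' < i' + P) ∧ n - i - i' ∈ BB N P K
        then (1 : ℝ) else 0) / (P : ℝ) ^ 2)

/-- geometry of one edge -/
def GeoStmt : Prop := ∀ (N T J C C' W : ℕ) (Y : ℝ) (e : ED), 1 ≤ N → 1 ≤ T → 1 ≤ C → 1 ≤ C' →
  1 ≤ W → 1 ≤ Y → (J : ℝ) * T * Y ≤ C * C' * (N : ℝ) ^ 2 → e ∈ Edg N J C C' W →
    e.r ∈ Win N C' (8 * W) ∧ gx e.p e.x ≤ J ∧ gx e.p e.z ≤ J ∧ gx e.r e.x ≤ J ∧ gx e.r e.z ≤ J ∧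
    e.p.2 * e.r.2 = e.p.1 * e.c * e.x * e.z + e.j ∧
    ∃ θ : ℝ, 0 ≤ θ ∧ T * Y * θ ≤ 1 ∧ θ * (C * C' * (N : ℝ) ^ 2) ≤ J ∧
      pt e.r e.z = -(pt e.p e.x + θ) ∧
      pt e.r e.x = -(pt e.p e.z + θ) ∧
      Real.log (yv e.p) + Real.log (yv e.r) = Real.log e.x + Real.log e.z + θ

/-- both sums as sums over one edge set -/
def BijStmt : Prop := ∀ (N T J C C' K P : ℕ) (Y : ℝ) (g : ℤ → ℝ) (b : ℕ → ℂ),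
  1 ≤ N → 1 ≤ T → 1 ≤ C → 1 ≤ C' → 1 ≤ K → 1 ≤ Y → 2 ≤ P →
  (J : ℝ) * T * Y ≤ C * C' * (N : ℝ) ^ 2 →
    SY N T J C C' K P g b = ∑ e ∈ Edg N J C C' (25 * K), (Om N P K (uu P (yv e.p)) : ℂ) *
      (av T g b e.p e.x * conj (av T g b e.p e.z)) ∧
    SS N T J C C' K P g b = ∑ e ∈ Edg N J C C' (25 * K),
      (Om N P K (uu P e.x + uu P e.z - uu P (yv e.r)) : ℂ) *
        (av T g b e.r e.x * conj (av T g b e.r e.z))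

def ReflStmt : Prop := ∃ c : ℝ, 0 < c ∧
  ∀ (N T J C C' K W : ℕ) (E Y MM : ℝ) (g : ℤ → ℝ) (b : ℕ → ℂ),
    Hp N T J C C' K E Y → Hg N T g E Y MM → 1 ≤ W → W ≤ 200 * K → (∀ n, ‖b n‖ ≤ 1) →
      ∑ e ∈ Edg N J C C' W, ‖av T g b e.p e.x * conj (av T g b e.p e.z) -
          av T g b e.r e.x * conj (av T g b e.r e.z)‖ ≤ c * E ^ 16 * Err N J C C' Y MM ∧
      ∑ e ∈ Edg N J C C' W, ‖av T g b e.p e.x * conj (av T g b e.p e.z)‖ ≤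
        c * E ^ 16 * (Y * Err N J C C' Y MM)

def EdgeStmt : Prop := ∃ c : ℝ, 0 < c ∧
  ∀ (N T J C C' K P : ℕ) (E Y MM : ℝ) (g : ℤ → ℝ) (b : ℕ → ℂ),
    Hp N T J C C' K E Y → Hg N T g E Y MM → 2 ≤ P → Y ≤ P → (P : ℝ) ≤ 3 * Y →
    (∀ n, ‖b n‖ ≤ 1) →
      ‖SY N T J C C' K P g b - SS N T J C C' K P g b‖ ≤ c * E ^ 16 * Err N J C C' Y MM

def SSStmt : Prop := ∃ c : ℝ, 0 < c ∧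
  ∀ (N T J C C' K P : ℕ) (E Y MM Z : ℝ) (g : ℤ → ℝ) (b : ℕ → ℂ),
    Hp N T J C C' K E Y → Hg N T g E Y MM → 2 ≤ P → (∀ n, ‖b n‖ ≤ 1) →
    Th N T g C' (200 * K) Z →
      ‖SS N T J C C' K P g b‖ ≤ c * (K * J * C * C' * Z) + c * E ^ 16 * Err N J C C' Y MM

def SYStmt : Prop := ∃ c : ℝ, 0 < c ∧
  ∀ (N T J C C' K P : ℕ) (E Y MM : ℝ) (g : ℤ → ℝ) (b : ℕ → ℂ),
    Hp N T J C C' K E Y → Hg N T g E Y MM → 2 ≤ P → (∀ n, ‖b n‖ ≤ 1) →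
      (J : ℝ) * C' * ∑ p ∈ Win N C K, ‖uP N T g b p‖ ^ 2 ≤
        4 * K * N * C * (‖SY N T J C C' K P g b‖ + c * E ^ 16 * Err N J C C' Y MM)

def StepStmt : Prop := ∃ c : ℝ, 0 < c ∧
  ∀ (N T J C C' K : ℕ) (E Y MM Z : ℝ) (g : ℤ → ℝ),
    Hp N T J C C' K E Y → Hg N T g E Y MM → Th N T g C' (200 * K) Z →
      Th N T g C K (c * (K : ℝ) ^ 2 * Z + c * E ^ 17 * ((N : ℝ) ^ 2 * MM / Y))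

/-! ### Statements: iteration and conclusion -/

def IterStmt : Prop := ∀ n : ℕ, ∃ A : ℝ, 0 < A ∧
  ∀ (N T ρ : ℕ) (J : ℕ → ℕ) (E Y MM Z : ℝ) (g : ℤ → ℝ), 0 ≤ Z → 1 ≤ E → 1 ≤ Y → 0 ≤ MM →
    (∀ i < n, Hp N T (J i) (ρ ^ i) (ρ ^ (i + 1)) (2 * 200 ^ i) E Y) → Hg N T g E Y MM →
    Th N T g (ρ ^ n) (2 * 200 ^ n) Z →
      Th N T g 1 2 (A * (Z + E ^ 17 * ((N : ℝ) ^ 2 * MM / Y)))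

def GrowStmt : Prop := ∀ (η B : ℝ) (κ : ℕ), 0 < η → 1 ≤ B → ∃ A : ℝ, 1 ≤ A ∧
  ∀ N X : ℕ, 1 ≤ N → 1 ≤ X → (X : ℝ) ≤ B * (N : ℝ) ^ B →
    ∃ Δ : ℝ, DivB (X ^ κ) Δ ∧ Δ ^ κ * (1 + Real.log X) ^ 2 ≤ A * (N : ℝ) ^ η

def HpStmt : Prop := ∀ η : ℝ, 0 < η → ∃ (n : ℕ) (A : ℝ), 1 ≤ A ∧
  ∀ (N T : ℕ) (E Y : ℝ), 2 ≤ N → N ≤ T → T ≤ N ^ 2 → (N : ℝ) ^ η ≤ Y →
    4 * (N : ℝ) ^ η * Y ^ 7 * T ≤ (N : ℝ) ^ 2 → A * (N : ℝ) ^ η ≤ E →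
    ∃ (ρ : ℕ) (J : ℕ → ℕ), 1 ≤ ρ ∧ T ≤ N * ρ ^ n ∧
      ∀ i < n, Hp N T (J i) (ρ ^ i) (ρ ^ (i + 1)) (2 * 200 ^ i) E Y

/-- the abstract estimate -/
def AbsStmt : Prop := ∀ η : ℝ, 0 < η → ∃ A : ℝ, 1 ≤ A ∧
  ∀ (N T : ℕ) (E Y U : ℝ) (g : ℤ → ℝ) (b : ℕ → ℂ), 2 ≤ N → N ≤ T → T ≤ N ^ 2 →
    (N : ℝ) ^ η ≤ Y → 4 * (N : ℝ) ^ η * Y ^ 7 * T ≤ (N : ℝ) ^ 2 → A * (N : ℝ) ^ η ≤ E →
    (∀ n, ‖b n‖ ≤ 1) → (∀ t ∈ IT T, 0 ≤ g t ∧ g t ≤ U ∧ g t ≤ ‖DP N b t‖ ^ 2) →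
    BigP T g (E * (N : ℝ) ^ 2) (E * (T : ℝ) ^ 2 * (N : ℝ) ^ 2) →
      ∑ t ∈ IT T, g t * ‖DP N b t‖ ^ 2 ≤ A * ((N : ℝ) ^ 2 * U + E ^ 17 * ((N : ℝ) ^ 4 / Y))

def MVStmt : Prop := ∀ ε : ℝ, 0 < ε → ∃ K : ℝ, 0 < K ∧ ∀ N T : ℕ, 1 ≤ N → N ≤ T → T ≤ N ^ 2 →
  ∀ b : ℕ → ℂ, (∀ n, ‖b n‖ ≤ 1) →
    ∑ t ∈ Icc 0 (T : ℤ), ‖DP N b t‖ ^ 2 ≤ K * (N : ℝ) ^ ε * (T * N) ∧
    ∑ t ∈ Icc 0 (T : ℤ), ‖DP N b t‖ ^ 4 ≤ K * (N : ℝ) ^ ε * (N : ℝ) ^ 4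

/-- mass above the Halasz threshold on the long window -/
def MassStmt : Prop := ∀ ε : ℝ, 0 < ε → ∃ K : ℝ, 0 < K ∧ ∀ N T : ℕ, 1 ≤ N → N ≤ T →
  T ≤ N ^ 2 → ∀ b : ℕ → ℂ, (∀ n, ‖b n‖ ≤ 1) →
    Mass N b (IT T) (√(N * √(T : ℝ))) ≤ K * (N : ℝ) ^ ε * (N : ℝ) ^ 2

/-- the truncated fourth moment -/
def CoreStmt : Prop := ∀ ε : ℝ, 0 < ε → ∃ K : ℝ, 0 < K ∧ ∀ N T : ℕ, 1 ≤ N → N ≤ T →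
  T ≤ N ^ 2 → ∀ b : ℕ → ℂ, (∀ n, ‖b n‖ ≤ 1) →
    ∑ t ∈ (Icc 0 (T : ℤ)).filter (fun t : ℤ => ‖DP N b t‖ < √(N * √(T : ℝ))), ‖DP N b t‖ ^ 4 ≤
      K * (N : ℝ) ^ ε * ((N : ℝ) ^ (26 / 7 : ℝ) * (T : ℝ) ^ (1 / 7 : ℝ))

def LVStmt : Prop := ∀ ε : ℝ, 0 < ε → ∃ K : ℝ, ∀ (N : ℕ) (T V : ℝ), 1 ≤ N → (N : ℝ) ≤ T →
  T ≤ (N : ℝ) ^ 2 → 0 < V → ∀ b : ℕ → ℂ, (∀ n, ‖b n‖ ≤ 1) → ∀ W : Finset ℝ,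
    (∀ t ∈ W, 0 ≤ t ∧ t ≤ T) → (∀ s ∈ W, ∀ t ∈ W, s ≠ t → 1 ≤ |s - t|) →
    (∀ t ∈ W, V ≤ ‖DP N b t‖) →
      (W.card : ℝ) ≤ K * (N : ℝ) ^ ε *
        ((N : ℝ) ^ 2 / V ^ 2 + (N : ℝ) ^ (26 / 7 : ℝ) * T ^ (1 / 7 : ℝ) / V ^ 4)

def LqStmt : Prop := ∀ q : ℝ, 2 ≤ q → q ≤ 4 → ∀ ε : ℝ, 0 < ε → ∃ K : ℝ, 0 < K ∧ ∀ N T : ℕ,
  1 ≤ N → (T : ℝ) ≤ (N : ℝ) ^ ((24 - 5 * q) / (26 - 6 * q)) → ∀ b : ℕ → ℂ, (∀ n, ‖b n‖ ≤ 1) →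
    ∑ t ∈ Icc 1 T, ‖DP N b (t : ℕ)‖ ^ q ≤ K * (N : ℝ) ^ ε * (N : ℝ) ^ q

def LqkStmt : Prop := ∀ k : ℕ, 1 ≤ k → ∀ q : ℝ, 2 * (k : ℝ) ≤ q → q ≤ 4 * k → ∀ ε : ℝ, 0 < ε →
  ∃ K : ℝ, ∀ N T : ℕ, 1 ≤ N → (T : ℝ) ≤ (N : ℝ) ^ (k * (24 * k - 5 * q) / (26 * k - 6 * q)) →
    ∀ b : ℕ → ℂ, (∀ n, ‖b n‖ ≤ 1) →
      ∑ t ∈ Icc 1 T, ‖DP N b (t : ℕ)‖ ^ q ≤ K * (N : ℝ) ^ ε * (N : ℝ) ^ q

end Pool.Agent.MP_2a1f0e_nt.RF
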