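import Pool.Agent.MP_2a1f0e_nt.RF.Basic

set_option autoImplicit false

open Finset
open scoped ComplexConjugate

namespace Pool.Agent.MP_2a1f0e_nt.RF

open GM

theorem orth_Exp {q : ℕ} [NeZero q] {a : ZMod q} (ha : IsUnit a) (b : ZMod q) :
    ∑ χ : DirichletCharacter ℂ q, χ a * conj (χ b) = if a = b then (q.totient : ℂ) else 0 := by
  by_cases hb : IsUnit b
  · obtain ⟨u, rfl⟩ := hb
    have : ∀ χ : DirichletCharacter ℂ q, χ a * conj (χ u) = χ (↑u⁻¹ * a) := fun χ => by
      rw [map_mul, map_units_inv, ← Complex.star_def, MulChar.star_apply',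
        MulChar.inv_apply_eq_inv', mul_comm]
    simp only [this, DirichletCharacter.sum_characters_eq, Units.inv_mul_eq_one, eq_comm]
  · have : a ≠ b := fun h => hb (h ▸ ha)
    simp [MulChar.map_nonunit _ hb, this]

open Classical in
theorem one_Exp (q L : ℕ) : Sc q 1 L = (cop L q : ℂ) := by
  rw [Sc, cop, card_filter]
  push_cast
  refine sum_congr rfl fun j _ => ?_
  by_cases h : Nat.Coprime j q
  · rw [if_pos h, MulChar.one_apply ((ZMod.isUnit_iff_coprime j q).2 h)]
  · rw [if_neg h, MulChar.map_nonunit _ fun h' => h ((ZMod.isUnit_iff_coprime j q).1 h')]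

theorem exp_stmt : ExpStmt := by
  classical
  intro q n L hq hn
  have : NeZero q := ⟨by omega⟩
  have hu : IsUnit (n : ZMod q) := (ZMod.isUnit_iff_coprime n q).2 hn
  have hφ : (q.totient : ℂ) ≠ 0 := Nat.cast_ne_zero.2 (Nat.totient_pos.2 hq).ne'
  have full : ∑ χ : DirichletCharacter ℂ q, χ (-1) * χ (n : ZMod q) * conj (Sc q χ L) =
      (cnt L q n : ℂ) * q.totient := by
    simp only [Sc, map_sum, mul_sum, ← map_mul, neg_one_mul]
    rw [sum_comm, cnt, card_filter]
    push_cast
    rw [sum_mul]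
    refine sum_congr rfl fun j _ => ?_
    rw [orth_Exp hu.neg, ite_mul, one_mul, zero_mul]
    refine if_congr ?_ rfl rfl
    rw [← ZMod.natCast_eq_zero_iff, Nat.cast_add, neg_eq_iff_add_eq_zero]
  rw [← add_sum_erase _ _ (mem_univ (1 : DirichletCharacter ℂ q)), one_Exp,
    MulChar.one_apply hu, MulChar.one_apply isUnit_one.neg, map_natCast] at full
  rw [sub_mul, div_mul_cancel₀ _ hφ, ← full, one_mul, one_mul, add_sub_cancel_left]
  convert rfl

end Pool.Agent.MP_2a1f0e_nt.RF
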