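import Pool.Agent.MP_2a1f0e_nt.RF.Basic
set_option autoImplicit false
open Finset
open scoped ComplexConjugate
namespace Pool.Agent.MP_2a1f0e_nt.RF
open GM

lemma low_Lq {x l q : ℝ} (hx : 0 ≤ x) (h : x ≤ l) (h2 : 2 ≤ q) : x ^ q ≤ l ^ (q - 2) * x ^ 2 := by
  have e : x ^ q = x ^ (q - 2) * x ^ 2 := by
    rw [← Real.rpow_natCast x 2, ← Real.rpow_add_of_nonneg hx (by linarith) (by positivity)]
    norm_num
  rw [e]
  exact mul_le_mul_of_nonneg_right (Real.rpow_le_rpow hx h (by linarith)) (sq_nonneg _)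

lemma split_Lq {x l q : ℝ} (hx : 0 ≤ x) (hl : 0 < l) (h2 : 2 ≤ q) (h4 : q ≤ 4) :
    x ^ q ≤ l ^ (q - 2) * x ^ 2 + l ^ (q - 4) * x ^ 4 := by
  rcases le_total x l with h | h
  · exact (low_Lq hx h h2).trans (le_add_of_nonneg_right (by positivity))
  · have e : x ^ q = x ^ (q - 4) * x ^ 4 := by
      rw [← Real.rpow_natCast x 4, ← Real.rpow_add (hl.trans_le h)]
      norm_num
    rw [e]
    exact (mul_le_mul_of_nonneg_right (Real.rpow_le_rpow_of_nonpos hl h (by linarith))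
      (by positivity)).trans (le_add_of_nonneg_left (by positivity))

theorem lq_stmt (hC : CoreStmt) (hM : MassStmt) (hV : MVStmt) : LqStmt := by
  intro q h2 h4 ε hε
  obtain ⟨K₁, hK₁, hC⟩ := hC ε hε
  obtain ⟨K₂, hK₂, hM⟩ := hM ε hε
  obtain ⟨K₃, hK₃, hV⟩ := hV ε hε
  refine ⟨4 * K₂ + K₃ + K₁, by positivity, fun N T hN hT b hb => ?_⟩
  have d0 : 0 < 26 - 6 * q := by linarith
  set τ := (24 - 5 * q) / (26 - 6 * q) with hτ
  set s := (25 - 6 * q) / (26 - 6 * q) with hs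
  have τ1 : 1 ≤ τ := (one_le_div d0).2 (by linarith)
  have τ2 : τ ≤ 2 := (div_le_iff₀ d0).2 (by linarith)
  have e1 : s * (q - 2) + (τ + 1) = q := by rw [hs, hτ]; field_simp; ring
  have e2 : s * (q - 4) + (26 / 7 + τ * (1 / 7)) = q := by rw [hs, hτ]; field_simp; ring
  have n1 : (1 : ℝ) ≤ N := by exact_mod_cast hN
  have n0 : (0 : ℝ) < N := by linarith
  set T' := max T N with hT'
  have t1 : N ≤ T' := le_max_right _ _
  have t2 : (T' : ℝ) ≤ (N : ℝ) ^ τ := by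
    rw [hT']
    push_cast
    exact max_le hT (by simpa using Real.rpow_le_rpow_of_exponent_le n1 τ1)
  have t3 : T' ≤ N ^ 2 := by
    have := t2.trans (Real.rpow_le_rpow_of_exponent_le n1 τ2)
    rw [Real.rpow_two] at this
    exact_mod_cast this
  have s1 : ∑ t ∈ Icc 1 T, ‖DP N b (t : ℕ)‖ ^ q ≤ ∑ t ∈ Icc 0 (T' : ℤ), ‖DP N b t‖ ^ q := by
    have e : ∑ t ∈ (Icc 1 T).image (fun t : ℕ => (t : ℤ)), ‖DP N b t‖ ^ q =
        ∑ t ∈ Icc 1 T, ‖DP N b (t : ℕ)‖ ^ q := by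
      rw [sum_image fun _ _ _ _ h => Nat.cast_injective h]
      simp
    rw [← e]
    refine sum_le_sum_of_subset_of_nonneg (fun t ht => ?_) fun _ _ _ => by positivity
    obtain ⟨u, hu, rfl⟩ := mem_image.1 ht
    rw [mem_Icc] at hu ⊢
    have : T ≤ T' := le_max_left _ _
    omega
  refine s1.trans ?_
  have hsub : Icc 0 (T' : ℤ) ⊆ IT T' := fun t ht => by
    rw [mem_Icc] at ht
    rw [mem_IT]
    omega
  have m1 := (Mass_mono N b hsub _).trans (hM N T' hN t1 t3 b hb)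
  have m2 := (hV N T' hN t1 t3 b hb).1
  have m3 := hC N T' hN t1 t3 b hb
  have Nε : 0 ≤ (N : ℝ) ^ ε := by positivity
  rw [← sum_filter_add_sum_filter_not _ fun t : ℤ => √(N * √(T' : ℝ)) ≤ ‖DP N b t‖]
  have b1 : ∑ t ∈ (Icc 0 (T' : ℤ)).filter (fun t : ℤ => √(N * √(T' : ℝ)) ≤ ‖DP N b t‖),
      ‖DP N b t‖ ^ q ≤ 4 * K₂ * (N : ℝ) ^ ε * (N : ℝ) ^ q := by
    have a1 : (2 * N : ℝ) ^ (q - 2) ≤ 4 * (N : ℝ) ^ (q - 2) := by
      rw [Real.mul_rpow (by norm_num) n0.le]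
      refine mul_le_mul_of_nonneg_right ?_ (by positivity)
      refine (Real.rpow_le_rpow_of_exponent_le one_le_two (show q - 2 ≤ 2 by linarith)).trans ?_
      norm_num
    have a2 : (N : ℝ) ^ (q - 2) * (N : ℝ) ^ 2 = (N : ℝ) ^ q := by
      rw [← Real.rpow_natCast _ 2, ← Real.rpow_add n0]
      norm_num
    calc _ ≤ ∑ t ∈ (Icc 0 (T' : ℤ)).filter (fun t : ℤ => √(N * √(T' : ℝ)) ≤ ‖DP N b t‖),
          4 * (N : ℝ) ^ (q - 2) * ‖DP N b t‖ ^ 2 := sum_le_sum fun t _ =>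
          (low_Lq (norm_nonneg _) ((norm_DP_le N b hb t).trans (by linarith)) h2).trans
            (mul_le_mul_of_nonneg_right a1 (sq_nonneg _))
      _ = 4 * (N : ℝ) ^ (q - 2) * Mass N b (Icc 0 (T' : ℤ)) √(N * √(T' : ℝ)) := by
          rw [Mass, mul_sum]
      _ ≤ 4 * (N : ℝ) ^ (q - 2) * (K₂ * (N : ℝ) ^ ε * (N : ℝ) ^ 2) := by gcongr
      _ = _ := by rw [← a2]; ring
  have b2 : ∑ t ∈ (Icc 0 (T' : ℤ)).filter (fun t : ℤ => ¬√(N * √(T' : ℝ)) ≤ ‖DP N b t‖),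
      ‖DP N b t‖ ^ q ≤ (K₃ + K₁) * (N : ℝ) ^ ε * (N : ℝ) ^ q := by
    have l0 : 0 < (N : ℝ) ^ s := by positivity
    have a1 : ((N : ℝ) ^ s) ^ (q - 2) * ((N : ℝ) ^ τ * N) = (N : ℝ) ^ q := by
      rw [← Real.rpow_mul n0.le, ← Real.rpow_add_one n0.ne', ← Real.rpow_add n0, e1]
    have a2 : ((N : ℝ) ^ s) ^ (q - 4) * ((N : ℝ) ^ (26 / 7 : ℝ) * ((N : ℝ) ^ τ) ^ (1 / 7 : ℝ)) =
        (N : ℝ) ^ q := by
      rw [← Real.rpow_mul n0.le, ← Real.rpow_mul n0.le, ← Real.rpow_add n0, ← Real.rpow_add n0, e2]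
    simp only [not_le]
    refine (sum_le_sum fun t _ => split_Lq (norm_nonneg _) l0 h2 h4).trans ?_
    rw [sum_add_distrib, ← mul_sum, ← mul_sum]
    have a3 := (sum_le_sum_of_subset_of_nonneg (filter_subset
      (fun t : ℤ => ‖DP N b t‖ < √(N * √(T' : ℝ))) _) fun _ _ _ => sq_nonneg _).trans m2
    calc _ ≤ ((N : ℝ) ^ s) ^ (q - 2) * (K₃ * (N : ℝ) ^ ε * ((N : ℝ) ^ τ * N)) +
          ((N : ℝ) ^ s) ^ (q - 4) * (K₁ * (N : ℝ) ^ ε *
            ((N : ℝ) ^ (26 / 7 : ℝ) * ((N : ℝ) ^ τ) ^ (1 / 7 : ℝ))) := by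
          refine add_le_add (mul_le_mul_of_nonneg_left (a3.trans ?_) (by positivity))
            (mul_le_mul_of_nonneg_left (m3.trans ?_) (by positivity)) <;> gcongr
      _ = K₃ * (N : ℝ) ^ ε * (((N : ℝ) ^ s) ^ (q - 2) * ((N : ℝ) ^ τ * N)) +
          K₁ * (N : ℝ) ^ ε * (((N : ℝ) ^ s) ^ (q - 4) *
            ((N : ℝ) ^ (26 / 7 : ℝ) * ((N : ℝ) ^ τ) ^ (1 / 7 : ℝ))) := by ring
      _ = _ := by rw [a1, a2]; ring
  linarith

end Pool.Agent.MP_2a1f0e_nt.RF
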