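import Pool.Agent.MP_2a1f0e_nt.RF.Basic

set_option autoImplicit false

open Finset
open scoped ComplexConjugate

namespace Pool.Agent.MP_2a1f0e_nt.RF

open GM

lemma shift_Mass (N T : ℕ) (b : ℕ → ℂ) (V : ℝ) :
    Mass N b (IT T) V ≤
      Mass N (fun n => b n * pw (n : ℝ) (-(2 * T : ℝ))) (Icc 0 ((4 * T : ℕ) : ℤ)) V := by
  unfold Mass
  rw [sum_filter, sum_filter]
  have e : ∀ t : ℤ, DP N b t =
      DP N (fun n => b n * pw (n : ℝ) (-(2 * T : ℝ))) ((t + 2 * T : ℤ) : ℝ) := by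
    intro t
    rw [← DP_add]
    congr 1
    push_cast
    ring
  simp_rw [e]
  rw [← sum_image (s := IT T) (g := fun t : ℤ => t + 2 * T)
    (f := fun t : ℤ => if V ≤ ‖DP N (fun n => b n * pw (n : ℝ) (-(2 * T : ℝ))) (t : ℝ)‖ then
      ‖DP N (fun n => b n * pw (n : ℝ) (-(2 * T : ℝ))) (t : ℝ)‖ ^ 2 else 0)
    (fun x _ y _ h => by simpa using h)]
  refine sum_le_sum_of_subset_of_nonneg (fun t ht => ?_) fun t _ _ => ?_
  · obtain ⟨u, hu, rfl⟩ := mem_image.1 ht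
    rw [mem_IT] at hu
    rw [mem_Icc]
    push_cast
    omega
  · split_ifs <;> positivity

theorem mass_stmt (h2 : B2Stmt) (hB : BlkStmt) : MassStmt := by
  intro ε hε
  obtain ⟨K, hK, h⟩ := h2 ε hε
  refine ⟨10 * K, by positivity, fun N T hN hNT hT b hb => ?_⟩
  have hN0 : (0 : ℝ) < N := by exact_mod_cast hN
  have hT1 : 1 ≤ T := hN.trans hNT
  have hT0 : (0 : ℝ) < T := by exact_mod_cast hT1
  have hs : 0 < (N : ℝ) * √(T : ℝ) := mul_pos hN0 (Real.sqrt_pos.2 hT0)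
  have hV : 0 < √(N * √(T : ℝ)) := Real.sqrt_pos.2 hs
  have hV4 : √(N * √(T : ℝ)) ^ 4 = (N : ℝ) ^ 2 * T := by
    rw [show (4 : ℕ) = 2 * 2 from rfl, pow_mul, Real.sq_sqrt hs.le, mul_pow, Real.sq_sqrt hT0.le]
  have key : ∀ b' : ℕ → ℂ, (∀ n, ‖b' n‖ ≤ 1) →
      Mass N b' (Icc 0 (T : ℤ)) (√(N * √(T : ℝ))) ≤ 2 * K * (N : ℝ) ^ ε * (N : ℝ) ^ 2 := by
    intro b' hb'
    refine (h N T hN hNT hT b' hb' _ hV).trans (le_of_eq ?_)
    rw [hV4]
    field_simp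
    ring
  refine (shift_Mass N T b _).trans ((hB N (4 * T) T _ _ hN hT1 key _ fun n => ?_).trans
    (le_of_eq ?_))
  · rw [norm_mul, norm_pw, mul_one]
    exact hb n
  · push_cast
    field_simp
    ring

end Pool.Agent.MP_2a1f0e_nt.RF
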