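import Pool.Agent.MP_2a1f0e_nt.RF.Basic

set_option autoImplicit false

open Finset
open scoped ComplexConjugate

namespace Pool.Agent.MP_2a1f0e_nt.RF

open GM

lemma dec_Prs {N : ℕ} (hN : 1 ≤ N) {p : ℕ × ℕ} (hp : p ∈ Icc N (2 * N) ×ˢ Icc N (2 * N)) :
    ∃ d q a : ℕ, Nat.gcd p.1 p.2 = d ∧ p.1 / d = q ∧ p.2 / d = a ∧ p = (d * q, d * a) ∧
      0 < d ∧ 0 < q ∧ 0 < a ∧ Nat.Coprime q a ∧ d * q ≤ 2 * N ∧ d * a ≤ 2 * N ∧ a ≤ 2 * q ∧
      q ≤ 2 * a ∧ Real.log p.1 - Real.log p.2 = Real.log q - Real.log a := by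
  obtain ⟨x, z⟩ := p
  simp only [mem_product, mem_Icc] at hp
  have hd : 0 < Nat.gcd x z := Nat.gcd_pos_of_pos_left _ (by omega)
  have h1 := Nat.mul_div_cancel' (Nat.gcd_dvd_left x z)
  have h2 := Nat.mul_div_cancel' (Nat.gcd_dvd_right x z)
  have h3 := Nat.coprime_div_gcd_div_gcd hd
  refine ⟨_, _, _, rfl, rfl, rfl, Prod.ext h1.symm h2.symm, ?_⟩
  dsimp only
  generalize Nat.gcd x z = d at *
  generalize x / d = q at *
  generalize z / d = a at *
  subst h1 h2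
  have hq : 0 < q := Nat.pos_of_mul_pos_left (a := d) (by omega)
  have ha : 0 < a := Nat.pos_of_mul_pos_left (a := d) (by omega)
  refine ⟨hd, hq, ha, h3, by omega, by omega, Nat.le_of_mul_le_mul_left ?_ hd,
    Nat.le_of_mul_le_mul_left ?_ hd, ?_⟩
  · rw [mul_left_comm]
    omega
  · rw [mul_left_comm]
    omega
  · push_cast
    rw [Real.log_mul (by positivity) (by positivity), Real.log_mul (by positivity) (by positivity)]
    ring

lemma low_Prs {N T : ℕ} (hN : 1 ≤ N) (u : ℝ) :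
    ∑ p ∈ (Icc N (2 * N) ×ˢ Icc N (2 * N)).filter
      (fun p : ℕ × ℕ => p.1 / Nat.gcd p.1 p.2 ≤ 2 * T / N),
      kp (T * (u + Real.log p.1 - Real.log p.2)) ≤ 2 * maj N T u := by
  rw [← sum_fiberwise_of_maps_to (t := FR N T)
    (g := fun p : ℕ × ℕ => (p.2 / Nat.gcd p.1 p.2, p.1 / Nat.gcd p.1 p.2)), maj, mul_sum]
  · refine sum_le_sum fun r _ => ?_
    refine (sum_le_card_nsmul _ _ (kp (T * (u + Real.log r.2 - Real.log r.1))) ?_).trans ?_
    · intro p hp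
      simp only [mem_filter] at hp
      obtain ⟨d, q, a, e1, e2, e3, -, -, -, -, -, -, -, -, -, e⟩ := dec_Prs hN hp.1.1
      rw [← hp.2, e1, e2, e3, add_sub_assoc, e, add_sub_assoc]
    · rw [nsmul_eq_mul, ← mul_assoc]
      refine mul_le_mul_of_nonneg_right ?_ (kp_pos _).le
      refine le_trans (Nat.cast_le.2 (card_le_card_of_injOn (t := Icc 1 (2 * N / r.2))
        (fun p : ℕ × ℕ => Nat.gcd p.1 p.2) (fun p hp => ?_) fun p hp p' hp' e => ?_)) ?_
      · simp only [coe_filter, mem_filter, Set.mem_ofPred_eq] at hp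
        obtain ⟨d, q, a, e1, e2, -, -, h1, h2, -, -, h3, -⟩ := dec_Prs hN hp.1.1
        rw [← hp.2, mem_coe, mem_Icc]
        dsimp only
        rw [e1, e2]
        exact ⟨h1, (Nat.le_div_iff_mul_le h2).2 h3⟩
      · simp only [coe_filter, mem_filter, Set.mem_ofPred_eq] at hp hp'
        obtain ⟨d, q, a, e1, e2, e3, e4, -⟩ := dec_Prs hN hp.1.1
        obtain ⟨d', q', a', f1, f2, f3, f4, -⟩ := dec_Prs hN hp'.1.1
        have h := hp.2.trans hp'.2.symm
        dsimp only at e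
        rw [e1, e2, e3, f1, f2, f3, Prod.mk.injEq] at h
        rw [e1, f1] at e
        rw [e4, f4, e, h.1, h.2]
      · rw [Nat.card_Icc, Nat.add_sub_cancel]
        refine Nat.cast_div_le.trans (le_of_eq ?_)
        push_cast
        ring
  · intro p hp
    rw [mem_filter] at hp
    obtain ⟨d, q, a, e1, e2, e3, -, -, h2, h3, h4, -, -, h5, h6, -⟩ := dec_Prs hN hp.1
    have h7 := hp.2
    rw [e1, e2] at h7
    have h8 : 2 * (2 * T / N) ≤ 4 * T / N := by
      refine (Nat.le_div_iff_mul_le hN).2 ?_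
      have := Nat.div_mul_le_self (2 * T) N
      rw [mul_assoc]
      omega
    rw [e1, e2, e3, FR, mem_filter, mem_product, mem_Icc, mem_Icc]
    exact ⟨⟨⟨h3, by dsimp only; omega⟩, h2, h7⟩, h4.symm, h5, h6⟩

lemma fib_Prs {N T d : ℕ} (hN : 1 ≤ N) (hT : 1 ≤ T) (hd : 0 < d) (u : ℝ) (s : Finset (ℕ × ℕ))
    (hs : ∀ p ∈ s, p ∈ Icc N (2 * N) ×ˢ Icc N (2 * N) ∧ Nat.gcd p.1 p.2 = d) :
    ∑ p ∈ s, kp (T * (u + Real.log p.1 - Real.log p.2)) ≤
      2 + 16 * ((N : ℝ) ^ 2 / T) * ((d : ℝ) ^ 2)⁻¹ := by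
  have n0 : (0 : ℝ) < N := by exact_mod_cast hN
  have t0 : (0 : ℝ) < T := by exact_mod_cast hT
  have d0 : (0 : ℝ) < d := by exact_mod_cast hd
  have k0 : (0 : ℝ) < (2 * N / d) ^ 2 := by positivity
  have key := sum_kp_sep s (fun p => (2 * (N : ℝ) / d) ^ 2 * (Real.log p.1 - Real.log p.2))
    (fun p hp p' hp' hne => by
      obtain ⟨c, q, a, e1, -, -, e4, -, h2, h3, h4, h5, h6, -, -, e⟩ := dec_Prs hN (hs p hp).1
      obtain ⟨c', q', a', f1, -, -, f4, -, g2, g3, g4, g5, g6, -, -, f⟩ := dec_Prs hN (hs p' hp').1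
      obtain rfl : c = d := e1.symm.trans (hs p hp).2
      obtain rfl : c' = c := f1.symm.trans (hs p' hp').2
      have hb : ∀ {x : ℕ}, c' * x ≤ 2 * N → (x : ℝ) ≤ 2 * N / c' := fun h => by
        rw [le_div_iff₀ d0, mul_comm]
        exact_mod_cast h
      have n1 : q * a' ≠ q' * a := fun h => by
        have i1 : q = q' := Nat.dvd_antisymm (h4.dvd_of_dvd_mul_right ⟨_, h.symm⟩)
          (g4.dvd_of_dvd_mul_right ⟨_, h⟩)
        subst i1
        exact hne (by rw [e4, f4, Nat.eq_of_mul_eq_mul_left h2 h])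
      have n2 : (1 : ℝ) ≤ |(q : ℝ) * a' - q' * a| := by
        have : (1 : ℤ) ≤ |(q : ℤ) * a' - q' * a| :=
          Int.one_le_abs (sub_ne_zero.2 (by exact_mod_cast n1))
        exact_mod_cast this
      have n3 := abs_sub_div_le_log (a := (q : ℝ) * a') (b := (q' : ℝ) * a)
        (X := (2 * (N : ℝ) / c') ^ 2) (by positivity) (by positivity)
        (by rw [sq]; exact mul_le_mul (hb h5) (hb g6) (by positivity) (by positivity))
        (by rw [sq]; exact mul_le_mul (hb g5) (hb h6) (by positivity) (by positivity))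
      rw [Real.log_mul (by positivity) (by positivity),
        Real.log_mul (by positivity) (by positivity), div_le_iff₀' k0] at n3
      rw [e, f, ← mul_sub, abs_mul, abs_of_pos k0]
      refine n2.trans (n3.trans (le_of_eq ?_))
      congr 2
      ring)
    (-((2 * (N : ℝ) / d) ^ 2 * u)) (L := (2 * (N : ℝ) / d) ^ 2 / T) (by positivity)
  refine le_trans (le_of_eq (sum_congr rfl fun p _ => ?_)) (key.trans (le_of_eq ?_))
  · congr 1
    field_simp
    ring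
  · field_simp
    ring

lemma high_Prs {N T : ℕ} (hN : 1 ≤ N) (hT : 1 ≤ T) (u : ℝ) :
    ∑ p ∈ (Icc N (2 * N) ×ˢ Icc N (2 * N)).filter
      (fun p : ℕ × ℕ => ¬p.1 / Nat.gcd p.1 p.2 ≤ 2 * T / N),
      kp (T * (u + Real.log p.1 - Real.log p.2)) ≤ 34 * ((N : ℝ) ^ 2 / T) := by
  rw [← sum_fiberwise_of_maps_to (t := Ioo 0 (N ^ 2 / T + 1))
    (g := fun p : ℕ × ℕ => Nat.gcd p.1 p.2)]
  · refine (sum_le_sum fun d hd => fib_Prs hN hT (mem_Ioo.1 hd).1 u _ fun p hp =>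
      ⟨(mem_filter.1 (mem_filter.1 hp).1).1, (mem_filter.1 hp).2⟩).trans ?_
    have h1 := sum_Ioo_inv_sq_le (α := ℝ) 0 (N ^ 2 / T + 1)
    have h2 : ((N ^ 2 / T : ℕ) : ℝ) ≤ (N : ℝ) ^ 2 / T := by
      exact_mod_cast Nat.cast_div_le (α := ℝ) (m := N ^ 2) (n := T)
    have h3 : 0 ≤ (N : ℝ) ^ 2 / T := by positivity
    rw [Nat.cast_zero, zero_add, div_one] at h1
    rw [sum_add_distrib, ← mul_sum, sum_const, Nat.card_Ioo, nsmul_eq_mul, Nat.sub_zero,
      Nat.add_sub_cancel]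
    nlinarith
  · intro p hp
    rw [mem_filter] at hp
    obtain ⟨d, q, a, e1, e2, -, -, h1, -, -, -, h3, -⟩ := dec_Prs hN hp.1
    have h4 := hp.2
    rw [e1, e2, not_le, Nat.div_lt_iff_lt_mul hN] at h4
    rw [e1, mem_Ioo, Nat.lt_succ_iff, Nat.le_div_iff_mul_le hT]
    refine ⟨h1, ?_⟩
    nlinarith [Nat.mul_le_mul_left d h4.le, Nat.mul_le_mul_right N h3]

theorem prs_stmt : PrsStmt := by
  refine ⟨34, by norm_num, fun N T u hN hNT _ => ?_⟩
  have h0 : 0 ≤ maj N T u :=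
    sum_nonneg fun r _ => mul_nonneg (by positivity) (kp_pos _).le
  rw [← sum_product' (f := fun x x' : ℕ => kp (T * (u + Real.log x - Real.log x'))),
    ← sum_filter_add_sum_filter_not _ (fun p : ℕ × ℕ => p.1 / Nat.gcd p.1 p.2 ≤ 2 * T / N)]
  linarith [low_Prs (T := T) hN u, high_Prs hN (hN.trans hNT) u]

end Pool.Agent.MP_2a1f0e_nt.RF
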