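import Pool.Agent.MP_2a1f0e_nt.RF.Basic

set_option autoImplicit false

open Finset
open scoped ComplexConjugate

namespace Pool.Agent.MP_2a1f0e_nt.RF

open GM

theorem cnt_mul_Red (J g q n : ℕ) (hg : 0 < g) : cnt J (g * q) (g * n) = cnt (J / g) q n := by
  unfold cnt
  symm
  refine card_bij (fun j _ => g * j) ?_ ?_ ?_
  · intro j hj
    simp only [mem_filter, mem_Icc] at hj ⊢
    refine ⟨⟨Nat.mul_pos hg hj.1.1, ?_⟩, ?_⟩
    · rw [mul_comm]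
      exact (Nat.le_div_iff_mul_le hg).1 hj.1.2
    · rw [← mul_add]
      exact Nat.mul_dvd_mul_left g hj.2
  · intro a _ b _ h
    exact Nat.eq_of_mul_eq_mul_left hg h
  · intro j hj
    simp only [mem_filter, mem_Icc] at hj
    have h1 : g ∣ g * n + j := (Dvd.intro q rfl).trans hj.2
    obtain ⟨k, rfl⟩ : g ∣ j := (Nat.dvd_add_right (Dvd.intro n rfl)).1 h1
    refine ⟨k, ?_, rfl⟩
    simp only [mem_filter, mem_Icc]
    refine ⟨⟨?_, ?_⟩, ?_⟩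
    · rcases Nat.eq_zero_or_pos k with rfl | hk
      · simp at hj
      · exact hk
    · rw [Nat.le_div_iff_mul_le hg, mul_comm]
      exact hj.1.2
    · have h2 := hj.2
      rw [← mul_add] at h2
      exact Nat.dvd_of_mul_dvd_mul_left hg h2

theorem cop_Red {X Q g : ℕ} (hQ : 1 ≤ Q) (h1 : Nat.gcd X Q ∣ g) (h2 : g ∣ Q) :
    Nat.Coprime (X / Nat.gcd X Q) (Q / g) :=
  (Nat.coprime_div_gcd_div_gcd (Nat.gcd_pos_of_pos_right X hQ)).coprime_dvd_right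
    (Nat.div_dvd_div_left h2 h1)

theorem red_stmt : RedStmt := by
  intro J Q X Z hQ
  have hg : 0 < Nat.gcd (Nat.gcd X Q * Nat.gcd Z Q) Q := Nat.gcd_pos_of_pos_right _ hQ
  have hgQ : Nat.gcd (Nat.gcd X Q * Nat.gcd Z Q) Q ∣ Q := Nat.gcd_dvd_right _ _
  have hgd : Nat.gcd (Nat.gcd X Q * Nat.gcd Z Q) Q ∣ Nat.gcd X Q * Nat.gcd Z Q :=
    Nat.gcd_dvd_left _ _
  refine ⟨?_, Nat.coprime_div_gcd_div_gcd hg,
    cop_Red hQ (Nat.dvd_gcd (Dvd.intro _ rfl) (Nat.gcd_dvd_right _ _)) hgQ,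
    cop_Red hQ (Nat.dvd_gcd (Dvd.intro_left _ rfl) (Nat.gcd_dvd_right _ _)) hgQ⟩
  rw [← cnt_mul_Red J _ _ _ hg, Nat.mul_div_cancel' hgQ]
  congr 1
  rw [← mul_assoc, ← mul_assoc, Nat.mul_div_cancel' hgd]
  have hX : Nat.gcd X Q * (X / Nat.gcd X Q) = X := Nat.mul_div_cancel' (Nat.gcd_dvd_left _ _)
  have hZ : Nat.gcd Z Q * (Z / Nat.gcd Z Q) = Z := Nat.mul_div_cancel' (Nat.gcd_dvd_left _ _)
  calc X * Z = (Nat.gcd X Q * (X / Nat.gcd X Q)) * (Nat.gcd Z Q * (Z / Nat.gcd Z Q)) := by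
        rw [hX, hZ]
    _ = _ := by ring

end Pool.Agent.MP_2a1f0e_nt.RF
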